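import Pool.Agent.H57N.Stm

/-!
# GN57, piece ARC (helper70)
-/

set_option autoImplicit false

namespace Pool.Agent.H57N

open Real MeasureTheory
open scoped RealInnerProductSpace

namespace ARCP

/-- The interval. -/
def iv (I : ℝ × ℝ) : Set ℝ := Set.Icc I.1 (I.1 + I.2)

lemma vol (L : List (ℝ × ℝ)) (hpos : ∀ I ∈ L, 0 < I.2)
    (hpw : L.Pairwise (fun I J => Disjoint (iv I) (iv J))) :
    0 ≤ (L.map Prod.snd).sum ∧
      ENNReal.ofReal ((L.map Prod.snd).sum) ≤ volume (⋃ J ∈ L, iv J) := by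
  induction L with
  | nil => simp
  | cons I L ih =>
    rw [List.pairwise_cons] at hpw
    obtain ⟨h1, h2⟩ := ih (fun J hJ => hpos J (List.mem_cons_of_mem _ hJ)) hpw.2
    have hI := hpos I List.mem_cons_self
    rw [List.map_cons, List.sum_cons]
    refine ⟨by linarith, ?_⟩
    have h3 : (⋃ J ∈ I :: L, iv J) = iv I ∪ ⋃ J ∈ L, iv J := by
      ext x
      simp only [Set.mem_iUnion, List.mem_cons, Set.mem_union, exists_prop]
      constructor
      · rintro ⟨J, rfl | hJ, hx⟩
        · exact Or.inl hx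
        · exact Or.inr ⟨J, hJ, hx⟩
      · rintro (hx | ⟨J, hJ, hx⟩)
        · exact ⟨I, Or.inl rfl, hx⟩
        · exact ⟨J, Or.inr hJ, hx⟩
    have h4 : Disjoint (⋃ J ∈ L, iv J) (iv I) := by
      rw [Set.disjoint_iUnion₂_left]
      intro J hJ
      exact (hpw.1 J hJ).symm
    rw [h3, measure_union h4.symm ?_]
    · unfold iv at *
      rw [Real.volume_Icc]
      have : I.1 + I.2 - I.1 = I.2 := by ring
      rw [this, ENNReal.ofReal_add hI.le h1]
      gcongr
    · refine MeasurableSet.biUnion ?_ fun J _ => measurableSet_Icc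
      exact (List.finite_toSet L).countable

lemma bound (L : List (ℝ × ℝ)) (lo hi : ℝ) (h : ∀ J ∈ L, lo < J.1 ∧ J.1 + J.2 < hi)
    (hlt : lo < hi) : ∃ c d, lo < c ∧ d < hi ∧ ∀ J ∈ L, c ≤ J.1 ∧ J.1 + J.2 ≤ d := by
  induction L with
  | nil => exact ⟨(lo + hi) / 2, (lo + hi) / 2, by linarith, by linarith, by simp⟩
  | cons I L ih =>
    obtain ⟨c, d, hc, hd, hL⟩ := ih fun J hJ => h J (List.mem_cons_of_mem _ hJ)
    obtain ⟨h1, h2⟩ := h I List.mem_cons_self
    refine ⟨min c I.1, max d (I.1 + I.2), lt_min hc h1, max_lt hd h2, ?_⟩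
    intro J hJ
    rcases List.mem_cons.1 hJ with rfl | hJ
    · exact ⟨min_le_right _ _, le_max_right _ _⟩
    · exact ⟨(min_le_left _ _).trans (hL J hJ).1, (hL J hJ).2.trans (le_max_left _ _)⟩

end ARCP

open ARCP in
theorem t_ARC : S_ARC := by
  intro L hlen hpos hpw
  have hT : (0 : ℝ) < 2 * π := by positivity
  cases L with
  | nil => simp at hlen
  | cons I L =>
    rw [List.pairwise_cons] at hpw
    obtain ⟨hI, hpw'⟩ := hpw
    have hI2 := hpos I List.mem_cons_self
    have hne : L ≠ [] := by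
      rintro rfl
      simp at hlen
    set f : ℝ × ℝ → ℝ × ℝ := fun J => (toIcoMod hT I.1 J.1, J.2) with hf
    have hmod : ∀ b : ℝ, ∃ k : ℤ, toIcoMod hT I.1 b = b - k * (2 * π) ∧
        I.1 ≤ toIcoMod hT I.1 b ∧ toIcoMod hT I.1 b < I.1 + 2 * π := by
      intro b
      refine ⟨toIcoDiv hT I.1 b, ?_, (toIcoMod_mem_Ico hT I.1 b).1, (toIcoMod_mem_Ico hT I.1 b).2⟩
      rw [← self_sub_toIcoDiv_zsmul, zsmul_eq_mul]
    have hL : ∀ J ∈ L.map f, I.1 + I.2 < J.1 ∧ J.1 + J.2 < I.1 + 2 * π := by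
      intro J' hJ'
      obtain ⟨J, hJ, rfl⟩ := List.mem_map.1 hJ'
      obtain ⟨k, hk, h1, h2⟩ := hmod J.1
      have hJ2 := hpos J (List.mem_cons_of_mem _ hJ)
      simp only [hf]
      constructor
      · by_contra hcon
        rw [not_lt] at hcon
        refine hI J hJ (toIcoMod hT I.1 J.1) ⟨h1, hcon⟩ J.1 ⟨le_rfl, by linarith⟩ (-k) ?_
        rw [hk]
        push_cast
        ring
      · by_contra hcon
        rw [not_lt] at hcon
        refine hI J hJ I.1 ⟨le_rfl, by linarith⟩ (I.1 + 2 * π + k * (2 * π)) ⟨?_, ?_⟩ (-1 - k) ?_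
        · linarith
        · linarith
        · push_cast
          ring
    have hpos' : ∀ J ∈ L.map f, 0 < J.2 := by
      intro J' hJ'
      obtain ⟨J, hJ, rfl⟩ := List.mem_map.1 hJ'
      exact hpos J (List.mem_cons_of_mem _ hJ)
    have hdis : (L.map f).Pairwise (fun I J => Disjoint (iv I) (iv J)) := by
      rw [List.pairwise_map]
      refine hpw'.imp ?_
      intro J J' hJJ
      rw [Set.disjoint_left]
      intro x hx hx'
      obtain ⟨k, hk, -, -⟩ := hmod J.1
      obtain ⟨k', hk', -, -⟩ := hmod J'.1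
      simp only [iv, hf, Set.mem_Icc] at hx hx'
      refine hJJ (x + k * (2 * π)) ⟨by linarith, by linarith⟩ (x + k' * (2 * π))
        ⟨by linarith, by linarith⟩ (k - k') ?_
      push_cast
      ring
    obtain ⟨J0, hJ0⟩ := List.exists_mem_of_ne_nil L hne
    have hJ0' := hL (f J0) (List.mem_map_of_mem hJ0)
    have hJ0p := hpos' (f J0) (List.mem_map_of_mem hJ0)
    obtain ⟨c, d, hc, hd, hcd⟩ := bound (L.map f) (I.1 + I.2) (I.1 + 2 * π) hL (by linarith)
    have h0 := hcd (f J0) (List.mem_map_of_mem hJ0)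
    obtain ⟨-, h1⟩ := vol (L.map f) hpos' hdis
    have h2 : (⋃ J ∈ L.map f, iv J) ⊆ Set.Icc c d := by
      refine Set.iUnion₂_subset fun J hJ => ?_
      exact Set.Icc_subset_Icc (hcd J hJ).1 (hcd J hJ).2
    have h3 := h1.trans (measure_mono h2)
    rw [Real.volume_Icc, ENNReal.ofReal_le_ofReal_iff (by linarith)] at h3
    have h4 : ((L.map f).map Prod.snd) = L.map Prod.snd := by
      rw [List.map_map]
      rfl
    rw [h4] at h3
    rw [List.map_cons, List.sum_cons]
    linarith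

end Pool.Agent.H57N
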