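import Pool.Agent.H57N.Stm

/-!
Project GN57, piece ANT: the ends of a block are antipodal.
-/

set_option autoImplicit false

namespace Pool.Agent.H57N

open Real
open scoped RealInnerProductSpace

theorem t_ANT (hPLN : S_PLN) (hFLX : S_FLX) : S_ANT := by
  intro A B u w pA vA lA pB vB lB hu huw hA hB hs
  obtain ⟨a1, a2, a3, a4, a5, a6⟩ := hFLX A u w pA vA lA hu hA
  obtain ⟨b1, b2, b3, b4, b5, b6⟩ := hFLX B u w pB vB lB hu hB
  obtain ⟨θ, hθ, -⟩ := hPLN u (vA A.first) w (fin A u pA vA lA) hu a5 a6 a4 a2 a3 a1.symm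
  obtain ⟨φ, hφ, -⟩ := hPLN u (vB B.first) w (fin B u pB vB lB) hu b5 b6 b4 b2 b3 b1.symm
  obtain ⟨α, hα⟩ : ∃ α, α = vA A.first := ⟨_, rfl⟩
  obtain ⟨β, hβ⟩ : ∃ β, β = vB B.first := ⟨_, rfl⟩
  rw [← hα] at a5 a6 hθ
  rw [← hβ] at b5 b6 hφ
  rw [← hα, ← hβ] at hs
  unfold arc at hθ hφ
  have huu : ⟪u, u⟫ = 1 := by rw [real_inner_self_eq_norm_sq, hu]; norm_num
  have hαα : ⟪α, α⟫ = 1 := by rw [real_inner_self_eq_norm_sq, a5]; norm_num
  have hββ : ⟪β, β⟫ = 1 := by rw [real_inner_self_eq_norm_sq, b5]; norm_num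
  have hc1 : ⟪u, w⟫ = cos θ := by
    rw [hθ, inner_add_right, inner_smul_right, inner_smul_right, huu, a6]
    ring
  have hc2 : ⟪u, w⟫ = cos φ := by
    rw [hφ, inner_add_right, inner_smul_right, inner_smul_right, huu, b6]
    ring
  have hab : ⟪α, β⟫ = -1 / 2 := by
    have h1 : ⟪α + β, α + β⟫ = 1 := by rw [real_inner_self_eq_norm_sq, hs]; norm_num
    rw [inner_add_left, inner_add_right, inner_add_right, hαα, hββ, real_inner_comm] at h1
    rw [real_inner_comm]
    linarith [real_inner_comm α β]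
  have hsin : sin θ • α = sin φ • β := by
    have h1 : cos θ • u + sin θ • α = cos φ • u + sin φ • β := by rw [← hθ, ← hφ]
    rw [← hc1, ← hc2] at h1
    exact add_left_cancel h1
  have e1 : sin θ = sin φ * ⟪α, β⟫ := by
    have h1 := congrArg (fun z => ⟪α, z⟫) hsin
    simp only [inner_smul_right, hαα, mul_one] at h1
    exact h1
  have e2 : sin θ * ⟪α, β⟫ = sin φ := by
    have h1 := congrArg (fun z => ⟪z, β⟫) hsin
    simp only [inner_smul_left, hββ, mul_one] at h1
    simpa using h1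
  have e3 : sin θ = 0 := by
    rw [hab] at e1 e2
    linarith
  have e4 : cos θ ^ 2 = 1 := by
    have := sin_sq_add_cos_sq θ
    rw [e3] at this
    linarith
  rw [e3, zero_smul, add_zero] at hθ
  have e5 : cos θ = 1 ∨ cos θ = -1 := by
    have h1 : (cos θ - 1) * (cos θ + 1) = 0 := by linear_combination e4
    rcases mul_eq_zero.mp h1 with h | h
    · exact Or.inl (by linarith)
    · exact Or.inr (by linarith)
  rcases e5 with h | h
  · rw [h, one_smul] at hθ
    exact absurd hθ.symm huw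
  · rw [h, neg_smul, one_smul] at hθ
    exact hθ

end Pool.Agent.H57N
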