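import Pool.Agent.H57N.Stm

/-!
# GN57, piece CUT (helper33): conservation of flux through cuts
-/

set_option autoImplicit false

namespace Pool.Agent.H57N

open Real
open scoped RealInnerProductSpace

namespace CUT

theorem fl_add (x a b : E4) : fl x (a + b) = fl x a + fl x b := by
  funext i j
  simp only [fl, PiLp.add_apply, Pi.add_apply]
  ring

theorem fl_zero (x : E4) : fl x 0 = 0 := by
  funext i j
  simp [fl]

/-- the flux as a homomorphism in the second argument -/
noncomputable def flH (x : E4) : E4 →+ (Fin 4 → Fin 4 → ℝ) where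
  toFun := fl x
  map_zero' := fl_zero x
  map_add' := fl_add x

theorem fl_sum {ι : Type} (x : E4) (s : Finset ι) (w : ι → E4) :
    fl x (∑ e ∈ s, w e) = ∑ e ∈ s, fl x (w e) := map_sum (flH x) w s

theorem fl_arc (x v : E4) (l : ℝ) : fl (arc x v l) (vel x v l) = fl x v := by
  funext i j
  simp only [fl, arc, vel, PiLp.add_apply, PiLp.smul_apply, smul_eq_mul]
  have h := Real.sin_sq_add_cos_sq l
  linear_combination (x i * v j - x j * v i) * h

theorem sum_one {V : Type} (X : Finset V) (a : V) (F : Fin 4 → Fin 4 → ℝ)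
    [∀ x, Decidable (a = x)] [Decidable (a ∈ X)] :
    (∑ x ∈ X, if a = x then F else 0) = if a ∈ X then F else 0 := by
  by_cases h : a ∈ X
  · rw [if_pos h, Finset.sum_eq_single a]
    · rw [if_pos rfl]
    · intro b _ hb
      rw [if_neg (fun h' => hb h'.symm)]
    · intro h'
      exact absurd h h'
  · rw [if_neg h]
    refine Finset.sum_eq_zero fun x hx => ?_
    rw [if_neg]
    intro h'
    exact h (h' ▸ hx)

end CUT

open CUT in
theorem t_CUT : S_CUT := by
  classical
  intro V E _ _ _ src tgt p v ℓ hN X
  obtain ⟨F, hF⟩ : ∃ F : E → Fin 4 → Fin 4 → ℝ, F = fun e => fl (p (src e)) (v e) := ⟨_, rfl⟩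
  have h1 : ∀ x : V, (∑ e, if src e = x then F e else 0) = ∑ e, if tgt e = x then F e else 0 := by
    intro x
    have hb := congrArg (fl (p x)) (hN.balanced x)
    rw [fl_sum, fl_sum, Finset.sum_filter, Finset.sum_filter] at hb
    have e1 : (∑ e, if src e = x then F e else 0) = ∑ e, if src e = x then fl (p x) (v e) else 0 := by
      refine Finset.sum_congr rfl fun e _ => ?_
      by_cases h : src e = x
      · rw [if_pos h, if_pos h, hF, ← h]
      · rw [if_neg h, if_neg h]
    have e2 : (∑ e, if tgt e = x then F e else 0) =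
        ∑ e, if tgt e = x then fl (p x) (vel (p (src e)) (v e) (ℓ e)) else 0 := by
      refine Finset.sum_congr rfl fun e _ => ?_
      by_cases h : tgt e = x
      · rw [if_pos h, if_pos h, hF, ← h, ← hN.finish e, fl_arc]
      · rw [if_neg h, if_neg h]
    rw [e1, e2]
    convert hb
  have h2 : (∑ e, if src e ∈ X then F e else 0) = ∑ e, if tgt e ∈ X then F e else 0 := by
    have e1 : ∀ g : E → V, (∑ e, if g e ∈ X then F e else 0) = ∑ x ∈ X, ∑ e, if g e = x then F e else 0 := by
      intro g
      rw [Finset.sum_comm]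
      refine Finset.sum_congr rfl fun e _ => ?_
      exact (sum_one X (g e) (F e)).symm
    rw [e1 src, e1 tgt]
    exact Finset.sum_congr rfl fun x _ => h1 x
  have h3 : ∀ e, (if src e ∈ X then F e else 0) =
      (if src e ∈ X ∧ tgt e ∉ X then F e else 0) + if src e ∈ X ∧ tgt e ∈ X then F e else 0 := by
    intro e
    by_cases ha : src e ∈ X <;> by_cases hb : tgt e ∈ X <;> simp [ha, hb]
  have h4 : ∀ e, (if tgt e ∈ X then F e else 0) =
      (if src e ∉ X ∧ tgt e ∈ X then F e else 0) + if src e ∈ X ∧ tgt e ∈ X then F e else 0 := by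
    intro e
    by_cases ha : src e ∈ X <;> by_cases hb : tgt e ∈ X <;> simp [ha, hb]
  rw [Finset.sum_congr rfl fun e _ => h3 e, Finset.sum_congr rfl fun e _ => h4 e,
    Finset.sum_add_distrib, Finset.sum_add_distrib] at h2
  have h5 := add_right_cancel h2
  rw [Finset.sum_filter, Finset.sum_filter]
  rw [hF] at h5
  convert h5

end Pool.Agent.H57N
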