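import Pool.Agent.H57N.Stm

set_option autoImplicit false

/-!
Project GN57 (helper57), piece EXI (by helper39): sufficiency.
-/

namespace Pool.Agent.H57N

open Real
open scoped RealInnerProductSpace

namespace EXI

/-- the line of `u` -/
def ln (u : E4) : Submodule ℝ E4 := Submodule.span ℝ {u}

theorem unitE (X : Ch) : ∀ (x y : E4) (p : X.V → E4) (v : X.E → E4) (ℓ : X.E → ℝ), ‖x‖ = 1 →
    Loc X x y p v ℓ → ∀ e, ‖X.src x p e‖ = 1 ∧ ‖v e‖ = 1 ∧ ⟪X.src x p e, v e⟫ = 0 := by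
  induction X with
  | edge =>
    intro x y p v ℓ hx h e
    obtain ⟨h1, h2, _, _⟩ := h
    exact ⟨hx, h1, h2⟩
  | cons A B C ihA ihB ihC =>
    intro x y p v ℓ hx h e
    obtain ⟨h1, h2, h3, hA, hB, hC, _, _⟩ := h
    rcases e with e | e | e | e
    · exact ⟨hx, h3.1, h3.2.1⟩
    · exact ihA _ _ _ _ _ h1 hA e
    · exact ihB _ _ _ _ _ h1 hB e
    · exact ihC _ _ _ _ _ h2 hC e

theorem inner_self_one {x : E4} (h : ‖x‖ = 1) : ⟪x, x⟫ = 1 := by
  rw [real_inner_self_eq_norm_sq, h, one_pow]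

theorem arc_ne {x v : E4} (hx : ‖x‖ = 1) (hv : ‖v‖ = 1) (hxv : ⟪x, v⟫ = 0) (t : ℝ) :
    arc x v t ≠ 0 := by
  intro h
  have hvx : ⟪v, x⟫ = 0 := by rw [real_inner_comm]; exact hxv
  have h1 : ⟪x, arc x v t⟫ = 0 := by rw [h, inner_zero_right]
  have h2 : ⟪v, arc x v t⟫ = 0 := by rw [h, inner_zero_right]
  unfold arc at h1 h2
  rw [inner_add_right, inner_smul_right, inner_smul_right, inner_self_one hx, hxv] at h1
  rw [inner_add_right, inner_smul_right, inner_smul_right, inner_self_one hv, hvx] at h2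
  have h3 := Real.sin_sq_add_cos_sq t
  have h4 : cos t = 0 := by linarith
  have h5 : sin t = 0 := by linarith
  rw [h4, h5] at h3
  norm_num at h3

theorem arc_mem (x v : E4) (t : ℝ) : arc x v t ∈ pl x v := by
  unfold arc pl
  exact Submodule.add_mem _ (Submodule.smul_mem _ _ (Submodule.subset_span (by simp)))
    (Submodule.smul_mem _ _ (Submodule.subset_span (by simp)))

theorem ln_le (u δ : E4) : ln u ≤ pl u δ :=
  Submodule.span_mono (by simp)

theorem arc_not {u δ : E4} (hδ : ‖δ‖ = 1) (h : ⟪u, δ⟫ = 0) {t ε : ℝ} (h0 : 0 < t) (h1 : t < π)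
    (hε : ε ≠ 0) : ε • arc u δ t ∉ ln u := by
  intro hm
  have hδu : ⟪δ, u⟫ = 0 := by rw [real_inner_comm]; exact h
  obtain ⟨k, hk⟩ := Submodule.mem_span_singleton.1 hm
  have h2 : ⟪δ, ε • arc u δ t⟫ = 0 := by rw [← hk, inner_smul_right, hδu, mul_zero]
  unfold arc at h2
  rw [inner_smul_right, inner_add_right, inner_smul_right, inner_smul_right, inner_self_one hδ,
    hδu] at h2
  have h3 : ε * sin t = 0 := by linarith
  rcases mul_eq_zero.1 h3 with h4 | h4
  · exact hε h4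
  · exact (Real.sin_pos_of_pos_of_lt_pi h0 h1).ne' h4

/-- what is used of a chain -/
structure Dat (u δ : E4) (S : Set (Submodule ℝ E4)) {E V : Type} (s v : E → E4) (ℓ : E → ℝ)
    (p : V → E4) : Prop where
  top : ∀ e, pl (s e) (v e) = pl u δ ∨ ∀ P ∈ S, Disjoint (pl (s e) (v e)) P
  int : ∀ e a, 0 < a → a < ℓ e → arc (s e) (v e) a ∉ ln u
  vrt : ∀ z, p z ∉ ln u
  edg : ∀ z, ∃ e, p z ∈ pl (s e) (v e)

theorem zero_of_disjoint {P Q : Submodule ℝ E4} (h : Disjoint P Q) {q : E4} (h1 : q ∈ P)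
    (h2 : q ∈ Q) : q = 0 := Submodule.disjoint_def.1 h q h1 h2

theorem cross {u δ δ' : E4} {S S' : Set (Submodule ℝ E4)} {E V E' V' : Type} {s v : E → E4}
    {ℓ : E → ℝ} {p : V → E4} {s' v' : E' → E4} {ℓ' : E' → ℝ} {p' : V' → E4}
    (hX : Dat u δ S s v ℓ p) (hY : Dat u δ' S' s' v' ℓ' p') (h1 : pl u δ' ∈ S)
    (h2 : ∀ e, pl (s e) (v e) ∈ S') (h3 : ∀ q, q ∈ pl u δ → q ∈ pl u δ' → q ∈ ln u)
    (e : E) (f : E') (q : E4) (hq1 : q ∈ pl (s e) (v e)) (hq2 : q ∈ pl (s' f) (v' f)) :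
    q ∈ ln u := by
  rcases hY.top f with hf | hf
  · rcases hX.top e with he | he
    · exact h3 q (he ▸ hq1) (hf ▸ hq2)
    · rw [zero_of_disjoint (he _ h1) hq1 (hf ▸ hq2)]
      exact zero_mem _
  · rw [zero_of_disjoint (hf _ (h2 e)) hq2 hq1]
    exact zero_mem _

theorem unpack {X : Ch} {u δ : E4} {S : Set (Submodule ℝ E4)} {p : X.V → E4} {v : X.E → E4}
    {ℓ : X.E → ℝ} (hu : ‖u‖ = 1) (hδ : ‖δ‖ = 1) (huδ : ⟪u, δ⟫ = 0) (hX : Even X.len)
    (h : Out X u δ 0 1 S p v ℓ) :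
    Loc X u (-u) p v ℓ ∧ v X.first = δ ∧ fin X u p v ℓ = -δ ∧ Emb (X.src u p) v ℓ ∧
    Function.Injective p ∧ (∀ z, ‖p z‖ = 1) ∧ Dat u δ S (X.src u p) v ℓ p := by
  have e1 : (1 : ℝ) • arc u δ 0 = u := by
    unfold arc
    rw [Real.cos_zero, Real.sin_zero, zero_smul, one_smul, one_smul, add_zero]
  have e2 : ((1 : ℝ) * (-1) ^ X.len) • arc u δ π = -u := by
    unfold arc
    rw [hX.neg_one_pow, Real.cos_pi, Real.sin_pi, zero_smul, mul_one, one_smul, add_zero,
      neg_one_smul]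
  have e3 : (1 : ℝ) • vel u δ 0 = δ := by
    unfold vel
    rw [Real.cos_zero, Real.sin_zero, neg_zero, zero_smul, one_smul, one_smul, zero_add]
  have e4 : ((1 : ℝ) * (-1) ^ X.len) • vel u δ π = -δ := by
    unfold vel
    rw [hX.neg_one_pow, Real.cos_pi, Real.sin_pi, neg_zero, zero_smul, mul_one, one_smul,
      zero_add, neg_one_smul]
  unfold Out at h
  rw [e1, e2, e3, e4] at h
  obtain ⟨h1, h2, h3, h4, h5, h6, h7, h8, h9⟩ := h
  refine ⟨h1, h2, h3, h4, h5, h6, ?_, ?_, ?_, h8⟩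
  · intro e
    rcases h9 e with h | h
    · exact Or.inl h.1
    · exact Or.inr h.1
  · intro e a ha1 ha2
    rcases h9 e with ⟨_, c, ε, hc0, _, hc, hε, harc⟩ | ⟨_, h⟩
    · rw [harc a]
      refine arc_not hδ huδ (by linarith) (by linarith) ?_
      rcases hε with hε | hε <;> rw [hε] <;> norm_num
    · have h10 := h 0 (Or.inl ⟨le_rfl, le_rfl⟩)
      rw [one_smul] at e1
      rw [e1] at h10
      intro hm
      obtain ⟨k, hk⟩ := Submodule.mem_span_singleton.1 hm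
      obtain ⟨u1, u2, u3⟩ := unitE X _ _ _ _ _ hu h1 e
      have h11 := arc_ne u1 u2 u3 a
      have hk0 : k ≠ 0 := by
        intro hk0
        rw [hk0, zero_smul] at hk
        exact h11 hk.symm
      apply h10
      have h12 : u = k⁻¹ • arc (X.src u p e) (v e) a := by
        rw [← hk, smul_smul, inv_mul_cancel₀ hk0, one_smul]
      have h13 : k⁻¹ • arc (X.src u p e) (v e) a ∈ pl (X.src u p e) (v e) :=
        Submodule.smul_mem _ _ (arc_mem _ _ _)
      rw [← h12] at h13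
      exact h13
  · intro z
    rcases h7 z with ⟨t, ht0, ht1, hz | hz⟩ | ⟨hz, _⟩
    · have h10 := arc_not hδ huδ ht0 ht1 (one_ne_zero : (1 : ℝ) ≠ 0)
      rw [one_smul] at h10
      rw [hz]
      exact h10
    · have h10 := arc_not hδ huδ ht0 ht1 (by norm_num : (-1 : ℝ) ≠ 0)
      rw [neg_one_smul] at h10
      rw [hz]
      exact h10
    · exact fun hm => hz (ln_le u δ hm)

theorem pl_rank (x v : E4) : Module.finrank ℝ (pl x v) ≤ 2 := by
  classical
  have h := finrank_span_finset_le_card (R := ℝ) ({x, v} : Finset E4)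
  unfold Set.finrank at h
  rw [Finset.coe_pair] at h
  exact h.trans Finset.card_le_two

/-- two planes through `u` -/
theorem meet {u δ δ' : E4} (hu : ‖u‖ = 1) (hδ : ‖δ‖ = 1) (hδ' : ‖δ'‖ = 1) (h : ⟪u, δ⟫ = 0)
    (h' : ⟪u, δ'⟫ = 0) (hh : ⟪δ, δ'⟫ = -(1 / 2)) (q : E4) (h1 : q ∈ pl u δ) (h2 : q ∈ pl u δ') :
    q ∈ ln u := by
  obtain ⟨a, b, hab⟩ := Submodule.mem_span_pair.1 h1
  obtain ⟨c, d, hcd⟩ := Submodule.mem_span_pair.1 h2
  have hδu : ⟪δ, u⟫ = 0 := by rw [real_inner_comm]; exact h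
  have hδu' : ⟪δ', u⟫ = 0 := by rw [real_inner_comm]; exact h'
  have hh' : ⟪δ', δ⟫ = -(1 / 2) := by rw [real_inner_comm]; exact hh
  have e1 : ⟪δ, q⟫ = b := by
    rw [← hab, inner_add_right, inner_smul_right, inner_smul_right, inner_self_one hδ, hδu]
    ring
  have e2 : ⟪δ, q⟫ = d * -(1 / 2) := by
    rw [← hcd, inner_add_right, inner_smul_right, inner_smul_right, hh, hδu]
    ring
  have e3 : ⟪δ', q⟫ = d := by
    rw [← hcd, inner_add_right, inner_smul_right, inner_smul_right, inner_self_one hδ', hδu']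
    ring
  have e4 : ⟪δ', q⟫ = b * -(1 / 2) := by
    rw [← hab, inner_add_right, inner_smul_right, inner_smul_right, hh', hδu']
    ring
  have hb : b = 0 := by linarith
  rw [← hab, hb, zero_smul, add_zero]
  exact Submodule.smul_mem _ _ (Submodule.mem_span_singleton_self u)

theorem frame : ∃ u α β γ : E4, ‖u‖ = 1 ∧ ‖α‖ = 1 ∧ ‖β‖ = 1 ∧ ‖γ‖ = 1 ∧ ⟪u, α⟫ = 0 ∧ ⟪u, β⟫ = 0 ∧
    ⟪u, γ⟫ = 0 ∧ ⟪α, β⟫ = -(1 / 2) ∧ ⟪α, γ⟫ = -(1 / 2) ∧ ⟪β, γ⟫ = -(1 / 2) ∧ α + β + γ = 0 := by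
  have ho := (EuclideanSpace.basisFun (Fin 4) ℝ).orthonormal
  obtain ⟨b, hb⟩ : ∃ b : Fin 4 → E4, b = (EuclideanSpace.basisFun (Fin 4) ℝ) := ⟨_, rfl⟩
  rw [← hb] at ho
  have hn : ∀ i, ‖b i‖ = 1 := ho.1
  have hi : ∀ i j, i ≠ j → ⟪b i, b j⟫ = 0 := fun i j h => ho.2 h
  have h01 := hi 0 1 (by decide)
  have h02 := hi 0 2 (by decide)
  have h12 := hi 1 2 (by decide)
  have h21 := hi 2 1 (by decide)
  have h11 := inner_self_one (hn 1)
  have h22 := inner_self_one (hn 2)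
  have h3 : √3 * √3 = 3 := Real.mul_self_sqrt (by norm_num)
  have key : ∀ w : E4, ⟪w, w⟫ = 1 → ‖w‖ = 1 := by
    intro w hw
    rw [real_inner_self_eq_norm_sq] at hw
    nlinarith [norm_nonneg w]
  refine ⟨b 0, b 1, (-(1 / 2) : ℝ) • b 1 + (√3 / 2) • b 2,
    (-(1 / 2) : ℝ) • b 1 + (-(√3 / 2)) • b 2, hn 0, hn 1, key _ ?_, key _ ?_, h01, ?_, ?_, ?_, ?_,
    ?_, ?_⟩
  · simp only [inner_add_left, inner_add_right, inner_smul_left, inner_smul_right, h11, h22, h12,
      h21, conj_trivial]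
    nlinarith
  · simp only [inner_add_left, inner_add_right, inner_smul_left, inner_smul_right, h11, h22, h12,
      h21, conj_trivial]
    nlinarith
  · simp only [inner_add_right, inner_smul_right, h01, h02]
    ring
  · simp only [inner_add_right, inner_smul_right, h01, h02]
    ring
  · simp only [inner_add_right, inner_smul_right, h11, h12]
    ring
  · simp only [inner_add_right, inner_smul_right, h11, h12]
    ring
  · simp only [inner_add_left, inner_add_right, inner_smul_left, inner_smul_right, h11, h22, h12,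
      h21, conj_trivial]
    nlinarith
  · module

end EXI

open EXI in
theorem t_EXI (hS : S_STEP) (hL : S_LOC2) : S_EXI := by
  intro A B C hA hB hC
  obtain ⟨u, α, β, γ, hu, hα, hβ, hγ, huα, huβ, huγ, hαβ, hαγ, hβγ, hsum⟩ := frame
  have mAB := meet hu hα hβ huα huβ hαβ
  have mAC := meet hu hα hγ huα huγ hαγ
  have mBC := meet hu hβ hγ huβ huγ hβγ
  have hnot : ∀ {δ : E4}, ‖δ‖ = 1 → ⟪u, δ⟫ = 0 → ∀ t, 0 < t → t < π → arc u δ t ∉ ln u := by
    intro δ hδ huδ t h0 h1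
    have h := arc_not hδ huδ h0 h1 (one_ne_zero : (1 : ℝ) ≠ 0)
    rwa [one_smul] at h
  -- the chain `A`
  obtain ⟨pA, vA, lA, oA⟩ := hS A hA.1 u α 0 1 {pl u β, pl u γ} hu hα huα le_rfl Real.pi_pos
    (Or.inl rfl) (Set.toFinite _)
    (by
      intro P hP
      rcases hP with rfl | hP
      · exact pl_rank _ _
      · rw [Set.mem_singleton_iff.1 hP]
        exact pl_rank _ _)
    (by
      intro P hP t h0 h1 hm
      rcases hP with rfl | hP
      · exact hnot hα huα t h0 h1 (mAB _ (arc_mem _ _ _) hm)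
      · rw [Set.mem_singleton_iff.1 hP] at hm
        exact hnot hα huα t h0 h1 (mAC _ (arc_mem _ _ _) hm))
  obtain ⟨a1, a2, a3, a4, a5, a6, dA⟩ := unpack hu hα huα hA.2 oA
  have tA : ∀ {δ : E4}, ‖δ‖ = 1 → ⟪u, δ⟫ = 0 →
      pl u δ ∈ ({pl u β, pl u γ} : Set (Submodule ℝ E4)) →
      (∀ q, q ∈ pl u α → q ∈ pl u δ → q ∈ ln u) → ∀ e : A.E, ∀ t, 0 < t → t < π →
      arc u δ t ∉ pl (A.src u pA e) (vA e) := by
    intro δ hδ huδ hm hq e t h0 h1 h
    rcases dA.top e with he | he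
    · rw [he] at h
      exact hnot hδ huδ t h0 h1 (hq _ h (arc_mem _ _ _))
    · have h2 := zero_of_disjoint (he _ hm) h (arc_mem u δ t)
      exact arc_ne hu hδ huδ t h2
  -- the chain `B`
  obtain ⟨pB, vB, lB, oB⟩ := hS B hB.1 u β 0 1
    (insert (pl u γ) (Set.range fun e : A.E => pl (A.src u pA e) (vA e))) hu hβ huβ le_rfl
    Real.pi_pos (Or.inl rfl) ((Set.finite_range _).insert _)
    (by
      intro P hP
      rcases hP with rfl | ⟨e, rfl⟩
      · exact pl_rank _ _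
      · exact pl_rank _ _)
    (by
      intro P hP t h0 h1 hm
      rcases hP with rfl | ⟨e, rfl⟩
      · exact hnot hβ huβ t h0 h1 (mBC _ (arc_mem _ _ _) hm)
      · exact tA hβ huβ (Or.inl rfl) mAB e t h0 h1 hm)
  obtain ⟨b1, b2, b3, b4, b5, b6, dB⟩ := unpack hu hβ huβ hB.2 oB
  have tB : ∀ e : B.E, ∀ t, 0 < t → t < π → arc u γ t ∉ pl (B.src u pB e) (vB e) := by
    intro e t h0 h1 h
    rcases dB.top e with he | he
    · rw [he] at h
      exact hnot hγ huγ t h0 h1 (mBC _ h (arc_mem _ _ _))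
    · have h2 := zero_of_disjoint (he _ (Or.inl rfl)) h (arc_mem u γ t)
      exact arc_ne hu hγ huγ t h2
  -- the chain `C`
  obtain ⟨pC, vC, lC, oC⟩ := hS C hC.1 u γ 0 1
    ((Set.range fun e : A.E => pl (A.src u pA e) (vA e)) ∪
      (Set.range fun e : B.E => pl (B.src u pB e) (vB e))) hu hγ huγ le_rfl
    Real.pi_pos (Or.inl rfl) ((Set.finite_range _).union (Set.finite_range _))
    (by
      intro P hP
      rcases hP with ⟨e, rfl⟩ | ⟨e, rfl⟩
      · exact pl_rank _ _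
      · exact pl_rank _ _)
    (by
      intro P hP t h0 h1 hm
      rcases hP with ⟨e, rfl⟩ | ⟨e, rfl⟩
      · exact tA hγ huγ (Or.inr rfl) mAC e t h0 h1 hm
      · exact tB e t h0 h1 hm)
  obtain ⟨c1, c2, c3, c4, c5, c6, dC⟩ := unpack hu hγ huγ hC.2 oC
  have cAB := cross dA dB (Or.inl rfl) (fun e => Or.inr ⟨e, rfl⟩) mAB
  have cAC := cross dA dC (Or.inr rfl) (fun e => Or.inl ⟨e, rfl⟩) mAC
  have cBC := cross dB dC (Or.inl rfl) (fun e => Or.inr ⟨e, rfl⟩) mBC
  have lu : u ∈ ln u := Submodule.mem_span_singleton_self u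
  have lu' : -u ∈ ln u := Submodule.neg_mem _ lu
  have vAB : ∀ z z', pA z ≠ pB z' := by
    intro z z' h
    obtain ⟨e, he⟩ := dA.edg z
    obtain ⟨f, hf⟩ := dB.edg z'
    exact dA.vrt z (cAB e f _ he (h ▸ hf))
  have vAC : ∀ z z', pA z ≠ pC z' := by
    intro z z' h
    obtain ⟨e, he⟩ := dA.edg z
    obtain ⟨f, hf⟩ := dC.edg z'
    exact dA.vrt z (cAC e f _ he (h ▸ hf))
  have vBC : ∀ z z', pB z ≠ pC z' := by
    intro z z' h
    obtain ⟨e, he⟩ := dB.edg z
    obtain ⟨f, hf⟩ := dC.edg z'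
    exact dB.vrt z (cBC e f _ he (h ▸ hf))
  have hne : u ≠ -u := by
    intro h
    have h2 : (2 : ℝ) • u = 0 := by
      rw [two_smul]
      nth_rewrite 1 [h]
      exact neg_add_cancel u
    have h3 : u = 0 := (smul_eq_zero.1 h2).resolve_left (by norm_num)
    rw [h3, norm_zero] at hu
    norm_num at hu
  refine ⟨Sum.elim (fun b => cond b (-u) u) (Sum.elim pA (Sum.elim pB pC)),
    Sum.elim vA (Sum.elim vB vC), Sum.elim lA (Sum.elim lB lC), hL A B C _ _ _ ?_⟩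
  refine ⟨?_, ?_, ?_, a1, b1, c1, ?_, ?_⟩
  · rintro ((_ | _) | z | z | z)
    · exact hu
    · exact (norm_neg u).trans hu
    · exact a6 z
    · exact b6 z
    · exact c6 z
  · rintro ((_ | _) | z | z | z) ((_ | _) | w | w | w) h
    · rfl
    · exact absurd h hne
    · exact absurd (show pA w ∈ ln u from (show u = pA w from h) ▸ lu) (dA.vrt w)
    · exact absurd (show pB w ∈ ln u from (show u = pB w from h) ▸ lu) (dB.vrt w)
    · exact absurd (show pC w ∈ ln u from (show u = pC w from h) ▸ lu) (dC.vrt w)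
    · exact absurd (show u = -u from Eq.symm h) hne
    · rfl
    · exact absurd (show pA w ∈ ln u from (show -u = pA w from h) ▸ lu') (dA.vrt w)
    · exact absurd (show pB w ∈ ln u from (show -u = pB w from h) ▸ lu') (dB.vrt w)
    · exact absurd (show pC w ∈ ln u from (show -u = pC w from h) ▸ lu') (dC.vrt w)
    · exact absurd (show pA z ∈ ln u from (show u = pA z from Eq.symm h) ▸ lu) (dA.vrt z)
    · exact absurd (show pA z ∈ ln u from (show -u = pA z from Eq.symm h) ▸ lu') (dA.vrt z)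
    · rw [a5 h]
    · exact absurd h (vAB z w)
    · exact absurd h (vAC z w)
    · exact absurd (show pB z ∈ ln u from (show u = pB z from Eq.symm h) ▸ lu) (dB.vrt z)
    · exact absurd (show pB z ∈ ln u from (show -u = pB z from Eq.symm h) ▸ lu') (dB.vrt z)
    · exact absurd h.symm (vAB w z)
    · rw [b5 h]
    · exact absurd h (vBC z w)
    · exact absurd (show pC z ∈ ln u from (show u = pC z from Eq.symm h) ▸ lu) (dC.vrt z)
    · exact absurd (show pC z ∈ ln u from (show -u = pC z from Eq.symm h) ▸ lu') (dC.vrt z)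
    · exact absurd h.symm (vAC w z)
    · exact absurd h.symm (vBC w z)
    · rw [c5 h]
  · rintro (e | e | e) (f | f | f) a b h1 h2 h3 h4 h5
    · obtain ⟨h6, h7⟩ := a4 e f a b h1 h2 h3 h4 h5
      exact ⟨congrArg Sum.inl h6, h7⟩
    · have h6 : arc (A.src u pA e) (vA e) a = arc (B.src u pB f) (vB f) b := h5
      exact absurd (cAB e f _ (arc_mem _ _ _) (h6 ▸ arc_mem _ _ _)) (dA.int e a h1 h2)
    · have h6 : arc (A.src u pA e) (vA e) a = arc (C.src u pC f) (vC f) b := h5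
      exact absurd (cAC e f _ (arc_mem _ _ _) (h6 ▸ arc_mem _ _ _)) (dA.int e a h1 h2)
    · have h6 : arc (B.src u pB e) (vB e) a = arc (A.src u pA f) (vA f) b := h5
      exact absurd (cAB f e _ (h6 ▸ arc_mem _ _ _) (arc_mem _ _ _)) (dB.int e a h1 h2)
    · obtain ⟨h6, h7⟩ := b4 e f a b h1 h2 h3 h4 h5
      exact ⟨congrArg (fun x => Sum.inr (Sum.inl x)) h6, h7⟩
    · have h6 : arc (B.src u pB e) (vB e) a = arc (C.src u pC f) (vC f) b := h5
      exact absurd (cBC e f _ (arc_mem _ _ _) (h6 ▸ arc_mem _ _ _)) (dB.int e a h1 h2)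
    · have h6 : arc (C.src u pC e) (vC e) a = arc (A.src u pA f) (vA f) b := h5
      exact absurd (cAC f e _ (h6 ▸ arc_mem _ _ _) (arc_mem _ _ _)) (dC.int e a h1 h2)
    · have h6 : arc (C.src u pC e) (vC e) a = arc (B.src u pB f) (vB f) b := h5
      exact absurd (cBC f e _ (h6 ▸ arc_mem _ _ _) (arc_mem _ _ _)) (dC.int e a h1 h2)
    · obtain ⟨h6, h7⟩ := c4 e f a b h1 h2 h3 h4 h5
      exact ⟨congrArg (fun x => Sum.inr (Sum.inr x)) h6, h7⟩
  · show vA A.first + vB B.first + vC C.first = 0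
    rw [a2, b2, c2, hsum]
  · show fin A u pA vA lA + fin B u pB vB lB + fin C u pC vC lC = 0
    rw [a3, b3, c3]
    have h : -α + -β + -γ = -(α + β + γ) := by abel
    rw [h, hsum, neg_zero]

end Pool.Agent.H57N
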