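import Pool.Agent.H57N.Stm

/-!
Piece FLX of project GN57: the flux is the same at both ends of a chain.
-/

set_option autoImplicit false

namespace Pool.Agent.H57N

open Real
open scoped RealInnerProductSpace

namespace FLXP

theorem fl_add (x a b : E4) : fl x (a + b) = fl x a + fl x b := by
  funext i j
  simp only [fl, Pi.add_apply, PiLp.add_apply]
  ring

theorem fl_arc (x v : E4) (l : ℝ) : fl (arc x v l) (vel x v l) = fl x v := by
  funext i j
  simp only [fl, arc, vel, PiLp.add_apply, PiLp.smul_apply, smul_eq_mul]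
  have h := sin_sq_add_cos_sq l
  linear_combination (x i * v j - x j * v i) * h

theorem inner_comb {x v : E4} (hx : ‖x‖ = 1) (hv : ‖v‖ = 1) (h : ⟪x, v⟫ = 0) (a b c d : ℝ) :
    ⟪a • x + b • v, c • x + d • v⟫ = a * c + b * d := by
  have h' : ⟪v, x⟫ = 0 := by rw [real_inner_comm]; exact h
  have h1 : ⟪x, x⟫ = 1 := by rw [real_inner_self_eq_norm_sq, hx]; norm_num
  have h2 : ⟪v, v⟫ = 1 := by rw [real_inner_self_eq_norm_sq, hv]; norm_num
  simp only [inner_add_left, inner_add_right, real_inner_smul_left, real_inner_smul_right, h, h',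
    h1, h2]
  ring

theorem norm_comb {x v : E4} (hx : ‖x‖ = 1) (hv : ‖v‖ = 1) (h : ⟪x, v⟫ = 0) {a b : ℝ}
    (hab : a ^ 2 + b ^ 2 = 1) : ‖a • x + b • v‖ = 1 := by
  have h1 := inner_comb hx hv h a b a b
  rw [real_inner_self_eq_norm_sq] at h1
  have h2 : ‖a • x + b • v‖ ^ 2 = 1 := by rw [h1]; nlinarith
  have h3 : 0 ≤ ‖a • x + b • v‖ := norm_nonneg _
  nlinarith [sq_nonneg (‖a • x + b • v‖ - 1)]

/-- the case of one edge -/
theorem geo {x v y : E4} {l : ℝ} (hx : ‖x‖ = 1) (h : Geo x v l y) :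
    fl y (vel x v l) = fl x v ∧ ‖vel x v l‖ = 1 ∧ ⟪y, vel x v l⟫ = 0 ∧ ‖y‖ = 1 := by
  obtain ⟨hv, hxv, -, rfl⟩ := h
  refine ⟨fl_arc x v l, ?_, ?_, ?_⟩
  · exact norm_comb hx hv hxv (by rw [neg_sq]; exact sin_sq_add_cos_sq l)
  · rw [arc, vel, inner_comb hx hv hxv]; ring
  · exact norm_comb hx hv hxv (by rw [add_comm]; exact sin_sq_add_cos_sq l)

end FLXP

open FLXP

theorem t_FLX : S_FLX := by
  intro X
  induction X with
  | edge =>
    intro x y p v ℓ hx h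
    obtain ⟨h1, h2, h3, h4⟩ := geo hx h
    exact ⟨h1, h2, h3, h4, h.1, h.2.1⟩
  | cons A B C ihA ihB ihC =>
    intro x y p v ℓ hx h
    obtain ⟨hu, hw, hg, hA, hB, hC, hs, hf⟩ := h
    obtain ⟨a1, -⟩ := ihA _ _ _ _ _ hu hA
    obtain ⟨b1, -⟩ := ihB _ _ _ _ _ hu hB
    obtain ⟨c1, c2, c3, c4, -, -⟩ := ihC _ _ _ _ _ hw hC
    obtain ⟨g1, -, -, -⟩ := geo hx hg
    refine ⟨?_, c2, c3, c4, hg.1, hg.2.1⟩
    refine c1.trans ?_
    rw [hf, fl_add, a1, b1, ← fl_add, ← hs]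
    exact g1

end Pool.Agent.H57N
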