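import Pool.Agent.H57N.LOCaux

/-!
# GN57, piece LOC2 (helper63)
-/

set_option autoImplicit false

namespace Pool.Agent.H57N

theorem t_LOC2 : S_LOC2 := fun A B C p v ℓ h => (LOCaux.main A B C p v ℓ).2 h

end Pool.Agent.H57N
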