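import Pool.Agent.H57N.Stm

/-!
# GN57, piece NEC (helper33): necessity
-/

set_option autoImplicit false

namespace Pool.Agent.H57N

open Real
open scoped RealInnerProductSpace

namespace NEC

theorem norm_vel (x v : E4) (t : ℝ) (hx : ‖x‖ = 1) (hv : ‖v‖ = 1) (h : ⟪x, v⟫ = 0) :
    ‖vel x v t‖ = 1 := by
  have h1 : ‖vel x v t‖ ^ 2 = 1 := by
    unfold vel
    rw [norm_add_sq_real, norm_smul, norm_smul, hx, hv, inner_smul_left, inner_smul_right, h]
    simp only [Real.norm_eq_abs, mul_one, sq_abs, neg_sq, mul_zero, add_zero]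
    exact Real.sin_sq_add_cos_sq t
  have h2 : 0 ≤ ‖vel x v t‖ := norm_nonneg _
  nlinarith

theorem main (hANT : S_ANT) (hPAR : S_PAR) (X : Ch) : ∀ (x y : E4) (p : X.V → E4) (v : X.E → E4)
    (ℓ : X.E → ℝ), ‖x‖ = 1 → x ≠ y → Loc X x y p v ℓ → Emb (X.src x p) v ℓ →
    Function.Injective p → (∀ z, p z ≠ x) → (∀ z, p z ≠ y) → X.Good ∧ Anti X p := by
  induction X with
  | edge => exact fun _ _ _ _ _ _ _ _ _ _ _ _ => ⟨trivial, trivial⟩
  | cons A B C ihA ihB ihC =>
    intro x y p v ℓ hx hxy hL hE hp hpx hpy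
    obtain ⟨hu, hw, hG, hA, hB, hC, hv, _⟩ := hL
    have huw : p (.inl false) ≠ p (.inl true) := fun h => by
      have := hp h
      injection this with h'
      exact Bool.noConfusion h'
    have h1 : ‖v (.inr (.inl A.first)) + v (.inr (.inr (.inl B.first)))‖ = 1 := by
      rw [← hv]
      exact norm_vel _ _ _ hx hG.1 hG.2.1
    have hanti := hANT A B (p (.inl false)) (p (.inl true)) (fun z => p (.inr (.inl z)))
      (fun e => v (.inr (.inl e))) (fun e => ℓ (.inr (.inl e)))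
      (fun z => p (.inr (.inr (.inl z))))
      (fun e => v (.inr (.inr (.inl e)))) (fun e => ℓ (.inr (.inr (.inl e)))) hu huw hA hB h1
    have eA : Emb (A.src (p (.inl false)) (fun z => p (.inr (.inl z))))
        (fun e => v (.inr (.inl e))) (fun e => ℓ (.inr (.inl e))) := by
      intro e f a b h1 h2 h3 h4 h5
      obtain ⟨h6, h7⟩ := hE (.inr (.inl e)) (.inr (.inl f)) a b h1 h2 h3 h4 h5
      exact ⟨Sum.inl_injective (Sum.inr_injective h6), h7⟩
    have eB : Emb (B.src (p (.inl false)) (fun z => p (.inr (.inr (.inl z)))))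
        (fun e => v (.inr (.inr (.inl e)))) (fun e => ℓ (.inr (.inr (.inl e)))) := by
      intro e f a b h1 h2 h3 h4 h5
      obtain ⟨h6, h7⟩ := hE (.inr (.inr (.inl e))) (.inr (.inr (.inl f))) a b h1 h2 h3 h4 h5
      exact ⟨Sum.inl_injective (Sum.inr_injective (Sum.inr_injective h6)), h7⟩
    have eC : Emb (C.src (p (.inl true)) (fun z => p (.inr (.inr (.inr z)))))
        (fun e => v (.inr (.inr (.inr e)))) (fun e => ℓ (.inr (.inr (.inr e)))) := by
      intro e f a b h1 h2 h3 h4 h5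
      obtain ⟨h6, h7⟩ := hE (.inr (.inr (.inr e))) (.inr (.inr (.inr f))) a b h1 h2 h3 h4 h5
      exact ⟨Sum.inr_injective (Sum.inr_injective (Sum.inr_injective h6)), h7⟩
    have pA : Function.Injective (fun z : A.V => p (.inr (.inl z))) := fun a b h =>
      Sum.inl_injective (Sum.inr_injective (hp h))
    have pB : Function.Injective (fun z : B.V => p (.inr (.inr (.inl z)))) := fun a b h =>
      Sum.inl_injective (Sum.inr_injective (Sum.inr_injective (hp h)))
    have pC : Function.Injective (fun z : C.V => p (.inr (.inr (.inr z)))) := fun a b h =>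
      Sum.inr_injective (Sum.inr_injective (Sum.inr_injective (hp h)))
    have nn : ∀ (b : Bool) (z : A.V ⊕ B.V ⊕ C.V), p (.inr z) ≠ p (.inl b) := fun b z h => by
      have := hp h
      cases this
    obtain ⟨gA, aA⟩ := ihA _ _ _ _ _ hu huw hA eA pA (fun z => nn _ _) (fun z => nn _ _)
    obtain ⟨gB, aB⟩ := ihB _ _ _ _ _ hu huw hB eB pB (fun z => nn _ _) (fun z => nn _ _)
    obtain ⟨gC, aC⟩ := ihC _ _ _ _ _ hw (hpy _) hC eC pC (fun z => nn _ _) (fun z => hpy _)
    have hA' := hA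
    have hB' := hB
    rw [hanti] at hA' hB'
    have evA := hPAR A _ _ _ _ hu hA' aA eA pA (fun z => nn _ _) (fun z => by rw [← hanti]; exact nn _ _)
    have evB := hPAR B _ _ _ _ hu hB' aB eB pB (fun z => nn _ _) (fun z => by rw [← hanti]; exact nn _ _)
    exact ⟨⟨gA, gB, gC, evA, evB⟩, hanti, aC⟩

end NEC

open NEC in
theorem t_NEC (h1 : S_LOC1) (h2 : S_FLX) (h3 : S_ANT) (h4 : S_PAR) : S_NEC := by
  intro A B C ⟨p, v, ℓ, hN⟩
  obtain ⟨hu, hp, hE, hA, hB, hC, hv, _⟩ := h1 A B C p v ℓ hN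
  have hxy : p (.inl false) ≠ p (.inl true) := fun h => by
    have := hp h
    injection this with h'
    exact Bool.noConfusion h'
  have hx := hu (.inl false)
  have hc := (h2 C _ _ _ _ _ hx hC).2.2.2.2.1
  have hab : ‖v (.inl A.first) + v (.inr (.inl B.first))‖ = 1 := by
    have e : v (.inl A.first) + v (.inr (.inl B.first)) = -v (.inr (.inr C.first)) :=
      eq_neg_of_add_eq_zero_left hv
    rw [e, norm_neg]
    exact hc
  have hanti := h3 A B _ _ _ _ _ _ _ _ hx hxy hA hB hab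
  have eA : Emb (A.src (p (.inl false)) (fun z => p (.inr (.inl z))))
      (fun e => v (.inl e)) (fun e => ℓ (.inl e)) := by
    intro e f a b g1 g2 g3 g4 g5
    obtain ⟨g6, g7⟩ := hE (.inl e) (.inl f) a b g1 g2 g3 g4 g5
    exact ⟨Sum.inl_injective g6, g7⟩
  have eB : Emb (B.src (p (.inl false)) (fun z => p (.inr (.inr (.inl z)))))
      (fun e => v (.inr (.inl e))) (fun e => ℓ (.inr (.inl e))) := by
    intro e f a b g1 g2 g3 g4 g5
    obtain ⟨g6, g7⟩ := hE (.inr (.inl e)) (.inr (.inl f)) a b g1 g2 g3 g4 g5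
    exact ⟨Sum.inl_injective (Sum.inr_injective g6), g7⟩
  have eC : Emb (C.src (p (.inl false)) (fun z => p (.inr (.inr (.inr z)))))
      (fun e => v (.inr (.inr e))) (fun e => ℓ (.inr (.inr e))) := by
    intro e f a b g1 g2 g3 g4 g5
    obtain ⟨g6, g7⟩ := hE (.inr (.inr e)) (.inr (.inr f)) a b g1 g2 g3 g4 g5
    exact ⟨Sum.inr_injective (Sum.inr_injective g6), g7⟩
  have pA : Function.Injective (fun z : A.V => p (.inr (.inl z))) := fun a b h =>
    Sum.inl_injective (Sum.inr_injective (hp h))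
  have pB : Function.Injective (fun z : B.V => p (.inr (.inr (.inl z)))) := fun a b h =>
    Sum.inl_injective (Sum.inr_injective (Sum.inr_injective (hp h)))
  have pC : Function.Injective (fun z : C.V => p (.inr (.inr (.inr z)))) := fun a b h =>
    Sum.inr_injective (Sum.inr_injective (Sum.inr_injective (hp h)))
  have nn : ∀ (b : Bool) (z : A.V ⊕ B.V ⊕ C.V), p (.inr z) ≠ p (.inl b) := fun b z h => by
    have := hp h
    cases this
  obtain ⟨gA, aA⟩ := main h3 h4 A _ _ _ _ _ hx hxy hA eA pA (fun z => nn _ _) (fun z => nn _ _)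
  obtain ⟨gB, aB⟩ := main h3 h4 B _ _ _ _ _ hx hxy hB eB pB (fun z => nn _ _) (fun z => nn _ _)
  obtain ⟨gC, aC⟩ := main h3 h4 C _ _ _ _ _ hx hxy hC eC pC (fun z => nn _ _) (fun z => nn _ _)
  rw [hanti] at hA hB hC
  have evA := h4 A _ _ _ _ hx hA aA eA pA (fun z => nn _ _) (fun z => by rw [← hanti]; exact nn _ _)
  have evB := h4 B _ _ _ _ hx hB aB eB pB (fun z => nn _ _) (fun z => by rw [← hanti]; exact nn _ _)
  have evC := h4 C _ _ _ _ hx hC aC eC pC (fun z => nn _ _) (fun z => by rw [← hanti]; exact nn _ _)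
  exact ⟨⟨gA, evA⟩, ⟨gB, evB⟩, ⟨gC, evC⟩⟩

end Pool.Agent.H57N
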