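import Pool.Agent.H57N.Stm

/-!
PROJECT GN57, piece NU: a generic pair of directions at 120 degrees.
-/

set_option autoImplicit false

namespace Pool.Agent.H57N

open Real Polynomial
open scoped RealInnerProductSpace

/-- the direction with parameter `t` and sign `e` -/
noncomputable def nuAl (b : OrthonormalBasis (Fin 4) ℝ E4) (e t : ℝ) : E4 :=
  (1 / 2 : ℝ) • b 1 + (e * (√3 / 2)) • (((1 - t ^ 2) / (1 + t ^ 2)) • b 2 +
    (2 * t / (1 + t ^ 2)) • b 3)

theorem nu_inner (b : OrthonormalBasis (Fin 4) ℝ E4) (e t : ℝ) (n : E4) :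
    ⟪n, nuAl b e t⟫ = (1 / 2) * ⟪n, b 1⟫ + (e * (√3 / 2)) * (((1 - t ^ 2) / (1 + t ^ 2)) *
      ⟪n, b 2⟫ + (2 * t / (1 + t ^ 2)) * ⟪n, b 3⟫) := by
  simp only [nuAl, inner_add_right, inner_smul_right]

theorem nu_bb (b : OrthonormalBasis (Fin 4) ℝ E4) (i j : Fin 4) :
    ⟪b i, b j⟫ = if i = j then (1 : ℝ) else 0 := by
  exact orthonormal_iff_ite.1 b.orthonormal i j

theorem nu_norm (b : OrthonormalBasis (Fin 4) ℝ E4) (e t : ℝ) (he : e ^ 2 = 1) :
    ‖nuAl b e t‖ = 1 := by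
  have h3 : (√3 : ℝ) ^ 2 = 3 := Real.sq_sqrt (by norm_num)
  have hpos : (1 + t ^ 2 : ℝ) ≠ 0 := by positivity
  have h1 : ⟪b 1, nuAl b e t⟫ = 1 / 2 := by
    rw [nu_inner]; simp
  have h2 : ⟪b 2, nuAl b e t⟫ = (e * (√3 / 2)) * ((1 - t ^ 2) / (1 + t ^ 2)) := by
    rw [nu_inner]; simp
  have h4 : ⟪b 3, nuAl b e t⟫ = (e * (√3 / 2)) * (2 * t / (1 + t ^ 2)) := by
    rw [nu_inner]; simp
  have h5 : ⟪nuAl b e t, nuAl b e t⟫ = 1 := by
    rw [nu_inner, real_inner_comm (b 1), real_inner_comm (b 2), real_inner_comm (b 3), h1, h2, h4]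
    field_simp
    rw [h3, he]
    ring
  rw [real_inner_self_eq_norm_sq] at h5
  have := norm_nonneg (nuAl b e t)
  nlinarith

theorem nu_fin (b : OrthonormalBasis (Fin 4) ℝ E4) (P : Submodule ℝ E4)
    (hP : Module.finrank ℝ P ≤ 2) (hu : b 0 ∉ P) (e : ℝ) (he : e ^ 2 = 1) :
    {t : ℝ | ¬ Disjoint (pl (b 0) (nuAl b e t)) P}.Finite := by
  have hQ : P ⊔ Submodule.span ℝ {b 0} ≠ ⊤ := by
    intro h
    have h1 := Submodule.finrank_add_le_finrank_add_finrank P (Submodule.span ℝ {b 0})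
    have h2 : Module.finrank ℝ (Submodule.span ℝ ({b 0} : Set E4)) ≤ 1 := by
      simpa using finrank_span_le_card (R := ℝ) ({b 0} : Set E4)
    rw [h, finrank_top, finrank_euclideanSpace] at h1
    simp at h1
    omega
  have hQ' : (P ⊔ Submodule.span ℝ {b 0})ᗮ ≠ ⊥ := by
    intro h
    exact hQ (Submodule.orthogonal_eq_bot_iff.1 h)
  obtain ⟨n, hn, hn0⟩ := Submodule.exists_mem_ne_zero_of_ne_bot hQ'
  have hnP : ∀ z ∈ P, ⟪n, z⟫ = 0 := by
    intro z hz
    have := (Submodule.mem_orthogonal' _ _).1 hn z (Submodule.mem_sup_left hz)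
    exact this
  have hn1 : ⟪n, b 0⟫ = 0 := by
    exact (Submodule.mem_orthogonal' _ _).1 hn (b 0)
      (Submodule.mem_sup_right (Submodule.mem_span_singleton_self _))
  set a1 := ⟪n, b 1⟫ with ha1
  set a2 := ⟪n, b 2⟫ with ha2
  set a3 := ⟪n, b 3⟫ with ha3
  have h3 : (√3 : ℝ) ^ 2 = 3 := Real.sq_sqrt (by norm_num)
  have h3p : (0 : ℝ) < √3 := Real.sqrt_pos.2 (by norm_num)
  let p : ℝ[X] := C (a1 - e * √3 * a2) * X ^ 2 + C (2 * e * √3 * a3) * X + C (a1 + e * √3 * a2)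
  have hp : p ≠ 0 := by
    intro h
    have c0 := congrArg (eval 0) h
    have c1 := congrArg (eval 1) h
    have c2 := congrArg (eval (-1)) h
    simp only [p, eval_add, eval_mul, eval_C, eval_pow, eval_X, eval_zero] at c0 c1 c2
    have he0 : e ≠ 0 := by rintro rfl; norm_num at he
    have e1 : a1 = 0 := by linarith
    have e2 : a2 = 0 := by
      have : e * √3 * a2 = 0 := by linarith
      rcases mul_eq_zero.1 this with h' | h'
      · exact absurd h' (mul_ne_zero he0 h3p.ne')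
      · exact h'
    have e3 : a3 = 0 := by
      have : e * √3 * a3 = 0 := by linarith
      rcases mul_eq_zero.1 this with h' | h'
      · exact absurd h' (mul_ne_zero he0 h3p.ne')
      · exact h'
    apply hn0
    rw [← b.sum_repr' n]
    have h0' : ⟪b 0, n⟫ = 0 := by rw [real_inner_comm]; exact hn1
    have h1' : ⟪b 1, n⟫ = 0 := by rw [real_inner_comm]; exact e1
    have h2' : ⟪b 2, n⟫ = 0 := by rw [real_inner_comm]; exact e2
    have h3' : ⟪b 3, n⟫ = 0 := by rw [real_inner_comm]; exact e3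
    rw [Fin.sum_univ_four, h0', h1', h2', h3']
    simp
  refine (Polynomial.finite_setOfPred_isRoot hp).subset ?_
  intro t ht
  simp only [Set.mem_ofPred_eq, Submodule.disjoint_def, not_forall] at ht
  obtain ⟨z, hz1, hz2, hz0⟩ := ht
  obtain ⟨a, c, rfl⟩ := Submodule.mem_span_pair.1 hz1
  have hpos : (1 + t ^ 2 : ℝ) ≠ 0 := by positivity
  have hc : c ≠ 0 := by
    rintro rfl
    rw [zero_smul, add_zero] at hz0 hz2
    have ha : a ≠ 0 := by rintro rfl; simp at hz0
    apply hu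
    have := P.smul_mem a⁻¹ hz2
    rwa [smul_smul, inv_mul_cancel₀ ha, one_smul] at this
  have h5 := hnP _ hz2
  rw [inner_add_right, inner_smul_right, inner_smul_right, hn1, mul_zero, zero_add] at h5
  have h6 : ⟪n, nuAl b e t⟫ = 0 := by
    rcases mul_eq_zero.1 h5 with h' | h'
    · exact absurd h' hc
    · exact h'
  rw [nu_inner, ← ha1, ← ha2, ← ha3] at h6
  simp only [Set.mem_ofPred_eq, IsRoot.def, p, eval_add, eval_mul, eval_C, eval_pow, eval_X]
  field_simp at h6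
  linarith

theorem t_NU : S_NU := by
  intro u τ S hu hτ huτ hS hS2 hSu
  have hon : Orthonormal ℝ (({0, 1} : Set (Fin 4)).domRestrict ![u, τ, 0, 0]) := by
    rw [orthonormal_iff_ite]
    rintro ⟨i, hi⟩ ⟨j, hj⟩
    have hi' : i = 0 ∨ i = 1 := by simpa using hi
    have hj' : j = 0 ∨ j = 1 := by simpa using hj
    rcases hi' with rfl | rfl <;> rcases hj' with rfl | rfl
    · simp [Set.domRestrict_apply, hu]
    · simp [Set.domRestrict_apply, huτ]
    · simp [Set.domRestrict_apply, real_inner_comm, huτ]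
    · simp [Set.domRestrict_apply, hτ]
  obtain ⟨b, hb⟩ := hon.exists_orthonormalBasis_extension_of_card_eq (by simp)
  have hb0 : b 0 = u := by simpa using hb 0 (by simp)
  have hb1 : b 1 = τ := by simpa using hb 1 (by simp)
  have hfin : (⋃ P ∈ S, ({t : ℝ | ¬ Disjoint (pl (b 0) (nuAl b 1 t)) P} ∪
      {t : ℝ | ¬ Disjoint (pl (b 0) (nuAl b (-1) t)) P})).Finite := by
    refine hS.biUnion fun P hP => ?_
    exact (nu_fin b P (hS2 P hP) (by rw [hb0]; exact hSu P hP) 1 (by norm_num)).union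
      (nu_fin b P (hS2 P hP) (by rw [hb0]; exact hSu P hP) (-1) (by norm_num))
  obtain ⟨t, ht⟩ := hfin.infinite_compl.nonempty
  simp only [Set.mem_compl_iff, Set.mem_iUnion, Set.mem_union, Set.mem_ofPred_eq, not_exists,
    not_or, not_not] at ht
  refine ⟨nuAl b 1 t, nuAl b (-1) t, nu_norm b 1 t (by norm_num), nu_norm b (-1) t (by norm_num),
    ?_, ?_, ?_, ?_, ?_⟩
  · rw [← hb0, nu_inner]; simp
  · rw [← hb0, nu_inner]; simp
  · rw [← hb1, nuAl, nuAl]
    module
  · intro P hP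
    rw [← hb0]
    exact (ht P hP).1
  · intro P hP
    rw [← hb0]
    exact (ht P hP).2

end Pool.Agent.H57N
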