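import Pool.Agent.H57N.Stm

/-!
# Project GN57, piece PAR: a chain between antipodal points with antipodal blocks is even
-/

set_option autoImplicit false

namespace Pool.Agent.H57N

open Real
open scoped RealInnerProductSpace

theorem t_PAR (h1 : S_FLX) (h2 : S_ARC) (h3 : S_TOP1) (h4 : S_TOP2) : S_PAR := by
  intro X x p v ℓ hx hL hA hE hinj hpx hpy
  obtain ⟨-, -, -, -, hv, hxv⟩ := h1 X x (-x) p v ℓ hx hL
  have e0 : arc x (v X.first) 0 = x := by simp [arc]
  have e1 : vel x (v X.first) 0 = v X.first := by simp [vel]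
  have hne : x ≠ -x := by
    intro h
    have h0 : x = 0 := by
      have h5 : (2 : ℝ) • x = 0 := by
        rw [two_smul]
        nth_rewrite 2 [h]
        rw [add_neg_cancel]
      exact (smul_eq_zero.1 h5).resolve_left (by norm_num)
    rw [h0, norm_zero] at hx
    exact zero_ne_one hx
  obtain ⟨hy, -⟩ := h3 X x (v X.first) 0 (-x) p v ℓ hx hv hxv (by rw [e0]; exact hL) e1.symm hA
  obtain ⟨hpos, hlen, hpw⟩ := h4 X x (v X.first) 0 (-x) p v ℓ hx hv hxv (by rw [e0]; exact hL)
    e1.symm hA (by rw [e0]; exact hE) hinj (by rw [e0]; exact hpx) hpy (by rw [e0]; exact hne)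
  by_contra hodd
  rw [Nat.not_even_iff_odd] at hodd
  obtain ⟨k, hk⟩ := hodd
  have hS := h2 (tops X 0 ℓ) (by rw [hlen]; omega) hpos hpw
  obtain ⟨S, hSd⟩ : ∃ S, S = ((tops X 0 ℓ).map Prod.snd).sum := ⟨_, rfl⟩
  rw [← hSd] at hS hy
  have hS0 : 0 < S := by
    rw [hSd]
    refine List.sum_pos _ ?_ ?_
    · intro a ha
      obtain ⟨I, hI, rfl⟩ := List.mem_map.1 ha
      exact hpos I hI
    · intro h
      have h5 := congrArg List.length h
      rw [List.length_map, hlen, List.length_nil] at h5
      omega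
  have hcos : cos (0 + S + X.len * π) = -1 := by
    have h5 := congrArg (fun y => ⟪x, y⟫) hy
    simp only [arc, inner_neg_right, inner_add_right, inner_smul_right, hxv, mul_zero, add_zero,
      real_inner_self_eq_norm_sq, hx] at h5
    linarith
  have hcos2 : cos (0 + S + X.len * π) = -cos S := by
    have h5 : 0 + S + (X.len : ℝ) * π = S + π + (k : ℤ) * (2 * π) := by
      rw [hk]
      push_cast
      ring
    rw [h5, cos_add_int_mul_two_pi, cos_add_pi]
  have h5 : cos S = 1 := by linarith
  have h6 := (cos_eq_one_iff_of_lt_of_lt (by linarith) hS).1 h5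
  exact hS0.ne' h6

end Pool.Agent.H57N
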