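import Pool.Agent.H57N.Stm

/-!
Piece PLN of project GN57: equal flux means the same oriented great circle.
-/

set_option autoImplicit false

namespace Pool.Agent.H57N

open Real
open scoped RealInnerProductSpace

namespace PLNP

theorem inner_eq (a b : E4) : ⟪a, b⟫ = ∑ j, a j * b j := by
  rw [EuclideanSpace.inner_eq_star_dotProduct]
  simp [dotProduct, mul_comm]

/-- contraction of a flux with a vector -/
theorem contr (x v z : E4) (i : Fin 4) :
    ∑ j, fl x v i j * z j = (⟪v, z⟫ • x - ⟪x, z⟫ • v) i := by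
  simp only [inner_eq, fl, PiLp.sub_apply, PiLp.smul_apply, smul_eq_mul, Finset.sum_mul]
  rw [← Finset.sum_sub_distrib]
  refine Finset.sum_congr rfl fun j _ => ?_
  ring

theorem contr' {x v y w : E4} (h : fl x v = fl y w) (z : E4) :
    ⟪v, z⟫ • x - ⟪x, z⟫ • v = ⟪w, z⟫ • y - ⟪y, z⟫ • w := by
  ext i
  rw [← contr, ← contr, h]

end PLNP

open PLNP

theorem t_PLN : S_PLN := by
  intro x v y w hx hv hxv hy hw hyw h
  have hww : ⟪w, w⟫ = 1 := by rw [real_inner_self_eq_norm_sq, hw]; norm_num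
  have hyy : ⟪y, y⟫ = 1 := by rw [real_inner_self_eq_norm_sq, hy]; norm_num
  have hxx : ⟪x, x⟫ = 1 := by rw [real_inner_self_eq_norm_sq, hx]; norm_num
  have hvv : ⟪v, v⟫ = 1 := by rw [real_inner_self_eq_norm_sq, hv]; norm_num
  have hvx : ⟪v, x⟫ = 0 := by rw [real_inner_comm]; exact hxv
  have hwy : ⟪w, y⟫ = 0 := by rw [real_inner_comm]; exact hyw
  have e1 := contr' h w
  have e2 := contr' h y
  rw [hww, hyw, one_smul, zero_smul, sub_zero] at e1
  rw [hwy, hyy, one_smul, zero_smul, zero_sub] at e2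
  obtain ⟨c, hc⟩ : ∃ c, c = ⟪v, w⟫ := ⟨_, rfl⟩
  obtain ⟨s, hs⟩ : ∃ s, s = -⟪x, w⟫ := ⟨_, rfl⟩
  have e3 : y = c • x + s • v := by rw [← e1, hc, hs]; module
  have e4 : ⟪x, y⟫ = c := by
    rw [e3, inner_add_right, real_inner_smul_right, real_inner_smul_right, hxx, hxv]; ring
  have e5 : ⟪v, y⟫ = s := by
    rw [e3, inner_add_right, real_inner_smul_right, real_inner_smul_right, hvx, hvv]; ring
  have e6 : w = (-s) • x + c • v := by
    rw [e4, e5] at e2
    have : w = -(s • x - c • v) := by rw [e2, neg_neg]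
    rw [this]; module
  have e7 : c ^ 2 + s ^ 2 = 1 := by
    have : ⟪y, y⟫ = c * c + s * s := by
      nth_rewrite 1 [e3]
      rw [inner_add_left, real_inner_smul_left, real_inner_smul_left, e4, e5]
    rw [hyy] at this
    linarith
  have hn : ‖(⟨c, s⟩ : ℂ)‖ = 1 := by
    rw [Complex.norm_def, Complex.normSq_mk, ← sq, ← sq, e7, Real.sqrt_one]
  have hn0 : (⟨c, s⟩ : ℂ) ≠ 0 := by
    intro h0
    rw [h0, norm_zero] at hn
    norm_num at hn
  refine ⟨Complex.arg ⟨c, s⟩, ?_, ?_⟩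
  · rw [arc, Complex.cos_arg hn0, Complex.sin_arg, hn, div_one, div_one]
    exact e3
  · rw [vel, Complex.cos_arg hn0, Complex.sin_arg, hn, div_one, div_one]
    exact e6

end Pool.Agent.H57N
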