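import Pool.Agent.H57N.GEO2

/-!
The recursive construction.
-/

set_option autoImplicit false

namespace Pool.Agent.H57N

open Real
open scoped RealInnerProductSpace

/-- the set of planes of the edges of a realized chain -/
def planes {X : Ch} (x : E4) (p : X.V → E4) (v : X.E → E4) : Set (Submodule ℝ E4) :=
  Set.range (fun e => pl (X.src x p e) (v e))

lemma planes_finite {X : Ch} (x : E4) (p : X.V → E4) (v : X.E → E4) : (planes x p v).Finite :=
  Set.finite_range _

lemma planes_rank {X : Ch} (x : E4) (p : X.V → E4) (v : X.E → E4) :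
    ∀ P ∈ planes x p v, Module.finrank ℝ P ≤ 2 := by
  rintro P ⟨e, rfl⟩
  exact finrank_pl _ _

theorem t_STEP (hNU : S_NU) : S_STEP := by
  intro X
  induction X with
  | edge =>
    intro _ x0 v0 s σ S hx hv h hs0 hs hσ hSf hSr hS
    refine ⟨(fun z => Empty.elim z), (fun _ => σ • vel x0 v0 s), (fun _ => π - s), ?_⟩
    have hσn : ‖σ‖ = 1 := by rcases hσ with rfl | rfl <;> simp
    have hσ2 : σ * σ = 1 := by rcases hσ with rfl | rfl <;> norm_num
    have harc : ∀ t, arc (σ • arc x0 v0 s) (σ • vel x0 v0 s) t = σ • arc x0 v0 (s + t) := by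
      intro t
      rw [arc_smul, arc_arc]
    refine ⟨⟨?_, ?_, ?_, ?_⟩, rfl, ?_, ?_, ?_, ?_, ?_, ?_, ?_⟩
    · rw [norm_smul, hσn, norm_vel hx hv h, one_mul]
    · rw [real_inner_smul_left, real_inner_smul_right, inner_arc_vel hx hv h]; simp
    · linarith
    · rw [harc]
      simp [Ch.len]
    · change vel (σ • arc x0 v0 s) (σ • vel x0 v0 s) (π - s) = _
      rw [vel_smul, vel_arc]
      simp [Ch.len]
    · intro e f a b ha ha' hb hb' hab
      refine ⟨rfl, ?_⟩
      change arc (σ • arc x0 v0 s) (σ • vel x0 v0 s) a = arc (σ • arc x0 v0 s) (σ • vel x0 v0 s) b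
        at hab
      rw [harc, harc] at hab
      change a < π - s at ha'
      change b ≤ π - s at hb'
      have := ang' hx hv h hσ hσ (s := s + a) (t := s + b) (by linarith) (by linarith)
        (by linarith) (by linarith) hab
      linarith
    · intro z
      exact Empty.elim z
    · intro z
      exact Empty.elim z
    · intro z
      exact Empty.elim z
    · intro z
      exact Empty.elim z
    · intro e
      left
      refine ⟨pl_arc hx hv h hσ s, s, σ, le_rfl, ?_, ?_, hσ, harc⟩
      · change 0 < π - s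
        linarith
      · change s + (π - s) ≤ π
        linarith
  | cons A B C ihA ihB ihC =>
    intro hgood x0 v0 s σ S hx hv h hs0 hs hσ hSf hSr hS
    obtain ⟨gA, gB, gC, eA, eB⟩ := hgood
    have hσn : ‖σ‖ = 1 := by rcases hσ with rfl | rfl <;> simp
    have hσ2 : σ * σ = 1 := by rcases hσ with rfl | rfl <;> norm_num
    have hσ0 : σ ≠ 0 := by rcases hσ with rfl | rfl <;> norm_num
    have hσ' : -σ = 1 ∨ -σ = -1 := by rcases hσ with rfl | rfl <;> simp
    -- the position of the block
    set t1 : ℝ := (s + π) / 2 with ht1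
    have h1 : s < t1 := by rw [ht1]; linarith
    have h2 : t1 < π := by rw [ht1]; linarith
    have h0 : 0 < t1 := by linarith
    set u : E4 := σ • arc x0 v0 t1 with hu
    set τ : E4 := σ • vel x0 v0 t1 with hτ
    have hun : ‖u‖ = 1 := by rw [hu, norm_smul, hσn, norm_arc hx hv h, one_mul]
    have hτn : ‖τ‖ = 1 := by rw [hτ, norm_smul, hσn, norm_vel hx hv h, one_mul]
    have huτ : ⟪u, τ⟫ = 0 := by
      rw [hu, hτ, real_inner_smul_left, real_inner_smul_right, inner_arc_vel hx hv h]; simp
    have hplu : pl u τ = pl x0 v0 := pl_arc hx hv h hσ t1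
    have huS : ∀ P ∈ S, u ∉ P := by
      intro P hP hmem
      refine hS P hP t1 h1 h2 ?_
      have := P.smul_mem σ hmem
      rwa [hu, ← mul_smul, hσ2, one_smul] at this
    obtain ⟨α, β, hα, hβ, huα, huβ, hαβ, hdα, hdβ⟩ := hNU u τ S hun hτn huτ hSf hSr huS
    have hab1 : ‖α + β‖ = 1 := by rw [hαβ]; exact hτn
    have hba1 : ‖β + α‖ = 1 := by rw [add_comm]; exact hab1
    -- points common to two of the three planes
    have cAX : ∀ z, z ∈ pl u α → z ∈ pl x0 v0 → ∃ c : ℝ, z = c • u := by
      intro z hz hz'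
      refine tri' hun hα hβ huα huβ hab1 hz ?_
      rw [hαβ, hplu]; exact hz'
    have cBX : ∀ z, z ∈ pl u β → z ∈ pl x0 v0 → ∃ c : ℝ, z = c • u := by
      intro z hz hz'
      refine tri' hun hβ hα huβ huα hba1 hz ?_
      rw [add_comm β α, hαβ, hplu]; exact hz'
    have cAB : ∀ z, z ∈ pl u α → z ∈ pl u β → ∃ c : ℝ, z = c • u := by
      intro z hz hz'
      exact tri hun hα hβ huα huβ hab1 hz hz'
    have hαne : ∀ t, arc u α t ≠ 0 := arc_ne_zero hun hα huα
    have hβne : ∀ t, arc u β t ≠ 0 := arc_ne_zero hun hβ huβ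
    -- the chain `A`
    set SA : Set (Submodule ℝ E4) := S ∪ {pl x0 v0, pl u β} with hSA
    have hSAf : SA.Finite := hSf.union (by simp)
    have hSAr : ∀ P ∈ SA, Module.finrank ℝ P ≤ 2 := by
      rintro P (hP | hP | hP)
      · exact hSr P hP
      · rw [hP]; exact finrank_pl _ _
      · rw [hP]; exact finrank_pl _ _
    have hSAc : ∀ P ∈ SA, ∀ t, (0 : ℝ) < t → t < π → arc u α t ∉ P := by
      rintro P (hP | hP | hP) t ht ht' hmem
      · exact hαne t (Submodule.disjoint_def.1 (hdα P hP) _ (arc_mem _ _ _) hmem)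
      · rw [hP] at hmem
        obtain ⟨c, hc⟩ := cAX _ (arc_mem _ _ _) hmem
        exact arc_line hun hα huα ht ht' hc
      · rw [hP] at hmem
        obtain ⟨c, hc⟩ := cAB _ (arc_mem _ _ _) hmem
        exact arc_line hun hα huα ht ht' hc
    obtain ⟨pA, vA, lA, oA⟩ := ihA gA u α 0 1 SA hun hα huα le_rfl pi_pos (Or.inl rfl) hSAf hSAr
      hSAc
    -- the chain `B`
    set PA := planes ((1 : ℝ) • arc u α 0) pA vA with hPA
    set SB : Set (Submodule ℝ E4) := (S ∪ {pl x0 v0}) ∪ PA with hSB
    have hSBf : SB.Finite := (hSf.union (by simp)).union (planes_finite _ _ _)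
    have hSBr : ∀ P ∈ SB, Module.finrank ℝ P ≤ 2 := by
      rintro P ((hP | hP) | hP)
      · exact hSr P hP
      · rw [hP]; exact finrank_pl _ _
      · exact planes_rank _ _ _ P hP
    -- planes of the edges of `A`
    have plA : ∀ P ∈ PA, P = pl u α ∨ ∀ Q ∈ SA, Disjoint P Q := by
      rintro P ⟨e, rfl⟩
      rcases oA.2.2.2.2.2.2.2.2 e with ⟨he, _⟩ | ⟨he, _⟩
      · exact Or.inl he
      · exact Or.inr he
    have mX : pl x0 v0 ∈ SA := Or.inr (Or.inl rfl)
    have mB : pl u β ∈ SA := Or.inr (Or.inr rfl)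
    have hSBc : ∀ P ∈ SB, ∀ t, (0 : ℝ) < t → t < π → arc u β t ∉ P := by
      rintro P ((hP | hP) | hP) t ht ht' hmem
      · exact hβne t (Submodule.disjoint_def.1 (hdβ P hP) _ (arc_mem _ _ _) hmem)
      · rw [hP] at hmem
        obtain ⟨c, hc⟩ := cBX _ (arc_mem _ _ _) hmem
        exact arc_line hun hβ huβ ht ht' hc
      · rcases plA P hP with he | he
        · rw [he] at hmem
          obtain ⟨c, hc⟩ := cAB _ hmem (arc_mem _ _ _)
          exact arc_line hun hβ huβ ht ht' hc
        · exact hβne t (Submodule.disjoint_def.1 (he _ mB) _ hmem (arc_mem _ _ _))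
    obtain ⟨pB, vB, lB, oB⟩ := ihB gB u β 0 1 SB hun hβ huβ le_rfl pi_pos (Or.inl rfl) hSBf hSBr
      hSBc
    set PB := planes ((1 : ℝ) • arc u β 0) pB vB with hPB
    have mXB : pl x0 v0 ∈ SB := Or.inl (Or.inr rfl)
    have plB : ∀ P ∈ PB, P = pl u β ∨ ∀ Q ∈ SB, Disjoint P Q := by
      rintro P ⟨e, rfl⟩
      rcases oB.2.2.2.2.2.2.2.2 e with ⟨he, _⟩ | ⟨he, _⟩
      · exact Or.inl he
      · exact Or.inr he
    -- the chain `C`
    set SC : Set (Submodule ℝ E4) := (S ∪ PA) ∪ PB with hSC
    have hSCf : SC.Finite := (hSf.union (planes_finite _ _ _)).union (planes_finite _ _ _)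
    have hSCr : ∀ P ∈ SC, Module.finrank ℝ P ≤ 2 := by
      rintro P ((hP | hP) | hP)
      · exact hSr P hP
      · exact planes_rank _ _ _ P hP
      · exact planes_rank _ _ _ P hP
    -- points of the circle of `X` in the planes of `A` and `B`
    have cirA : ∀ P ∈ PA, ∀ t, arc x0 v0 t ∈ P → ∃ c : ℝ, arc x0 v0 t = c • u := by
      intro P hP t ht
      rcases plA P hP with he | he
      · rw [he] at ht
        exact cAX _ ht (arc_mem _ _ _)
      · exact absurd (Submodule.disjoint_def.1 (he _ mX) _ ht (arc_mem _ _ _))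
          (arc_ne_zero hx hv h t)
    have cirB : ∀ P ∈ PB, ∀ t, arc x0 v0 t ∈ P → ∃ c : ℝ, arc x0 v0 t = c • u := by
      intro P hP t ht
      rcases plB P hP with he | he
      · rw [he] at ht
        exact cBX _ ht (arc_mem _ _ _)
      · exact absurd (Submodule.disjoint_def.1 (he _ mXB) _ ht (arc_mem _ _ _))
          (arc_ne_zero hx hv h t)
    have cu : ∀ t c : ℝ, 0 ≤ t → t ≤ π → arc x0 v0 t = c • u → t = t1 := by
      intro t c ht ht' he
      exact ang hx hv h h0 h2 ht ht' (c := c * σ) (by rw [he, hu, mul_smul])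
    have hSCc : ∀ P ∈ SC, ∀ t, t1 < t → t < π → arc x0 v0 t ∉ P := by
      rintro P ((hP | hP) | hP) t ht ht' hmem
      · exact hS P hP t (by linarith) ht' hmem
      · obtain ⟨c, hc⟩ := cirA P hP t hmem
        have := cu t c (by linarith) ht'.le hc
        linarith
      · obtain ⟨c, hc⟩ := cirB P hP t hmem
        have := cu t c (by linarith) ht'.le hc
        linarith
    obtain ⟨pC, vC, lC, oC⟩ := ihC gC x0 v0 t1 (-σ) SC hx hv h h0.le h2 hσ' hSCf hSCr hSCc
    -- normal forms of the starting points
    have su : (1 : ℝ) • arc u α 0 = u := by rw [one_smul, arc_zero]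
    have su' : (1 : ℝ) • arc u β 0 = u := by rw [one_smul, arc_zero]
    have sw : (-σ) • arc x0 v0 t1 = -u := by rw [hu, neg_smul]
    have hpowA : (1 * (-1 : ℝ) ^ A.len) • arc u α π = -u := by
      rw [eA.neg_one_pow, arc_pi]; simp
    have hpowB : (1 * (-1 : ℝ) ^ B.len) • arc u β π = -u := by
      rw [eB.neg_one_pow, arc_pi]; simp
    have LA := oA.1
    have LB := oB.1
    have LC := oC.1
    have uA := Out.unit hun hα huα (Or.inl rfl) oA
    have uB := Out.unit hun hβ huβ (Or.inl rfl) oB
    have uC := Out.unit hx hv h hσ' oC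
    have iA := fun e (b : ℝ) (hb : 0 < b) (hb' : b < lA e) (P : Submodule ℝ E4) (hP : P ∈ SA) =>
      Out.inter hun hα huα (Or.inl rfl) oA hSAc e hb hb' hP
    have iB := fun e (b : ℝ) (hb : 0 < b) (hb' : b < lB e) (P : Submodule ℝ E4) (hP : P ∈ SB) =>
      Out.inter hun hβ huβ (Or.inl rfl) oB hSBc e hb hb' hP
    have iC := fun e (b : ℝ) (hb : 0 < b) (hb' : b < lC e) (P : Submodule ℝ E4) (hP : P ∈ SC) =>
      Out.inter hx hv h hσ' oC hSCc e hb hb' hP
    have zA := fun e (b : ℝ) (hb : 0 ≤ b) (hb' : b ≤ lA e) (P : Submodule ℝ E4) (hP : P ∈ SA) hz =>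
      Out.closed hun hα huα (Or.inl rfl) oA hSAc e hb hb' (P := P) hP hz
    have zB := fun e (b : ℝ) (hb : 0 ≤ b) (hb' : b ≤ lB e) (P : Submodule ℝ E4) (hP : P ∈ SB) hz =>
      Out.closed hun hβ huβ (Or.inl rfl) oB hSBc e hb hb' (P := P) hP hz
    have oc := fun e (b r t : ℝ) h1 h2 h3 h4 h5 h6 =>
      Out.onCircle hx hv h hσ' oC h0.le e (b := b) (r := r) (t := t) h1 h2 h3 h4 h5 h6
    have vtA := fun z (P : Submodule ℝ E4) (hP : P ∈ SA) =>
      Out.vert hun hα huα (Or.inl rfl) oA hSAc z (P := P) hP
    have vtB := fun z (P : Submodule ℝ E4) (hP : P ∈ SB) =>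
      Out.vert hun hβ huβ (Or.inl rfl) oB hSBc z (P := P) hP
    have vtC := fun z (P : Submodule ℝ E4) (hP : P ∈ SC) =>
      Out.vert hx hv h hσ' oC hSCc z (P := P) hP
    have nA := Out.pt_ne_zero hun hα huα (Or.inl rfl) oA
    have nB := Out.pt_ne_zero hun hβ huβ (Or.inl rfl) oB
    have nC := Out.pt_ne_zero hx hv h hσ' oC
    rw [su, hpowA] at LA
    rw [su', hpowB] at LB
    rw [sw] at LC
    rw [su] at uA iA zA nA
    rw [su'] at uB iB zB nB
    rw [sw] at uC iC oc nC
    have memAB : ∀ e, pl (A.src u pA e) (vA e) ∈ SB := fun e =>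
      Or.inr ⟨e, by change pl (A.src ((1 : ℝ) • arc u α 0) pA e) (vA e) = _; rw [su]⟩
    have memAC : ∀ e, pl (A.src u pA e) (vA e) ∈ SC := fun e =>
      Or.inl (Or.inr ⟨e, by change pl (A.src ((1 : ℝ) • arc u α 0) pA e) (vA e) = _; rw [su]⟩)
    have memBC : ∀ e, pl (B.src u pB e) (vB e) ∈ SC := fun e =>
      Or.inr ⟨e, by change pl (B.src ((1 : ℝ) • arc u β 0) pB e) (vB e) = _; rw [su']⟩
    have edA := oA.2.2.2.2.2.2.2.2
    have edB := oB.2.2.2.2.2.2.2.2
    have edC := oC.2.2.2.2.2.2.2.2
    rw [su] at edA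
    rw [su'] at edB
    rw [sw] at edC
    have lkA := oA.2.2.2.2.2.2.2.1
    have lkB := oB.2.2.2.2.2.2.2.1
    have lkC := oC.2.2.2.2.2.2.2.1
    rw [su] at lkA
    rw [su'] at lkB
    rw [sw] at lkC
    have emA := oA.2.2.2.1
    have emB := oB.2.2.2.1
    have emC := oC.2.2.2.1
    rw [su] at emA
    rw [su'] at emB
    rw [sw] at emC
    have fA : vA A.first = α := by
      rw [oA.2.1]; simp [vel]
    have fB : vB B.first = β := by
      rw [oB.2.1]; simp [vel]
    have fC : vC C.first = -τ := by
      rw [oC.2.1, hτ, neg_smul]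
    have gA' : fin A u pA vA lA = -α := by
      have := oA.2.2.1
      rw [su, eA.neg_one_pow, vel_pi] at this
      rw [this]; simp
    have gB' : fin B u pB vB lB = -β := by
      have := oB.2.2.1
      rw [su', eB.neg_one_pow, vel_pi] at this
      rw [this]; simp
    have harc : ∀ t, arc (σ • arc x0 v0 s) (σ • vel x0 v0 s) t = σ • arc x0 v0 (s + t) := by
      intro t
      rw [arc_smul, arc_arc]
    have hmemX : ∀ (r : ℝ) t, r • arc x0 v0 t ∈ pl x0 v0 := fun r t =>
      (pl x0 v0).smul_mem r (arc_mem _ _ _)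
    have huX : u ∈ pl x0 v0 := hmemX _ _
    -- plus or minus `u` is not an earlier point of the circle
    have notu : ∀ a : ℝ, 0 ≤ s + a → s + a < t1 → ∀ ε : ℝ, (ε = 1 ∨ ε = -1) →
        σ • arc x0 v0 (s + a) ≠ ε • u := by
      intro a ha ha' ε hε he
      have he' : (ε * σ) • arc x0 v0 t1 = σ • arc x0 v0 (s + a) := by
        rw [he, hu, mul_smul]
      have hεσ : ε * σ = 1 ∨ ε * σ = -1 := by
        rcases hε with rfl | rfl <;> rcases hσ with rfl | rfl <;> norm_num
      have := ang' hx hv h hεσ hσ h0 h2 ha (by linarith) he'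
      linarith
    have closeA : ∀ e (b : ℝ), 0 ≤ b → b ≤ lA e → arc (A.src u pA e) (vA e) b ∈ pl x0 v0 →
        ∃ ε : ℝ, (ε = 1 ∨ ε = -1) ∧ arc (A.src u pA e) (vA e) b = ε • u := by
      intro e b hb hb' hz
      obtain ⟨ε, hε, t, ht, hc⟩ := zA e b hb hb' _ mX hz
      rcases ht with rfl | rfl
      · exact ⟨ε, hε, by rw [hc, arc_zero]⟩
      · exact ⟨-ε, by rcases hε with rfl | rfl <;> simp, by rw [hc, arc_pi]; simp⟩
    have closeB : ∀ e (b : ℝ), 0 ≤ b → b ≤ lB e → arc (B.src u pB e) (vB e) b ∈ pl x0 v0 →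
        ∃ ε : ℝ, (ε = 1 ∨ ε = -1) ∧ arc (B.src u pB e) (vB e) b = ε • u := by
      intro e b hb hb' hz
      obtain ⟨ε, hε, t, ht, hc⟩ := zB e b hb hb' _ mXB hz
      rcases ht with rfl | rfl
      · exact ⟨ε, hε, by rw [hc, arc_zero]⟩
      · exact ⟨-ε, by rcases hε with rfl | rfl <;> simp, by rw [hc, arc_pi]; simp⟩
    -- vertices
    have vUA : ∀ z, pA z ∉ pl x0 v0 := fun z => vtA z _ mX
    have vUB : ∀ z, pB z ∉ pl x0 v0 := fun z => vtB z _ mXB
    have vAB : ∀ z z', pA z ≠ pB z' := by
      intro z z' e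
      obtain ⟨f, hf⟩ := lkA z
      rw [e] at hf
      exact vtB z' _ (memAB f) hf
    have vAC : ∀ z z', pA z ≠ pC z' := by
      intro z z' e
      obtain ⟨f, hf⟩ := lkA z
      rw [e] at hf
      exact vtC z' _ (memAC f) hf
    have vBC : ∀ z z', pB z ≠ pC z' := by
      intro z z' e
      obtain ⟨f, hf⟩ := lkB z
      rw [e] at hf
      exact vtC z' _ (memBC f) hf
    have vUC : ∀ z (ε : ℝ), (ε = 1 ∨ ε = -1) → pC z ≠ ε • u := by
      intro z ε hε e
      have hεσ : ε * σ = 1 ∨ ε * σ = -1 := by
        rcases hε with rfl | rfl <;> rcases hσ with rfl | rfl <;> norm_num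
      rcases oC.2.2.2.2.2.2.1 z with ⟨t, ht, ht', h3⟩ | ⟨h3, _⟩
      · rcases h3 with h3 | h3
        · have he' : (ε * σ) • arc x0 v0 t1 = (1 : ℝ) • arc x0 v0 t := by
            rw [one_smul, ← h3, e, hu, mul_smul]
          have := ang' hx hv h hεσ (Or.inl rfl) h0 h2 (by linarith) ht'.le he'
          linarith
        · have he' : (ε * σ) • arc x0 v0 t1 = (-1 : ℝ) • arc x0 v0 t := by
            rw [neg_one_smul, ← h3, e, hu, mul_smul]
          have := ang' hx hv h hεσ (Or.inr rfl) h0 h2 (by linarith) ht'.le he'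
          linarith
      · exact h3 (by rw [e]; exact (pl x0 v0).smul_mem _ huX)
    have huu : u ≠ -u := by
      intro e
      have h3 : (2 : ℝ) • u = 0 := by
        rw [two_smul]
        nth_rewrite 2 [e]
        simp
      have h4 : u = 0 := by simpa using h3
      rw [h4, norm_zero] at hun
      norm_num at hun
    let P : (Ch.cons A B C).V → E4 :=
      Sum.elim (fun b : Bool => cond b (-u) u) (Sum.elim pA (Sum.elim pB pC))
    let W : (Ch.cons A B C).E → E4 :=
      Sum.elim (fun _ : Unit => σ • vel x0 v0 s) (Sum.elim vA (Sum.elim vB vC))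
    let L : (Ch.cons A B C).E → ℝ :=
      Sum.elim (fun _ : Unit => t1 - s) (Sum.elim lA (Sum.elim lB lC))
    refine ⟨P, W, L, ?_, rfl, ?_, ?_, ?_, ?_, ?_, ?_, ?_⟩
    · -- local conditions
      refine ⟨hun, ?_, ⟨?_, ?_, ?_, ?_⟩, LA, LB, ?_, ?_, ?_⟩
      · change ‖-u‖ = 1
        rw [norm_neg]; exact hun
      · change ‖σ • vel x0 v0 s‖ = 1
        rw [norm_smul, hσn, norm_vel hx hv h, one_mul]
      · change ⟪σ • arc x0 v0 s, σ • vel x0 v0 s⟫ = 0
        rw [real_inner_smul_left, real_inner_smul_right, inner_arc_vel hx hv h]; simp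
      · change 0 < t1 - s
        linarith
      · change arc (σ • arc x0 v0 s) (σ • vel x0 v0 s) (t1 - s) = u
        rw [harc, hu]
        congr 2
        ring
      · have hc : (-σ * (-1 : ℝ) ^ C.len) = σ * (-1 : ℝ) ^ (Ch.cons A B C).len := by
          change _ = σ * (-1 : ℝ) ^ (C.len + 1)
          ring
        rw [hc] at LC
        exact LC
      · change vel (σ • arc x0 v0 s) (σ • vel x0 v0 s) (t1 - s) = vA A.first + vB B.first
        rw [vel_smul, vel_arc, fA, fB, hαβ, hτ]
        congr 2
        ring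
      · change vC C.first = fin A u pA vA lA + fin B u pB vB lB
        rw [fC, gA', gB', ← hαβ]
        abel
    · -- final velocity
      have hc : (-σ * (-1 : ℝ) ^ C.len) = σ * (-1 : ℝ) ^ (Ch.cons A B C).len := by
        change _ = σ * (-1 : ℝ) ^ (C.len + 1)
        ring
      have h3 := oC.2.2.1
      rw [sw, hc] at h3
      exact h3
    · -- embedded
      intro e f a b ha ha' hb hb' hab
      rcases e with e | e | e | e
      · change a < t1 - s at ha'
        rcases f with f | f | f | f
        · change b ≤ t1 - s at hb'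
          change arc (σ • arc x0 v0 s) (σ • vel x0 v0 s) a =
            arc (σ • arc x0 v0 s) (σ • vel x0 v0 s) b at hab
          rw [harc, harc] at hab
          have := ang' hx hv h hσ hσ (s := s + a) (t := s + b) (by linarith) (by linarith)
            (by linarith) (by linarith) hab
          exact ⟨rfl, by linarith⟩
        · exfalso
          change b ≤ lA f at hb'
          change arc (σ • arc x0 v0 s) (σ • vel x0 v0 s) a = arc (A.src u pA f) (vA f) b at hab
          rw [harc] at hab
          obtain ⟨ε, hε, h3⟩ := closeA f b hb hb' (by rw [← hab]; exact hmemX _ _)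
          exact notu a (by linarith) (by linarith) ε hε (by rw [hab, h3])
        · exfalso
          change b ≤ lB f at hb'
          change arc (σ • arc x0 v0 s) (σ • vel x0 v0 s) a = arc (B.src u pB f) (vB f) b at hab
          rw [harc] at hab
          obtain ⟨ε, hε, h3⟩ := closeB f b hb hb' (by rw [← hab]; exact hmemX _ _)
          exact notu a (by linarith) (by linarith) ε hε (by rw [hab, h3])
        · exfalso
          change b ≤ lC f at hb'
          change arc (σ • arc x0 v0 s) (σ • vel x0 v0 s) a = arc (C.src (-u) pC f) (vC f) b at hab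
          rw [harc] at hab
          exact oc f b σ (s + a) hσ ⟨by linarith, by linarith⟩ hb hb' hab.symm
            (Or.inl ⟨by linarith, by linarith⟩)
      · change a < lA e at ha'
        rcases f with f | f | f | f
        · exfalso
          change arc (A.src u pA e) (vA e) a = arc (σ • arc x0 v0 s) (σ • vel x0 v0 s) b at hab
          rw [harc] at hab
          exact iA e a ha ha' _ mX (by rw [hab]; exact hmemX _ _)
        · have h3 := emA e f a b ha ha' hb hb' hab
          exact ⟨by rw [h3.1], h3.2⟩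
        · exfalso
          change arc (A.src u pA e) (vA e) a = arc (B.src u pB f) (vB f) b at hab
          have h4 : arc (A.src u pA e) (vA e) a ∈ pl (B.src u pB f) (vB f) := by
            rw [hab]; exact arc_mem _ _ _
          rcases edB f with ⟨h5, _⟩ | ⟨h5, _⟩
          · rw [h5] at h4
            exact iA e a ha ha' _ mB h4
          · exact nA e a (Submodule.disjoint_def.1 (h5 _ (memAB e)) _ h4 (arc_mem _ _ _))
        · exfalso
          change arc (A.src u pA e) (vA e) a = arc (C.src (-u) pC f) (vC f) b at hab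
          have h4 : arc (A.src u pA e) (vA e) a ∈ pl (C.src (-u) pC f) (vC f) := by
            rw [hab]; exact arc_mem _ _ _
          rcases edC f with ⟨h5, _⟩ | ⟨h5, _⟩
          · rw [h5] at h4
            exact iA e a ha ha' _ mX h4
          · exact nA e a (Submodule.disjoint_def.1 (h5 _ (memAC e)) _ h4 (arc_mem _ _ _))
      · change a < lB e at ha'
        rcases f with f | f | f | f
        · exfalso
          change arc (B.src u pB e) (vB e) a = arc (σ • arc x0 v0 s) (σ • vel x0 v0 s) b at hab
          rw [harc] at hab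
          exact iB e a ha ha' _ mXB (by rw [hab]; exact hmemX _ _)
        · exfalso
          change arc (B.src u pB e) (vB e) a = arc (A.src u pA f) (vA f) b at hab
          exact iB e a ha ha' _ (memAB f) (by rw [hab]; exact arc_mem _ _ _)
        · have h3 := emB e f a b ha ha' hb hb' hab
          exact ⟨by rw [h3.1], h3.2⟩
        · exfalso
          change arc (B.src u pB e) (vB e) a = arc (C.src (-u) pC f) (vC f) b at hab
          have h4 : arc (B.src u pB e) (vB e) a ∈ pl (C.src (-u) pC f) (vC f) := by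
            rw [hab]; exact arc_mem _ _ _
          rcases edC f with ⟨h5, _⟩ | ⟨h5, _⟩
          · rw [h5] at h4
            exact iB e a ha ha' _ mXB h4
          · exact nB e a (Submodule.disjoint_def.1 (h5 _ (memBC e)) _ h4 (arc_mem _ _ _))
      · change a < lC e at ha'
        rcases f with f | f | f | f
        · exfalso
          change b ≤ t1 - s at hb'
          change arc (C.src (-u) pC e) (vC e) a = arc (σ • arc x0 v0 s) (σ • vel x0 v0 s) b at hab
          rw [harc] at hab
          exact oc e a σ (s + b) hσ ⟨by linarith, by linarith⟩ ha.le ha'.le hab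
            (Or.inr ⟨ha, ha'⟩)
        · exfalso
          change arc (C.src (-u) pC e) (vC e) a = arc (A.src u pA f) (vA f) b at hab
          exact iC e a ha ha' _ (memAC f) (by rw [hab]; exact arc_mem _ _ _)
        · exfalso
          change arc (C.src (-u) pC e) (vC e) a = arc (B.src u pB f) (vB f) b at hab
          exact iC e a ha ha' _ (memBC f) (by rw [hab]; exact arc_mem _ _ _)
        · have h3 := emC e f a b ha ha' hb hb' hab
          exact ⟨by rw [h3.1], h3.2⟩
    · -- injective
      have hb : ∀ b : Bool, ∃ ε : ℝ, (ε = 1 ∨ ε = -1) ∧ cond b (-u) u = ε • u := by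
        intro b
        cases b
        · exact ⟨1, Or.inl rfl, by simp⟩
        · exact ⟨-1, Or.inr rfl, by simp⟩
      have hbX : ∀ b : Bool, cond b (-u) u ∈ pl x0 v0 := by
        intro b
        obtain ⟨ε, _, he⟩ := hb b
        rw [he]; exact (pl x0 v0).smul_mem _ huX
      intro z z' hzz
      rcases z with z | z | z | z
      · rcases z' with z' | z' | z' | z'
        · change cond z (-u) u = cond z' (-u) u at hzz
          cases z <;> cases z'
          · rfl
          · exact absurd hzz huu
          · exact absurd hzz.symm huu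
          · rfl
        · change cond z (-u) u = pA z' at hzz
          exact absurd (hzz ▸ hbX z) (vUA z')
        · change cond z (-u) u = pB z' at hzz
          exact absurd (hzz ▸ hbX z) (vUB z')
        · change cond z (-u) u = pC z' at hzz
          obtain ⟨ε, hε, he⟩ := hb z
          exact absurd (hzz.symm.trans he) (vUC z' ε hε)
      · rcases z' with z' | z' | z' | z'
        · change pA z = cond z' (-u) u at hzz
          exact absurd (hzz.symm ▸ hbX z') (vUA z)
        · have h3 := oA.2.2.2.2.1 hzz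
          rw [h3]
        · exact absurd hzz (vAB z z')
        · exact absurd hzz (vAC z z')
      · rcases z' with z' | z' | z' | z'
        · change pB z = cond z' (-u) u at hzz
          exact absurd (hzz.symm ▸ hbX z') (vUB z)
        · exact absurd hzz.symm (vAB z' z)
        · have h3 := oB.2.2.2.2.1 hzz
          rw [h3]
        · exact absurd hzz (vBC z z')
      · rcases z' with z' | z' | z' | z'
        · change pC z = cond z' (-u) u at hzz
          obtain ⟨ε, hε, he⟩ := hb z'
          exact absurd (hzz.trans he) (vUC z ε hε)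
        · exact absurd hzz.symm (vAC z' z)
        · exact absurd hzz.symm (vBC z' z)
        · have h3 := oC.2.2.2.2.1 hzz
          rw [h3]
    · -- unit vectors
      intro z
      rcases z with z | z | z | z
      · change ‖cond z (-u) u‖ = 1
        cases z
        · exact hun
        · change ‖-u‖ = 1
          rw [norm_neg]; exact hun
      · exact oA.2.2.2.2.2.1 z
      · exact oB.2.2.2.2.2.1 z
      · exact oC.2.2.2.2.2.1 z
    · -- positions of the vertices
      intro z
      rcases z with z | z | z | z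
      · left
        refine ⟨t1, h1, h2, ?_⟩
        change cond z (-u) u = _ ∨ cond z (-u) u = _
        cases z
        · change u = _ ∨ u = _
          rcases hσ with rfl | rfl
          · left; rw [hu]; simp
          · right; rw [hu]; simp
        · change -u = _ ∨ -u = _
          rcases hσ with rfl | rfl
          · right; rw [hu]; simp
          · left; rw [hu]; simp
      · right
        exact ⟨vUA z, fun Q hQ => vtA z Q (Or.inl hQ)⟩
      · right
        exact ⟨vUB z, fun Q hQ => vtB z Q (Or.inl (Or.inl hQ))⟩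
      · rcases oC.2.2.2.2.2.2.1 z with ⟨t, ht, ht', h3⟩ | ⟨h3, h4⟩
        · left
          exact ⟨t, by linarith, ht', h3⟩
        · right
          exact ⟨h3, fun Q hQ => h4 Q (Or.inl (Or.inl hQ))⟩
    · -- every vertex is in the plane of an edge
      intro z
      rcases z with z | z | z | z
      · refine ⟨.inl (), ?_⟩
        change cond z (-u) u ∈ pl (σ • arc x0 v0 s) (σ • vel x0 v0 s)
        rw [pl_arc hx hv h hσ s]
        cases z
        · exact huX
        · exact (pl x0 v0).neg_mem huX
      · obtain ⟨e, he⟩ := lkA z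
        exact ⟨.inr (.inl e), he⟩
      · obtain ⟨e, he⟩ := lkB z
        exact ⟨.inr (.inr (.inl e)), he⟩
      · obtain ⟨e, he⟩ := lkC z
        exact ⟨.inr (.inr (.inr e)), he⟩
    · -- edges
      intro e
      rcases e with e | e | e | e
      · left
        refine ⟨pl_arc hx hv h hσ s, s, σ, le_rfl, ?_, ?_, hσ, harc⟩
        · change 0 < t1 - s
          linarith
        · change s + (t1 - s) ≤ π
          linarith
      · right
        refine ⟨?_, ?_⟩
        · intro Q hQ
          change Disjoint (pl (A.src u pA e) (vA e)) Q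
          rcases edA e with ⟨h3, _⟩ | ⟨h3, _⟩
          · rw [h3]; exact hdα Q hQ
          · exact h3 Q (Or.inl hQ)
        · intro t ht hmem
          change arc x0 v0 t ∈ pl (A.src u pA e) (vA e) at hmem
          obtain ⟨c, hc⟩ := cirA _ ⟨e, by
            change pl (A.src ((1 : ℝ) • arc u α 0) pA e) (vA e) = _; rw [su]⟩ t hmem
          rcases ht with ⟨ht, ht'⟩ | ht
          · have := cu t c ht (by linarith) hc
            linarith
          · have := cu t c (by rw [ht]; exact pi_pos.le) ht.le hc
            linarith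
      · right
        refine ⟨?_, ?_⟩
        · intro Q hQ
          change Disjoint (pl (B.src u pB e) (vB e)) Q
          rcases edB e with ⟨h3, _⟩ | ⟨h3, _⟩
          · rw [h3]; exact hdβ Q hQ
          · exact h3 Q (Or.inl (Or.inl hQ))
        · intro t ht hmem
          change arc x0 v0 t ∈ pl (B.src u pB e) (vB e) at hmem
          obtain ⟨c, hc⟩ := cirB _ ⟨e, by
            change pl (B.src ((1 : ℝ) • arc u β 0) pB e) (vB e) = _; rw [su']⟩ t hmem
          rcases ht with ⟨ht, ht'⟩ | ht
          · have := cu t c ht (by linarith) hc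
            linarith
          · have := cu t c (by rw [ht]; exact pi_pos.le) ht.le hc
            linarith
      · rcases edC e with ⟨h3, c, ε, hc, hl, hc', hε, he⟩ | ⟨h3, h4⟩
        · left
          exact ⟨h3, c, ε, by linarith, hl, hc', hε, he⟩
        · right
          refine ⟨fun Q hQ => h3 Q (Or.inl (Or.inl hQ)), ?_⟩
          intro t ht
          apply h4 t
          rcases ht with ⟨ht, ht'⟩ | ht
          · exact Or.inl ⟨ht, by linarith⟩
          · exact Or.inr ht

end Pool.Agent.H57N
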