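import Pool.Agent.H57N.Stm

/-! # Project GN57, piece TOP1 (helper11) -/

set_option autoImplicit false

namespace Pool.Agent.H57N

open Real
open scoped RealInnerProductSpace

namespace TOP1P

lemma arc_arc (x v : E4) (a b : ℝ) : arc (arc x v a) (vel x v a) b = arc x v (a + b) := by
  unfold arc vel
  rw [cos_add, sin_add]
  module

lemma vel_arc (x v : E4) (a b : ℝ) : vel (arc x v a) (vel x v a) b = vel x v (a + b) := by
  unfold arc vel
  rw [cos_add, sin_add]
  module

lemma arc_pi (x v : E4) (a : ℝ) : arc x v (a + π) = -arc x v a := by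
  unfold arc
  rw [cos_add_pi, sin_add_pi]
  module

lemma vel_pi (x v : E4) (a : ℝ) : vel x v (a + π) = -vel x v a := by
  unfold vel
  rw [cos_add_pi, sin_add_pi]
  module

lemma inner_arc_vel {x v : E4} (hx : ‖x‖ = 1) (hv : ‖v‖ = 1) (h : ⟪x, v⟫ = 0) (a : ℝ) :
    ⟪arc x v a, vel x v a⟫ = 0 := by
  unfold arc vel
  simp only [inner_add_left, inner_add_right, real_inner_smul_left, real_inner_smul_right,
    real_inner_self_eq_norm_sq, real_inner_comm x v, h, hx, hv]
  ring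

lemma norm_vel {x v : E4} (hx : ‖x‖ = 1) (hv : ‖v‖ = 1) (h : ⟪x, v⟫ = 0) (a : ℝ) :
    ‖vel x v a‖ = 1 := by
  have h1 : ‖vel x v a‖ ^ 2 = 1 := by
    rw [← real_inner_self_eq_norm_sq]
    unfold vel
    simp only [inner_add_left, inner_add_right, real_inner_smul_left, real_inner_smul_right,
      real_inner_self_eq_norm_sq, real_inner_comm x v, h, norm_smul, hx, hv, Real.norm_eq_abs,
      mul_pow, sq_abs, abs_neg]
    linear_combination sin_sq_add_cos_sq a
  have h2 := norm_nonneg (vel x v a)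
  nlinarith

lemma fl_add (x a b : E4) : fl x (a + b) = fl x a + fl x b := by
  funext i j
  simp only [fl, PiLp.add_apply, Pi.add_apply]
  ring

lemma fl_neg (x a : E4) : fl (-x) (-a) = fl x a := by
  funext i j
  simp only [fl, PiLp.neg_apply]
  ring

/-- the flux determines the velocity -/
lemma fl_inj (h1 : S_PLN) {w z z' : E4} (hw : ‖w‖ = 1) (hz : ‖z‖ = 1) (hz' : ‖z'‖ = 1)
    (o : ⟪w, z⟫ = 0) (o' : ⟪w, z'⟫ = 0) (h : fl w z' = fl w z) : z = z' := by
  obtain ⟨θ, e1, e2⟩ := h1 w z' w z hw hz' o' hw hz o h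
  have h2 : ⟪w, w⟫ = ⟪w, arc w z' θ⟫ := by rw [← e1]
  rw [arc, inner_add_right, real_inner_smul_right, real_inner_smul_right,
    real_inner_self_eq_norm_sq, hw, o'] at h2
  have hc : cos θ = 1 := by linarith
  have hs : sin θ = 0 := by
    have := sin_sq_add_cos_sq θ
    rw [hc] at this
    have h3 : sin θ ^ 2 = 0 := by linarith
    exact pow_eq_zero_iff (two_ne_zero) |>.1 h3
  rw [e2, vel, hc, hs]
  simp

end TOP1P

open TOP1P

theorem t_TOP1 (h1 : S_PLN) (h2 : S_FLX) : S_TOP1 := by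
  intro X x0 v0
  induction X with
  | edge =>
    intro θ y p v ℓ hx hv ho hloc hfirst _
    obtain ⟨-, -, -, he⟩ := (hloc : Geo (arc x0 v0 θ) (v ()) (ℓ ()) y)
    have hf : v () = vel x0 v0 θ := hfirst
    rw [hf, arc_arc] at he
    have e1 : ((tops Ch.edge θ ℓ).map Prod.snd).sum = ℓ () := by simp [tops]
    have e2 : ((Ch.edge.len : ℕ) : ℝ) = 0 := by simp [Ch.len]
    rw [e1, e2, zero_mul, add_zero]
    refine ⟨he.symm, ?_⟩
    show vel (arc x0 v0 θ) (v ()) (ℓ ()) = _
    rw [hf, vel_arc]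
  | cons A B C _ _ ihC =>
    intro θ y p v ℓ hx hv ho hloc hfirst hanti
    obtain ⟨hu, hw, hgeo, hA, hB, hC, hs, hfin⟩ := hloc
    obtain ⟨hant, hanti'⟩ := hanti
    obtain ⟨-, -, -, he⟩ := hgeo
    have hf : v (.inl ()) = vel x0 v0 θ := hfirst
    rw [hf, arc_arc] at he
    rw [hf, vel_arc] at hs
    have hwe : p (.inl true) = arc x0 v0 (θ + ℓ (.inl ()) + π) := by
      rw [arc_pi, he]
      exact hant
    have fA := h2 A _ _ _ _ _ hu hA
    have fB := h2 B _ _ _ _ _ hu hB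
    have fC := h2 C _ _ _ _ _ hw hC
    have hvC : v (.inr (.inr (.inr C.first))) = vel x0 v0 (θ + ℓ (.inl ()) + π) := by
      refine fl_inj h1 hw fC.2.2.2.2.1 (norm_vel hx hv ho _) fC.2.2.2.2.2 ?_ ?_
      · rw [hwe]
        exact inner_arc_vel hx hv ho _
      · rw [hfin, fl_add, fA.1, fB.1, ← fl_add, ← hs, vel_pi, hant, fl_neg]
    have hC' := hC
    rw [hwe] at hC'
    have hI := ihC (θ + ℓ (.inl ()) + π) y _ _ _ hx hv ho hC' hvC hanti'
    have e1 : ((tops (Ch.cons A B C) θ ℓ).map Prod.snd).sum = ℓ (.inl ()) +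
        ((tops C (θ + ℓ (.inl ()) + π) (fun e => ℓ (.inr (.inr (.inr e))))).map Prod.snd).sum := by
      simp [tops]
    have e2 : (((Ch.cons A B C).len : ℕ) : ℝ) = (C.len : ℝ) + 1 := by
      simp [Ch.len]
    have e3 : θ + ((tops (Ch.cons A B C) θ ℓ).map Prod.snd).sum + (Ch.cons A B C).len * π =
        θ + ℓ (.inl ()) + π +
          ((tops C (θ + ℓ (.inl ()) + π) (fun e => ℓ (.inr (.inr (.inr e))))).map Prod.snd).sum +
          C.len * π := by
      rw [e1, e2]
      ring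
    rw [e3]
    refine ⟨hI.1, ?_⟩
    rw [← hI.2, ← hwe]
    rfl

end Pool.Agent.H57N
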