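import Pool.Agent.H57N.Stm

/-!
# GN57, piece TOP2 (helper70)
-/

set_option autoImplicit false

namespace Pool.Agent.H57N

open Real
open scoped RealInnerProductSpace

namespace TOP2P

lemma arc_arc (x0 v0 : E4) (θ t : ℝ) :
    arc (arc x0 v0 θ) (vel x0 v0 θ) t = arc x0 v0 (θ + t) := by
  unfold arc vel
  rw [cos_add, sin_add]
  module

lemma vel_vel (x0 v0 : E4) (θ t : ℝ) :
    vel (arc x0 v0 θ) (vel x0 v0 θ) t = vel x0 v0 (θ + t) := by
  unfold arc vel
  rw [cos_add, sin_add]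
  module

lemma arc_pi (x0 v0 : E4) (θ : ℝ) : arc x0 v0 (θ + π) = -arc x0 v0 θ := by
  unfold arc
  rw [cos_add_pi, sin_add_pi]
  module

lemma vel_pi (x0 v0 : E4) (θ : ℝ) : vel x0 v0 (θ + π) = -vel x0 v0 θ := by
  unfold vel
  rw [cos_add_pi, sin_add_pi]
  module

lemma arc_per (x0 v0 : E4) (t : ℝ) (m : ℤ) : arc x0 v0 (t + m * (2 * π)) = arc x0 v0 t := by
  unfold arc
  rw [cos_add_int_mul_two_pi, sin_add_int_mul_two_pi]

lemma arc_zero (x v : E4) : arc x v 0 = x := by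
  unfold arc
  rw [cos_zero, sin_zero]
  module

lemma fl_add (x a b : E4) : fl x (a + b) = fl x a + fl x b := by
  funext i j
  simp only [fl, PiLp.add_apply, Pi.add_apply]
  ring

lemma inner_av (x0 v0 : E4) (hx : ‖x0‖ = 1) (hv : ‖v0‖ = 1) (hxv : ⟪x0, v0⟫ = 0) (θ : ℝ) :
    ‖vel x0 v0 θ‖ = 1 ∧ ⟪arc x0 v0 θ, vel x0 v0 θ⟫ = 0 := by
  have h1 : ⟪x0, x0⟫ = 1 := by rw [real_inner_self_eq_norm_sq, hx]; norm_num
  have h2 : ⟪v0, v0⟫ = 1 := by rw [real_inner_self_eq_norm_sq, hv]; norm_num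
  have h3 : ⟪v0, x0⟫ = 0 := by rw [real_inner_comm]; exact hxv
  constructor
  · have : ‖vel x0 v0 θ‖ ^ 2 = 1 := by
      rw [← real_inner_self_eq_norm_sq]
      unfold vel
      simp only [inner_add_left, inner_add_right, real_inner_smul_left, real_inner_smul_right,
        h1, h2, h3, hxv]
      nlinarith [sin_sq_add_cos_sq θ]
    have h4 : 0 ≤ ‖vel x0 v0 θ‖ := norm_nonneg _
    nlinarith
  · unfold arc vel
    simp only [inner_add_left, inner_add_right, real_inner_smul_left, real_inner_smul_right,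
        h1, h2, h3, hxv]
    ring

/-- The next chain starts on the same circle. -/
lemma next (hP : S_PLN) (hF : S_FLX) (A B C : Ch) (x0 v0 : E4) (θ : ℝ) (y : E4)
    (p : (Ch.cons A B C).V → E4) (v : (Ch.cons A B C).E → E4) (ℓ : (Ch.cons A B C).E → ℝ)
    (hx0 : ‖x0‖ = 1) (hv0 : ‖v0‖ = 1) (hxv : ⟪x0, v0⟫ = 0)
    (hL : Loc (.cons A B C) (arc x0 v0 θ) y p v ℓ)
    (hv : v (Ch.cons A B C).first = vel x0 v0 θ) (hA : Anti (.cons A B C) p) :
    p (.inl false) = arc x0 v0 (θ + ℓ (.inl ())) ∧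
    p (.inl true) = arc x0 v0 (θ + ℓ (.inl ()) + π) ∧
    v (.inr (.inr (.inr C.first))) = vel x0 v0 (θ + ℓ (.inl ()) + π) ∧
    Loc C (arc x0 v0 (θ + ℓ (.inl ()) + π)) y (fun z => p (.inr (.inr (.inr z))))
        (fun e => v (.inr (.inr (.inr e)))) (fun e => ℓ (.inr (.inr (.inr e)))) := by
  obtain ⟨hu, hw, hgeo, hLA, hLB, hLC, hb1, hb2⟩ := hL
  obtain ⟨-, -, -, hgeo4⟩ := hgeo
  have hv' : v (.inl ()) = vel x0 v0 θ := hv
  have hwu : p (.inl true) = -p (.inl false) := hA.1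
  rw [hv', arc_arc] at hgeo4
  rw [hv', vel_vel] at hb1
  obtain ⟨fA, -, -, -, -, -⟩ := hF A _ _ _ _ _ hu hLA
  obtain ⟨fB, -, -, -, -, -⟩ := hF B _ _ _ _ _ hu hLB
  obtain ⟨-, -, -, -, hc1, hc2⟩ := hF C _ _ _ _ _ hw hLC
  have hfl : fl (p (.inl false)) (vel x0 v0 (θ + ℓ (.inl ()))) =
      fl (p (.inl true)) (v (.inr (.inr (.inr C.first)))) := by
    rw [hb2, fl_add, fA, fB, ← fl_add, ← hb1]
  obtain ⟨hd1, hd2⟩ := inner_av x0 v0 hx0 hv0 hxv (θ + ℓ (.inl ()))
  rw [hgeo4] at hd2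
  obtain ⟨φ, e1, e2⟩ := hP _ _ _ _ hu hd1 hd2 hw hc1 hc2 hfl
  have huu : ⟪p (.inl false), p (.inl false)⟫ = 1 := by
    rw [real_inner_self_eq_norm_sq, hu]; norm_num
  have hcos : cos φ = -1 := by
    have h1 : ⟪p (.inl false), p (.inl true)⟫ = cos φ := by
      rw [e1]
      unfold arc
      rw [inner_add_right, real_inner_smul_right, real_inner_smul_right, huu, hd2]
      ring
    rw [hwu, inner_neg_right, huu] at h1
    exact h1.symm
  have hsin : sin φ = 0 := by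
    have := sin_sq_add_cos_sq φ
    rw [hcos] at this
    have h2 : sin φ ^ 2 = 0 := by linarith
    exact pow_eq_zero_iff (two_ne_zero) |>.1 h2
  have hc : v (.inr (.inr (.inr C.first))) = vel x0 v0 (θ + ℓ (.inl ()) + π) := by
    rw [e2, vel_pi]
    unfold vel
    rw [hcos, hsin]
    module
  have hw2 : p (.inl true) = arc x0 v0 (θ + ℓ (.inl ()) + π) := by
    rw [arc_pi, hwu, ← hgeo4]
  refine ⟨hgeo4.symm, hw2, hc, ?_⟩
  rw [← hw2]
  exact hLC

lemma key (hP : S_PLN) (hF : S_FLX) : ∀ (X : Ch) (x0 v0 : E4) (θ : ℝ) (y : E4) (p : X.V → E4)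
    (v : X.E → E4) (ℓ : X.E → ℝ), ‖x0‖ = 1 → ‖v0‖ = 1 → ⟪x0, v0⟫ = 0 →
    Loc X (arc x0 v0 θ) y p v ℓ → v X.first = vel x0 v0 θ → Anti X p →
    (tops X θ ℓ).length = X.len + 1 ∧
    ∀ I ∈ tops X θ ℓ, 0 < I.2 ∧ ∃ e : X.E, ℓ e = I.2 ∧
      (∀ t, arc (X.src (arc x0 v0 θ) p e) (v e) t = arc x0 v0 (I.1 + t)) ∧
      (arc x0 v0 I.1 = arc x0 v0 θ ∨ ∃ z, arc x0 v0 I.1 = p z) ∧
      (arc x0 v0 (I.1 + I.2) = y ∨ ∃ z, arc x0 v0 (I.1 + I.2) = p z) := by
  intro X
  induction X with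
  | edge =>
    intro x0 v0 θ y p v ℓ hx0 hv0 hxv hL hv hA
    obtain ⟨-, -, g3, g4⟩ := hL
    have hv' : v () = vel x0 v0 θ := hv
    rw [hv', arc_arc] at g4
    refine ⟨rfl, ?_⟩
    intro I hI
    have hI' : I = (θ, ℓ ()) := by simpa [tops] using hI
    subst hI'
    refine ⟨g3, (), rfl, ?_, Or.inl rfl, Or.inl g4⟩
    intro t
    show arc (arc x0 v0 θ) (v ()) t = _
    rw [hv', arc_arc]
  | cons A B C ihA ihB ihC =>
    intro x0 v0 θ y p v ℓ hx0 hv0 hxv hL hv hA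
    obtain ⟨h1, h2, h3, h4⟩ := next hP hF A B C x0 v0 θ y p v ℓ hx0 hv0 hxv hL hv hA
    have hv' : v (.inl ()) = vel x0 v0 θ := hv
    have hpos : 0 < ℓ (.inl ()) := hL.2.2.1.2.2.1
    obtain ⟨ihl, ih⟩ := ihC x0 v0 (θ + ℓ (.inl ()) + π) y _ _ _ hx0 hv0 hxv h4 h3 hA.2
    refine ⟨?_, ?_⟩
    · show (_ :: tops C _ _).length = C.len + 1 + 1
      rw [List.length_cons, ihl]
    · intro I hI
      have hI' : I = (θ, ℓ (.inl ())) ∨ I ∈ tops C (θ + ℓ (.inl ()) + π)
          (fun e => ℓ (.inr (.inr (.inr e)))) := List.mem_cons.1 hI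
      rcases hI' with rfl | hI'
      · refine ⟨hpos, .inl (), rfl, ?_, Or.inl rfl, Or.inr ⟨.inl false, h1.symm⟩⟩
        intro t
        show arc (arc x0 v0 θ) (v (.inl ())) t = _
        rw [hv', arc_arc]
      · obtain ⟨hI2, e, he1, he2, he3, he4⟩ := ih I hI'
        refine ⟨hI2, .inr (.inr (.inr e)), he1, ?_, ?_, ?_⟩
        · intro t
          rw [← he2 t]
          show arc (C.src (p (.inl true)) _ e) _ t = _
          rw [h2]
        · rcases he3 with he3 | ⟨z, hz⟩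
          · exact Or.inr ⟨.inl true, by rw [he3, h2]⟩
          · exact Or.inr ⟨.inr (.inr (.inr z)), hz⟩
        · rcases he4 with he4 | ⟨z, hz⟩
          · exact Or.inl he4
          · exact Or.inr ⟨.inr (.inr (.inr z)), hz⟩

end TOP2P

open TOP2P in
theorem t_TOP2 (hP : S_PLN) (hF : S_FLX) (_hT : S_TOP1) : S_TOP2 := by
  intro X
  induction X with
  | edge =>
    intro x0 v0 θ y p v ℓ hx0 hv0 hxv hL hv hA hE hp hpx hpy hxy
    obtain ⟨k1, k2⟩ := key hP hF .edge x0 v0 θ y p v ℓ hx0 hv0 hxv hL hv hA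
    refine ⟨fun I hI => (k2 I hI).1, k1, ?_⟩
    simp [tops]
  | cons A B C ihA ihB ihC =>
    intro x0 v0 θ y p v ℓ hx0 hv0 hxv hL hv hA hE hp hpx hpy hxy
    obtain ⟨h1, h2, h3, h4⟩ := next hP hF A B C x0 v0 θ y p v ℓ hx0 hv0 hxv hL hv hA
    obtain ⟨k1, k2⟩ := key hP hF (.cons A B C) x0 v0 θ y p v ℓ hx0 hv0 hxv hL hv hA
    have hv' : v (.inl ()) = vel x0 v0 θ := hv
    refine ⟨fun I hI => (k2 I hI).1, k1, ?_⟩
    show ((θ, ℓ (.inl ())) :: tops C (θ + ℓ (.inl ()) + π)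
      (fun e => ℓ (.inr (.inr (.inr e))))).Pairwise _
    rw [List.pairwise_cons]
    refine ⟨?_, ?_⟩
    · intro J hJ s hs t ht m hst
      obtain ⟨hJ2, e', he1, he2, he3, he4⟩ := (key hP hF C x0 v0 (θ + ℓ (.inl ()) + π) y _ _ _
        hx0 hv0 hxv h4 h3 hA.2).2 J hJ
      have hs1 : 0 ≤ s - θ := by have := hs.1; simp only at this; linarith
      have hs2 : s - θ ≤ ℓ (.inl ()) := by have := hs.2; simp only at this; linarith
      have ht1 : 0 ≤ t - J.1 := by linarith [ht.1]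
      have ht2 : t - J.1 ≤ J.2 := by linarith [ht.2]
      have hpt : arc x0 v0 (θ + (s - θ)) = arc x0 v0 (J.1 + (t - J.1)) := by
        have e1 : θ + (s - θ) = t + m * (2 * π) := by rw [← hst]; ring
        have e2 : J.1 + (t - J.1) = t := by ring
        rw [e1, e2, arc_per]
      have hf1 : arc ((Ch.cons A B C).src (arc x0 v0 θ) p (.inl ())) (v (.inl ())) (s - θ) =
          arc ((Ch.cons A B C).src (arc x0 v0 θ) p (.inr (.inr (.inr e'))))
            (v (.inr (.inr (.inr e')))) (t - J.1) := by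
        have e3 : arc ((Ch.cons A B C).src (arc x0 v0 θ) p (.inl ())) (v (.inl ())) (s - θ) =
            arc x0 v0 (θ + (s - θ)) := by
          show arc (arc x0 v0 θ) (v (.inl ())) (s - θ) = _
          rw [hv', arc_arc]
        have e4 : arc ((Ch.cons A B C).src (arc x0 v0 θ) p (.inr (.inr (.inr e'))))
            (v (.inr (.inr (.inr e')))) (t - J.1) = arc x0 v0 (J.1 + (t - J.1)) := by
          rw [← he2 (t - J.1)]
          show arc (C.src (p (.inl true)) _ e') _ _ = _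
          rw [h2]
        rw [e3, e4, hpt]
      by_cases h5 : 0 < s - θ ∧ s - θ < ℓ (.inl ())
      · have := (hE (.inl ()) (.inr (.inr (.inr e'))) (s - θ) (t - J.1) h5.1 h5.2 ht1
          (ht2.trans_eq he1.symm) hf1).1
        exact absurd this Sum.inl_ne_inr
      by_cases h6 : 0 < t - J.1 ∧ t - J.1 < J.2
      · have := (hE (.inr (.inr (.inr e'))) (.inl ()) (t - J.1) (s - θ) h6.1
          (h6.2.trans_eq he1.symm) hs1 hs2 hf1.symm).1
        exact absurd this Sum.inr_ne_inl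
      have hLp : arc x0 v0 (θ + (s - θ)) = arc x0 v0 θ ∨
          arc x0 v0 (θ + (s - θ)) = p (.inl false) := by
        by_cases h7 : s - θ = 0
        · left
          rw [h7, add_zero]
        · right
          have h8 : s - θ = ℓ (.inl ()) := by
            have h9 : 0 < s - θ := lt_of_le_of_ne hs1 (Ne.symm h7)
            by_contra h10
            exact h5 ⟨h9, lt_of_le_of_ne hs2 h10⟩
          rw [h8, h1]
      have hRp : arc x0 v0 (J.1 + (t - J.1)) = y ∨
          ∃ z, z ≠ Sum.inl false ∧ arc x0 v0 (J.1 + (t - J.1)) = p z := by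
        by_cases h7 : t - J.1 = 0
        · right
          rw [h7, add_zero]
          rcases he3 with he3 | ⟨z, hz⟩
          · exact ⟨.inl true, by simp, by rw [he3, h2]⟩
          · exact ⟨.inr (.inr (.inr z)), Sum.inr_ne_inl, hz⟩
        · have h8 : t - J.1 = J.2 := by
            have h9 : 0 < t - J.1 := lt_of_le_of_ne ht1 (Ne.symm h7)
            by_contra h10
            exact h6 ⟨h9, lt_of_le_of_ne ht2 h10⟩
          rw [h8]
          rcases he4 with he4 | ⟨z, hz⟩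
          · exact Or.inl he4
          · exact Or.inr ⟨.inr (.inr (.inr z)), Sum.inr_ne_inl, hz⟩
      rw [← hpt] at hRp
      rcases hLp with hLp | hLp
      · rw [hLp] at hRp
        rcases hRp with hRp | ⟨z, -, hz⟩
        · exact hxy hRp
        · exact hpx z hz.symm
      · rw [hLp] at hRp
        rcases hRp with hRp | ⟨z, hz1, hz⟩
        · exact hpy _ hRp
        · exact hz1 (hp hz).symm
    · refine (ihC x0 v0 (θ + ℓ (.inl ()) + π) y (fun z => p (.inr (.inr (.inr z))))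
        (fun e => v (.inr (.inr (.inr e)))) (fun e => ℓ (.inr (.inr (.inr e)))) hx0 hv0 hxv h4 h3
        hA.2 ?_ ?_ ?_ ?_ ?_).2.2
      · rw [← h2]
        intro e f a b ha1 ha2 hb1 hb2 hab
        have := hE (.inr (.inr (.inr e))) (.inr (.inr (.inr f))) a b ha1 ha2 hb1 hb2 hab
        exact ⟨Sum.inr.inj (Sum.inr.inj (Sum.inr.inj this.1)), this.2⟩
      · intro z z' h
        exact Sum.inr.inj (Sum.inr.inj (Sum.inr.inj (hp h)))
      · intro z h
        rw [← h2] at h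
        exact absurd (hp h) Sum.inr_ne_inl
      · intro z h
        exact hpy _ h
      · rw [← h2]
        exact hpy _

end Pool.Agent.H57N
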