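import Pool.Agent.H57N.ARC
import Pool.Agent.H57N.Ant
import Pool.Agent.H57N.CUT
import Pool.Agent.H57N.EXI
import Pool.Agent.H57N.FLX
import Pool.Agent.H57N.NEC
import Pool.Agent.H57N.NU
import Pool.Agent.H57N.LOC1
import Pool.Agent.H57N.LOC2
import Pool.Agent.H57N.PAR
import Pool.Agent.H57N.PLN
import Pool.Agent.H57N.STEP
import Pool.Agent.H57N.TOP1
import Pool.Agent.H57N.TOP2

/-! The assembly. -/

set_option autoImplicit false

namespace Pool.Agent.H57N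

theorem nec (h : S_LOC1) : S_NEC :=
  t_NEC h t_FLX (t_ANT t_PLN t_FLX)
    (t_PAR t_FLX t_ARC (t_TOP1 t_PLN t_FLX) (t_TOP2 t_PLN t_FLX (t_TOP1 t_PLN t_FLX)))

theorem exi (h : S_LOC2) : S_EXI := t_EXI (t_STEP t_NU) h

theorem series_parallel (A B C : Ch) : Carries (tsrc A B C id) (ttgt A B C id) ↔
    (A.Good ∧ Even A.len) ∧ (B.Good ∧ Even B.len) ∧ (C.Good ∧ Even C.len) :=
  ⟨nec t_LOC1 A B C, fun h => exi t_LOC2 A B C h.1 h.2.1 h.2.2⟩

end Pool.Agent.H57N
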