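import Pool.Agent.H57N.GEO

/-!
Separation properties of `Out`.
-/

set_option autoImplicit false

namespace Pool.Agent.H57N

open Real
open scoped RealInnerProductSpace

section
variable {X : Ch} {x0 v0 : E4} {s σ : ℝ} {S : Set (Submodule ℝ E4)} {p : X.V → E4} {v : X.E → E4}
  {ℓ : X.E → ℝ}

/-- every point of an edge is different from zero -/
lemma Out.ne_zero (hx : ‖x0‖ = 1) (hv : ‖v0‖ = 1) (h : ⟪x0, v0⟫ = 0)
    (ho : Out X x0 v0 s σ S p v ℓ)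
    (hn : ∀ e, ‖X.src (σ • arc x0 v0 s) p e‖ = 1 ∧ ‖v e‖ = 1 ∧
      ⟪X.src (σ • arc x0 v0 s) p e, v e⟫ = 0) (e : X.E) (b : ℝ) :
    arc (X.src (σ • arc x0 v0 s) p e) (v e) b ≠ 0 :=
  arc_ne_zero (hn e).1 (hn e).2.1 (hn e).2.2 b

end

/-- In a chain with the local conditions each edge starts at a unit vector with a unit velocity
orthogonal to it. -/
lemma Loc.unit : ∀ (X : Ch) (x y : E4) (p : X.V → E4) (v : X.E → E4) (ℓ : X.E → ℝ),
    ‖x‖ = 1 → Loc X x y p v ℓ → ∀ e, ‖X.src x p e‖ = 1 ∧ ‖v e‖ = 1 ∧ ⟪X.src x p e, v e⟫ = 0 ∧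
      0 < ℓ e
  | .edge, x, y, p, v, ℓ, hx, h, e => ⟨hx, h.1, h.2.1, h.2.2.1⟩
  | .cons A B C, x, y, p, v, ℓ, hx, h, e => by
    obtain ⟨hu, hw, h0, hA, hB, hC, _, _⟩ := h
    rcases e with e | e | e | e
    · exact ⟨hx, h0.1, h0.2.1, h0.2.2.1⟩
    · exact Loc.unit A _ _ _ _ _ hu hA e
    · exact Loc.unit B _ _ _ _ _ hu hB e
    · exact Loc.unit C _ _ _ _ _ hw hC e

section
variable {X : Ch} {x0 v0 : E4} {s σ : ℝ} {S : Set (Submodule ℝ E4)} {p : X.V → E4} {v : X.E → E4}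
  {ℓ : X.E → ℝ} (hx : ‖x0‖ = 1) (hv : ‖v0‖ = 1) (h : ⟪x0, v0⟫ = 0) (hσ : σ = 1 ∨ σ = -1)
  (ho : Out X x0 v0 s σ S p v ℓ)
include hx hv h hσ ho

lemma Out.unit (e : X.E) : ‖X.src (σ • arc x0 v0 s) p e‖ = 1 ∧ ‖v e‖ = 1 ∧
    ⟪X.src (σ • arc x0 v0 s) p e, v e⟫ = 0 ∧ 0 < ℓ e := by
  refine Loc.unit X _ _ p v ℓ ?_ ho.1 e
  rw [norm_smul, norm_arc hx hv h]
  rcases hσ with rfl | rfl <;> simp

lemma Out.pt_ne_zero (e : X.E) (b : ℝ) : arc (X.src (σ • arc x0 v0 s) p e) (v e) b ≠ 0 := by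
  obtain ⟨h1, h2, h3, _⟩ := Out.unit hx hv h hσ ho e
  exact arc_ne_zero h1 h2 h3 b

/-- interior points of the edges avoid the planes in `S` -/
lemma Out.inter (hS : ∀ P ∈ S, ∀ t, s < t → t < π → arc x0 v0 t ∉ P) (e : X.E) {b : ℝ}
    (hb : 0 < b) (hb' : b < ℓ e) {P : Submodule ℝ E4} (hP : P ∈ S) :
    arc (X.src (σ • arc x0 v0 s) p e) (v e) b ∉ P := by
  intro hz
  rcases ho.2.2.2.2.2.2.2.2 e with ⟨_, c, ε, hc, hl, hc', hε, ht⟩ | ⟨hd, _⟩
  · rw [ht b] at hz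
    have h2 : arc x0 v0 (c + b) ∈ P := by
      rcases hε with rfl | rfl
      · simpa using hz
      · simpa using hz
    exact hS P hP (c + b) (by linarith) (by linarith) h2
  · exact Out.pt_ne_zero hx hv h hσ ho e b
      (Submodule.disjoint_def.1 (hd P hP) _ (arc_mem _ _ _) hz)

/-- closed points of the edges in a plane of `S` are plus or minus the start or the end -/
lemma Out.closed (hS : ∀ P ∈ S, ∀ t, s < t → t < π → arc x0 v0 t ∉ P) (e : X.E) {b : ℝ}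
    (hb : 0 ≤ b) (hb' : b ≤ ℓ e) {P : Submodule ℝ E4} (hP : P ∈ S)
    (hz : arc (X.src (σ • arc x0 v0 s) p e) (v e) b ∈ P) :
    ∃ ε : ℝ, (ε = 1 ∨ ε = -1) ∧ ∃ t : ℝ, (t = s ∨ t = π) ∧
      arc (X.src (σ • arc x0 v0 s) p e) (v e) b = ε • arc x0 v0 t := by
  rcases ho.2.2.2.2.2.2.2.2 e with ⟨_, c, ε, hc, hl, hc', hε, ht⟩ | ⟨hd, _⟩
  · refine ⟨ε, hε, c + b, ?_, ht b⟩
    by_contra hne
    push Not at hne
    have h1 : s < c + b := lt_of_le_of_ne (by linarith) (Ne.symm hne.1)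
    have h2 : c + b < π := lt_of_le_of_ne (by linarith) hne.2
    rw [ht b] at hz
    have h3 : arc x0 v0 (c + b) ∈ P := by
      rcases hε with rfl | rfl
      · simpa using hz
      · simpa using hz
    exact hS P hP _ h1 h2 h3
  · exact absurd (Submodule.disjoint_def.1 (hd P hP) _ (arc_mem _ _ _) hz)
      (Out.pt_ne_zero hx hv h hσ ho e b)

/-- a point in the plane of the circle on an edge of the chain has its angle in the chain -/
lemma Out.onCircle (hs0 : 0 ≤ s) (e : X.E) {b : ℝ} {r t : ℝ} (hr : r = 1 ∨ r = -1)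
    (ht : 0 ≤ t ∧ t ≤ s) (hb : 0 ≤ b) (hb' : b ≤ ℓ e)
    (hz : arc (X.src (σ • arc x0 v0 s) p e) (v e) b = r • arc x0 v0 t)
    (hin : (0 < t ∧ t < s) ∨ (0 < b ∧ b < ℓ e)) : False := by
  rcases ho.2.2.2.2.2.2.2.2 e with ⟨_, c, ε, hc, hl, hc', hε, he⟩ | ⟨_, hd⟩
  · rw [he b] at hz
    rcases hin with ⟨h1, h2⟩ | ⟨h1, h2⟩
    · have := ang' hx hv h hr hε h1 (by linarith) (by linarith) (by linarith) hz.symm
      linarith
    · have := ang' hx hv h hε hr (s := c + b) (t := t) (by linarith) (by linarith) ht.1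
        (by linarith) hz
      linarith
  · refine hd t (Or.inl ht) ?_
    have h1 := arc_mem (X.src (σ • arc x0 v0 s) p e) (v e) b
    rw [hz] at h1
    rcases hr with rfl | rfl
    · simpa using h1
    · simpa using h1

/-- vertices avoid the planes in `S` -/
lemma Out.vert (hS : ∀ P ∈ S, ∀ t, s < t → t < π → arc x0 v0 t ∉ P) (z : X.V)
    {P : Submodule ℝ E4} (hP : P ∈ S) : p z ∉ P := by
  rcases ho.2.2.2.2.2.2.1 z with ⟨t, h1, h2, h3⟩ | ⟨_, h3⟩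
  · intro hz
    refine hS P hP t h1 h2 ?_
    rcases h3 with h3 | h3
    · rw [← h3]; exact hz
    · rw [h3] at hz; simpa using hz
  · exact h3 P hP

end

end Pool.Agent.H57N
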