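import Pool.Agent.H57N.Stm

/-!
# GN57, pieces LOC1 and LOC2 (helper63): the net conditions chain by chain
-/

set_option autoImplicit false

namespace Pool.Agent.H57N

namespace LOCaux

variable {M : Type} [AddCommMonoid M]

open scoped Classical in
/-- the sum over the edges which start at `w` -/
noncomputable def so {W : Type} (X : Ch) (x : W) (i : X.V → W) (F : X.E → M) (w : W) : M :=
  ∑ e : X.E, if X.src x i e = w then F e else 0

open scoped Classical in
/-- the sum over the edges which end at `w` -/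
noncomputable def si {W : Type} (X : Ch) (y : W) (i : X.V → W) (G : X.E → M) (w : W) : M :=
  ∑ e : X.E, if X.tgt y i e = w then G e else 0

/-- the balance at the inner vertices, by recursion -/
def SB : (X : Ch) → (X.E → M) → (X.E → M) → Prop
  | .edge, _, _ => True
  | .cons A B C, F, G =>
      G (.inl ()) = F (.inr (.inl A.first)) + F (.inr (.inr (.inl B.first))) ∧
      F (.inr (.inr (.inr C.first))) = G (.inr (.inl A.last)) + G (.inr (.inr (.inl B.last))) ∧
      SB A (fun e => F (.inr (.inl e))) (fun e => G (.inr (.inl e))) ∧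
      SB B (fun e => F (.inr (.inr (.inl e)))) (fun e => G (.inr (.inr (.inl e)))) ∧
      SB C (fun e => F (.inr (.inr (.inr e)))) (fun e => G (.inr (.inr (.inr e))))

theorem sum_cons (A B C : Ch) (f : (Ch.cons A B C).E → M) :
    ∑ e, f e = f (.inl ()) + (∑ e, f (.inr (.inl e)) + (∑ e, f (.inr (.inr (.inl e))) +
      ∑ e, f (.inr (.inr (.inr e))))) := by
  refine (Fintype.sum_sum_type (α₁ := Unit) (α₂ := A.E ⊕ B.E ⊕ C.E) f).trans ?_
  rw [Fintype.sum_sum_type, Fintype.sum_sum_type]
  simp

theorem forall_cons (A B C : Ch) (P : (Ch.cons A B C).V → Prop) :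
    (∀ z, P z) ↔ P (.inl false) ∧ P (.inl true) ∧ (∀ z, P (.inr (.inl z))) ∧
      (∀ z, P (.inr (.inr (.inl z)))) ∧ ∀ z, P (.inr (.inr (.inr z))) := by
  constructor
  · intro h
    exact ⟨h _, h _, fun z => h _, fun z => h _, fun z => h _⟩
  · rintro ⟨h1, h2, h3, h4, h5⟩ ((_ | _) | z | z | z)
    exacts [h1, h2, h3 z, h4 z, h5 z]

theorem forall_consE (A B C : Ch) (P : (Ch.cons A B C).E → Prop) :
    (∀ z, P z) ↔ P (.inl ()) ∧ (∀ z, P (.inr (.inl z))) ∧
      (∀ z, P (.inr (.inr (.inl z)))) ∧ ∀ z, P (.inr (.inr (.inr z))) := by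
  constructor
  · intro h
    exact ⟨h _, fun z => h _, fun z => h _, fun z => h _⟩
  · rintro ⟨h2, h3, h4, h5⟩ (_ | z | z | z)
    exacts [h2, h3 z, h4 z, h5 z]

open scoped Classical in
theorem so_cons {W : Type} (A B C : Ch) (x : W) (i : Bool ⊕ A.V ⊕ B.V ⊕ C.V → W)
    (F : Unit ⊕ A.E ⊕ B.E ⊕ C.E → M) (w : W) :
    so (.cons A B C) x i F w = (if x = w then F (.inl ()) else 0) +
      (so A (i (.inl false)) (fun z => i (.inr (.inl z))) (fun e => F (.inr (.inl e))) w +
      (so B (i (.inl false)) (fun z => i (.inr (.inr (.inl z)))) (fun e => F (.inr (.inr (.inl e)))) w +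
      so C (i (.inl true)) (fun z => i (.inr (.inr (.inr z)))) (fun e => F (.inr (.inr (.inr e)))) w)) :=
  sum_cons A B C _

open scoped Classical in
theorem si_cons {W : Type} (A B C : Ch) (y : W) (i : Bool ⊕ A.V ⊕ B.V ⊕ C.V → W)
    (G : Unit ⊕ A.E ⊕ B.E ⊕ C.E → M) (w : W) :
    si (.cons A B C) y i G w = (if i (.inl false) = w then G (.inl ()) else 0) +
      (si A (i (.inl true)) (fun z => i (.inr (.inl z))) (fun e => G (.inr (.inl e))) w +
      (si B (i (.inl true)) (fun z => i (.inr (.inr (.inl z)))) (fun e => G (.inr (.inr (.inl e)))) w +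
      si C y (fun z => i (.inr (.inr (.inr z)))) (fun e => G (.inr (.inr (.inr e)))) w)) :=
  sum_cons A B C _

theorem src_mem : ∀ (X : Ch) {W : Type} (x : W) (i : X.V → W) (e : X.E),
    X.src x i e = x ∨ ∃ z, X.src x i e = i z
  | .edge, _, _, _, _ => Or.inl rfl
  | .cons _ _ _, _, _, _, .inl _ => Or.inl rfl
  | .cons A _ _, _, _, i, .inr (.inl e) => by
      rcases src_mem A (i (.inl false)) (fun z => i (.inr (.inl z))) e with h | ⟨z, h⟩
      · exact Or.inr ⟨.inl false, h⟩
      · exact Or.inr ⟨.inr (.inl z), h⟩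
  | .cons _ B _, _, _, i, .inr (.inr (.inl e)) => by
      rcases src_mem B (i (.inl false)) (fun z => i (.inr (.inr (.inl z)))) e with h | ⟨z, h⟩
      · exact Or.inr ⟨.inl false, h⟩
      · exact Or.inr ⟨.inr (.inr (.inl z)), h⟩
  | .cons _ _ C, _, _, i, .inr (.inr (.inr e)) => by
      rcases src_mem C (i (.inl true)) (fun z => i (.inr (.inr (.inr z)))) e with h | ⟨z, h⟩
      · exact Or.inr ⟨.inl true, h⟩
      · exact Or.inr ⟨.inr (.inr (.inr z)), h⟩

theorem tgt_mem : ∀ (X : Ch) {W : Type} (y : W) (i : X.V → W) (e : X.E),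
    X.tgt y i e = y ∨ ∃ z, X.tgt y i e = i z
  | .edge, _, _, _, _ => Or.inl rfl
  | .cons _ _ _, _, _, _, .inl _ => Or.inr ⟨.inl false, rfl⟩
  | .cons A _ _, _, _, i, .inr (.inl e) => by
      rcases tgt_mem A (i (.inl true)) (fun z => i (.inr (.inl z))) e with h | ⟨z, h⟩
      · exact Or.inr ⟨.inl true, h⟩
      · exact Or.inr ⟨.inr (.inl z), h⟩
  | .cons _ B _, _, _, i, .inr (.inr (.inl e)) => by
      rcases tgt_mem B (i (.inl true)) (fun z => i (.inr (.inr (.inl z)))) e with h | ⟨z, h⟩
      · exact Or.inr ⟨.inl true, h⟩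
      · exact Or.inr ⟨.inr (.inr (.inl z)), h⟩
  | .cons _ _ C, _, y, i, .inr (.inr (.inr e)) => by
      rcases tgt_mem C y (fun z => i (.inr (.inr (.inr z)))) e with h | ⟨z, h⟩
      · exact Or.inl h
      · exact Or.inr ⟨.inr (.inr (.inr z)), h⟩

theorem src_nat : ∀ (X : Ch) {W W' : Type} (g : W → W') (x : W) (i : X.V → W) (e : X.E),
    X.src (g x) (fun z => g (i z)) e = g (X.src x i e)
  | .edge, _, _, _, _, _, _ => rfl
  | .cons _ _ _, _, _, _, _, _, .inl _ => rfl
  | .cons A _ _, _, _, g, _, i, .inr (.inl e) =>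
      src_nat A g (i (.inl false)) (fun z => i (.inr (.inl z))) e
  | .cons _ B _, _, _, g, _, i, .inr (.inr (.inl e)) =>
      src_nat B g (i (.inl false)) (fun z => i (.inr (.inr (.inl z)))) e
  | .cons _ _ C, _, _, g, _, i, .inr (.inr (.inr e)) =>
      src_nat C g (i (.inl true)) (fun z => i (.inr (.inr (.inr z)))) e

theorem tgt_nat : ∀ (X : Ch) {W W' : Type} (g : W → W') (y : W) (i : X.V → W) (e : X.E),
    X.tgt (g y) (fun z => g (i z)) e = g (X.tgt y i e)
  | .edge, _, _, _, _, _, _ => rfl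
  | .cons _ _ _, _, _, _, _, _, .inl _ => rfl
  | .cons A _ _, _, _, g, _, i, .inr (.inl e) =>
      tgt_nat A g (i (.inl true)) (fun z => i (.inr (.inl z))) e
  | .cons _ B _, _, _, g, _, i, .inr (.inr (.inl e)) =>
      tgt_nat B g (i (.inl true)) (fun z => i (.inr (.inr (.inl z)))) e
  | .cons _ _ C, _, _, g, y, i, .inr (.inr (.inr e)) =>
      tgt_nat C g y (fun z => i (.inr (.inr (.inr z)))) e

theorem so_zero {W : Type} (X : Ch) (x : W) (i : X.V → W) (F : X.E → M) (w : W) (hx : x ≠ w)
    (hi : ∀ z, i z ≠ w) : so X x i F w = 0 := by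
  unfold so
  refine Finset.sum_eq_zero fun e _ => if_neg ?_
  rcases src_mem X x i e with h | ⟨z, h⟩
  · rw [h]; exact hx
  · rw [h]; exact hi z

theorem si_zero {W : Type} (X : Ch) (y : W) (i : X.V → W) (F : X.E → M) (w : W) (hy : y ≠ w)
    (hi : ∀ z, i z ≠ w) : si X y i F w = 0 := by
  unfold si
  refine Finset.sum_eq_zero fun e _ => if_neg ?_
  rcases tgt_mem X y i e with h | ⟨z, h⟩
  · rw [h]; exact hy
  · rw [h]; exact hi z

theorem so_first_cons {W : Type} (A B C : Ch) (x : W) (i : Bool ⊕ A.V ⊕ B.V ⊕ C.V → W)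
    (F : Unit ⊕ A.E ⊕ B.E ⊕ C.E → M) (h : ∀ z, i z ≠ x) :
    so (.cons A B C) x i F x = F (.inl ()) := by
  rw [so_cons, if_pos rfl, so_zero A _ _ _ _ (h _) (fun z => h _),
    so_zero B _ _ _ _ (h _) (fun z => h _), so_zero C _ _ _ _ (h _) (fun z => h _)]
  simp only [add_zero]

theorem so_first {W : Type} : ∀ (X : Ch) (x : W) (i : X.V → W) (F : X.E → M), (∀ z, i z ≠ x) →
    so X x i F x = F X.first
  | .edge, x, i, F, _ => by
      show (∑ e : Unit, _) = _
      rw [Fintype.sum_unique]
      exact if_pos rfl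
  | .cons A B C, x, i, F, h => so_first_cons A B C x i F h

theorem si_last_cons {W : Type} (A B C : Ch) (y : W) (i : Bool ⊕ A.V ⊕ B.V ⊕ C.V → W)
    (F : Unit ⊕ A.E ⊕ B.E ⊕ C.E → M) (h : ∀ z, i z ≠ y)
    (hC : si C y (fun z => i (.inr (.inr (.inr z)))) (fun e => F (.inr (.inr (.inr e)))) y =
      F (.inr (.inr (.inr C.last)))) :
    si (.cons A B C) y i F y = F (.inr (.inr (.inr C.last))) := by
  rw [si_cons, if_neg (h _), si_zero A _ _ _ _ (h _) (fun z => h _),
    si_zero B _ _ _ _ (h _) (fun z => h _), hC]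
  simp only [zero_add]

theorem si_last {W : Type} : ∀ (X : Ch) (y : W) (i : X.V → W) (F : X.E → M), (∀ z, i z ≠ y) →
    si X y i F y = F X.last
  | .edge, y, i, F, _ => by
      show (∑ e : Unit, _) = _
      rw [Fintype.sum_unique]
      exact if_pos rfl
  | .cons A B C, y, i, F, h =>
      si_last_cons A B C y i F h (si_last C y _ _ (fun z => h (.inr (.inr (.inr z)))))

theorem bal_step {W : Type} (A B C : Ch) (x y : W) (i : Bool ⊕ A.V ⊕ B.V ⊕ C.V → W)
    (F G : Unit ⊕ A.E ⊕ B.E ⊕ C.E → M)
    (hi : Function.Injective i) (hx : ∀ z, i z ≠ x) (hy : ∀ z, i z ≠ y)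
    (hA : (∀ z, so A (i (.inl false)) (fun z => i (.inr (.inl z))) (fun e => F (.inr (.inl e)))
            (i (.inr (.inl z))) = si A (i (.inl true)) (fun z => i (.inr (.inl z)))
            (fun e => G (.inr (.inl e))) (i (.inr (.inl z)))) ↔
            SB A (fun e => F (.inr (.inl e))) (fun e => G (.inr (.inl e))))
    (hB : (∀ z, so B (i (.inl false)) (fun z => i (.inr (.inr (.inl z))))
            (fun e => F (.inr (.inr (.inl e))))
            (i (.inr (.inr (.inl z)))) = si B (i (.inl true)) (fun z => i (.inr (.inr (.inl z))))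
            (fun e => G (.inr (.inr (.inl e)))) (i (.inr (.inr (.inl z))))) ↔
            SB B (fun e => F (.inr (.inr (.inl e)))) (fun e => G (.inr (.inr (.inl e)))))
    (hC : (∀ z, so C (i (.inl true)) (fun z => i (.inr (.inr (.inr z))))
            (fun e => F (.inr (.inr (.inr e))))
            (i (.inr (.inr (.inr z)))) = si C y (fun z => i (.inr (.inr (.inr z))))
            (fun e => G (.inr (.inr (.inr e)))) (i (.inr (.inr (.inr z))))) ↔
            SB C (fun e => F (.inr (.inr (.inr e)))) (fun e => G (.inr (.inr (.inr e))))) :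
    (∀ z : Bool ⊕ A.V ⊕ B.V ⊕ C.V, so (.cons A B C) x i F (i z) = si (.cons A B C) y i G (i z)) ↔
      SB (.cons A B C) F G := by
  have ne : ∀ a b : Bool ⊕ A.V ⊕ B.V ⊕ C.V, a ≠ b → i a ≠ i b := fun a b h h' => h (hi h')
  have e1 : so (.cons A B C) x i F (i (.inl false)) = si (.cons A B C) y i G (i (.inl false)) ↔
      G (.inl ()) = F (.inr (.inl A.first)) + F (.inr (.inr (.inl B.first))) := by
    rw [so_cons, si_cons, if_neg (hx _).symm, if_pos rfl,
      so_first A _ _ _ (fun z => ne _ _ (by simp)), so_first B _ _ _ (fun z => ne _ _ (by simp)),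
      so_zero C _ _ _ _ (ne _ _ (by simp)) (fun z => ne _ _ (by simp)),
      si_zero A _ _ _ _ (ne _ _ (by simp)) (fun z => ne _ _ (by simp)),
      si_zero B _ _ _ _ (ne _ _ (by simp)) (fun z => ne _ _ (by simp)),
      si_zero C _ _ _ _ (hy _).symm (fun z => ne _ _ (by simp))]
    simp only [add_zero, zero_add]
    exact eq_comm
  have e2 : so (.cons A B C) x i F (i (.inl true)) = si (.cons A B C) y i G (i (.inl true)) ↔
      F (.inr (.inr (.inr C.first))) =
        G (.inr (.inl A.last)) + G (.inr (.inr (.inl B.last))) := by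
    rw [so_cons, si_cons, if_neg (hx _).symm, if_neg (ne _ _ (by simp)),
      so_first C _ _ _ (fun z => ne _ _ (by simp)),
      so_zero A _ _ _ _ (ne _ _ (by simp)) (fun z => ne _ _ (by simp)),
      so_zero B _ _ _ _ (ne _ _ (by simp)) (fun z => ne _ _ (by simp)),
      si_last A _ _ _ (fun z => ne _ _ (by simp)), si_last B _ _ _ (fun z => ne _ _ (by simp)),
      si_zero C _ _ _ _ (hy _).symm (fun z => ne _ _ (by simp))]
    simp only [add_zero, zero_add]
  have e3 : ∀ z, (so (.cons A B C) x i F (i (.inr (.inl z))) =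
      si (.cons A B C) y i G (i (.inr (.inl z))) ↔
      so A (i (.inl false)) (fun z => i (.inr (.inl z))) (fun e => F (.inr (.inl e)))
        (i (.inr (.inl z))) = si A (i (.inl true)) (fun z => i (.inr (.inl z)))
        (fun e => G (.inr (.inl e))) (i (.inr (.inl z)))) := by
    intro z
    rw [so_cons, si_cons, if_neg (hx _).symm, if_neg (ne _ _ (by simp)),
      so_zero B _ _ _ _ (ne _ _ (by simp)) (fun z => ne _ _ (by simp)),
      so_zero C _ _ _ _ (ne _ _ (by simp)) (fun z => ne _ _ (by simp)),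
      si_zero B _ _ _ _ (ne _ _ (by simp)) (fun z => ne _ _ (by simp)),
      si_zero C _ _ _ _ (hy _).symm (fun z => ne _ _ (by simp))]
    simp only [add_zero, zero_add]
  have e4 : ∀ z, (so (.cons A B C) x i F (i (.inr (.inr (.inl z)))) =
      si (.cons A B C) y i G (i (.inr (.inr (.inl z)))) ↔
      so B (i (.inl false)) (fun z => i (.inr (.inr (.inl z))))
        (fun e => F (.inr (.inr (.inl e))))
        (i (.inr (.inr (.inl z)))) = si B (i (.inl true)) (fun z => i (.inr (.inr (.inl z))))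
        (fun e => G (.inr (.inr (.inl e)))) (i (.inr (.inr (.inl z))))) := by
    intro z
    rw [so_cons, si_cons, if_neg (hx _).symm, if_neg (ne _ _ (by simp)),
      so_zero A _ _ _ _ (ne _ _ (by simp)) (fun z => ne _ _ (by simp)),
      so_zero C _ _ _ _ (ne _ _ (by simp)) (fun z => ne _ _ (by simp)),
      si_zero A _ _ _ _ (ne _ _ (by simp)) (fun z => ne _ _ (by simp)),
      si_zero C _ _ _ _ (hy _).symm (fun z => ne _ _ (by simp))]
    simp only [add_zero, zero_add]
  have e5 : ∀ z, (so (.cons A B C) x i F (i (.inr (.inr (.inr z)))) =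
      si (.cons A B C) y i G (i (.inr (.inr (.inr z)))) ↔
      so C (i (.inl true)) (fun z => i (.inr (.inr (.inr z))))
        (fun e => F (.inr (.inr (.inr e))))
        (i (.inr (.inr (.inr z)))) = si C y (fun z => i (.inr (.inr (.inr z))))
        (fun e => G (.inr (.inr (.inr e)))) (i (.inr (.inr (.inr z))))) := by
    intro z
    rw [so_cons, si_cons, if_neg (hx _).symm, if_neg (ne _ _ (by simp)),
      so_zero A _ _ _ _ (ne _ _ (by simp)) (fun z => ne _ _ (by simp)),
      so_zero B _ _ _ _ (ne _ _ (by simp)) (fun z => ne _ _ (by simp)),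
      si_zero A _ _ _ _ (ne _ _ (by simp)) (fun z => ne _ _ (by simp)),
      si_zero B _ _ _ _ (ne _ _ (by simp)) (fun z => ne _ _ (by simp))]
    simp only [zero_add]
  refine Iff.trans (forall_cons A B C (fun z => so (.cons A B C) x i F (i z) =
    si (.cons A B C) y i G (i z))) ?_
  exact and_congr e1 (and_congr e2 (and_congr ((forall_congr' e3).trans hA)
    (and_congr ((forall_congr' e4).trans hB) ((forall_congr' e5).trans hC))))

theorem bal_iff {W : Type} : ∀ (X : Ch) (x y : W) (i : X.V → W) (F G : X.E → M),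
    Function.Injective i → (∀ z, i z ≠ x) → (∀ z, i z ≠ y) →
    ((∀ z, so X x i F (i z) = si X y i G (i z)) ↔ SB X F G)
  | .edge, _, _, _, _, _, _, _, _ => ⟨fun _ => trivial, fun _ z => Empty.elim z⟩
  | .cons A B C, x, y, i, F, G, hi, hx, hy =>
      bal_step A B C x y i F G hi hx hy
        (bal_iff A _ _ _ _ _ (fun _ _ h => Sum.inl_injective (Sum.inr_injective (hi h)))
          (fun _ h => Sum.inr_ne_inl (hi h)) (fun _ h => Sum.inr_ne_inl (hi h)))
        (bal_iff B _ _ _ _ _ (fun _ _ h => Sum.inl_injective (Sum.inr_injective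
          (Sum.inr_injective (hi h))))
          (fun _ h => Sum.inr_ne_inl (hi h)) (fun _ h => Sum.inr_ne_inl (hi h)))
        (bal_iff C _ _ _ _ _ (fun _ _ h => Sum.inr_injective (Sum.inr_injective
          (Sum.inr_injective (hi h))))
          (fun _ h => Sum.inr_ne_inl (hi h)) (fun z => hy _))

/-- the local conditions -/
theorem loc_iff : ∀ (X : Ch) (x y : E4) (p : X.V → E4) (v : X.E → E4) (ℓ : X.E → ℝ),
    Loc X x y p v ℓ ↔ (∀ z, ‖p z‖ = 1) ∧ (∀ e, Geo (X.src x p e) (v e) (ℓ e) (X.tgt y p e)) ∧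
      SB X v (fun e => vel (X.src x p e) (v e) (ℓ e))
  | .edge, x, y, p, v, ℓ => ⟨fun h => ⟨fun z => Empty.elim z, fun _ => h, trivial⟩, fun h => h.2.1 ()⟩
  | .cons A B C, x, y, p, v, ℓ => by
      have hA := loc_iff A (p (.inl false)) (p (.inl true)) (fun z => p (.inr (.inl z)))
        (fun e => v (.inr (.inl e))) (fun e => ℓ (.inr (.inl e)))
      have hB := loc_iff B (p (.inl false)) (p (.inl true)) (fun z => p (.inr (.inr (.inl z))))
        (fun e => v (.inr (.inr (.inl e)))) (fun e => ℓ (.inr (.inr (.inl e))))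
      have hC := loc_iff C (p (.inl true)) y (fun z => p (.inr (.inr (.inr z))))
        (fun e => v (.inr (.inr (.inr e)))) (fun e => ℓ (.inr (.inr (.inr e))))
      constructor
      · rintro ⟨h1, h2, h3, h4, h5, h6, h7, h8⟩
        have kA := hA.1 h4
        have kB := hB.1 h5
        have kC := hC.1 h6
        exact ⟨(forall_cons A B C _).2 ⟨h1, h2, kA.1, kB.1, kC.1⟩,
          (forall_consE A B C _).2 ⟨h3, kA.2.1, kB.2.1, kC.2.1⟩, h7, h8, kA.2.2, kB.2.2, kC.2.2⟩
      · rintro ⟨h1, h2, h7, h8, kA, kB, kC⟩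
        obtain ⟨a1, a2, a3, a4, a5⟩ := (forall_cons A B C _).1 h1
        obtain ⟨b1, b2, b3, b4⟩ := (forall_consE A B C _).1 h2
        exact ⟨a1, a2, b1, hA.2 ⟨a3, b2, kA⟩, hB.2 ⟨a4, b3, kB⟩, hC.2 ⟨a5, b4, kC⟩, h7, h8⟩

theorem tsrc_nat (A B C : Ch) {W : Type} (p : TV A B C → W) (e : TE A B C) :
    p (tsrc A B C id e) = tsrc A B C p e := by
  rcases e with e | e | e
  · exact (src_nat A p _ _ e).symm
  · exact (src_nat B p _ _ e).symm
  · exact (src_nat C p _ _ e).symm

theorem ttgt_nat (A B C : Ch) {W : Type} (p : TV A B C → W) (e : TE A B C) :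
    p (ttgt A B C id e) = ttgt A B C p e := by
  rcases e with e | e | e
  · exact (tgt_nat A p _ _ e).symm
  · exact (tgt_nat B p _ _ e).symm
  · exact (tgt_nat C p _ _ e).symm

open scoped Classical in
/-- the sum over the fibre -/
noncomputable def bo {V E : Type} [Fintype E] (s : E → V) (F : E → M) (w : V) : M :=
  ∑ e with s e = w, F e

theorem bo_sum {A B C W : Type} [Fintype A] [Fintype B] [Fintype C] (s : A ⊕ B ⊕ C → W)
    (F : A ⊕ B ⊕ C → M) (w : W) :
    bo s F w = bo (fun a => s (.inl a)) (fun a => F (.inl a)) w +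
      (bo (fun a => s (.inr (.inl a))) (fun a => F (.inr (.inl a))) w +
      bo (fun a => s (.inr (.inr a))) (fun a => F (.inr (.inr a))) w) := by
  unfold bo
  rw [Finset.sum_filter, Fintype.sum_sum_type, Fintype.sum_sum_type, Finset.sum_filter,
    Finset.sum_filter, Finset.sum_filter]

theorem bo_so {W : Type} (X : Ch) (x : W) (i : X.V → W) (F : X.E → M) (w : W) :
    bo (fun e => X.src x i e) F w = so X x i F w := by
  unfold bo so
  rw [Finset.sum_filter]

theorem bo_si {W : Type} (X : Ch) (x : W) (i : X.V → W) (F : X.E → M) (w : W) :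
    bo (fun e => X.tgt x i e) F w = si X x i F w := by
  unfold bo si
  rw [Finset.sum_filter]

theorem tout (A B C : Ch) (F : TE A B C → M) (w : TV A B C) :
    bo (tsrc A B C id) F w =
      so A (.inl false) (fun z => .inr (.inl z)) (fun e => F (.inl e)) w +
      (so B (.inl false) (fun z => .inr (.inr (.inl z))) (fun e => F (.inr (.inl e))) w +
      so C (.inl false) (fun z => .inr (.inr (.inr z))) (fun e => F (.inr (.inr e))) w) := by
  rw [bo_sum, ← bo_so, ← bo_so, ← bo_so]
  rfl

theorem tin (A B C : Ch) (F : TE A B C → M) (w : TV A B C) :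
    bo (ttgt A B C id) F w =
      si A (.inl true) (fun z => .inr (.inl z)) (fun e => F (.inl e)) w +
      (si B (.inl true) (fun z => .inr (.inr (.inl z))) (fun e => F (.inr (.inl e))) w +
      si C (.inl true) (fun z => .inr (.inr (.inr z))) (fun e => F (.inr (.inr e))) w) := by
  rw [bo_sum, ← bo_si, ← bo_si, ← bo_si]
  rfl

/-- the balance of the multigraph -/
theorem top_iff (A B C : Ch) (F G : TE A B C → M) :
    (∀ w : TV A B C, bo (tsrc A B C id) F w = bo (ttgt A B C id) G w) ↔
      F (.inl A.first) + F (.inr (.inl B.first)) + F (.inr (.inr C.first)) = 0 ∧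
      G (.inl A.last) + G (.inr (.inl B.last)) + G (.inr (.inr C.last)) = 0 ∧
      SB A (fun e => F (.inl e)) (fun e => G (.inl e)) ∧
      SB B (fun e => F (.inr (.inl e))) (fun e => G (.inr (.inl e))) ∧
      SB C (fun e => F (.inr (.inr e))) (fun e => G (.inr (.inr e))) := by
  have hA := bal_iff A (W := TV A B C) (.inl false) (.inl true) (fun z => .inr (.inl z))
    (fun e => F (.inl e)) (fun e => G (.inl e))
    (fun a b h => by simpa using h) (fun z => by simp) (fun z => by simp)
  have hB := bal_iff B (W := TV A B C) (.inl false) (.inl true) (fun z => .inr (.inr (.inl z)))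
    (fun e => F (.inr (.inl e))) (fun e => G (.inr (.inl e)))
    (fun a b h => by simpa using h) (fun z => by simp) (fun z => by simp)
  have hC := bal_iff C (W := TV A B C) (.inl false) (.inl true) (fun z => .inr (.inr (.inr z)))
    (fun e => F (.inr (.inr e))) (fun e => G (.inr (.inr e)))
    (fun a b h => by simpa using h) (fun z => by simp) (fun z => by simp)
  have e1 : bo (tsrc A B C id) F (.inl false) = bo (ttgt A B C id) G (.inl false) ↔
      F (.inl A.first) + F (.inr (.inl B.first)) + F (.inr (.inr C.first)) = 0 := by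
    rw [tout, tin, so_first A _ _ _ (fun z => by simp), so_first B _ _ _ (fun z => by simp),
      so_first C _ _ _ (fun z => by simp), si_zero A _ _ _ _ (by simp) (fun z => by simp),
      si_zero B _ _ _ _ (by simp) (fun z => by simp), si_zero C _ _ _ _ (by simp) (fun z => by simp)]
    simp only [add_zero, add_assoc]
  have e2 : bo (tsrc A B C id) F (.inl true) = bo (ttgt A B C id) G (.inl true) ↔
      G (.inl A.last) + G (.inr (.inl B.last)) + G (.inr (.inr C.last)) = 0 := by
    rw [tout, tin, si_last A _ _ _ (fun z => by simp), si_last B _ _ _ (fun z => by simp),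
      si_last C _ _ _ (fun z => by simp), so_zero A _ _ _ _ (by simp) (fun z => by simp),
      so_zero B _ _ _ _ (by simp) (fun z => by simp), so_zero C _ _ _ _ (by simp) (fun z => by simp)]
    simp only [add_zero, add_assoc]
    exact eq_comm
  have e3 : ∀ z, (bo (tsrc A B C id) F (.inr (.inl z)) = bo (ttgt A B C id) G (.inr (.inl z)) ↔
      so A (W := TV A B C) (.inl false) (fun z => .inr (.inl z)) (fun e => F (.inl e)) (.inr (.inl z)) =
      si A (W := TV A B C) (.inl true) (fun z => .inr (.inl z)) (fun e => G (.inl e)) (.inr (.inl z))) := by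
    intro z
    rw [tout, tin, so_zero B _ _ _ _ (by simp) (fun z => by simp),
      so_zero C _ _ _ _ (by simp) (fun z => by simp), si_zero B _ _ _ _ (by simp) (fun z => by simp),
      si_zero C _ _ _ _ (by simp) (fun z => by simp)]
    simp only [add_zero]
  have e4 : ∀ z, (bo (tsrc A B C id) F (.inr (.inr (.inl z))) =
      bo (ttgt A B C id) G (.inr (.inr (.inl z))) ↔
      so B (W := TV A B C) (.inl false) (fun z => .inr (.inr (.inl z))) (fun e => F (.inr (.inl e)))
        (.inr (.inr (.inl z))) =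
      si B (W := TV A B C) (.inl true) (fun z => .inr (.inr (.inl z))) (fun e => G (.inr (.inl e)))
        (.inr (.inr (.inl z)))) := by
    intro z
    rw [tout, tin, so_zero A _ _ _ _ (by simp) (fun z => by simp),
      so_zero C _ _ _ _ (by simp) (fun z => by simp), si_zero A _ _ _ _ (by simp) (fun z => by simp),
      si_zero C _ _ _ _ (by simp) (fun z => by simp)]
    simp only [add_zero, zero_add]
  have e5 : ∀ z, (bo (tsrc A B C id) F (.inr (.inr (.inr z))) =
      bo (ttgt A B C id) G (.inr (.inr (.inr z))) ↔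
      so C (W := TV A B C) (.inl false) (fun z => .inr (.inr (.inr z))) (fun e => F (.inr (.inr e)))
        (.inr (.inr (.inr z))) =
      si C (W := TV A B C) (.inl true) (fun z => .inr (.inr (.inr z))) (fun e => G (.inr (.inr e)))
        (.inr (.inr (.inr z)))) := by
    intro z
    rw [tout, tin, so_zero A _ _ _ _ (by simp) (fun z => by simp),
      so_zero B _ _ _ _ (by simp) (fun z => by simp), si_zero A _ _ _ _ (by simp) (fun z => by simp),
      si_zero B _ _ _ _ (by simp) (fun z => by simp)]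
    simp only [zero_add]
  refine Iff.trans (forall_cons A B C (fun w => bo (tsrc A B C id) F w = bo (ttgt A B C id) G w)) ?_
  exact and_congr e1 (and_congr e2 (and_congr ((forall_congr' e3).trans hA)
    (and_congr ((forall_congr' e4).trans hB) ((forall_congr' e5).trans hC))))

theorem main (A B C : Ch) (p : TV A B C → E4) (v : TE A B C → E4) (ℓ : TE A B C → ℝ) :
    IsNet (tsrc A B C id) (ttgt A B C id) p v ℓ ↔ Parts A B C p v ℓ := by
  have ht := top_iff A B C v (fun e => vel (tsrc A B C p e) (v e) (ℓ e))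
  have hv : (fun e => vel (tsrc A B C p e) (v e) (ℓ e)) =
      fun e => vel (p (tsrc A B C id e)) (v e) (ℓ e) := by
    funext e
    rw [tsrc_nat A B C p]
  constructor
  · intro h
    have hb := ht.1 (fun w => by
      rw [hv]
      exact h.balanced w)
    obtain ⟨b1, b2, bA, bB, bC⟩ := hb
    have hg : ∀ e, Geo (tsrc A B C p e) (v e) (ℓ e) (ttgt A B C p e) := by
      intro e
      have h1 := h.start e
      have h2 := h.finish e
      rw [tsrc_nat A B C p] at h1 h2
      rw [ttgt_nat A B C p] at h2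
      exact ⟨h1.1, h1.2, h.pos e, h2⟩
    refine ⟨h.unit, h.injective, ?_, ?_, ?_, ?_, b1, b2⟩
    · intro e f a b h1 h2 h3 h4 h5
      refine h.embedded e f a b h1 h2 h3 h4 ?_
      rw [tsrc_nat A B C p, tsrc_nat A B C p]
      exact h5
    · exact (loc_iff A _ _ _ _ _).2 ⟨fun z => h.unit _, fun e => hg (.inl e), bA⟩
    · exact (loc_iff B _ _ _ _ _).2 ⟨fun z => h.unit _, fun e => hg (.inr (.inl e)), bB⟩
    · exact (loc_iff C _ _ _ _ _).2 ⟨fun z => h.unit _, fun e => hg (.inr (.inr e)), bC⟩
  · rintro ⟨h1, h2, h3, hA, hB, hC, b1, b2⟩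
    obtain ⟨-, gA, bA⟩ := (loc_iff A _ _ _ _ _).1 hA
    obtain ⟨-, gB, bB⟩ := (loc_iff B _ _ _ _ _).1 hB
    obtain ⟨-, gC, bC⟩ := (loc_iff C _ _ _ _ _).1 hC
    have hg : ∀ e, Geo (tsrc A B C p e) (v e) (ℓ e) (ttgt A B C p e) := by
      rintro (e | e | e)
      · exact gA e
      · exact gB e
      · exact gC e
    have hb := ht.2 ⟨b1, b2, bA, bB, bC⟩
    refine ⟨h1, fun e => ?_, fun e => (hg e).2.2.1, fun e => ?_, fun w => ?_, h2, ?_⟩
    · rw [tsrc_nat A B C p]
      exact ⟨(hg e).1, (hg e).2.1⟩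
    · rw [tsrc_nat A B C p, ttgt_nat A B C p]
      exact (hg e).2.2.2
    · have hw := hb w
      rw [hv] at hw
      exact hw
    · intro e f a b k1 k2 k3 k4 k5
      rw [tsrc_nat A B C p, tsrc_nat A B C p] at k5
      exact h3 e f a b k1 k2 k3 k4 k5

end LOCaux

end Pool.Agent.H57N
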