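import Pool.Agent.H57N.Stm2
import Pool.Agent.H57N.GEO2
import Pool.Agent.H57N.LOCaux

/-!
PIECE CHN: a chain inside of an edge.
-/

set_option autoImplicit false

namespace Pool.Agent.H57N

open Real
open scoped RealInnerProductSpace

namespace CHN

lemma src_first (X : Ch) {W : Type} (x : W) (i : X.V → W) : X.src x i X.first = x := by
  cases X <;> rfl

lemma src_other (X : Ch) {W : Type} (x x' : W) (i : X.V → W) {e : X.E} (he : e ≠ X.first) :
    X.src x i e = X.src x' i e := by
  cases X with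
  | edge => exact absurd rfl he
  | cons A B C =>
    rcases e with e | e | e | e
    · exact absurd rfl he
    · rfl
    · rfl
    · rfl

lemma tgt_last : ∀ (X : Ch) {W : Type} (y : W) (i : X.V → W), X.tgt y i X.last = y
  | .edge, _, _, _ => rfl
  | .cons _ _ C, _, y, i => tgt_last C y (fun z => i (.inr (.inr (.inr z))))

lemma tgt_other : ∀ (X : Ch) {W : Type} (y y' : W) (i : X.V → W) {e : X.E}, e ≠ X.last →
    X.tgt y i e = X.tgt y' i e
  | .edge, _, _, _, _, _, he => absurd rfl he
  | .cons _ _ _, _, _, _, _, .inl _, _ => rfl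
  | .cons _ _ _, _, _, _, _, .inr (.inl _), _ => rfl
  | .cons _ _ _, _, _, _, _, .inr (.inr (.inl _)), _ => rfl
  | .cons _ _ C, _, y, y', i, .inr (.inr (.inr e)), he =>
      tgt_other C y y' (fun z => i (.inr (.inr (.inr z))))
        (fun h => he (by rw [h]; rfl))

lemma SB_congr : ∀ (X : Ch) (F G F' G' : X.E → E4), (∀ e, e ≠ X.first → F' e = F e) →
    (∀ e, e ≠ X.last → G' e = G e) → LOCaux.SB X F G → LOCaux.SB X F' G'
  | .edge, _, _, _, _, _, _, _ => trivial
  | .cons A B C, F, G, F', G', hF, hG, h => by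
    obtain ⟨h1, h2, hA, hB, hC⟩ := h
    have nF : ∀ z, (Sum.inr z : (Ch.cons A B C).E) ≠ (Ch.cons A B C).first := by
      intro z hz
      exact absurd hz (by simp [Ch.first])
    have n0 : (Sum.inl () : (Ch.cons A B C).E) ≠ (Ch.cons A B C).last := by
      intro hz
      exact absurd hz (by simp [Ch.last])
    have nA : ∀ z, (Sum.inr (Sum.inl z) : (Ch.cons A B C).E) ≠ (Ch.cons A B C).last := by
      intro z hz
      exact absurd hz (by simp [Ch.last])
    have nB : ∀ z, (Sum.inr (Sum.inr (Sum.inl z)) : (Ch.cons A B C).E) ≠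
        (Ch.cons A B C).last := by
      intro z hz
      exact absurd hz (by simp [Ch.last])
    have nC : ∀ z, z ≠ C.last → (Sum.inr (Sum.inr (Sum.inr z)) : (Ch.cons A B C).E) ≠
        (Ch.cons A B C).last := by
      intro z hz hz'
      apply hz
      have := Sum.inr_injective (Sum.inr_injective (Sum.inr_injective hz'))
      exact this
    refine ⟨?_, ?_, ?_, ?_, ?_⟩
    · rw [hG _ n0, hF _ (nF _), hF _ (nF _)]; exact h1
    · rw [hF _ (nF _), hG _ (nA _), hG _ (nB _)]; exact h2
    · exact SB_congr A _ _ _ _ (fun e _ => hF _ (nF _)) (fun e _ => hG _ (nA _)) hA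
    · exact SB_congr B _ _ _ _ (fun e _ => hF _ (nF _)) (fun e _ => hG _ (nB _)) hB
    · exact SB_congr C _ _ _ _ (fun e _ => hF _ (nF _)) (fun e he => hG _ (nC _ he)) hC

section unit
variable {x v : E4} (hx : ‖x‖ = 1) (hv : ‖v‖ = 1) (h : ⟪x, v⟫ = 0)
include hx hv h

lemma unit_pl {q : E4} (hq : ‖q‖ = 1) (hm : q ∈ pl x v) : ∃ t, q = arc x v t := by
  obtain ⟨c, s, rfl⟩ := mem_pl.1 hm
  have h1 := inner_comb hx hv h c s c s
  rw [real_inner_self_eq_norm_sq, hq] at h1
  have e7 : c ^ 2 + s ^ 2 = 1 := by linarith [h1]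
  have hn : ‖(⟨c, s⟩ : ℂ)‖ = 1 := by
    rw [Complex.norm_def, Complex.normSq_mk, ← sq, ← sq, e7, Real.sqrt_one]
  have hn0 : (⟨c, s⟩ : ℂ) ≠ 0 := by
    intro h0
    rw [h0, norm_zero] at hn
    norm_num at hn
  refine ⟨Complex.arg ⟨c, s⟩, ?_⟩
  rw [arc, Complex.cos_arg hn0, Complex.sin_arg, hn, div_one, div_one]

end unit

lemma modpi (x v : E4) (t : ℝ) : ∃ r, 0 ≤ r ∧ r < π ∧ (arc x v t = arc x v r ∨
    arc x v t = -arc x v r) := by
  have hp := pi_pos
  have h1 : 0 ≤ t - ⌊t / π⌋ * π := by
    have := Int.floor_le (t / π)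
    have h2 : ⌊t / π⌋ * π ≤ t / π * π := mul_le_mul_of_nonneg_right this hp.le
    rw [div_mul_cancel₀ _ hp.ne'] at h2
    linarith
  have h2 : t - ⌊t / π⌋ * π < π := by
    have := Int.lt_floor_add_one (t / π)
    have h3 : t / π * π < (⌊t / π⌋ + 1) * π := mul_lt_mul_of_pos_right this hp
    rw [div_mul_cancel₀ _ hp.ne'] at h3
    linarith
  refine ⟨t - ⌊t / π⌋ * π, h1, h2, ?_⟩
  have h3 : t = (t - ⌊t / π⌋ * π) + ⌊t / π⌋ * π := by ring
  have h4 : arc x v t = arc x v ((t - ⌊t / π⌋ * π) + ⌊t / π⌋ * π) := by rw [← h3]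
  rw [h4]
  simp only [arc, cos_add_int_mul_pi, sin_add_int_mul_pi]
  rcases Int.even_or_odd ⌊t / π⌋ with hk | hk
  · left
    rw [hk.neg_one_zpow]; simp
  · right
    rw [hk.neg_one_zpow]
    module

end CHN

open CHN

theorem t_CHN (hS : S_STEP) : S_CHN := by
  intro X hg he x v ℓ a b S hx hv h ha hab hb hpi hSf hSr hSc H0 HI
  classical
  obtain ⟨x0, hx0d⟩ : ∃ x0, x0 = arc x v (b - π) := ⟨_, rfl⟩
  obtain ⟨v0, hv0d⟩ : ∃ v0, v0 = vel x v (b - π) := ⟨_, rfl⟩
  have hx0 : ‖x0‖ = 1 := by rw [hx0d]; exact norm_arc hx hv h _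
  have hv0 : ‖v0‖ = 1 := by rw [hv0d]; exact norm_vel hx hv h _
  have h0 : ⟪x0, v0⟫ = 0 := by rw [hx0d, hv0d]; exact inner_arc_vel hx hv h _
  have A0 : ∀ t, arc x0 v0 t = arc x v (b - π + t) := by
    intro t
    rw [hx0d, hv0d, arc_arc]
  have V0 : ∀ t, vel x0 v0 t = vel x v (b - π + t) := by
    intro t
    rw [hx0d, hv0d, vel_arc]
  have hpl : pl x0 v0 = pl x v := by
    have := pl_arc hx hv h (σ := 1) (Or.inl rfl) (b - π)
    rwa [one_smul, one_smul, ← hx0d, ← hv0d] at this
  obtain ⟨p, v', ℓ', o⟩ := hS X hg x0 v0 (π - (b - a)) 1 S hx0 hv0 h0 (by linarith)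
    (by linarith) (Or.inl rfl) hSf hSr (by
      intro P hP t ht ht' hm
      rw [A0] at hm
      exact hSc P hP _ (by linarith) (by linarith) hm)
  have e1 : (1 : ℝ) • arc x0 v0 (π - (b - a)) = arc x v a := by
    rw [one_smul, A0]
    congr 1
    ring
  have e2 : ((1 : ℝ) * (-1) ^ X.len) • arc x0 v0 π = arc x v b := by
    rw [he.neg_one_pow, A0, mul_one, one_smul]
    congr 1
    ring
  have e3 : (1 : ℝ) • vel x0 v0 (π - (b - a)) = vel x v a := by
    rw [one_smul, V0]
    congr 1
    ring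
  have e4 : ((1 : ℝ) * (-1) ^ X.len) • vel x0 v0 π = vel x v b := by
    rw [he.neg_one_pow, V0, mul_one, one_smul]
    congr 1
    ring
  unfold Out at o
  rw [e1, e2, e3, e4, hpl] at o
  obtain ⟨o1, o2, o3, o4, o5, o6, o7, o8, o9⟩ := o
  obtain ⟨-, oG, oB⟩ := (LOCaux.loc_iff X _ _ _ _ _).1 o1
  obtain ⟨old, hold⟩ : ∃ old : X.E → ℝ → E4, ∀ e θ, arc (X.src (arc x v a) p e) (v' e) θ = old e θ :=
    ⟨fun e θ => arc (X.src (arc x v a) p e) (v' e) θ, fun _ _ => rfl⟩
  have hlp : ∀ e, 0 < ℓ' e := fun e => (oG e).2.2.1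
  have oldFirst : ∀ θ, old X.first θ = arc x v (a + θ) := by
    intro θ
    rw [← hold, src_first, o2, arc_arc]
  have hend : arc (X.src (arc x v a) p X.last) (v' X.last) (ℓ' X.last) = arc x v b := by
    have := (oG X.last).2.2.2
    rw [tgt_last] at this
    exact this
  have oldLast : ∀ θ, old X.last θ = arc x v (b + (θ - ℓ' X.last)) := by
    intro θ
    have h1 := arc_arc (X.src (arc x v a) p X.last) (v' X.last) (ℓ' X.last) (θ - ℓ' X.last)
    rw [hend] at h1
    have h2 : vel (X.src (arc x v a) p X.last) (v' X.last) (ℓ' X.last) = vel x v b := o3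
    rw [h2, arc_arc] at h1
    rw [h1, ← hold]
    congr 1
    ring
  -- the edges
  have E9 : ∀ e, (pl (X.src (arc x v a) p e) (v' e) = pl x v ∧ ∃ c ε : ℝ, a ≤ c ∧
      c + ℓ' e ≤ b ∧ (ε = 1 ∨ ε = -1) ∧ ∀ θ, old e θ = ε • arc x v (c + θ)) ∨
      ((∀ P ∈ S, Disjoint (pl (X.src (arc x v a) p e) (v' e)) P) ∧
        ∀ t, arc x v t ∈ pl (X.src (arc x v a) p e) (v' e) → ∃ s, a < s ∧ s < b ∧
          (arc x v t = arc x v s ∨ arc x v t = -arc x v s)) := by
    intro e
    rcases o9 e with ⟨h1, c, ε, h2, h3, h4, h5, h6⟩ | ⟨h1, h2⟩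
    · left
      refine ⟨h1, b - π + c, ε, by linarith, by linarith, h5, ?_⟩
      intro θ
      rw [← hold, h6 θ, A0]
      congr 2
      ring
    · right
      refine ⟨h1, ?_⟩
      intro t ht
      obtain ⟨r, hr0, hr1, hr⟩ := modpi x0 v0 (t - b + π)
      have ht' : arc x v t = arc x0 v0 (t - b + π) := by
        rw [A0]
        congr 1
        ring
      have hmem : arc x0 v0 r ∈ pl (X.src (arc x v a) p e) (v' e) := by
        rw [ht'] at ht
        rcases hr with hr | hr
        · rw [← hr]; exact ht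
        · rw [hr] at ht
          simpa using ht
      have hr2 : π - (b - a) < r := by
        by_contra hcon
        exact h2 r (Or.inl ⟨hr0, not_lt.1 hcon⟩) hmem
      refine ⟨b - π + r, by linarith, by linarith, ?_⟩
      rw [ht']
      rcases hr with hr | hr
      · left; rw [hr, A0]
      · right; rw [hr, A0]
  have hγ : ∀ t, arc x v t ∈ pl x v := arc_mem x v
  have hun : ∀ e θ, ‖old e θ‖ = 1 := by
    intro e θ
    rw [← hold]
    have hU := Loc.unit X _ _ p v' ℓ' (norm_arc hx hv h a) o1 e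
    exact norm_arc hU.1 hU.2.1 hU.2.2.1 θ
  have hne0 : ∀ e θ, old e θ ≠ 0 := by
    intro e θ h0
    have := hun e θ
    rw [h0, norm_zero] at this
    norm_num at this
  have hmo : ∀ e θ, old e θ ∈ pl (X.src (arc x v a) p e) (v' e) := by
    intro e θ
    rw [← hold]
    exact arc_mem _ _ _
  -- closed points of the old edges
  have C1 : ∀ e θ, 0 ≤ θ → θ ≤ ℓ' e →
      (∃ t, a ≤ t ∧ t ≤ b ∧ old e θ = arc x v t ∧ (0 < θ ∧ θ < ℓ' e → a < t ∧ t < b)) ∨
      (∃ t, a ≤ t ∧ t ≤ b ∧ old e θ = -arc x v t ∧ (0 < θ ∧ θ < ℓ' e → a < t ∧ t < b)) ∨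
      (old e θ ∉ pl x v ∧ ∀ P ∈ S, old e θ ∉ P) := by
    intro e θ hθ hθ'
    rcases E9 e with ⟨_, c, ε, h2, h3, h4, h5⟩ | ⟨h1, h2⟩
    · rcases h4 with rfl | rfl
      · left
        refine ⟨c + θ, by linarith, by linarith, ?_, ?_⟩
        · rw [h5, one_smul]
        · rintro ⟨h6, h7⟩
          exact ⟨by linarith, by linarith⟩
      · right; left
        refine ⟨c + θ, by linarith, by linarith, ?_, ?_⟩
        · rw [h5, neg_one_smul]
        · rintro ⟨h6, h7⟩
          exact ⟨by linarith, by linarith⟩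
    · by_cases hm : old e θ ∈ pl x v
      · obtain ⟨t, ht⟩ := unit_pl hx hv h (hun e θ) hm
        obtain ⟨s, hs, hs', h6⟩ := h2 t (by rw [← ht]; exact hmo e θ)
        rcases h6 with h6 | h6
        · left
          exact ⟨s, hs.le, hs'.le, by rw [ht, h6], fun _ => ⟨hs, hs'⟩⟩
        · right; left
          exact ⟨s, hs.le, hs'.le, by rw [ht, h6], fun _ => ⟨hs, hs'⟩⟩
      · right; right
        refine ⟨hm, fun P hP hm' => hne0 e θ ?_⟩
        exact Submodule.disjoint_def.1 (h1 P hP) _ (hmo e θ) hm'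
  -- the ends of the interval
  have C2 : ∀ e, e ≠ X.first → ∀ θ, 0 ≤ θ → θ ≤ ℓ' e → old e θ ≠ arc x v a := by
    intro e hne θ hθ hθ' heq
    rcases E9 e with ⟨_, c, ε, h2, h3, h4, h5⟩ | ⟨h1, h2⟩
    · rcases h4 with rfl | rfl
      · rw [h5, one_smul] at heq
        have h6 := HI a (c + θ) ha (by linarith) (by linarith) (by linarith) heq.symm
        have hc : c = a := by linarith
        obtain ⟨d, hd⟩ : ∃ d, d = min (ℓ' e) (ℓ' X.first) / 2 := ⟨_, rfl⟩
        have hd0 : 0 < min (ℓ' e) (ℓ' X.first) := lt_min (hlp _) (hlp _)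
        have hd1 := min_le_left (ℓ' e) (ℓ' X.first)
        have hd2 := min_le_right (ℓ' e) (ℓ' X.first)
        have h7 := o4 X.first e d d (by linarith) (by linarith) (by linarith) (by linarith) (by
          rw [hold, hold, oldFirst, h5, hc, one_smul])
        exact hne h7.1.symm
      · rw [h5, neg_one_smul] at heq
        exact H0 (c + θ) a (by linarith) (by linarith) ha.le (by linarith) heq.symm
    · obtain ⟨s, hs, hs', h6⟩ := h2 a (by
        have h7 := hmo e θ
        rw [heq] at h7
        exact h7)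
      rcases h6 with h6 | h6
      · have := HI a s ha (by linarith) (by linarith) (by linarith) h6
        linarith
      · exact H0 s a hs.le hs'.le ha.le (by linarith) h6
  have C3 : ∀ e, e ≠ X.last → ∀ θ, 0 ≤ θ → θ ≤ ℓ' e → old e θ ≠ arc x v b := by
    intro e hne θ hθ hθ' heq
    rcases E9 e with ⟨_, c, ε, h2, h3, h4, h5⟩ | ⟨h1, h2⟩
    · rcases h4 with rfl | rfl
      · rw [h5, one_smul] at heq
        have h6 := HI b (c + θ) (by linarith) hb (by linarith) (by linarith) heq.symm
        have hc : c = b - ℓ' e := by linarith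
        obtain ⟨d, hd⟩ : ∃ d, d = min (ℓ' e) (ℓ' X.last) / 2 := ⟨_, rfl⟩
        have hd0 : 0 < min (ℓ' e) (ℓ' X.last) := lt_min (hlp _) (hlp _)
        have hd1 := min_le_left (ℓ' e) (ℓ' X.last)
        have hd2 := min_le_right (ℓ' e) (ℓ' X.last)
        have h7 := o4 X.last e (ℓ' X.last - d) (ℓ' e - d) (by linarith) (by linarith)
          (by linarith) (by linarith) (by
          rw [hold, hold, oldLast, h5, hc, one_smul]
          congr 1
          ring)
        exact hne h7.1.symm
      · rw [h5, neg_one_smul] at heq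
        exact H0 (c + θ) b (by linarith) (by linarith) (by linarith) (by linarith) heq.symm
    · obtain ⟨s, hs, hs', h6⟩ := h2 b (by rw [← heq]; exact hmo e θ)
      rcases h6 with h6 | h6
      · have := HI b s (by linarith) hb (by linarith) (by linarith) h6
        linarith
      · exact H0 s b hs.le hs'.le (by linarith) (by linarith) h6
  have C4 : ℓ' X.last ≤ b - a := by
    rcases E9 X.last with ⟨_, c, ε, h2, h3, h4, h5⟩ | ⟨h1, h2⟩
    · linarith
    · obtain ⟨s, hs, hs', h6⟩ := h2 b (by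
        have := hmo X.last (ℓ' X.last)
        rw [oldLast, sub_self, add_zero] at this
        exact this)
      rcases h6 with h6 | h6
      · have := HI b s (by linarith) hb (by linarith) (by linarith) h6
        linarith
      · exact absurd h6 (H0 s b hs.le hs'.le (by linarith) (by linarith))
  have C5 : ℓ' X.first ≤ b - a := by
    rcases E9 X.first with ⟨_, c, ε, h2, h3, h4, h5⟩ | ⟨h1, h2⟩
    · linarith
    · obtain ⟨s, hs, hs', h6⟩ := h2 a (by
        have := hmo X.first 0
        rw [oldFirst, add_zero] at this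
        exact this)
      rcases h6 with h6 | h6
      · have := HI a s ha (by linarith) (by linarith) (by linarith) h6
        linarith
      · exact absurd h6 (H0 s a hs.le hs'.le ha.le (by linarith))
  -- the new data
  obtain ⟨α, hα⟩ : ∃ α : X.E → ℝ, ∀ e, α e = if e = X.first then a else 0 := ⟨_, fun _ => rfl⟩
  obtain ⟨β, hβ⟩ : ∃ β : X.E → ℝ, ∀ e, β e = if e = X.last then ℓ - b else 0 := ⟨_, fun _ => rfl⟩
  obtain ⟨w, hw⟩ : ∃ w : X.E → E4, ∀ e, w e = if e = X.first then v else v' e :=
    ⟨_, fun _ => rfl⟩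
  obtain ⟨l, hl⟩ : ∃ l : X.E → ℝ, ∀ e, l e = ℓ' e + α e + β e := ⟨_, fun _ => rfl⟩
  have hα0 : ∀ e, 0 ≤ α e := by
    intro e
    rw [hα]
    split_ifs
    · exact ha.le
    · exact le_rfl
  have hβ0 : ∀ e, 0 ≤ β e := by
    intro e
    rw [hβ]
    split_ifs
    · linarith
    · exact le_rfl
  have hpt : ∀ e τ, arc (X.src x p e) (w e) τ = old e (τ - α e) := by
    intro e τ
    by_cases hE : e = X.first
    · rw [hE, src_first, hw, if_pos rfl, hα, if_pos rfl, oldFirst]
      congr 1
      ring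
    · rw [src_other X x (arc x v a) p hE, hw, if_neg hE, hα, if_neg hE, hold, sub_zero]
  have hvt : ∀ e τ, vel (X.src x p e) (w e) τ =
      vel (X.src (arc x v a) p e) (v' e) (τ - α e) := by
    intro e τ
    by_cases hE : e = X.first
    · rw [hE, src_first, src_first, hw, if_pos rfl, hα, if_pos rfl, o2, vel_arc]
      congr 1
      ring
    · rw [src_other X x (arc x v a) p hE, hw, if_neg hE, hα, if_neg hE, sub_zero]
  have hplw : ∀ e, pl (X.src x p e) (w e) = pl (X.src (arc x v a) p e) (v' e) := by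
    intro e
    by_cases hE : e = X.first
    · rw [hE, src_first, src_first, hw, if_pos rfl, o2]
      have := pl_arc hx hv h (σ := 1) (Or.inl rfl) a
      rw [one_smul, one_smul] at this
      exact this.symm
    · rw [src_other X x (arc x v a) p hE, hw, if_neg hE]
  -- three kinds of closed points of the new edges
  have TRI : ∀ f τ, 0 ≤ τ → τ ≤ l f →
      (f = X.first ∧ τ ≤ a ∧ arc (X.src x p f) (w f) τ = arc x v τ) ∨
      (f = X.last ∧ b ≤ ℓ - (l f - τ) ∧
        arc (X.src x p f) (w f) τ = arc x v (ℓ - (l f - τ))) ∨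
      (0 ≤ τ - α f ∧ τ - α f ≤ ℓ' f ∧ (τ - α f = 0 → f ≠ X.first) ∧
        (τ - α f = ℓ' f → f ≠ X.last)) := by
    intro f τ hτ hτ'
    by_cases hE : f = X.first ∧ τ ≤ a
    · left
      refine ⟨hE.1, hE.2, ?_⟩
      rw [hE.1, src_first, hw, if_pos rfl]
    · by_cases hR : f = X.last ∧ b ≤ ℓ - (l f - τ)
      · right; left
        refine ⟨hR.1, hR.2, ?_⟩
        rw [hpt, hR.1, oldLast]
        congr 1
        rw [hl X.last, hβ X.last, if_pos rfl]
        ring
      · right; right
        have h3 : 0 ≤ τ - α f := by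
          by_cases hF : f = X.first
          · rw [hα, if_pos hF]
            have : ¬ τ ≤ a := fun h => hE ⟨hF, h⟩
            linarith [not_le.1 this]
          · rw [hα, if_neg hF]; linarith
        have h4 : τ - α f ≤ ℓ' f := by
          by_cases hF : f = X.last
          · have h5 : ¬ b ≤ ℓ - (l f - τ) := fun h => hR ⟨hF, h⟩
            have h6 := not_le.1 h5
            rw [hl, hβ, if_pos hF] at h6
            linarith
          · rw [hl, hβ, if_neg hF] at hτ'
            linarith
        refine ⟨h3, h4, ?_, ?_⟩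
        · intro h5 h6
          rw [hα, if_pos h6] at h5
          exact hE ⟨h6, by linarith⟩
        · intro h5 h6
          refine hR ⟨h6, ?_⟩
          rw [hl, hβ, if_pos h6]
          linarith
  refine ⟨p, w, l, ?_, ?_, ?_, ?_, o5, o6, ?_, ?_, ?_, ?_⟩
  · -- Loc
    refine (LOCaux.loc_iff X _ _ _ _ _).2 ⟨o6, ?_, ?_⟩
    · intro e
      have hg1 := oG e
      have hs0 : ‖w e‖ = 1 ∧ ⟪X.src x p e, w e⟫ = 0 := by
        by_cases hE : e = X.first
        · rw [hE, src_first, hw, if_pos rfl]
          exact ⟨hv, h⟩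
        · rw [src_other X x (arc x v a) p hE, hw, if_neg hE]
          exact ⟨hg1.1, hg1.2.1⟩
      refine ⟨hs0.1, hs0.2, ?_, ?_⟩
      · rw [hl]
        linarith [hlp e, hα0 e, hβ0 e]
      · rw [hpt, hl]
        by_cases hE : e = X.last
        · rw [hE, tgt_last, oldLast, hβ, if_pos rfl]
          congr 1
          ring
        · rw [tgt_other X (arc x v ℓ) (arc x v b) p hE, hβ, if_neg hE, ← hg1.2.2.2, hold]
          congr 1
          ring
    · refine SB_congr X _ _ _ _ ?_ ?_ oB
      · intro e hE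
        rw [hw, if_neg hE]
      · intro e hE
        rw [hvt, hl, hβ, if_neg hE]
        congr 1
        ring
  · rw [hw, if_pos rfl]
  · change vel (X.src x p X.last) (w X.last) (l X.last) = vel x v ℓ
    rw [hvt, hl, hβ, if_pos rfl]
    have h1 := vel_arc (X.src (arc x v a) p X.last) (v' X.last) (ℓ' X.last) (ℓ - b)
    rw [hend] at h1
    have h2 : vel (X.src (arc x v a) p X.last) (v' X.last) (ℓ' X.last) = vel x v b := o3
    rw [h2, vel_arc] at h1
    have h3 : ℓ' X.last + α X.last + (ℓ - b) - α X.last = ℓ' X.last + (ℓ - b) := by ring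
    rw [h3, ← h1]
    congr 1
    ring
  · -- Emb
    intro f g τ τ' h1 h2 h3 h4 heq
    -- an interior point which is a point of the circle outside of the interval
    have key : ∀ (g : X.E) (τ' t : ℝ), 0 ≤ τ' - α g → τ' - α g ≤ ℓ' g →
        (τ' - α g = 0 → g ≠ X.first) → (τ' - α g = ℓ' g → g ≠ X.last) →
        0 ≤ t → t ≤ ℓ → (t ≤ a ∨ b ≤ t) → (0 < t ∧ t < ℓ ∨ (0 < τ' - α g ∧ τ' - α g < ℓ' g)) →
        arc x v t = old g (τ' - α g) → False := by
      intro g τ' t k1 k2 k3 k4 k5 k6 k7 k8 k9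
      rcases C1 g (τ' - α g) k1 k2 with ⟨r, hr1, hr2, hr3, hr4⟩ | ⟨r, hr1, hr2, hr3, hr4⟩ |
        ⟨hr1, _⟩
      · have htr : t = r := by
          rw [hr3] at k9
          rcases k8 with k8 | k8
          · exact HI t r k8.1 k8.2 (by linarith) (by linarith) k9
          · have := hr4 k8
            exact (HI r t (by linarith) (by linarith) k5 k6 k9.symm).symm
        rcases k7 with k7 | k7
        · have hra : r = a := by linarith
          by_cases hG : g = X.first
          · have h10 : 0 < τ' - α g := lt_of_le_of_ne k1 (fun hh => k3 hh.symm hG)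
            rw [hG] at hr3 h10
            rw [oldFirst, hra] at hr3
            have h11 : a + (τ' - α X.first) ≤ b := by
              rw [hG] at k2
              linarith
            have := HI a (a + (τ' - α X.first)) ha (by linarith) (by linarith) (by linarith)
              hr3.symm
            linarith
          · rw [hra] at hr3
            exact C2 g hG _ k1 k2 hr3
        · have hrb : r = b := by linarith
          by_cases hG : g = X.last
          · have h10 : τ' - α g < ℓ' g := lt_of_le_of_ne k2 (fun hh => k4 hh hG)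
            rw [hG] at hr3 h10 k1
            rw [oldLast, hrb] at hr3
            have := HI b (b + (τ' - α X.last - ℓ' X.last)) (by linarith) hb (by linarith)
              (by linarith) hr3.symm
            linarith
          · rw [hrb] at hr3
            exact C3 g hG _ k1 k2 hr3
      · rw [hr3] at k9
        exact H0 r t hr1 hr2 k5 k6 k9
      · exact hr1 (by rw [← k9]; exact hγ t)
    rcases TRI f τ h1.le h2.le with ⟨t1, t2, t3⟩ | ⟨t1, t2, t3⟩ | ⟨t1, t2, t3, t4⟩
    · rw [t3] at heq
      rcases TRI g τ' h3 h4 with ⟨u1, u2, u3⟩ | ⟨u1, u2, u3⟩ | ⟨u1, u2, u3, u4⟩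
      · rw [u3] at heq
        exact ⟨by rw [t1, u1], HI τ τ' h1 (by linarith) h3 (by linarith) heq⟩
      · exfalso
        rw [u3] at heq
        have := HI τ _ h1 (by linarith) (by linarith) (by linarith) heq
        linarith
      · exfalso
        rw [hpt] at heq
        exact key g τ' τ u1 u2 u3 u4 h1.le (by linarith) (Or.inl t2)
          (Or.inl ⟨h1, by linarith⟩) heq
    · rw [t3] at heq
      have t5 : ℓ - (l f - τ) < ℓ := by linarith
      rcases TRI g τ' h3 h4 with ⟨u1, u2, u3⟩ | ⟨u1, u2, u3⟩ | ⟨u1, u2, u3, u4⟩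
      · exfalso
        rw [u3] at heq
        have := HI _ τ' (by linarith) t5 h3 (by linarith) heq
        linarith
      · rw [u3] at heq
        have := HI _ _ (by linarith) t5 (by linarith) (by linarith) heq
        have hfg : f = g := by rw [t1, u1]
        rw [hfg] at this
        exact ⟨hfg, by linarith⟩
      · exfalso
        rw [hpt] at heq
        exact key g τ' _ u1 u2 u3 u4 (by linarith) t5.le (Or.inr t2)
          (Or.inl ⟨by linarith, t5⟩) heq
    · have t5 : 0 < τ - α f := by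
        refine lt_of_le_of_ne t1 (fun hh => ?_)
        have h5 := t3 hh.symm
        rw [hα, if_neg h5] at hh
        linarith
      have t6 : τ - α f < ℓ' f := by
        refine lt_of_le_of_ne t2 (fun hh => ?_)
        have h5 := t4 hh
        rw [hl, hβ, if_neg h5] at h2
        linarith
      rw [hpt] at heq
      rcases TRI g τ' h3 h4 with ⟨u1, u2, u3⟩ | ⟨u1, u2, u3⟩ | ⟨u1, u2, u3, u4⟩
      · exfalso
        rw [u3] at heq
        exact key f τ τ' t1 t2 t3 t4 h3 (by linarith) (Or.inl u2) (Or.inr ⟨t5, t6⟩) heq.symm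
      · exfalso
        rw [u3] at heq
        exact key f τ _ t1 t2 t3 t4 (by linarith) (by linarith) (Or.inr u2) (Or.inr ⟨t5, t6⟩)
          heq.symm
      · rw [hpt, ← hold, ← hold] at heq
        obtain ⟨h5, h6⟩ := o4 f g _ _ t5 t6 u1 u2 heq
        rw [h5] at h6
        exact ⟨h5, by linarith⟩
  · -- vertices
    intro z
    rcases o7 z with ⟨t, h1, h2, h3⟩ | h3
    · left
      refine ⟨b - π + t, by linarith, by linarith, ?_⟩
      rw [A0] at h3
      exact h3
    · exact Or.inr h3
  · intro z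
    obtain ⟨f, hf⟩ := o8 z
    exact ⟨f, by rw [hplw]; exact hf⟩
  · -- points
    intro f τ h1 h2
    rcases TRI f τ h1 h2 with ⟨t1, t2, t3⟩ | ⟨t1, t2, t3⟩ | ⟨t1, t2, t3, t4⟩
    · left
      exact ⟨τ, h1, by linarith, t3, fun hh => ⟨hh.1, by linarith⟩⟩
    · left
      exact ⟨_, by linarith, by linarith, t3, fun hh => ⟨by linarith, by linarith [hh.2]⟩⟩
    · rw [hpt]
      have hint : 0 < τ ∧ τ < l f → 0 < τ - α f ∧ τ - α f < ℓ' f := by
        rintro ⟨k1, k2⟩
        constructor
        · refine lt_of_le_of_ne t1 (fun hh => ?_)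
          have h5 := t3 hh.symm
          rw [hα, if_neg h5] at hh
          linarith
        · refine lt_of_le_of_ne t2 (fun hh => ?_)
          have h5 := t4 hh
          rw [hl, hβ, if_neg h5] at k2
          linarith
      rcases C1 f (τ - α f) t1 t2 with ⟨r, hr1, hr2, hr3, hr4⟩ | ⟨r, hr1, hr2, hr3, hr4⟩ | hr
      · left
        exact ⟨r, by linarith, by linarith, hr3, fun _ => ⟨by linarith, by linarith⟩⟩
      · right; left
        exact ⟨r, hr1, hr2, hr3, fun hh => hr4 (hint hh)⟩
      · right; right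
        exact hr
  · intro f
    rw [hplw]
    rcases E9 f with h1 | h1
    · exact Or.inl h1.1
    · exact Or.inr h1

end Pool.Agent.H57N
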