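import Pool.Agent.H57N.Stm2
import Pool.Agent.H57N.LOCaux

/-!
# GN57, piece CUB (helper22): every vertex of `Θ(A,B,C)` has degree three
-/

set_option autoImplicit false

namespace Pool.Agent.H57N

namespace CUBaux

open LOCaux

theorem deg_step {W : Type} (A B C : Ch) (x y : W) (i : Bool ⊕ A.V ⊕ B.V ⊕ C.V → W)
    (F : Unit ⊕ A.E ⊕ B.E ⊕ C.E → ℕ) (hF : ∀ e, F e = 1)
    (hi : Function.Injective i) (hx : ∀ z, i z ≠ x) (hy : ∀ z, i z ≠ y)
    (hA : ∀ z, so A (i (.inl false)) (fun z => i (.inr (.inl z))) (fun e => F (.inr (.inl e)))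
            (i (.inr (.inl z))) + si A (i (.inl true)) (fun z => i (.inr (.inl z)))
            (fun e => F (.inr (.inl e))) (i (.inr (.inl z))) = 3)
    (hB : ∀ z, so B (i (.inl false)) (fun z => i (.inr (.inr (.inl z))))
            (fun e => F (.inr (.inr (.inl e))))
            (i (.inr (.inr (.inl z)))) + si B (i (.inl true)) (fun z => i (.inr (.inr (.inl z))))
            (fun e => F (.inr (.inr (.inl e)))) (i (.inr (.inr (.inl z)))) = 3)
    (hC : ∀ z, so C (i (.inl true)) (fun z => i (.inr (.inr (.inr z))))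
            (fun e => F (.inr (.inr (.inr e))))
            (i (.inr (.inr (.inr z)))) + si C y (fun z => i (.inr (.inr (.inr z))))
            (fun e => F (.inr (.inr (.inr e)))) (i (.inr (.inr (.inr z)))) = 3) :
    ∀ z : Bool ⊕ A.V ⊕ B.V ⊕ C.V, so (.cons A B C) x i F (i z) + si (.cons A B C) y i F (i z) = 3 := by
  have ne : ∀ a b : Bool ⊕ A.V ⊕ B.V ⊕ C.V, a ≠ b → i a ≠ i b := fun a b h h' => h (hi h')
  have e1 : so (.cons A B C) x i F (i (.inl false)) + si (.cons A B C) y i F (i (.inl false)) = 3 := by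
    rw [so_cons, si_cons, if_neg (hx _).symm, if_pos rfl,
      so_first A _ _ _ (fun z => ne _ _ (by simp)), so_first B _ _ _ (fun z => ne _ _ (by simp)),
      so_zero C _ _ _ _ (ne _ _ (by simp)) (fun z => ne _ _ (by simp)),
      si_zero A _ _ _ _ (ne _ _ (by simp)) (fun z => ne _ _ (by simp)),
      si_zero B _ _ _ _ (ne _ _ (by simp)) (fun z => ne _ _ (by simp)),
      si_zero C _ _ _ _ (hy _).symm (fun z => ne _ _ (by simp)), hF, hF, hF]
    rfl
  have e2 : so (.cons A B C) x i F (i (.inl true)) + si (.cons A B C) y i F (i (.inl true)) = 3 := by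
    rw [so_cons, si_cons, if_neg (hx _).symm, if_neg (ne _ _ (by simp)),
      so_first C _ _ _ (fun z => ne _ _ (by simp)),
      so_zero A _ _ _ _ (ne _ _ (by simp)) (fun z => ne _ _ (by simp)),
      so_zero B _ _ _ _ (ne _ _ (by simp)) (fun z => ne _ _ (by simp)),
      si_last A _ _ _ (fun z => ne _ _ (by simp)), si_last B _ _ _ (fun z => ne _ _ (by simp)),
      si_zero C _ _ _ _ (hy _).symm (fun z => ne _ _ (by simp)), hF, hF, hF]
    rfl
  have e3 : ∀ z, so (.cons A B C) x i F (i (.inr (.inl z))) +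
      si (.cons A B C) y i F (i (.inr (.inl z))) = 3 := by
    intro z
    rw [so_cons, si_cons, if_neg (hx _).symm, if_neg (ne _ _ (by simp)),
      so_zero B _ _ _ _ (ne _ _ (by simp)) (fun z => ne _ _ (by simp)),
      so_zero C _ _ _ _ (ne _ _ (by simp)) (fun z => ne _ _ (by simp)),
      si_zero B _ _ _ _ (ne _ _ (by simp)) (fun z => ne _ _ (by simp)),
      si_zero C _ _ _ _ (hy _).symm (fun z => ne _ _ (by simp))]
    simp only [add_zero, zero_add]
    exact hA z
  have e4 : ∀ z, so (.cons A B C) x i F (i (.inr (.inr (.inl z)))) +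
      si (.cons A B C) y i F (i (.inr (.inr (.inl z)))) = 3 := by
    intro z
    rw [so_cons, si_cons, if_neg (hx _).symm, if_neg (ne _ _ (by simp)),
      so_zero A _ _ _ _ (ne _ _ (by simp)) (fun z => ne _ _ (by simp)),
      so_zero C _ _ _ _ (ne _ _ (by simp)) (fun z => ne _ _ (by simp)),
      si_zero A _ _ _ _ (ne _ _ (by simp)) (fun z => ne _ _ (by simp)),
      si_zero C _ _ _ _ (hy _).symm (fun z => ne _ _ (by simp))]
    simp only [add_zero, zero_add]
    exact hB z
  have e5 : ∀ z, so (.cons A B C) x i F (i (.inr (.inr (.inr z)))) +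
      si (.cons A B C) y i F (i (.inr (.inr (.inr z)))) = 3 := by
    intro z
    rw [so_cons, si_cons, if_neg (hx _).symm, if_neg (ne _ _ (by simp)),
      so_zero A _ _ _ _ (ne _ _ (by simp)) (fun z => ne _ _ (by simp)),
      so_zero B _ _ _ _ (ne _ _ (by simp)) (fun z => ne _ _ (by simp)),
      si_zero A _ _ _ _ (ne _ _ (by simp)) (fun z => ne _ _ (by simp)),
      si_zero B _ _ _ _ (ne _ _ (by simp)) (fun z => ne _ _ (by simp))]
    simp only [zero_add]
    exact hC z
  exact (forall_cons A B C (fun z => so (.cons A B C) x i F (i z) +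
      si (.cons A B C) y i F (i z) = 3)).2 ⟨e1, e2, e3, e4, e5⟩

theorem deg {W : Type} : ∀ (X : Ch) (x y : W) (i : X.V → W) (F : X.E → ℕ), (∀ e, F e = 1) →
    Function.Injective i → (∀ z, i z ≠ x) → (∀ z, i z ≠ y) →
    ∀ z, so X x i F (i z) + si X y i F (i z) = 3
  | .edge, _, _, _, _, _, _, _, _ => fun z => Empty.elim z
  | .cons A B C, x, y, i, F, hF, hi, hx, hy =>
      deg_step A B C x y i F hF hi hx hy
        (deg A _ _ _ _ (fun _ => hF _) (fun _ _ h => Sum.inl_injective (Sum.inr_injective (hi h)))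
          (fun _ h => Sum.inr_ne_inl (hi h)) (fun _ h => Sum.inr_ne_inl (hi h)))
        (deg B _ _ _ _ (fun _ => hF _) (fun _ _ h => Sum.inl_injective (Sum.inr_injective
          (Sum.inr_injective (hi h))))
          (fun _ h => Sum.inr_ne_inl (hi h)) (fun _ h => Sum.inr_ne_inl (hi h)))
        (deg C _ _ _ _ (fun _ => hF _) (fun _ _ h => Sum.inr_injective (Sum.inr_injective
          (Sum.inr_injective (hi h))))
          (fun _ h => Sum.inr_ne_inl (hi h)) (fun _ => hy _))

theorem deg_bo (A B C : Ch) : ∀ w : TV A B C,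
    bo (tsrc A B C id) (fun _ => (1 : ℕ)) w + bo (ttgt A B C id) (fun _ => (1 : ℕ)) w = 3 := by
  have hA := deg A (W := TV A B C) (.inl false) (.inl true) (fun z => .inr (.inl z)) (fun _ => 1)
    (fun _ => rfl) (fun a b h => by simpa using h) (fun z => by simp) (fun z => by simp)
  have hB := deg B (W := TV A B C) (.inl false) (.inl true) (fun z => .inr (.inr (.inl z)))
    (fun _ => 1) (fun _ => rfl) (fun a b h => by simpa using h) (fun z => by simp) (fun z => by simp)
  have hC := deg C (W := TV A B C) (.inl false) (.inl true) (fun z => .inr (.inr (.inr z)))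
    (fun _ => 1) (fun _ => rfl) (fun a b h => by simpa using h) (fun z => by simp) (fun z => by simp)
  have e1 : bo (tsrc A B C id) (fun _ => (1 : ℕ)) (.inl false) +
      bo (ttgt A B C id) (fun _ => (1 : ℕ)) (.inl false) = 3 := by
    rw [tout, tin, so_first A _ _ _ (fun z => by simp), so_first B _ _ _ (fun z => by simp),
      so_first C _ _ _ (fun z => by simp), si_zero A _ _ _ _ (by simp) (fun z => by simp),
      si_zero B _ _ _ _ (by simp) (fun z => by simp), si_zero C _ _ _ _ (by simp) (fun z => by simp)]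
    rfl
  have e2 : bo (tsrc A B C id) (fun _ => (1 : ℕ)) (.inl true) +
      bo (ttgt A B C id) (fun _ => (1 : ℕ)) (.inl true) = 3 := by
    rw [tout, tin, si_last A _ _ _ (fun z => by simp), si_last B _ _ _ (fun z => by simp),
      si_last C _ _ _ (fun z => by simp), so_zero A _ _ _ _ (by simp) (fun z => by simp),
      so_zero B _ _ _ _ (by simp) (fun z => by simp), so_zero C _ _ _ _ (by simp) (fun z => by simp)]
    rfl
  rintro ((_ | _) | z | z | z)
  · exact e1
  · exact e2
  · rw [tout, tin, so_zero B _ _ _ _ (by simp) (fun z => by simp),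
      so_zero C _ _ _ _ (by simp) (fun z => by simp), si_zero B _ _ _ _ (by simp) (fun z => by simp),
      si_zero C _ _ _ _ (by simp) (fun z => by simp)]
    simp only [add_zero]
    exact hA z
  · rw [tout, tin, so_zero A _ _ _ _ (by simp) (fun z => by simp),
      so_zero C _ _ _ _ (by simp) (fun z => by simp), si_zero A _ _ _ _ (by simp) (fun z => by simp),
      si_zero C _ _ _ _ (by simp) (fun z => by simp)]
    simp only [add_zero, zero_add]
    exact hB z
  · rw [tout, tin, so_zero A _ _ _ _ (by simp) (fun z => by simp),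
      so_zero B _ _ _ _ (by simp) (fun z => by simp), si_zero A _ _ _ _ (by simp) (fun z => by simp),
      si_zero B _ _ _ _ (by simp) (fun z => by simp)]
    simp only [zero_add]
    exact hC z

end CUBaux

theorem t_CUB : S_CUB := by
  intro A B C x
  have h := CUBaux.deg_bo A B C x
  unfold LOCaux.bo at h
  convert h

end Pool.Agent.H57N
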