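import Pool.Agent.H57N.Stm2

/-!
PROJECT GN57, piece CUT3: if the fluxes of three great circles sum to zero, then the circles have
a common point.
-/

set_option autoImplicit false

namespace Pool.Agent.H57N

open Real
open scoped RealInnerProductSpace

namespace CUT3

theorem inner4 (x y : E4) : ⟪x, y⟫ = x 0 * y 0 + x 1 * y 1 + x 2 * y 2 + x 3 * y 3 := by
  rw [PiLp.inner_apply, Fin.sum_univ_four]
  simp only [RCLike.inner_apply, conj_trivial]
  ring

/-- The contraction of the flux with a vector. -/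
theorem contr {x v z w : E4} (h : fl x v = fl z w) (y : E4) :
    ⟪v, y⟫ • x - ⟪x, y⟫ • v = ⟪w, y⟫ • z - ⟪z, y⟫ • w := by
  have h1 : ∀ i j, x i * v j - x j * v i = z i * w j - z j * w i := fun i j =>
    congrFun (congrFun h i) j
  ext i
  simp only [PiLp.sub_apply, PiLp.smul_apply, smul_eq_mul, inner4]
  linear_combination y 0 * h1 i 0 + y 1 * h1 i 1 + y 2 * h1 i 2 + y 3 * h1 i 3

theorem mem_pl {x v z w : E4} (hx : ‖x‖ = 1) (hv : ‖v‖ = 1) (hxv : ⟪x, v⟫ = 0)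
    (h : fl x v = fl z w) (hzw : ⟪z, w⟫ = 0) : z ∈ pl x v := by
  have hw : w ≠ 0 := by
    rintro rfl
    have h1 := contr h v
    rw [real_inner_self_eq_norm_sq, hv, hxv] at h1
    simp only [one_pow, one_smul, zero_smul, sub_zero, inner_zero_left, smul_zero] at h1
    rw [h1, norm_zero] at hx
    exact zero_ne_one hx
  have h2 := contr h w
  rw [hzw, zero_smul, sub_zero] at h2
  have h3 : ⟪w, w⟫ ≠ 0 := inner_self_ne_zero.2 hw
  have h4 : z = ⟪w, w⟫⁻¹ • (⟪v, w⟫ • x - ⟪x, w⟫ • v) := by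
    rw [h2, smul_smul, inv_mul_cancel₀ h3, one_smul]
  rw [h4]
  exact Submodule.smul_mem _ _ (Submodule.sub_mem _
    (Submodule.smul_mem _ _ (Submodule.subset_span (by simp)))
    (Submodule.smul_mem _ _ (Submodule.subset_span (by simp))))

/-- A unit vector of the plane is the first vector of an orthonormal basis with the same flux. -/
theorem rotate {x v : E4} (hx : ‖x‖ = 1) (hv : ‖v‖ = 1) (hxv : ⟪x, v⟫ = 0) {a b : ℝ}
    (hn : ‖a • x + b • v‖ = 1) :
    ∃ w, fl x v = fl (a • x + b • v) w ∧ ⟪a • x + b • v, w⟫ = 0 := by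
  have hxx : ⟪x, x⟫ = 1 := by rw [real_inner_self_eq_norm_sq, hx, one_pow]
  have hvv : ⟪v, v⟫ = 1 := by rw [real_inner_self_eq_norm_sq, hv, one_pow]
  have hvx : ⟪v, x⟫ = 0 := by rw [real_inner_comm, hxv]
  have hab : a ^ 2 + b ^ 2 = 1 := by
    have h1 : ⟪a • x + b • v, a • x + b • v⟫ = 1 := by
      rw [real_inner_self_eq_norm_sq, hn, one_pow]
    rw [inner_add_left, inner_add_right, inner_add_right] at h1
    simp only [real_inner_smul_left, real_inner_smul_right, hxx, hvv, hvx, hxv] at h1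
    linarith
  refine ⟨(-b) • x + a • v, ?_, ?_⟩
  · funext i j
    simp only [fl, PiLp.add_apply, PiLp.smul_apply, smul_eq_mul]
    linear_combination (-(x i * v j - x j * v i)) * hab
  · rw [inner_add_left, inner_add_right, inner_add_right]
    simp only [real_inner_smul_left, real_inner_smul_right, hxx, hvv, hvx, hxv]
    ring

theorem det_zero {x1 v1 x2 v2 x3 v3 : E4} (h : fl x1 v1 + fl x2 v2 + fl x3 v3 = 0) :
    (Matrix.of ![fun i => x1 i, fun i => v1 i, fun i => x2 i, fun i => v2 i]).det = 0 := by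
  have g : ∀ i j, x3 i * v3 j - x3 j * v3 i =
      -((x1 i * v1 j - x1 j * v1 i) + (x2 i * v2 j - x2 j * v2 i)) := by
    intro i j
    have := congrFun (congrFun h i) j
    simp only [Pi.add_apply, Pi.zero_apply, fl] at this
    linarith
  have P3 : (x3 0 * v3 1 - x3 1 * v3 0) * (x3 2 * v3 3 - x3 3 * v3 2) -
      (x3 0 * v3 2 - x3 2 * v3 0) * (x3 1 * v3 3 - x3 3 * v3 1) +
      (x3 0 * v3 3 - x3 3 * v3 0) * (x3 1 * v3 2 - x3 2 * v3 1) = 0 := by ring
  rw [g 0 1, g 2 3, g 0 2, g 1 3, g 0 3, g 1 2] at P3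
  simp only [Matrix.det_succ_row_zero, Fin.sum_univ_succ, Matrix.of_apply, Matrix.submatrix_apply]
  simp [Fin.succAbove, Fin.lt_def]
  linear_combination P3

/-- Two orthonormal pairs whose determinant is zero have a common unit vector. -/
theorem common {x1 v1 x2 v2 : E4} (hx1 : ‖x1‖ = 1) (hv1 : ‖v1‖ = 1) (h1 : ⟪x1, v1⟫ = 0)
    (hx2 : ‖x2‖ = 1) (hv2 : ‖v2‖ = 1) (h2 : ⟪x2, v2⟫ = 0)
    (hd : (Matrix.of ![fun i => x1 i, fun i => v1 i, fun i => x2 i, fun i => v2 i]).det = 0) :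
    ∃ a b c d : ℝ, a • x1 + b • v1 = c • x2 + d • v2 ∧ ‖a • x1 + b • v1‖ = 1 := by
  obtain ⟨u, hu, hu0⟩ := Matrix.exists_vecMul_eq_zero_iff.2 hd
  have e : u 0 • x1 + u 1 • v1 = (-u 2) • x2 + (-u 3) • v2 := by
    ext i
    have := congrFun hu0 i
    simp only [Matrix.vecMul, dotProduct, Fin.sum_univ_four, Matrix.of_apply] at this
    simp only [PiLp.add_apply, PiLp.smul_apply, smul_eq_mul]
    simp at this
    linarith
  have key : ∀ {x v : E4} {a b : ℝ}, ‖x‖ = 1 → ‖v‖ = 1 → ⟪x, v⟫ = 0 → a • x + b • v = 0 →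
      a = 0 ∧ b = 0 := by
    intro x v a b hx hv hxv h0
    have q1 := congrArg (fun y => ⟪x, y⟫) h0
    have q2 := congrArg (fun y => ⟪v, y⟫) h0
    simp only [inner_add_right, real_inner_smul_right, inner_zero_right,
      real_inner_self_eq_norm_sq, hx, hv, hxv] at q1 q2
    have hvx : ⟪v, x⟫ = 0 := by rw [real_inner_comm, hxv]
    constructor <;> nlinarith
  have hne : u 0 • x1 + u 1 • v1 ≠ 0 := by
    intro h0
    have q1 := key hx1 hv1 h1 h0
    rw [e] at h0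
    have q2 := key hx2 hv2 h2 h0
    apply hu
    funext i
    fin_cases i
    · exact q1.1
    · exact q1.2
    · simpa using q2.1
    · simpa using q2.2
  have hn : ‖u 0 • x1 + u 1 • v1‖ ≠ 0 := norm_ne_zero_iff.2 hne
  obtain ⟨r, hr⟩ : ∃ r, r = ‖u 0 • x1 + u 1 • v1‖ := ⟨_, rfl⟩
  refine ⟨r⁻¹ * u 0, r⁻¹ * u 1, r⁻¹ * (-u 2), r⁻¹ * (-u 3), ?_, ?_⟩
  · rw [mul_smul, mul_smul, mul_smul, mul_smul, ← smul_add, ← smul_add, e]
  · rw [mul_smul, mul_smul, ← smul_add, norm_smul, norm_inv, Real.norm_eq_abs, hr, abs_norm,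
      inv_mul_cancel₀ hn]

end CUT3

theorem t_CUT3 : S_CUT3 := by
  intro x1 v1 x2 v2 x3 v3 hx1 hv1 h1 hx2 hv2 h2 hx3 hv3 h3 h
  obtain ⟨a, b, c, d, e, hn⟩ := CUT3.common hx1 hv1 h1 hx2 hv2 h2 (CUT3.det_zero h)
  obtain ⟨w1, hw1, hw1'⟩ := CUT3.rotate hx1 hv1 h1 hn
  obtain ⟨w2, hw2, hw2'⟩ := CUT3.rotate hx2 hv2 h2 (e ▸ hn)
  rw [← e] at hw2 hw2'
  refine ⟨a • x1 + b • v1, hn, ?_, ?_, ?_⟩
  · exact Submodule.mem_span_pair.2 ⟨a, b, rfl⟩
  · rw [e]
    exact Submodule.mem_span_pair.2 ⟨c, d, rfl⟩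
  · refine CUT3.mem_pl (w := -(w1 + w2)) hx3 hv3 h3 ?_ ?_
    · have e3 : fl x3 v3 = -(fl x1 v1 + fl x2 v2) := by
        rw [eq_neg_iff_add_eq_zero, add_comm]
        exact h
      rw [e3, hw1, hw2]
      funext i j
      simp only [fl, Pi.add_apply, Pi.neg_apply, PiLp.add_apply, PiLp.neg_apply]
      ring
    · rw [inner_neg_right, inner_add_right, hw1', hw2', add_zero, neg_zero]

end Pool.Agent.H57N
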