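import Pool.Agent.H57N.Stm

/-!
Basic geometry of great circles and the separation properties of `Out`.
-/

set_option autoImplicit false

namespace Pool.Agent.H57N

open Real
open scoped RealInnerProductSpace

lemma mem_pl {x v z : E4} : z ∈ pl x v ↔ ∃ a b : ℝ, a • x + b • v = z :=
  Submodule.mem_span_pair

lemma arc_mem (x v : E4) (t : ℝ) : arc x v t ∈ pl x v := mem_pl.2 ⟨_, _, rfl⟩

lemma arc_zero (x v : E4) : arc x v 0 = x := by simp [arc]

lemma arc_pi (x v : E4) : arc x v π = -x := by simp [arc]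

lemma vel_pi (x v : E4) : vel x v π = -v := by simp [vel]

lemma arc_arc (x v : E4) (s t : ℝ) : arc (arc x v s) (vel x v s) t = arc x v (s + t) := by
  simp only [arc, vel, cos_add, sin_add]
  module

lemma vel_arc (x v : E4) (s t : ℝ) : vel (arc x v s) (vel x v s) t = vel x v (s + t) := by
  simp only [arc, vel, cos_add, sin_add]
  module

lemma arc_smul (c : ℝ) (x v : E4) (t : ℝ) : arc (c • x) (c • v) t = c • arc x v t := by
  simp only [arc]
  module

lemma vel_smul (c : ℝ) (x v : E4) (t : ℝ) : vel (c • x) (c • v) t = c • vel x v t := by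
  simp only [vel]
  module

section unit
variable {x v : E4} (hx : ‖x‖ = 1) (hv : ‖v‖ = 1) (h : ⟪x, v⟫ = 0)
include hx hv h

lemma inner_comb (a b c d : ℝ) : ⟪a • x + b • v, c • x + d • v⟫ = a * c + b * d := by
  have h' : ⟪v, x⟫ = 0 := by rw [real_inner_comm]; exact h
  have h1 : ⟪x, x⟫ = 1 := by rw [real_inner_self_eq_norm_sq, hx]; norm_num
  have h2 : ⟪v, v⟫ = 1 := by rw [real_inner_self_eq_norm_sq, hv]; norm_num
  simp only [inner_add_left, inner_add_right, real_inner_smul_left, real_inner_smul_right, h, h',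
    h1, h2]
  ring

lemma norm_comb {a b : ℝ} (hab : a ^ 2 + b ^ 2 = 1) : ‖a • x + b • v‖ = 1 := by
  have h1 := inner_comb hx hv h a b a b
  rw [real_inner_self_eq_norm_sq] at h1
  have h2 : ‖a • x + b • v‖ ^ 2 = 1 := by rw [h1]; nlinarith
  have h3 : 0 ≤ ‖a • x + b • v‖ := norm_nonneg _
  nlinarith [sq_nonneg (‖a • x + b • v‖ - 1)]

lemma norm_arc (t : ℝ) : ‖arc x v t‖ = 1 :=
  norm_comb hx hv h (by rw [add_comm]; exact sin_sq_add_cos_sq t)

lemma norm_vel (t : ℝ) : ‖vel x v t‖ = 1 :=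
  norm_comb hx hv h (by rw [neg_sq]; exact sin_sq_add_cos_sq t)

lemma inner_arc_vel (t : ℝ) : ⟪arc x v t, vel x v t⟫ = 0 := by
  rw [arc, vel, inner_comb hx hv h]; ring

lemma comb_inj {a b c d : ℝ} (e : a • x + b • v = c • x + d • v) : a = c ∧ b = d := by
  have h1 := inner_comb hx hv h a b 1 0
  have h2 := inner_comb hx hv h c d 1 0
  have h3 := inner_comb hx hv h a b 0 1
  have h4 := inner_comb hx hv h c d 0 1
  rw [e] at h1 h3
  constructor <;> linarith

/-- angles modulo `π` -/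
lemma ang {s t c : ℝ} (hs : 0 < s) (hs' : s < π) (ht : 0 ≤ t) (ht' : t ≤ π)
    (e : arc x v t = c • arc x v s) : t = s := by
  have e' : cos t • x + sin t • v = (c * cos s) • x + (c * sin s) • v := by
    rw [mul_smul, mul_smul, ← smul_add]
    exact e
  obtain ⟨h1, h2⟩ := comb_inj hx hv h e'
  have h3 : sin (t - s) = 0 := by rw [sin_sub, h1, h2]; ring
  have h4 : -π < t - s := by linarith
  have h5 : t - s < π := by linarith
  have h6 := (sin_eq_zero_iff_of_lt_of_lt h4 h5).1 h3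
  linarith

lemma ang' {s t : ℝ} {ε δ : ℝ} (hε : ε = 1 ∨ ε = -1) (hδ : δ = 1 ∨ δ = -1)
    (hs : 0 < s) (hs' : s < π) (ht : 0 ≤ t) (ht' : t ≤ π)
    (e : ε • arc x v s = δ • arc x v t) : t = s := by
  refine ang hx hv h hs hs' ht ht' (c := δ * ε) ?_
  rw [mul_smul, e, ← mul_smul]
  rcases hδ with rfl | rfl <;> simp

lemma arc_ne_zero (t : ℝ) : arc x v t ≠ 0 := by
  intro e
  have := norm_arc hx hv h t
  rw [e, norm_zero] at this
  norm_num at this

lemma pl_arc {σ : ℝ} (hσ : σ = 1 ∨ σ = -1) (s : ℝ) :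
    pl (σ • arc x v s) (σ • vel x v s) = pl x v := by
  have hs2 : σ * σ = 1 := by rcases hσ with rfl | rfl <;> norm_num
  have hc := sin_sq_add_cos_sq s
  apply le_antisymm
  · rw [pl, Submodule.span_le]
    intro z hz
    rcases hz with rfl | rfl
    · exact mem_pl.2 ⟨σ * cos s, σ * sin s, by rw [arc]; module⟩
    · exact mem_pl.2 ⟨σ * (-sin s), σ * cos s, by rw [vel]; module⟩
  · rw [pl, Submodule.span_le]
    intro z hz
    rcases hz with rfl | rfl
    · refine mem_pl.2 ⟨σ * cos s, -(σ * sin s), ?_⟩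
      have : (σ * cos s) • σ • arc z v s + -(σ * sin s) • σ • vel z v s =
          ((σ * σ) * (sin s ^ 2 + cos s ^ 2)) • z := by
        rw [arc, vel]; module
      rw [this, hs2, hc]; simp
    · refine mem_pl.2 ⟨σ * sin s, σ * cos s, ?_⟩
      have : (σ * sin s) • σ • arc x z s + (σ * cos s) • σ • vel x z s =
          ((σ * σ) * (sin s ^ 2 + cos s ^ 2)) • z := by
        rw [arc, vel]; module
      rw [this, hs2, hc]; simp

end unit

lemma finrank_pl (x v : E4) : Module.finrank ℝ (pl x v) ≤ 2 := by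
  classical
  have h : pl x v = Submodule.span ℝ (({x, v} : Finset E4) : Set E4) := by simp [pl]
  rw [h]
  exact (finrank_span_finset_le_card _).trans Finset.card_le_two

/-- two directions at 120 degrees: the planes meet in the line of `u` -/
lemma tri {u α β : E4} (hu : ‖u‖ = 1) (hα : ‖α‖ = 1) (hβ : ‖β‖ = 1) (h1 : ⟪u, α⟫ = 0)
    (h2 : ⟪u, β⟫ = 0) (h3 : ‖α + β‖ = 1) {z : E4} (hz : z ∈ pl u α) (hz' : z ∈ pl u β) :
    ∃ c : ℝ, z = c • u := by
  obtain ⟨a, b, rfl⟩ := mem_pl.1 hz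
  obtain ⟨c, d, e⟩ := mem_pl.1 hz'
  have huu : ⟪u, u⟫ = 1 := by rw [real_inner_self_eq_norm_sq, hu]; norm_num
  have haa : ⟪α, α⟫ = 1 := by rw [real_inner_self_eq_norm_sq, hα]; norm_num
  have hbb : ⟪β, β⟫ = 1 := by rw [real_inner_self_eq_norm_sq, hβ]; norm_num
  have hab : ⟪α, β⟫ = -1 / 2 := by
    have h4 : ⟪α + β, α + β⟫ = 1 := by rw [real_inner_self_eq_norm_sq, h3]; norm_num
    rw [inner_add_left, inner_add_right, inner_add_right, haa, hbb, real_inner_comm β α] at h4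
    linarith [real_inner_comm β α]
  have hba : ⟪β, α⟫ = -1 / 2 := by rw [real_inner_comm]; exact hab
  have e1 : ⟪α, c • u + d • β⟫ = ⟪α, a • u + b • α⟫ := by rw [e]
  have e2 : ⟪β, c • u + d • β⟫ = ⟪β, a • u + b • α⟫ := by rw [e]
  have h1' : ⟪α, u⟫ = 0 := by rw [real_inner_comm]; exact h1
  have h2' : ⟪β, u⟫ = 0 := by rw [real_inner_comm]; exact h2
  simp only [inner_add_right, real_inner_smul_right, haa, hbb, hab, hba, h1', h2'] at e1 e2
  have hb : b = 0 := by linarith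
  exact ⟨a, by rw [hb]; simp⟩

/-- the same for the plane of `α + β` -/
lemma tri' {u α β : E4} (hu : ‖u‖ = 1) (hα : ‖α‖ = 1) (hβ : ‖β‖ = 1) (h1 : ⟪u, α⟫ = 0)
    (h2 : ⟪u, β⟫ = 0) (h3 : ‖α + β‖ = 1) {z : E4} (hz : z ∈ pl u α) (hz' : z ∈ pl u (α + β)) :
    ∃ c : ℝ, z = c • u := by
  obtain ⟨a, b, rfl⟩ := mem_pl.1 hz
  obtain ⟨c, d, e⟩ := mem_pl.1 hz'
  have huu : ⟪u, u⟫ = 1 := by rw [real_inner_self_eq_norm_sq, hu]; norm_num
  have haa : ⟪α, α⟫ = 1 := by rw [real_inner_self_eq_norm_sq, hα]; norm_num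
  have hbb : ⟪β, β⟫ = 1 := by rw [real_inner_self_eq_norm_sq, hβ]; norm_num
  have hab : ⟪α, β⟫ = -1 / 2 := by
    have h4 : ⟪α + β, α + β⟫ = 1 := by rw [real_inner_self_eq_norm_sq, h3]; norm_num
    rw [inner_add_left, inner_add_right, inner_add_right, haa, hbb, real_inner_comm β α] at h4
    linarith [real_inner_comm β α]
  have hba : ⟪β, α⟫ = -1 / 2 := by rw [real_inner_comm]; exact hab
  have e1 : ⟪α, c • u + d • (α + β)⟫ = ⟪α, a • u + b • α⟫ := by rw [e]
  have e2 : ⟪β, c • u + d • (α + β)⟫ = ⟪β, a • u + b • α⟫ := by rw [e]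
  have h1' : ⟪α, u⟫ = 0 := by rw [real_inner_comm]; exact h1
  have h2' : ⟪β, u⟫ = 0 := by rw [real_inner_comm]; exact h2
  simp only [inner_add_right, real_inner_smul_right, haa, hbb, hab, hba, h1', h2'] at e1 e2
  have hb : b = 0 := by linarith
  exact ⟨a, by rw [hb]; simp⟩

/-- a point of a circle in a plane that meets it only in the line of the starting point -/
lemma arc_line {x v : E4} (hx : ‖x‖ = 1) (hv : ‖v‖ = 1) (h : ⟪x, v⟫ = 0) {t c : ℝ}
    (ht : 0 < t) (ht' : t < π) (e : arc x v t = c • x) : False := by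
  have h1 : x = arc x v 0 := (arc_zero x v).symm
  have e' : cos t • x + sin t • v = c • x + (0 : ℝ) • v := by
    rw [zero_smul, add_zero]
    exact e
  have h2 := (comb_inj hx hv h e').2
  exact (sin_pos_of_pos_of_lt_pi ht ht').ne' h2

end Pool.Agent.H57N
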