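import Pool.Agent.H57N.Stm2
import Pool.Agent.H57N.GEO

/-!
Project GN57, piece INT (helper20): a short interval on each edge whose antipode is not on the net
and which avoids the other planes of the net.
-/

set_option autoImplicit false

namespace Pool.Agent.H57N

open Real
open scoped RealInnerProductSpace

namespace INTaux

theorem pl_eq_of_mem {x v : E4} (hx : ‖x‖ = 1) (hv : ‖v‖ = 1) (h : ⟪x, v⟫ = 0) (y w : E4)
    (h1 : x ∈ pl y w) (h2 : v ∈ pl y w) : pl y w = pl x v := by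
  have hle : pl x v ≤ pl y w := by
    unfold pl
    rw [Submodule.span_le]
    rintro z (rfl | rfl)
    · exact h1
    · exact h2
  have hli : LinearIndependent ℝ ![x, v] := by
    rw [LinearIndependent.pair_iff]
    intro a b hab
    have hab' : a • x + b • v = (0 : ℝ) • x + (0 : ℝ) • v := by
      rw [hab, zero_smul, zero_smul, add_zero]
    exact comb_inj hx hv h hab'
  have hf : Module.finrank ℝ (pl x v) = 2 := by
    have h3 := finrank_span_eq_card hli
    have h4 : Set.range ![x, v] = {x, v} := by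
      rw [Matrix.range_cons, Matrix.range_cons, Matrix.range_empty, Set.union_empty]
      rfl
    rw [h4] at h3
    unfold pl
    simpa using h3
  exact (Submodule.eq_of_le_of_finrank_le hle (by rw [hf]; exact finrank_pl y w)).symm

theorem pl_eq_of_arc {x v : E4} (hx : ‖x‖ = 1) (hv : ‖v‖ = 1) (h : ⟪x, v⟫ = 0) (y w : E4)
    {s t : ℝ} (hst : sin (t - s) ≠ 0) (h1 : arc x v s ∈ pl y w) (h2 : arc x v t ∈ pl y w) :
    pl y w = pl x v := by
  have e1 : sin (t - s) • x = sin t • arc x v s - sin s • arc x v t := by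
    unfold arc
    rw [Real.sin_sub, smul_add, smul_add, smul_smul, smul_smul, smul_smul, smul_smul, sub_smul]
    rw [mul_comm (sin s) (sin t), mul_comm (cos t) (sin s)]
    abel
  have e2 : sin (t - s) • v = cos s • arc x v t - cos t • arc x v s := by
    unfold arc
    rw [Real.sin_sub, smul_add, smul_add, smul_smul, smul_smul, smul_smul, smul_smul, sub_smul]
    rw [mul_comm (cos s) (cos t), mul_comm (sin t) (cos s)]
    abel
  have m1 : sin (t - s) • x ∈ pl y w := by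
    rw [e1]
    exact Submodule.sub_mem _ (Submodule.smul_mem _ _ h1) (Submodule.smul_mem _ _ h2)
  have m2 : sin (t - s) • v ∈ pl y w := by
    rw [e2]
    exact Submodule.sub_mem _ (Submodule.smul_mem _ _ h2) (Submodule.smul_mem _ _ h1)
  exact pl_eq_of_mem hx hv h y w ((Submodule.smul_mem_iff _ hst).1 m1)
    ((Submodule.smul_mem_iff _ hst).1 m2)

theorem cont_arc (x v : E4) : Continuous (arc x v) := by
  unfold arc
  exact (Real.continuous_cos.smul continuous_const).add (Real.continuous_sin.smul continuous_const)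

end INTaux

open INTaux in
theorem t_INT : S_INT := by
  intro V E _ src tgt p v ℓ hN hF e
  obtain ⟨t₀, ht0, ht1, hfree⟩ := hF e
  have hx : ‖p (src e)‖ = 1 := hN.unit _
  have hv : ‖v e‖ = 1 := (hN.start e).1
  have hxv : ⟪p (src e), v e⟫ = 0 := (hN.start e).2
  -- the net is closed
  obtain ⟨N, hNd⟩ : ∃ N : Set E4, N = ⋃ f : E, arc (p (src f)) (v f) '' Set.Icc 0 (ℓ f) := ⟨_, rfl⟩
  have hclosed : IsClosed N := by
    rw [hNd]
    refine isClosed_iUnion_of_finite fun f => ?_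
    exact (isCompact_Icc.image (cont_arc _ _)).isClosed
  have hmem : ∀ z : E4, z ∈ N ↔ ∃ f s, 0 ≤ s ∧ s ≤ ℓ f ∧ arc (p (src f)) (v f) s = z := by
    intro z
    rw [hNd, Set.mem_iUnion]
    constructor
    · rintro ⟨f, s, hs, rfl⟩
      exact ⟨f, s, hs.1, hs.2, rfl⟩
    · rintro ⟨f, s, h0, h1, rfl⟩
      exact ⟨f, s, ⟨h0, h1⟩, rfl⟩
  have hopen : IsOpen {t : ℝ | -arc (p (src e)) (v e) t ∈ Nᶜ} :=
    hclosed.isOpen_compl.preimage (cont_arc _ _).neg
  have hin : t₀ ∈ {t : ℝ | -arc (p (src e)) (v e) t ∈ Nᶜ} := by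
    intro h
    obtain ⟨f, s, h0, h1, h2⟩ := (hmem _).1 h
    exact hfree f s h0 h1 h2
  obtain ⟨δ, hδ, hball⟩ := Metric.isOpen_iff.1
    (hopen.inter (isOpen_Ioo (a := (0 : ℝ)) (b := ℓ e))) t₀ ⟨hin, ht0, ht1⟩
  -- the interval
  obtain ⟨ρ, hρd⟩ : ∃ ρ : ℝ, ρ = min δ 1 := ⟨_, rfl⟩
  have hρ0 : 0 < ρ := by rw [hρd]; exact lt_min hδ one_pos
  have hρ1 : ρ ≤ 1 := by rw [hρd]; exact min_le_right _ _
  have hρδ : ρ ≤ δ := by rw [hρd]; exact min_le_left _ _
  have hgood : ∀ t, t₀ - ρ < t → t < t₀ + ρ →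
      -arc (p (src e)) (v e) t ∉ N ∧ 0 < t ∧ t < ℓ e := by
    intro t h1 h2
    have h3 : t ∈ Metric.ball t₀ δ := by
      rw [Metric.mem_ball, Real.dist_eq, abs_lt]
      constructor <;> linarith
    have h4 := hball h3
    exact ⟨h4.1, h4.2.1, h4.2.2⟩
  -- the bad points
  obtain ⟨B, hBd⟩ : ∃ B : Set ℝ, B = ⋃ f : E, {t | t₀ - ρ < t ∧ t < t₀ + ρ ∧
      pl (p (src f)) (v f) ≠ pl (p (src e)) (v e) ∧
      arc (p (src e)) (v e) t ∈ pl (p (src f)) (v f)} := ⟨_, rfl⟩
  have hBfin : B.Finite := by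
    rw [hBd]
    refine Set.finite_iUnion fun f => ?_
    refine Set.Subsingleton.finite ?_
    rintro s ⟨hs1, hs2, hs3, hs4⟩ t ⟨ht1, ht2, ht3, ht4⟩
    by_contra hne
    refine hs3 (pl_eq_of_arc hx hv hxv _ _ ?_ hs4 ht4)
    intro h0
    have hpi := Real.pi_gt_three
    have h1 : t - s = 0 := by
      rw [← Real.sin_eq_zero_iff_of_lt_of_lt (by linarith) (by linarith)]
      exact h0
    exact hne (by linarith)
  have hopen2 : IsOpen (Set.Ioo (t₀ - ρ) (t₀ + ρ) ∩ Bᶜ) :=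
    isOpen_Ioo.inter hBfin.isClosed.isOpen_compl
  have hne : (Set.Ioo (t₀ - ρ) (t₀ + ρ) ∩ Bᶜ).Nonempty := by
    have h1 : (Set.Ioo (t₀ - ρ) (t₀ + ρ)).Infinite := Set.Ioo_infinite (by linarith)
    have h2 := (h1.sdiff hBfin).nonempty
    rwa [Set.sdiff_eq] at h2
  obtain ⟨c, hc⟩ := hne
  obtain ⟨ε, hε, hball2⟩ := Metric.isOpen_iff.1 hopen2 c hc
  have hall : ∀ t, c - ε / 2 ≤ t → t ≤ c + ε / 2 → t ∈ Set.Ioo (t₀ - ρ) (t₀ + ρ) ∩ Bᶜ := by
    intro t h1 h2
    refine hball2 ?_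
    rw [Metric.mem_ball, Real.dist_eq, abs_lt]
    constructor <;> linarith
  have ha := hall (c - ε / 2) (le_refl _) (by linarith)
  have hb := hall (c + ε / 2) (by linarith) (le_refl _)
  refine ⟨c - ε / 2, c + ε / 2, (hgood _ ha.1.1 ha.1.2).2.1, by linarith,
    (hgood _ hb.1.1 hb.1.2).2.2, ?_, ?_, ?_⟩
  · have hpi := Real.pi_gt_three
    have h1 := ha.1.1
    have h2 := hb.1.2
    linarith
  · intro t h1 h2 f s hs0 hs1 heq
    have h3 := hall t h1 h2
    exact (hgood t h3.1.1 h3.1.2).1 ((hmem _).2 ⟨f, s, hs0, hs1, heq⟩)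
  · intro t h1 h2 f hf hm
    have h3 := hall t h1 h2
    refine h3.2 ?_
    rw [hBd, Set.mem_iUnion]
    exact ⟨f, h3.1.1, h3.1.2, hf, hm⟩

end Pool.Agent.H57N
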