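import Pool.Agent.H57N.Stm2

/-!
# The regular tetrahedron (helper30)
-/

set_option autoImplicit false
set_option linter.all false

namespace Pool.Agent.H57N

open Real
open scoped RealInnerProductSpace

namespace K4x

noncomputable def P : Fin 4 → E4 :=
  ![!₂[1, 1, 1, 0], !₂[1, -1, -1, 0], !₂[-1, 1, -1, 0], !₂[-1, -1, 1, 0]]

theorem innerP (i j : Fin 4) : ⟪P i, P j⟫ = if i = j then 3 else -1 := by
  fin_cases i <;> fin_cases j <;>
    simp [P, PiLp.inner_apply, Fin.sum_univ_four, EuclideanSpace.norm_sq_eq] <;> norm_num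

theorem sumP : P 0 + P 1 + P 2 + P 3 = 0 := by
  ext i
  fin_cases i <;> simp [P]

noncomputable def p (i : Fin 4) : E4 := (√3)⁻¹ • P i

theorem innerp (i j : Fin 4) : ⟪p i, p j⟫ = if i = j then 1 else -1 / 3 := by
  unfold p
  rw [real_inner_smul_left, real_inner_smul_right, innerP, ← mul_assoc, ← mul_inv,
    Real.mul_self_sqrt (by norm_num)]
  split_ifs <;> norm_num

theorem sump : p 0 + p 1 + p 2 + p 3 = 0 := by
  unfold p
  rw [← smul_add, ← smul_add, ← smul_add, sumP, smul_zero]

theorem normp (i : Fin 4) : ‖p i‖ = 1 := by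
  have h : ‖p i‖ ^ 2 = 1 := by
    rw [← real_inner_self_eq_norm_sq, innerp, if_pos rfl]
  have h0 := norm_nonneg (p i)
  nlinarith

theorem injp : Function.Injective p := by
  intro i j h
  by_contra hne
  have h1 := innerp i j
  rw [if_neg hne, ← h, innerp, if_pos rfl] at h1
  norm_num at h1

noncomputable def r8 : ℝ := √8

theorem r8pos : 0 < r8 := Real.sqrt_pos.2 (by norm_num)

theorem r8sq : r8 * r8 = 8 := Real.mul_self_sqrt (by norm_num)

noncomputable def v (e : Fin 6) : E4 := r8⁻¹ • ((3 : ℝ) • p (k4tgt e) + p (k4src e))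

theorem ne_st (e : Fin 6) : k4src e ≠ k4tgt e := by
  fin_cases e <;> decide

noncomputable def l : ℝ := Real.arccos (-1 / 3)

theorem cosl : cos l = -1 / 3 := Real.cos_arccos (by norm_num) (by norm_num)

theorem l_lt : l < π := by
  have h := Real.arccos_le_pi (-1 / 3)
  refine lt_of_le_of_ne h ?_
  intro e
  have h1 := cosl
  have e' : l = π := e
  rw [e', Real.cos_pi] at h1
  norm_num at h1

theorem l_gt : π / 2 < l := by
  by_contra h
  have h0 : 0 ≤ l := Real.arccos_nonneg _
  have h1 := Real.cos_nonneg_of_neg_pi_div_two_le_of_le (by linarith [Real.pi_pos]) (not_lt.1 h)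
  rw [cosl] at h1
  norm_num at h1

theorem l_pos : 0 < l := lt_trans (by positivity) l_gt

theorem sinl : sin l = r8 / 3 := by
  have h1 : 0 ≤ sin l := Real.sin_nonneg_of_nonneg_of_le_pi l_pos.le l_lt.le
  have h2 := Real.sin_sq_add_cos_sq l
  rw [cosl] at h2
  have h3 := r8sq
  have h4 := r8pos
  have h5 : (sin l - r8 / 3) * (sin l + r8 / 3) = 0 := by nlinarith
  rcases mul_eq_zero.1 h5 with h | h
  · linarith
  · linarith

/-- the coefficients -/
noncomputable def ca (t : ℝ) : ℝ := cos t + sin t * r8⁻¹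
noncomputable def cb (t : ℝ) : ℝ := 3 * (sin t * r8⁻¹)

theorem arc_eq (e : Fin 6) (t : ℝ) :
    arc (p (k4src e)) (v e) t = ca t • p (k4src e) + cb t • p (k4tgt e) := by
  unfold arc v ca cb
  module

theorem ca_eq (t : ℝ) : ca t = sin (l - t) / sin l := by
  rw [Real.sin_sub, cosl, sinl]
  unfold ca
  have := r8pos.ne'
  field_simp
  ring

theorem ca_pos {t : ℝ} (h0 : 0 ≤ t) (h : t < l) : 0 < ca t := by
  rw [ca_eq]
  refine div_pos (Real.sin_pos_of_pos_of_lt_pi (by linarith) (by linarith [l_lt]))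
    (Real.sin_pos_of_pos_of_lt_pi l_pos l_lt)

theorem ca_nonneg {t : ℝ} (h0 : 0 ≤ t) (h : t ≤ l) : 0 ≤ ca t := by
  rw [ca_eq]
  refine div_nonneg (Real.sin_nonneg_of_nonneg_of_le_pi (by linarith) (by linarith [l_lt]))
    (Real.sin_pos_of_pos_of_lt_pi l_pos l_lt).le

theorem cb_pos {t : ℝ} (h0 : 0 < t) (h : t ≤ l) : 0 < cb t := by
  have h1 := Real.sin_pos_of_pos_of_lt_pi h0 (lt_of_le_of_lt h l_lt)
  have h2 := inv_pos.2 r8pos
  unfold cb
  positivity

theorem cb_nonneg {t : ℝ} (h0 : 0 ≤ t) (h : t ≤ l) : 0 ≤ cb t := by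
  have h1 := Real.sin_nonneg_of_nonneg_of_le_pi h0 (le_trans h l_lt.le)
  have h2 := inv_pos.2 r8pos
  unfold cb
  positivity

/-- the coordinates of the integral vectors -/
theorem coord {i j i' j' : Fin 4} {a b a' b' : ℝ}
    (h : a • p i + b • p j = a' • p i' + b' • p j') (m : Fin 4) :
    a * P i m + b * P j m = a' * P i' m + b' * P j' m := by
  have h3 : (√3)⁻¹ ≠ 0 := inv_ne_zero (Real.sqrt_ne_zero'.2 (by norm_num))
  have h1 : (√3)⁻¹ • (a • P i + b • P j) = (√3)⁻¹ • (a' • P i' + b' • P j') := by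
    unfold p at h
    rw [smul_add, smul_add, smul_comm _ a, smul_comm _ b, smul_comm _ a', smul_comm _ b']
    exact h
  have h2 := smul_right_injective E4 h3 h1
  have h4 := congrArg (fun z : E4 => z m) h2
  simpa using h4

theorem emb_aux (e f : Fin 6) {a b a' b' : ℝ} (ha : 0 < a) (hb : 0 < b) (ha' : 0 ≤ a')
    (hb' : 0 ≤ b')
    (h : a • p (k4src e) + b • p (k4tgt e) = a' • p (k4src f) + b' • p (k4tgt f)) :
    e = f ∧ a = a' ∧ b = b' := by
  have h0 := coord h 0
  have h1 := coord h 1
  have h2 := coord h 2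
  clear h
  fin_cases e <;> fin_cases f <;> simp [k4src, k4tgt, P] at h0 h1 h2 ⊢ <;>
    first
      | (constructor <;> linarith)
      | linarith

theorem anti_aux (e f : Fin 6) {a b a' b' : ℝ} (hab : b < a) (hb : 0 < b) (ha' : 0 ≤ a')
    (hb' : 0 ≤ b')
    (h : a' • p (k4src f) + b' • p (k4tgt f) = (-a) • p (k4src e) + (-b) • p (k4tgt e)) :
    False := by
  have h0 := coord h 0
  have h1 := coord h 1
  have h2 := coord h 2
  clear h
  fin_cases e <;> fin_cases f <;> simp [k4src, k4tgt, P] at h0 h1 h2 <;> linarith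

end K4x

open K4x in
theorem t_K4 : S_K4 := by
  refine ⟨p, v, fun _ => l, ⟨normp, fun e => ⟨?_, ?_⟩, fun _ => l_pos, fun e => ?_, fun x => ?_, injp,
    fun e f s t hs hs' ht ht' h => ?_⟩, fun e => ⟨π / 4, by positivity,
      lt_trans (by linarith [Real.pi_pos]) l_gt, fun f s hs hs' h => ?_⟩⟩
  · have h : ‖v e‖ ^ 2 = 1 := by
      rw [← real_inner_self_eq_norm_sq]
      unfold v
      rw [real_inner_smul_left, real_inner_smul_right, inner_add_left, inner_add_right,
        inner_add_right, real_inner_smul_left, real_inner_smul_right, real_inner_smul_left,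
        real_inner_smul_right, innerp, innerp, innerp, innerp, if_pos rfl, if_pos rfl,
        if_neg (ne_st e), if_neg (ne_st e).symm]
      have h1 := r8sq
      have h2 := r8pos.ne'
      field_simp
      nlinarith
    have h0 := norm_nonneg (v e)
    nlinarith
  · unfold v
    rw [real_inner_smul_right, inner_add_right, real_inner_smul_right, innerp, innerp, if_pos rfl,
      if_neg (ne_st e)]
    norm_num
  · rw [arc_eq]
    have h1 : ca l = 0 := by rw [ca_eq, sub_self, Real.sin_zero, zero_div]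
    have h2 : cb l = 1 := by
      unfold cb
      rw [sinl]
      have := r8pos.ne'
      field_simp
    rw [h1, h2, zero_smul, one_smul, zero_add]
  · have hv : ∀ e, vel (p (k4src e)) (v e) l =
        -(r8⁻¹ • ((3 : ℝ) • p (k4src e) + p (k4tgt e))) := by
      intro e
      unfold vel v
      rw [cosl, sinl]
      have e1 : r8 / 3 = r8⁻¹ * (8 / 3) := by
        have h1 := r8sq
        have h2 := r8pos.ne'
        field_simp
        nlinarith
      rw [e1]
      module
    have hs : p 3 = -(p 0 + p 1 + p 2) := by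
      have := sump
      rw [add_comm] at this
      exact eq_neg_of_add_eq_zero_left this
    simp only [hv]
    rw [Finset.sum_filter, Finset.sum_filter, Fin.sum_univ_six, Fin.sum_univ_six]
    fin_cases x <;> simp [k4src, k4tgt, v, hs] <;> module
  · rw [arc_eq, arc_eq] at h
    obtain ⟨h1, h2, h3⟩ := emb_aux e f (ca_pos hs.le hs') (cb_pos hs hs'.le) (ca_nonneg ht ht')
      (cb_nonneg ht ht') h
    refine ⟨h1, ?_⟩
    have h4 : sin s * r8⁻¹ = sin t * r8⁻¹ := by
      unfold cb at h3
      linarith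
    have h5 : cos s = cos t := by
      unfold ca at h2
      linarith
    exact Real.injOn_cos ⟨hs.le, by linarith [l_lt]⟩ ⟨ht, by linarith [l_lt]⟩ h5
  · rw [arc_eq, arc_eq, neg_add, ← neg_smul, ← neg_smul] at h
    refine anti_aux e f (b := cb (π / 4)) (a := ca (π / 4)) ?_ (cb_pos (by positivity)
      (by linarith [l_gt, Real.pi_pos])) (ca_nonneg hs hs') (cb_nonneg hs hs') h
    unfold ca cb
    rw [Real.cos_pi_div_four, Real.sin_pi_div_four]
    have h1 : (0 : ℝ) < √2 / 2 := by positivity
    have h2 : r8⁻¹ * 2 < 1 := by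
      rw [← div_eq_inv_mul, div_lt_one r8pos]
      have h3 := r8sq
      have h4 := r8pos
      nlinarith
    nlinarith

end Pool.Agent.H57N
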