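import Pool.Agent.H57N.Stm2
import Pool.Agent.H57N.LOCaux

/-!
# GN57, piece SLOC (helper67): the net conditions for `G[X]`, chain by chain
-/

set_option autoImplicit false

namespace Pool.Agent.H57N

namespace SLOCaux

open LOCaux

section

variable {M : Type} [AddCommMonoid M] {V E : Type} [Fintype E] (src tgt : E → V) (X : E → Ch)

theorem sout (F : SE E X → M) (w : SV V E X) :
    bo (ssrc src X) F w =
      ∑ e, so (X e) (W := SV V E X) (.inl (src e)) (fun z => .inr ⟨e, z⟩) (fun f => F ⟨e, f⟩) w := by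
  unfold bo so
  rw [Finset.sum_filter, Fintype.sum_sigma]
  rfl

theorem sinn (F : SE E X → M) (w : SV V E X) :
    bo (stgt tgt X) F w =
      ∑ e, si (X e) (W := SV V E X) (.inl (tgt e)) (fun z => .inr ⟨e, z⟩) (fun f => F ⟨e, f⟩) w := by
  unfold bo si
  rw [Finset.sum_filter, Fintype.sum_sigma]
  rfl

open scoped Classical in
theorem sout_inl (F : SE E X → M) (x : V) :
    bo (ssrc src X) F (.inl x) = ∑ e with src e = x, F ⟨e, (X e).first⟩ := by
  rw [sout, Finset.sum_filter]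
  refine Finset.sum_congr rfl fun e _ => ?_
  by_cases h : src e = x
  · rw [if_pos h, ← h]
    exact so_first (X e) _ _ _ (fun z => by simp)
  · rw [if_neg h]
    exact so_zero (X e) _ _ _ _ (by simpa using h) (fun z => by simp)

open scoped Classical in
theorem sinn_inl (F : SE E X → M) (x : V) :
    bo (stgt tgt X) F (.inl x) = ∑ e with tgt e = x, F ⟨e, (X e).last⟩ := by
  rw [sinn, Finset.sum_filter]
  refine Finset.sum_congr rfl fun e _ => ?_
  by_cases h : tgt e = x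
  · rw [if_pos h, ← h]
    exact si_last (X e) _ _ _ (fun z => by simp)
  · rw [if_neg h]
    exact si_zero (X e) _ _ _ _ (by simpa using h) (fun z => by simp)

theorem sout_inr (F : SE E X → M) (e : E) (z : (X e).V) :
    bo (ssrc src X) F (.inr ⟨e, z⟩) =
      so (X e) (W := SV V E X) (.inl (src e)) (fun z => .inr ⟨e, z⟩) (fun f => F ⟨e, f⟩)
        (.inr ⟨e, z⟩) := by
  rw [sout]
  refine Finset.sum_eq_single e (fun e' _ h => ?_) (fun h => absurd (Finset.mem_univ e) h)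
  refine so_zero (X e') _ _ _ _ (by simp) (fun z' h' => h ?_)
  exact congrArg Sigma.fst (Sum.inr_injective h')

theorem sinn_inr (F : SE E X → M) (e : E) (z : (X e).V) :
    bo (stgt tgt X) F (.inr ⟨e, z⟩) =
      si (X e) (W := SV V E X) (.inl (tgt e)) (fun z => .inr ⟨e, z⟩) (fun f => F ⟨e, f⟩)
        (.inr ⟨e, z⟩) := by
  rw [sinn]
  refine Finset.sum_eq_single e (fun e' _ h => ?_) (fun h => absurd (Finset.mem_univ e) h)
  refine si_zero (X e') _ _ _ _ (by simp) (fun z' h' => h ?_)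
  exact congrArg Sigma.fst (Sum.inr_injective h')

open scoped Classical in
/-- the balance of the multigraph -/
theorem top_iff (F G : SE E X → M) :
    (∀ w, bo (ssrc src X) F w = bo (stgt tgt X) G w) ↔
      (∀ e, SB (X e) (fun f => F ⟨e, f⟩) (fun f => G ⟨e, f⟩)) ∧
      ∀ x, (∑ e with src e = x, F ⟨e, (X e).first⟩) = ∑ e with tgt e = x, G ⟨e, (X e).last⟩ := by
  have hb : ∀ e, (∀ z, so (X e) (W := SV V E X) (.inl (src e)) (fun z => .inr ⟨e, z⟩)
      (fun f => F ⟨e, f⟩) (.inr ⟨e, z⟩) =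
      si (X e) (W := SV V E X) (.inl (tgt e)) (fun z => .inr ⟨e, z⟩) (fun f => G ⟨e, f⟩)
        (.inr ⟨e, z⟩)) ↔ SB (X e) (fun f => F ⟨e, f⟩) (fun f => G ⟨e, f⟩) := fun e =>
    bal_iff (X e) (W := SV V E X) (.inl (src e)) (.inl (tgt e)) (fun z => .inr ⟨e, z⟩)
      (fun f => F ⟨e, f⟩) (fun f => G ⟨e, f⟩)
      (fun a b h => by simpa using h) (fun z => by simp) (fun z => by simp)
  constructor
  · intro h
    refine ⟨fun e => (hb e).1 fun z => ?_, fun x => ?_⟩
    · rw [← sout_inr, ← sinn_inr]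
      exact h _
    · rw [← sout_inl, ← sinn_inl]
      exact h _
  · rintro ⟨h1, h2⟩ (x | ⟨e, z⟩)
    · rw [sout_inl, sinn_inl]
      exact h2 x
    · rw [sout_inr, sinn_inr]
      exact (hb e).2 (h1 e) z

omit [Fintype E] in
theorem ssrc_nat {W : Type} (P : SV V E X → W) (f : SE E X) :
    P (ssrc src X f) = (X f.1).src (P (.inl (src f.1))) (fun z => P (.inr ⟨f.1, z⟩)) f.2 :=
  (src_nat (X f.1) P _ _ f.2).symm

omit [Fintype E] in
theorem stgt_nat {W : Type} (P : SV V E X → W) (f : SE E X) :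
    P (stgt tgt X f) = (X f.1).tgt (P (.inl (tgt f.1))) (fun z => P (.inr ⟨f.1, z⟩)) f.2 :=
  (tgt_nat (X f.1) P _ _ f.2).symm

end

theorem main {V E : Type} [Fintype E] (src tgt : E → V) (X : E → Ch)
    (P : SV V E X → E4) (W : SE E X → E4) (L : SE E X → ℝ) :
    IsNet (ssrc src X) (stgt tgt X) P W L ↔ SParts src tgt X P W L := by
  have ht := top_iff src tgt X W (fun f => vel (P (ssrc src X f)) (W f) (L f))
  have hv : ∀ e, (fun f => vel (P (ssrc src X ⟨e, f⟩)) (W ⟨e, f⟩) (L ⟨e, f⟩)) =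
      fun f => vel ((X e).src (P (.inl (src e))) (fun z => P (.inr ⟨e, z⟩)) f) (W ⟨e, f⟩)
        (L ⟨e, f⟩) := by
    intro e
    funext f
    rw [ssrc_nat src X P ⟨e, f⟩]
  have hl : ∀ e, vel (P (ssrc src X ⟨e, (X e).last⟩)) (W ⟨e, (X e).last⟩) (L ⟨e, (X e).last⟩) =
      fin (X e) (P (.inl (src e))) (fun z => P (.inr ⟨e, z⟩)) (fun f => W ⟨e, f⟩)
        (fun f => L ⟨e, f⟩) := fun e => congrFun (hv e) (X e).last
  constructor
  · intro h
    obtain ⟨hb1, hb2⟩ := ht.1 (fun w => h.balanced w)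
    have hg : ∀ f : SE E X, Geo ((X f.1).src (P (.inl (src f.1))) (fun z => P (.inr ⟨f.1, z⟩)) f.2)
        (W f) (L f) ((X f.1).tgt (P (.inl (tgt f.1))) (fun z => P (.inr ⟨f.1, z⟩)) f.2) := by
      intro f
      have h1 := h.start f
      have h2 := h.finish f
      rw [ssrc_nat src X P] at h1 h2
      rw [stgt_nat tgt X P] at h2
      exact ⟨h1.1, h1.2, h.pos f, h2⟩
    refine ⟨h.unit, h.injective, h.embedded, fun e => ?_, fun x => ?_⟩
    · refine (loc_iff (X e) _ _ _ _ _).2 ⟨fun z => h.unit _, fun f => hg ⟨e, f⟩, ?_⟩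
      have h1 := hb1 e
      rw [hv e] at h1
      exact h1
    · rw [hb2 x]
      exact Finset.sum_congr rfl fun e _ => hl e
  · rintro ⟨h1, h2, h3, h4, h5⟩
    have hg : ∀ f : SE E X, Geo ((X f.1).src (P (.inl (src f.1))) (fun z => P (.inr ⟨f.1, z⟩)) f.2)
        (W f) (L f) ((X f.1).tgt (P (.inl (tgt f.1))) (fun z => P (.inr ⟨f.1, z⟩)) f.2) := by
      rintro ⟨e, f⟩
      exact ((loc_iff (X e) _ _ _ _ _).1 (h4 e)).2.1 f
    have hb := ht.2 ⟨fun e => by
      rw [hv e]
      exact ((loc_iff (X e) _ _ _ _ _).1 (h4 e)).2.2, fun x => by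
      rw [h5 x]
      exact Finset.sum_congr rfl fun e _ => (hl e).symm⟩
    refine ⟨h1, fun f => ?_, fun f => (hg f).2.2.1, fun f => ?_, fun w => hb w, h2, h3⟩
    · rw [ssrc_nat src X P]
      exact ⟨(hg f).1, (hg f).2.1⟩
    · rw [ssrc_nat src X P, stgt_nat tgt X P]
      exact (hg f).2.2.2

end SLOCaux

theorem t_SLOC : S_SLOC := fun _ _ _ src tgt X P W L => SLOCaux.main src tgt X P W L

end Pool.Agent.H57N
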