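import Pool.Agent.H57N.Stm2
import Pool.Agent.H57N.NEC

/-!
# GN57, piece SNEC (helper73): the chains inside of blocks have an even number of blocks
-/

set_option autoImplicit false

namespace Pool.Agent.H57N

open Real
open scoped RealInnerProductSpace

namespace SNEC

theorem src_nat : ∀ (X : Ch) {W W' : Type} (g : W → W') (x : W) (i : X.V → W) (e : X.E),
    g (X.src x i e) = X.src (g x) (fun z => g (i z)) e := by
  intro X
  induction X with
  | edge => intro W W' g x i e; rfl
  | cons A B C ihA ihB ihC =>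
    intro W W' g x i e
    rcases e with e | e | e | e
    · rfl
    · exact ihA g _ _ e
    · exact ihB g _ _ e
    · exact ihC g _ _ e

end SNEC

open SNEC in
theorem t_SNEC (h1 : S_SLOC) (_h2 : S_FLX) (h3 : S_ANT) (h4 : S_PAR) : S_SNEC := by
  intro V E _ src tgt X hne ⟨P, W, L, hN⟩ e
  obtain ⟨hu, hp, hE, hL, -⟩ := (h1 V E src tgt X P W L).1 hN
  refine (NEC.main h3 h4 (X e) (P (.inl (src e))) (P (.inl (tgt e))) (fun z => P (.inr ⟨e, z⟩))
    (fun f => W ⟨e, f⟩) (fun f => L ⟨e, f⟩) (hu _) ?_ (hL e) ?_ ?_ ?_ ?_).1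
  · intro h
    exact hne e (Sum.inl_injective (hp h))
  · intro f g a b g1 g2 g3 g4 g5
    have k : ∀ f : (X e).E, P (ssrc src X ⟨e, f⟩) =
        (X e).src (P (.inl (src e))) (fun z => P (.inr ⟨e, z⟩)) f := fun f =>
      src_nat (X e) P _ _ f
    rw [← k f, ← k g] at g5
    obtain ⟨g6, g7⟩ := hE ⟨e, f⟩ ⟨e, g⟩ a b g1 g2 g3 g4 g5
    exact ⟨eq_of_heq (Sigma.mk.inj g6).2, g7⟩
  · intro a b h
    exact eq_of_heq (Sigma.mk.inj (Sum.inr_injective (hp h))).2
  · intro z h
    have := hp h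
    cases this
  · intro z h
    have := hp h
    cases this

end Pool.Agent.H57N
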