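import Pool.Agent.H57N.Stm2
import Pool.Agent.H57N.GEO2
import Pool.Agent.H57N.LOCaux

set_option autoImplicit false

/-!
Project GN57 (helper57), part 2, piece SUB (by helper75): chains in all edges.
-/

namespace Pool.Agent.H57N

open Real
open scoped RealInnerProductSpace

namespace SUB

theorem exists_angle {a b : ℝ} (h : a ^ 2 + b ^ 2 = 1) : ∃ t : ℝ, cos t = a ∧ sin t = b := by
  have h1 : ‖(⟨a, b⟩ : ℂ)‖ = 1 := by
    rw [Complex.norm_def, Complex.normSq_mk, show a * a + b * b = 1 by linarith [sq a, sq b],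
      Real.sqrt_one]
  obtain ⟨t, ht⟩ := (Complex.norm_eq_one_iff _).mp h1
  refine ⟨t, ?_, ?_⟩
  · rw [← Complex.exp_ofReal_mul_I_re, ht]
  · rw [← Complex.exp_ofReal_mul_I_im, ht]

theorem mem_pl_arc {x v q : E4} (hx : ‖x‖ = 1) (hv : ‖v‖ = 1) (h : ⟪x, v⟫ = 0) (hq : q ∈ pl x v)
    (hn : ‖q‖ = 1) : ∃ t, q = arc x v t := by
  obtain ⟨a, b, hab⟩ := mem_pl.1 hq
  have h1 := inner_comb hx hv h a b a b
  rw [hab, real_inner_self_eq_norm_sq, hn] at h1
  obtain ⟨t, h2, h3⟩ := exists_angle (a := a) (b := b) (by nlinarith)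
  exact ⟨t, by rw [arc, h2, h3, hab]⟩

theorem zero_of_disjoint {P Q : Submodule ℝ E4} (h : Disjoint P Q) {q : E4} (h1 : q ∈ P)
    (h2 : q ∈ Q) : q = 0 := Submodule.disjoint_def.1 h q h1 h2

/-- the data of a chain -/
structure DD (Y : Ch) where
  p : Y.V → E4
  w : Y.E → E4
  l : Y.E → ℝ
  S : Set (Submodule ℝ E4)

/-- the plane of an edge of a chain -/
def DD.plane {Y : Ch} (d : DD Y) (x : E4) (f : Y.E) : Submodule ℝ E4 := pl (Y.src x d.p f) (d.w f)

section

variable {V E : Type} [Fintype E] {src tgt : E → V} {p : V → E4} {v : E → E4} {ℓ : E → ℝ}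
  (N : IsNet src tgt p v ℓ) {a b : E → ℝ}
  (h0 : ∀ e, 0 < a e) (h1 : ∀ e, a e < b e) (h2 : ∀ e, b e < ℓ e)
  (I1 : ∀ e t, a e ≤ t → t ≤ b e → ∀ f s, 0 ≤ s → s ≤ ℓ f →
    arc (p (src f)) (v f) s ≠ -arc (p (src e)) (v e) t)
  (I2 : ∀ e t, a e ≤ t → t ≤ b e → ∀ f, pl (p (src f)) (v f) ≠ pl (p (src e)) (v e) →
    arc (p (src e)) (v e) t ∉ pl (p (src f)) (v f))

/-- the point is in the interior of the edge, or antipodal to an interior point of the interval -/
def In (src : E → V) (p : V → E4) (v : E → E4) (ℓ : E → ℝ) (a b : E → ℝ) (e : E) (q : E4) : Prop :=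
  (∃ t, 0 < t ∧ t < ℓ e ∧ q = arc (p (src e)) (v e) t) ∨
  (∃ t, a e < t ∧ t < b e ∧ q = -arc (p (src e)) (v e) t)

/-- the same with closed intervals -/
def Cl (src : E → V) (p : V → E4) (v : E → E4) (ℓ : E → ℝ) (a b : E → ℝ) (e : E) (q : E4) : Prop :=
  (∃ t, 0 ≤ t ∧ t ≤ ℓ e ∧ q = arc (p (src e)) (v e) t) ∨
  (∃ t, a e ≤ t ∧ t ≤ b e ∧ q = -arc (p (src e)) (v e) t)

omit [Fintype E] in
theorem In.cl {e : E} {q : E4} (h : In src p v ℓ a b e q) : Cl src p v ℓ a b e q := by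
  rcases h with ⟨t, h1, h2, h3⟩ | ⟨t, h1, h2, h3⟩
  · exact Or.inl ⟨t, h1.le, h2.le, h3⟩
  · exact Or.inr ⟨t, h1.le, h2.le, h3⟩

omit [Fintype E] in
theorem Cl.mem {e : E} {q : E4} (h : Cl src p v ℓ a b e q) : q ∈ pl (p (src e)) (v e) := by
  rcases h with ⟨t, _, _, h3⟩ | ⟨t, _, _, h3⟩
  · rw [h3]
    exact arc_mem _ _ _
  · rw [h3]
    exact Submodule.neg_mem _ (arc_mem _ _ _)

include N h0 h2 I1

theorem circ {e e' : E} (hne : e ≠ e') {q : E4} (h : In src p v ℓ a b e q)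
    (h' : Cl src p v ℓ a b e' q) : False := by
  rcases h with ⟨t, ht0, ht1, hq⟩ | ⟨t, ht0, ht1, hq⟩
  · rcases h' with ⟨t', ht0', ht1', hq'⟩ | ⟨t', ht0', ht1', hq'⟩
    · exact hne (N.embedded e e' t t' ht0 ht1 ht0' ht1' (hq.symm.trans hq')).1
    · exact I1 e' t' ht0' ht1' e t ht0.le ht1.le (hq.symm.trans hq')
  · rcases h' with ⟨t', ht0', ht1', hq'⟩ | ⟨t', ht0', ht1', hq'⟩
    · exact I1 e t ht0.le ht1.le e' t' ht0' ht1' (hq'.symm.trans hq)
    · exact hne (N.embedded e e' t t' ((h0 e).trans ht0) (ht1.trans (h2 e))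
        ((h0 e').le.trans ht0') (ht1'.trans (h2 e').le) (neg_injective (hq.symm.trans hq'))).1

/-- two different chains -/
theorem cross {X : E → Ch} (D : ∀ e, DD (X e)) {e e' : E} (hne : e ≠ e')
    (hb : ∀ f, pl (p (src f)) (v f) ≠ pl (p (src e)) (v e) → pl (p (src f)) (v f) ∈ (D e).S)
    (hb' : ∀ f, pl (p (src f)) (v f) ≠ pl (p (src e')) (v e') → pl (p (src f)) (v f) ∈ (D e').S)
    (hL : (∀ f, (D e').plane (p (src e')) f ≠ pl (p (src e)) (v e) →
        (D e').plane (p (src e')) f ∈ (D e).S) ∨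
      (∀ f, (D e).plane (p (src e)) f ≠ pl (p (src e')) (v e') →
        (D e).plane (p (src e)) f ∈ (D e').S))
    {q : E4} {f : (X e).E} {f' : (X e').E} (hf : q ∈ (D e).plane (p (src e)) f)
    (hf' : q ∈ (D e').plane (p (src e')) f')
    (h : In src p v ℓ a b e q ∨ (q ∉ pl (p (src e)) (v e) ∧ ∀ P ∈ (D e).S, q ∉ P))
    (h' : Cl src p v ℓ a b e' q ∨ (q ∉ pl (p (src e')) (v e') ∧ ∀ P ∈ (D e').S, q ∉ P)) :
    False := by
  rcases h with h | ⟨h, hS⟩
  · rcases h' with h' | ⟨h', hS'⟩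
    · exact circ N h0 h2 I1 hne h h'
    · have hm := h.cl.mem
      by_cases hp : pl (p (src e)) (v e) = pl (p (src e')) (v e')
      · exact h' (hp ▸ hm)
      · exact hS' _ (hb' e hp) hm
  · rcases h' with h' | ⟨h', hS'⟩
    · have hm := h'.mem
      by_cases hp : pl (p (src e')) (v e') = pl (p (src e)) (v e)
      · exact h (hp ▸ hm)
      · exact hS _ (hb e' hp) hm
    · rcases hL with hL | hL
      · by_cases hp : (D e').plane (p (src e')) f' = pl (p (src e)) (v e)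
        · exact h (hp ▸ hf')
        · exact hS _ (hL f' hp) hf'
      · by_cases hp : (D e).plane (p (src e)) f = pl (p (src e')) (v e')
        · exact h' (hp ▸ hf)
        · exact hS' _ (hL f hp) hf

include h1 I2

/-- the induction -/
theorem build (hC : S_CHN) (hπ : ∀ e, b e - a e < π) (X : E → Ch)
    (hX : ∀ e, (X e).Good ∧ Even (X e).len) (F : Finset E) :
    ∃ D : ∀ e, DD (X e),
      (∀ e ∈ F, OutE (X e) (p (src e)) (v e) (ℓ e) (a e) (b e) (D e).S (D e).p (D e).w (D e).l ∧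
        ∀ f, pl (p (src f)) (v f) ≠ pl (p (src e)) (v e) → pl (p (src f)) (v f) ∈ (D e).S) ∧
      ∀ e ∈ F, ∀ e' ∈ F, e ≠ e' →
        (∀ f, (D e').plane (p (src e')) f ≠ pl (p (src e)) (v e) →
          (D e').plane (p (src e')) f ∈ (D e).S) ∨
        (∀ f, (D e).plane (p (src e)) f ≠ pl (p (src e')) (v e') →
          (D e).plane (p (src e)) f ∈ (D e').S) := by
  classical
  induction F using Finset.induction_on with
  | empty =>
    exact ⟨fun e => ⟨fun _ => 0, fun _ => 0, fun _ => 0, ∅⟩, by simp, by simp⟩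
  | insert e F heF ih =>
    obtain ⟨D, hD1, hD2⟩ := ih
    obtain ⟨S, hS⟩ : ∃ S : Set (Submodule ℝ E4), S = {P | P ≠ pl (p (src e)) (v e) ∧
      ((∃ f, pl (p (src f)) (v f) = P) ∨
        ∃ g : (Σ e' : F, (X e').E), (D g.1).plane (p (src g.1)) g.2 = P)} := ⟨_, rfl⟩
    have hfin : S.Finite := by
      rw [hS]
      refine Set.Finite.subset ((Set.finite_range fun f => pl (p (src f)) (v f)).union
        (Set.finite_range fun g : (Σ e' : F, (X e').E) => (D g.1).plane (p (src g.1)) g.2)) ?_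
      rintro P ⟨_, h | h⟩
      · exact Or.inl h
      · exact Or.inr h
    have hrank : ∀ P ∈ S, Module.finrank ℝ P ≤ 2 := by
      intro P hP
      rw [hS] at hP
      obtain ⟨_, ⟨f, rfl⟩ | ⟨g, rfl⟩⟩ := hP
      · exact finrank_pl _ _
      · exact finrank_pl _ _
    have hxe := N.unit (src e)
    have hve := N.start e
    have hav : ∀ P ∈ S, ∀ t, a e ≤ t → t ≤ b e → arc (p (src e)) (v e) t ∉ P := by
      intro P hP t ht0 ht1 hm
      rw [hS] at hP
      obtain ⟨hPe, ⟨f, rfl⟩ | ⟨⟨⟨e', he'⟩, f⟩, rfl⟩⟩ := hP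
      · exact I2 e t ht0 ht1 f hPe hm
      · obtain ⟨hO, hb'⟩ := hD1 e' he'
        have hne : e ≠ e' := fun h => heF (h ▸ he')
        rcases hO.2.2.2.2.2.2.2.2.2 f with hf | ⟨hf1, hf2⟩
        · have hf' : (D e').plane (p (src e')) f = pl (p (src e')) (v e') := hf
          have hPe' : (D e').plane (p (src e')) f ≠ pl (p (src e)) (v e) := hPe
          have hm' : arc (p (src e)) (v e) t ∈ (D e').plane (p (src e')) f := hm
          rw [hf'] at hPe' hm'
          exact I2 e t ht0 ht1 e' hPe' hm'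
        · by_cases hpp : pl (p (src e)) (v e) = pl (p (src e')) (v e')
          · have hm2 : arc (p (src e)) (v e) t ∈ pl (p (src e')) (v e') := hpp ▸ arc_mem _ _ _
            obtain ⟨t', ht'⟩ := mem_pl_arc (N.unit (src e')) (N.start e').1 (N.start e').2 hm2
              (norm_arc hxe hve.1 hve.2 t)
            have hm3 : arc (p (src e')) (v e') t' ∈ pl ((X e').src (p (src e')) (D e').p f)
                ((D e').w f) := ht' ▸ hm
            obtain ⟨s, hs0, hs1, hs⟩ := hf2 t' hm3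
            rw [← ht'] at hs
            rcases hs with hs | hs
            · exact hne (N.embedded e e' t s ((h0 e).trans_le ht0) (ht1.trans_lt (h2 e))
                ((h0 e').trans hs0).le (hs1.trans (h2 e')).le hs).1
            · exact I1 e t ht0 ht1 e' s ((h0 e').trans hs0).le (hs1.trans (h2 e')).le
                (by rw [hs, neg_neg])
          · have h3 := zero_of_disjoint (hf1 _ (hb' e hpp)) hm (arc_mem _ _ _)
            exact arc_ne_zero hxe hve.1 hve.2 t h3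
    obtain ⟨pp, ww, ll, hO⟩ := hC (X e) (hX e).1 (hX e).2 (p (src e)) (v e) (ℓ e) (a e) (b e) S
      hxe hve.1 hve.2 (h0 e) (h1 e) (h2 e) (hπ e) hfin hrank hav
      (fun t s ht0 ht1 hs0 hs1 => I1 e t ht0 ht1 e s hs0 hs1)
      (fun t s ht0 ht1 hs0 hs1 h => (N.embedded e e t s ht0 ht1 hs0 hs1 h).2)
    have hself : Function.update D e ⟨pp, ww, ll, S⟩ e = ⟨pp, ww, ll, S⟩ := Function.update_self _ _ _
    have hother : ∀ e' ∈ F, Function.update D e ⟨pp, ww, ll, S⟩ e' = D e' := by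
      intro e' he'
      exact Function.update_of_ne (fun h : e' = e => heF (h ▸ he')) _ _
    refine ⟨Function.update D e ⟨pp, ww, ll, S⟩, ?_, ?_⟩
    · intro e' he'
      rcases Finset.mem_insert.1 he' with rfl | he'
      · rw [hself]
        refine ⟨hO, fun f hf => ?_⟩
        show _ ∈ S
        rw [hS]
        exact ⟨hf, Or.inl ⟨f, rfl⟩⟩
      · rw [hother e' he']
        exact hD1 e' he'
    · intro e1 he1 e2 he2 hne
      rcases Finset.mem_insert.1 he1 with rfl | he1'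
      · rcases Finset.mem_insert.1 he2 with rfl | he2'
        · exact absurd rfl hne
        · rw [hself, hother e2 he2']
          refine Or.inl fun f hf => ?_
          show _ ∈ S
          rw [hS]
          exact ⟨hf, Or.inr ⟨⟨⟨e2, he2'⟩, f⟩, rfl⟩⟩
      · rcases Finset.mem_insert.1 he2 with rfl | he2'
        · rw [hself, hother e1 he1']
          refine Or.inr fun f hf => ?_
          show _ ∈ S
          rw [hS]
          exact ⟨hf, Or.inr ⟨⟨⟨e1, he1'⟩, f⟩, rfl⟩⟩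
        · rw [hother e1 he1', hother e2 he2']
          exact hD2 e1 he1' e2 he2' hne

end

end SUB

open SUB in
theorem t_SUB (hS : S_SLOC) (hI : S_INT) (hC : S_CHN) : S_SUB := by
  intro V E _ src tgt p v ℓ N hV hF X hX
  have hint := hI V E src tgt p v ℓ N hF
  choose a b h0 h1 h2 hπ I1 I2 using hint
  obtain ⟨D, hD1, hD2⟩ := build N h0 h1 h2 I1 I2 hC hπ X hX Finset.univ
  have hO := fun e => (hD1 e (Finset.mem_univ e)).1
  have hb := fun e => (hD1 e (Finset.mem_univ e)).2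
  have hL := fun e e' (hne : e ≠ e') => hD2 e (Finset.mem_univ e) e' (Finset.mem_univ e') hne
  -- the types of the vertices and of the points
  have tv : ∀ e (z : (X e).V), In src p v ℓ a b e ((D e).p z) ∨
      ((D e).p z ∉ pl (p (src e)) (v e) ∧ ∀ P ∈ (D e).S, (D e).p z ∉ P) := by
    intro e z
    rcases (hO e).2.2.2.2.2.2.1 z with ⟨t, ht0, ht1, hz | hz⟩ | h
    · exact Or.inl (Or.inl ⟨t, (h0 e).trans ht0, ht1.trans (h2 e), hz⟩)
    · exact Or.inl (Or.inr ⟨t, ht0, ht1, hz⟩)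
    · exact Or.inr h
  have te : ∀ e (f : (X e).E) (s : ℝ), 0 ≤ s → s ≤ (D e).l f →
      (Cl src p v ℓ a b e (arc ((X e).src (p (src e)) (D e).p f) ((D e).w f) s) ∨
      (arc ((X e).src (p (src e)) (D e).p f) ((D e).w f) s ∉ pl (p (src e)) (v e) ∧
        ∀ P ∈ (D e).S, arc ((X e).src (p (src e)) (D e).p f) ((D e).w f) s ∉ P)) ∧
      (0 < s → s < (D e).l f →
      (In src p v ℓ a b e (arc ((X e).src (p (src e)) (D e).p f) ((D e).w f) s) ∨
      (arc ((X e).src (p (src e)) (D e).p f) ((D e).w f) s ∉ pl (p (src e)) (v e) ∧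
        ∀ P ∈ (D e).S, arc ((X e).src (p (src e)) (D e).p f) ((D e).w f) s ∉ P))) := by
    intro e f s hs0 hs1
    rcases (hO e).2.2.2.2.2.2.2.2.1 f s hs0 hs1 with ⟨t, ht0, ht1, hq, hi⟩ | ⟨t, ht0, ht1, hq, hi⟩ | h
    · exact ⟨Or.inl (Or.inl ⟨t, ht0, ht1, hq⟩),
        fun a1 a2 => Or.inl (Or.inl ⟨t, (hi ⟨a1, a2⟩).1, (hi ⟨a1, a2⟩).2, hq⟩)⟩
    · exact ⟨Or.inl (Or.inr ⟨t, ht0, ht1, hq⟩),
        fun a1 a2 => Or.inl (Or.inr ⟨t, (hi ⟨a1, a2⟩).1, (hi ⟨a1, a2⟩).2, hq⟩)⟩
    · exact ⟨Or.inr h, fun _ _ => Or.inr h⟩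
  -- base vertices against chain vertices
  have hbase : ∀ (x : V) e (z : (X e).V), p x ≠ (D e).p z := by
    intro x e z hxz
    obtain ⟨g, hg⟩ := hV x
    obtain ⟨τ, hτ0, hτ1, hτ, hτe⟩ : ∃ τ, 0 ≤ τ ∧ τ ≤ ℓ g ∧ p x = arc (p (src g)) (v g) τ ∧
        (τ = 0 ∨ τ = ℓ g) := by
      rcases hg with hg | hg
      · refine ⟨0, le_rfl, (N.pos g).le, ?_, Or.inl rfl⟩
        rw [arc_zero, hg]
      · refine ⟨ℓ g, (N.pos g).le, le_rfl, ?_, Or.inr rfl⟩
        rw [N.finish g, hg]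
    rcases tv e z with (⟨t, ht0, ht1, hq⟩ | ⟨t, ht0, ht1, hq⟩) | ⟨hq, hq'⟩
    · have h4 := N.embedded e g t τ ht0 ht1 hτ0 hτ1 (by rw [← hq, ← hxz, hτ])
      obtain ⟨rfl, rfl⟩ := h4
      rcases hτe with h | h
      · exact ht0.ne' h
      · exact ht1.ne h
    · exact I1 e t ht0.le ht1.le g τ hτ0 hτ1 (by rw [← hτ, hxz, hq])
    · have hm : p x ∈ pl (p (src g)) (v g) := hτ ▸ arc_mem _ _ _
      rw [hxz] at hm
      by_cases hp : pl (p (src g)) (v g) = pl (p (src e)) (v e)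
      · exact hq (hp ▸ hm)
      · exact hq' _ (hb e g hp) hm
  refine ⟨Sum.elim p (fun z => (D z.1).p z.2), fun f => (D f.1).w f.2, fun f => (D f.1).l f.2,
    (hS V E src tgt X _ _ _).2 ⟨?_, ?_, ?_, ?_, ?_⟩⟩
  · rintro (x | ⟨e, z⟩)
    · exact N.unit x
    · exact (hO e).2.2.2.2.2.1 z
  · rintro (x | ⟨e, z⟩) (y | ⟨e', z'⟩) h
    · rw [N.injective h]
    · exact absurd h (hbase x e' z')
    · exact absurd (Eq.symm h) (hbase y e z)
    · have h5 : (D e).p z = (D e').p z' := h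
      by_cases hne : e = e'
      · subst hne
        rw [(hO e).2.2.2.2.1 h5]
      · exfalso
        obtain ⟨f, hf⟩ := (hO e).2.2.2.2.2.2.2.1 z
        obtain ⟨f', hf'⟩ := (hO e').2.2.2.2.2.2.2.1 z'
        rw [← h5] at hf'
        refine cross N h0 h2 I1 D hne (hb e) (hb e') (hL e e' hne) (q := (D e).p z) (f := f)
          (f' := f') hf hf' (tv e z) ?_
        rw [h5]
        rcases tv e' z' with h | h
        · exact Or.inl h.cl
        · exact Or.inr h
  · rintro ⟨e, f⟩ ⟨e', f'⟩ s s' hs0 hs1 hs0' hs1' h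
    have e1 : ∀ (e : E) (f : (X e).E), (Sum.elim p (fun z : Σ e : E, (X e).V => (D z.1).p z.2))
        (ssrc src X ⟨e, f⟩) = (X e).src (p (src e)) (D e).p f := by
      intro e f
      exact (LOCaux.src_nat (X e) (Sum.elim p (fun z : Σ e : E, (X e).V => (D z.1).p z.2))
        (Sum.inl (src e)) (fun z => Sum.inr ⟨e, z⟩) f).symm
    have h6 : arc ((X e).src (p (src e)) (D e).p f) ((D e).w f) s =
        arc ((X e').src (p (src e')) (D e').p f') ((D e').w f') s' := by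
      rw [← e1 e f, ← e1 e' f']
      exact h
    by_cases hne : e = e'
    · subst hne
      obtain ⟨h7, h8⟩ := (hO e).2.2.2.1 f f' s s' hs0 hs1 hs0' hs1' h6
      exact ⟨by rw [h7], h8⟩
    · exfalso
      have m1 : arc ((X e).src (p (src e)) (D e).p f) ((D e).w f) s ∈
          (D e).plane (p (src e)) f := arc_mem _ _ _
      have m2 : arc ((X e).src (p (src e)) (D e).p f) ((D e).w f) s ∈
          (D e').plane (p (src e')) f' := by
        rw [h6]
        exact arc_mem _ _ _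
      refine cross N h0 h2 I1 D hne (hb e) (hb e') (hL e e' hne) m1 m2
        ((te e f s hs0.le hs1.le).2 hs0 hs1) ?_
      rw [h6]
      exact (te e' f' s' hs0' hs1').1
  · intro e
    have h9 := (hO e).1
    rw [N.finish e] at h9
    exact h9
  · intro x
    have h10 := N.balanced x
    have e2 : ∀ e, (D e).w (X e).first = v e := fun e => (hO e).2.1
    have e3 : ∀ e, fin (X e) (p (src e)) (D e).p (D e).w (D e).l =
        vel (p (src e)) (v e) (ℓ e) := fun e => (hO e).2.2.1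
    exact (Finset.sum_congr rfl fun e _ => e2 e).trans
      (h10.trans (Finset.sum_congr rfl fun e _ => (e3 e).symm))

end Pool.Agent.H57N
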