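import Pool.Agent.H57N.All
import Pool.Agent.H57N.CHN
import Pool.Agent.H57N.SLOC
import Pool.Agent.H57N.SNEC
import Pool.Agent.H57N.INT
import Pool.Agent.H57N.SUB
import Pool.Agent.H57N.K4
import Pool.Agent.H57N.CUT3
import Pool.Agent.H57N.CUB

/-! The assembly, part 2. -/

set_option autoImplicit false

namespace Pool.Agent.H57N

theorem snec : S_SNEC :=
  t_SNEC t_SLOC t_FLX (t_ANT t_PLN t_FLX)
    (t_PAR t_FLX t_ARC (t_TOP1 t_PLN t_FLX) (t_TOP2 t_PLN t_FLX (t_TOP1 t_PLN t_FLX)))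

theorem ssub : S_SUB := t_SUB t_SLOC t_INT (t_CHN (t_STEP t_NU))

end Pool.Agent.H57N
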