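import Pool.Agent.H57N.Stm3

/-! PROJECT GN57 (helper57), piece CON (helper9): the multigraph `Θ(A,B,C)` is connected. -/

set_option autoImplicit false

namespace Pool.Agent.H57N

open Relation

namespace CON

/-- everything in a chain is reached from its start -/
theorem chain {W : Type} (R : W → W → Prop) : ∀ (X : Ch) (x y : W) (i : X.V → W),
    (∀ e : X.E, R (X.src x i e) (X.tgt y i e)) →
      ReflTransGen R x y ∧ ∀ z : X.V, ReflTransGen R x (i z)
  | .edge, x, y, i, h => ⟨ReflTransGen.single (h ()), fun z => z.elim⟩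
  | .cons A B C, x, y, i, h => by
    have h0 : ReflTransGen R x (i (.inl false)) := ReflTransGen.single (h (.inl ()))
    have hA := chain R A (i (.inl false)) (i (.inl true)) (fun z => i (.inr (.inl z)))
      (fun e => h (.inr (.inl e)))
    have hB := chain R B (i (.inl false)) (i (.inl true)) (fun z => i (.inr (.inr (.inl z))))
      (fun e => h (.inr (.inr (.inl e))))
    have h1 : ReflTransGen R x (i (.inl true)) := h0.trans hA.1
    have hC := chain R C (i (.inl true)) y (fun z => i (.inr (.inr (.inr z))))
      (fun e => h (.inr (.inr (.inr e))))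
    refine ⟨h1.trans hC.1, ?_⟩
    rintro (b | z | z | z)
    · cases b
      · exact h0
      · exact h1
    · exact h0.trans (hA.2 z)
    · exact h0.trans (hB.2 z)
    · exact h1.trans (hC.2 z)

end CON

theorem t_CON : S_CON := by
  intro A B C x
  have hA := CON.chain (Join (tsrc A B C id) (ttgt A B C id)) A (.inl false) (.inl true)
    (fun z => .inr (.inl z)) (fun e => ⟨.inl e, Or.inl ⟨rfl, rfl⟩⟩)
  have hB := CON.chain (Join (tsrc A B C id) (ttgt A B C id)) B (.inl false) (.inl true)
    (fun z => .inr (.inr (.inl z))) (fun e => ⟨.inr (.inl e), Or.inl ⟨rfl, rfl⟩⟩)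
  have hC := CON.chain (Join (tsrc A B C id) (ttgt A B C id)) C (.inl false) (.inl true)
    (fun z => .inr (.inr (.inr z))) (fun e => ⟨.inr (.inr e), Or.inl ⟨rfl, rfl⟩⟩)
  rcases x with b | z | z | z
  · cases b
    · exact ReflTransGen.refl
    · exact hA.1
  · exact hA.2 z
  · exact hB.2 z
  · exact hC.2 z

end Pool.Agent.H57N
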