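import Pool.Agent.H57N.CutDefs
import Pool.Agent.H57N.CUT
import Pool.Agent.H57N.CUT3
import Pool.Agent.H57N.PLN
import Pool.Agent.H57N.GEO

/-! Cuts with one, two and three edges. -/

set_option autoImplicit false

namespace Pool.Agent.H57N

open Real
open scoped RealInnerProductSpace

lemma fl_smul (c : ℝ) (x v : E4) : fl x (c • v) = c • fl x v := by
  funext i j
  simp only [fl, PiLp.smul_apply, smul_eq_mul, Pi.smul_apply]
  ring

lemma fl_add' (x v w : E4) : fl x (v + w) = fl x v + fl x w := by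
  funext i j
  simp only [fl, PiLp.add_apply, Pi.add_apply]
  ring

lemma fl_arc' (x v : E4) (t : ℝ) : fl (arc x v t) (vel x v t) = fl x v := by
  funext i j
  simp only [fl, arc, vel, PiLp.add_apply, PiLp.smul_apply, smul_eq_mul]
  have := sin_sq_add_cos_sq t
  linear_combination (x i * v j - x j * v i) * this

lemma fl_ne {x v : E4} (hx : ‖x‖ = 1) (hv : ‖v‖ = 1) (h : ⟪x, v⟫ = 0) : fl x v ≠ 0 := by
  intro h0
  have h1 : fl x v = fl x (0 : E4) := by
    rw [h0]
    funext i j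
    simp [fl]
  have h2 := PLNP.contr' h1 v
  have h3 : ⟪v, v⟫ = 1 := by rw [real_inner_self_eq_norm_sq, hv]; norm_num
  rw [h3, h, inner_zero_left, one_smul, zero_smul, zero_smul, sub_zero, smul_zero, sub_zero] at h2
  rw [h2, norm_zero] at hx
  norm_num at hx

lemma fl_zero_of {x w : E4} (hx : ‖x‖ = 1) (h : ⟪x, w⟫ = 0) (h0 : fl x w = 0) : w = 0 := by
  have h1 : fl x w = fl x (0 : E4) := by
    rw [h0]
    funext i j
    simp [fl]
  have h2 := PLNP.contr' h1 x
  have h3 : ⟪x, x⟫ = 1 := by rw [real_inner_self_eq_norm_sq, hx]; norm_num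
  rw [h3, real_inner_comm, h, inner_zero_left, one_smul, zero_smul] at h2
  simpa using h2

section
variable {V E : Type} [Fintype V] [Fintype E] [DecidableEq V] {src tgt : E → V} {p : V → E4}
  {v : E → E4} {ℓ : E → ℝ}

open scoped Classical in
lemma cross_sum (h : IsNet src tgt p v ℓ) (X : Finset V) :
    ∑ f with Cross src tgt X f, sgn src X f • fl (p (src f)) (v f) = 0 := by
  have h1 := t_CUT V E src tgt p v ℓ h X
  have h2 : ∑ f with Cross src tgt X f, sgn src X f • fl (p (src f)) (v f) =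
      (∑ e with src e ∈ X ∧ tgt e ∉ X, fl (p (src e)) (v e)) -
        ∑ e with src e ∉ X ∧ tgt e ∈ X, fl (p (src e)) (v e) := by
    rw [Finset.sum_filter, Finset.sum_filter, Finset.sum_filter, ← Finset.sum_sub_distrib]
    refine Finset.sum_congr rfl fun f _ => ?_
    by_cases h3 : src f ∈ X <;> by_cases h4 : tgt f ∈ X <;> simp [Cross, sgn, h3, h4]
  rw [h2, h1, sub_self]

lemma sgn_sq (src : E → V) (X : Finset V) (f : E) : sgn src X f = 1 ∨ sgn src X f = -1 := by
  unfold sgn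
  split_ifs
  · exact Or.inl rfl
  · exact Or.inr rfl

lemma orth (h : IsNet src tgt p v ℓ) (e : E) :
    ‖p (src e)‖ = 1 ∧ ‖v e‖ = 1 ∧ ⟪p (src e), v e⟫ = 0 :=
  ⟨h.unit _, (h.start e).1, (h.start e).2⟩

lemma sfl (h : IsNet src tgt p v ℓ) (X : Finset V) (e : E) :
    ‖sgn src X e • v e‖ = 1 ∧ ⟪p (src e), sgn src X e • v e⟫ = 0 := by
  obtain ⟨h1, h2, h3⟩ := orth h e
  rcases sgn_sq src X e with hs | hs
  · rw [hs, one_smul]; exact ⟨h2, h3⟩
  · rw [hs, neg_one_smul, norm_neg, inner_neg_right, h3, neg_zero]; exact ⟨h2, rfl⟩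

/-- no cut has exactly one edge -/
theorem cut1 (h : IsNet src tgt p v ℓ) (X : Finset V) (e : E) :
    ¬ ∀ f, Cross src tgt X f ↔ f = e := by
  classical
  intro hc
  have h1 := cross_sum h X
  have h2 : (Finset.univ.filter (fun f => Cross src tgt X f)) = {e} := by
    ext f
    simp [hc f]
  rw [h2, Finset.sum_singleton] at h1
  obtain ⟨a, b, c⟩ := orth h e
  rcases sgn_sq src X e with hs | hs
  · rw [hs, one_smul] at h1
    exact fl_ne a b c h1
  · rw [hs, neg_one_smul, neg_eq_zero] at h1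
    exact fl_ne a b c h1

/-- the two edges of a cut lie on one oriented great circle -/
theorem cut2 (h : IsNet src tgt p v ℓ) (X : Finset V) (e e' : E) (hne : e ≠ e')
    (hc : ∀ f, Cross src tgt X f ↔ f = e ∨ f = e') :
    ∃ θ : ℝ, arc (p (src e)) (v e) θ = p (src e') ∧
      sgn src X e • vel (p (src e)) (v e) θ + sgn src X e' • v e' = 0 := by
  classical
  have h1 := cross_sum h X
  have h2 : (Finset.univ.filter (fun f => Cross src tgt X f)) = {e, e'} := by
    ext f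
    simp [hc f]
  rw [h2, Finset.sum_pair hne, ← fl_smul, ← fl_smul] at h1
  obtain ⟨a, b, c⟩ := orth h e
  obtain ⟨a', b', c'⟩ := orth h e'
  obtain ⟨b1, c1⟩ := sfl h X e
  obtain ⟨b2, c2⟩ := sfl h X e'
  have h3 : fl (p (src e)) (sgn src X e • v e) = fl (p (src e')) (-(sgn src X e' • v e')) := by
    have h4 : fl (p (src e')) (-(sgn src X e' • v e')) =
        -fl (p (src e')) (sgn src X e' • v e') := by
      rw [← neg_one_smul ℝ (sgn src X e' • v e'), fl_smul, neg_one_smul]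
    rw [h4]
    exact eq_neg_of_add_eq_zero_left h1
  obtain ⟨θ, h5, h6⟩ := t_PLN _ _ _ _ a b1 c1 a' (by rw [norm_neg]; exact b2)
    (by rw [inner_neg_right, c2, neg_zero]) h3
  rcases sgn_sq src X e with hs | hs
  · rw [hs, one_smul] at h5 h6
    refine ⟨θ, h5.symm, ?_⟩
    rw [hs, one_smul, ← h6]
    simp
  · rw [hs, neg_one_smul] at h5 h6
    refine ⟨-θ, ?_, ?_⟩
    · rw [h5]
      simp only [arc, cos_neg, sin_neg]
      module
    · have h7 : sgn src X e' • v e' = -vel (p (src e)) (-v e) θ := by rw [← h6, neg_neg]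
      rw [hs, h7]
      simp only [vel, cos_neg, sin_neg]
      module

/-- the great circles of the three edges of a cut meet in a point under 120 degrees -/
theorem cut3 (h : IsNet src tgt p v ℓ) (X : Finset V) (e1 e2 e3 : E) (h12 : e1 ≠ e2)
    (h13 : e1 ≠ e3) (h23 : e2 ≠ e3)
    (hc : ∀ f, Cross src tgt X f ↔ f = e1 ∨ f = e2 ∨ f = e3) :
    ∃ (z : E4) (θ1 θ2 θ3 : ℝ), arc (p (src e1)) (v e1) θ1 = z ∧
      arc (p (src e2)) (v e2) θ2 = z ∧ arc (p (src e3)) (v e3) θ3 = z ∧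
      sgn src X e1 • vel (p (src e1)) (v e1) θ1 + sgn src X e2 • vel (p (src e2)) (v e2) θ2 +
        sgn src X e3 • vel (p (src e3)) (v e3) θ3 = 0 := by
  classical
  have h1 := cross_sum h X
  have h2 : (Finset.univ.filter (fun f => Cross src tgt X f)) = {e1, e2, e3} := by
    ext f
    simp [hc f]
  rw [h2, Finset.sum_insert (by simp [h12, h13]), Finset.sum_pair h23] at h1
  obtain ⟨a1, b1, c1⟩ := orth h e1
  obtain ⟨a2, b2, c2⟩ := orth h e2
  obtain ⟨a3, b3, c3⟩ := orth h e3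
  obtain ⟨d1, f1⟩ := sfl h X e1
  obtain ⟨d2, f2⟩ := sfl h X e2
  obtain ⟨d3, f3⟩ := sfl h X e3
  obtain ⟨z, hz, m1, m2, m3⟩ := t_CUT3 _ _ _ _ _ _ a1 d1 f1 a2 d2 f2 a3 d3 f3 (by
    rw [fl_smul, fl_smul, fl_smul, add_assoc]; exact h1)
  have key : ∀ e, z ∈ pl (p (src e)) (sgn src X e • v e) →
      ∃ θ, arc (p (src e)) (v e) θ = z := by
    intro e hm
    obtain ⟨a, b, c⟩ := orth h e
    have hm' : z ∈ pl (p (src e)) (v e) := by
      obtain ⟨r, s, hr⟩ := mem_pl.1 hm
      exact mem_pl.2 ⟨r, s * sgn src X e, by rw [← hr, mul_smul]⟩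
    obtain ⟨r, s, hr⟩ := mem_pl.1 hm'
    have h3 := inner_comb a b c r s r s
    rw [hr, real_inner_self_eq_norm_sq, hz] at h3
    have e7 : r ^ 2 + s ^ 2 = 1 := by linarith [h3]
    have hn : ‖(⟨r, s⟩ : ℂ)‖ = 1 := by
      rw [Complex.norm_def, Complex.normSq_mk, ← sq, ← sq, e7, Real.sqrt_one]
    have hn0 : (⟨r, s⟩ : ℂ) ≠ 0 := by
      intro h0
      rw [h0, norm_zero] at hn
      norm_num at hn
    refine ⟨Complex.arg ⟨r, s⟩, ?_⟩
    rw [arc, Complex.cos_arg hn0, Complex.sin_arg, hn, div_one, div_one]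
    exact hr
  obtain ⟨θ1, t1⟩ := key e1 m1
  obtain ⟨θ2, t2⟩ := key e2 m2
  obtain ⟨θ3, t3⟩ := key e3 m3
  refine ⟨z, θ1, θ2, θ3, t1, t2, t3, ?_⟩
  apply fl_zero_of hz
  · have k1 := inner_arc_vel a1 b1 c1 θ1
    have k2 := inner_arc_vel a2 b2 c2 θ2
    have k3 := inner_arc_vel a3 b3 c3 θ3
    rw [t1] at k1
    rw [t2] at k2
    rw [t3] at k3
    rw [inner_add_right, inner_add_right, real_inner_smul_right, real_inner_smul_right,
      real_inner_smul_right, k1, k2, k3]
    simp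
  · rw [fl_add', fl_add', fl_smul, fl_smul, fl_smul]
    have g1 := fl_arc' (p (src e1)) (v e1) θ1
    have g2 := fl_arc' (p (src e2)) (v e2) θ2
    have g3 := fl_arc' (p (src e3)) (v e3) θ3
    rw [t1] at g1
    rw [t2] at g2
    rw [t3] at g3
    rw [g1, g2, g3, add_assoc]
    exact h1

end

end Pool.Agent.H57N
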