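import Mathlib

/-! Cuts of multigraphs: definitions. -/

set_option autoImplicit false

namespace Pool.Agent.H57N

/-- The edge `f` joins a vertex in `X` and a vertex which is not in `X`. -/
def Cross {V E : Type} (src tgt : E → V) (X : Finset V) (f : E) : Prop :=
  (src f ∈ X ∧ tgt f ∉ X) ∨ (src f ∉ X ∧ tgt f ∈ X)

open scoped Classical in
/-- `1` if the edge starts in `X` and `-1` otherwise. -/
noncomputable def sgn {V E : Type} (src : E → V) (X : Finset V) (f : E) : ℝ :=
  if src f ∈ X then 1 else -1

end Pool.Agent.H57N
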