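import Mathlib

/-!
Closed geodesic nets on the round three-sphere modelled on series-parallel cubic multigraphs
(MP_a226eb_gt): definitions.
-/

set_option autoImplicit false

namespace Pool.Agent.H57N

open Real
open scoped RealInnerProductSpace

/-- The space `R^4`. -/
abbrev E4 := EuclideanSpace ℝ (Fin 4)

/-- The point at time `t` on the geodesic of the unit sphere which starts at `x` with the unit
velocity `v`. -/
noncomputable def arc (x v : E4) (t : ℝ) : E4 := cos t • x + sin t • v

/-- The velocity at time `t` of the geodesic of the unit sphere which starts at `x` with the unit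
velocity `v`. -/
noncomputable def vel (x v : E4) (t : ℝ) : E4 := (-sin t) • x + cos t • v

open scoped Classical in
/-- A closed geodesic net on the round three-sphere modelled on the multigraph with vertex type
`V`, edge type `E` and ends `src e`, `tgt e` of the edge `e`: the vertex `x` is the point `p x`,
the edge `e` is the geodesic segment of length `ℓ e` which starts at `p (src e)` with velocity
`v e` and ends at `p (tgt e)`. -/
structure IsNet {V E : Type} [Fintype E] (src tgt : E → V) (p : V → E4) (v : E → E4)
    (ℓ : E → ℝ) : Prop where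
  unit : ∀ x, ‖p x‖ = 1
  start : ∀ e, ‖v e‖ = 1 ∧ ⟪p (src e), v e⟫ = 0
  pos : ∀ e, 0 < ℓ e
  finish : ∀ e, arc (p (src e)) (v e) (ℓ e) = p (tgt e)
  balanced : ∀ x, (∑ e with src e = x, v e) = ∑ e with tgt e = x, vel (p (src e)) (v e) (ℓ e)
  injective : Function.Injective p
  embedded : ∀ e f s t, 0 < s → s < ℓ e → 0 ≤ t → t ≤ ℓ f →
    arc (p (src e)) (v e) s = arc (p (src f)) (v f) t → e = f ∧ s = t

/-- The round three-sphere carries a closed geodesic net modelled on the multigraph. -/
def Carries {V E : Type} [Fintype E] (src tgt : E → V) : Prop :=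
  ∃ (p : V → E4) (v : E → E4) (ℓ : E → ℝ), IsNet src tgt p v ℓ

/-- Chains (two-terminal series-parallel networks): `edge` is a single edge, and `cons A B C` is
an edge, followed by a block (two vertices `u`, `w` which are joined by the chains `A` and `B` in
parallel), followed by the chain `C`. -/
inductive Ch : Type
  | edge : Ch
  | cons : Ch → Ch → Ch → Ch

/-- The inner vertices of a chain; `inl false`, `inl true` are the ends `u`, `w` of the first
block. -/
def Ch.V : Ch → Type
  | .edge => Empty
  | .cons A B C => Bool ⊕ A.V ⊕ B.V ⊕ C.V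

/-- The edges of a chain. -/
def Ch.E : Ch → Type
  | .edge => Unit
  | .cons A B C => Unit ⊕ A.E ⊕ B.E ⊕ C.E

instance Ch.fintypeE : (X : Ch) → Fintype X.E
  | .edge => inferInstanceAs (Fintype Unit)
  | .cons A B C =>
    letI := A.fintypeE
    letI := B.fintypeE
    letI := C.fintypeE
    inferInstanceAs (Fintype (Unit ⊕ A.E ⊕ B.E ⊕ C.E))

/-- The starting point of an edge of the chain `X`, if `X` starts at `x` and its inner vertices
are placed by `i`. -/
def Ch.src : (X : Ch) → {W : Type} → W → (X.V → W) → X.E → W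
  | .edge, _, x, _, _ => x
  | .cons _ _ _, _, x, _, .inl _ => x
  | .cons A _ _, _, _, i, .inr (.inl e) =>
      A.src (i (.inl false)) (fun z => i (.inr (.inl z))) e
  | .cons _ B _, _, _, i, .inr (.inr (.inl e)) =>
      B.src (i (.inl false)) (fun z => i (.inr (.inr (.inl z)))) e
  | .cons _ _ C, _, _, i, .inr (.inr (.inr e)) =>
      C.src (i (.inl true)) (fun z => i (.inr (.inr (.inr z)))) e

/-- The end point of an edge of the chain `X`, if `X` ends at `y` and its inner vertices are
placed by `i`. -/
def Ch.tgt : (X : Ch) → {W : Type} → W → (X.V → W) → X.E → W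
  | .edge, _, y, _, _ => y
  | .cons _ _ _, _, _, i, .inl _ => i (.inl false)
  | .cons A _ _, _, _, i, .inr (.inl e) =>
      A.tgt (i (.inl true)) (fun z => i (.inr (.inl z))) e
  | .cons _ B _, _, _, i, .inr (.inr (.inl e)) =>
      B.tgt (i (.inl true)) (fun z => i (.inr (.inr (.inl z)))) e
  | .cons _ _ C, _, y, i, .inr (.inr (.inr e)) =>
      C.tgt y (fun z => i (.inr (.inr (.inr z)))) e

/-- The first edge of a chain. -/
def Ch.first : (X : Ch) → X.E
  | .edge => ()
  | .cons _ _ _ => .inl ()

/-- The last edge of a chain. -/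
def Ch.last : (X : Ch) → X.E
  | .edge => ()
  | .cons _ _ C => .inr (.inr (.inr C.last))

/-- The number of blocks of a chain (blocks inside of blocks are not counted). -/
def Ch.len : Ch → ℕ
  | .edge => 0
  | .cons _ _ C => C.len + 1

/-- All chains inside of the blocks of a chain have an even number of blocks. -/
def Ch.Good : Ch → Prop
  | .edge => True
  | .cons A B C => A.Good ∧ B.Good ∧ C.Good ∧ Even A.len ∧ Even B.len

/-- The vertices of the cubic multigraph `Θ(A,B,C)`: two vertices which are joined by the three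
chains `A`, `B`, `C`. -/
abbrev TV (A B C : Ch) : Type := Bool ⊕ A.V ⊕ B.V ⊕ C.V

/-- The edges of `Θ(A,B,C)`. -/
abbrev TE (A B C : Ch) : Type := A.E ⊕ B.E ⊕ C.E

/-- The starting points of the edges of `Θ(A,B,C)`. -/
def tsrc (A B C : Ch) {W : Type} (i : TV A B C → W) : TE A B C → W
  | .inl e => A.src (i (.inl false)) (fun z => i (.inr (.inl z))) e
  | .inr (.inl e) => B.src (i (.inl false)) (fun z => i (.inr (.inr (.inl z)))) e
  | .inr (.inr e) => C.src (i (.inl false)) (fun z => i (.inr (.inr (.inr z)))) e

/-- The end points of the edges of `Θ(A,B,C)`. -/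
def ttgt (A B C : Ch) {W : Type} (i : TV A B C → W) : TE A B C → W
  | .inl e => A.tgt (i (.inl true)) (fun z => i (.inr (.inl z))) e
  | .inr (.inl e) => B.tgt (i (.inl true)) (fun z => i (.inr (.inr (.inl z)))) e
  | .inr (.inr e) => C.tgt (i (.inl true)) (fun z => i (.inr (.inr (.inr z)))) e

/-! ### auxiliary notions -/

/-- the geodesic segment from `x` to `y` -/
def Geo (x v : E4) (l : ℝ) (y : E4) : Prop :=
  ‖v‖ = 1 ∧ ⟪x, v⟫ = 0 ∧ 0 < l ∧ arc x v l = y

/-- The velocity at the end of a chain. -/
noncomputable def fin (X : Ch) (x : E4) (p : X.V → E4) (v : X.E → E4) (ℓ : X.E → ℝ) : E4 :=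
  vel (X.src x p X.last) (v X.last) (ℓ X.last)

/-- The local conditions for a chain from `x` to `y`. -/
def Loc : (X : Ch) → (x y : E4) → (X.V → E4) → (X.E → E4) → (X.E → ℝ) → Prop
  | .edge, x, y, _, v, ℓ => Geo x (v ()) (ℓ ()) y
  | .cons A B C, x, y, p, v, ℓ =>
      ‖p (.inl false)‖ = 1 ∧ ‖p (.inl true)‖ = 1 ∧
      Geo x (v (.inl ())) (ℓ (.inl ())) (p (.inl false)) ∧
      Loc A (p (.inl false)) (p (.inl true)) (fun z => p (.inr (.inl z)))
        (fun e => v (.inr (.inl e))) (fun e => ℓ (.inr (.inl e))) ∧
      Loc B (p (.inl false)) (p (.inl true)) (fun z => p (.inr (.inr (.inl z))))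
        (fun e => v (.inr (.inr (.inl e)))) (fun e => ℓ (.inr (.inr (.inl e)))) ∧
      Loc C (p (.inl true)) y (fun z => p (.inr (.inr (.inr z))))
        (fun e => v (.inr (.inr (.inr e)))) (fun e => ℓ (.inr (.inr (.inr e)))) ∧
      vel x (v (.inl ())) (ℓ (.inl ())) = v (.inr (.inl A.first)) + v (.inr (.inr (.inl B.first))) ∧
      v (.inr (.inr (.inr C.first))) =
        fin A (p (.inl false)) (fun z => p (.inr (.inl z)))
          (fun e => v (.inr (.inl e))) (fun e => ℓ (.inr (.inl e))) +
        fin B (p (.inl false)) (fun z => p (.inr (.inr (.inl z))))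
          (fun e => v (.inr (.inr (.inl e)))) (fun e => ℓ (.inr (.inr (.inl e))))

/-- Edges meet at most in their end points (`s e` is the starting point of `e`). -/
def Emb {E : Type} (s v : E → E4) (ℓ : E → ℝ) : Prop :=
  ∀ e f a b, 0 < a → a < ℓ e → 0 ≤ b → b ≤ ℓ f →
    arc (s e) (v e) a = arc (s f) (v f) b → e = f ∧ a = b

/-- The flux (a bivector) of the unit speed geodesic through `x` with velocity `v`. -/
def fl (x v : E4) : Fin 4 → Fin 4 → ℝ := fun i j => x i * v j - x j * v i

/-- the plane spanned by two vectors -/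
def pl (x v : E4) : Submodule ℝ E4 := Submodule.span ℝ {x, v}

end Pool.Agent.H57N
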