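import Pool.Agent.H57N.Stm4

/-!
# Two orthogonal triangles: the graph with two classes of three vertices (helper41)
-/

set_option autoImplicit false
set_option linter.all false

namespace Pool.Agent.H57N

open Real
open scoped RealInnerProductSpace

namespace K33x

/-- first coordinates -/
def A : Fin 6 → ℝ := ![2, -1, -1, 0, 0, 0]
def B : Fin 6 → ℝ := ![0, 1, -1, 0, 0, 0]
def C : Fin 6 → ℝ := ![0, 0, 0, 2, -1, -1]
def D : Fin 6 → ℝ := ![0, 0, 0, 0, 1, -1]

noncomputable def q : ℝ := √3 / 2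

theorem qpos : 0 < q := by unfold q; positivity

theorem qsq : q * q = 3 / 4 := by
  have h : √3 * √3 = 3 := Real.mul_self_sqrt (by norm_num)
  unfold q
  nlinarith

noncomputable def p (i : Fin 6) : E4 := !₂[A i / 2, B i * q, C i / 2, D i * q]

theorem p0 (i : Fin 6) : p i 0 = A i / 2 := by simp [p]
theorem p1 (i : Fin 6) : p i 1 = B i * q := by simp [p]
theorem p2 (i : Fin 6) : p i 2 = C i / 2 := by simp [p]
theorem p3 (i : Fin 6) : p i 3 = D i * q := by simp [p]

theorem innerp (i j : Fin 6) : ⟪p i, p j⟫ =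
    A i * A j / 4 + B i * B j * (3 / 4) + C i * C j / 4 + D i * D j * (3 / 4) := by
  rw [PiLp.inner_apply, Fin.sum_univ_four, p0, p1, p2, p3, p0, p1, p2, p3]
  simp only [RCLike.inner_apply, conj_trivial]
  have h := qsq
  have h1 : B j * q * (B i * q) = B i * B j * (q * q) := by ring
  have h2 : D j * q * (D i * q) = D i * D j * (q * q) := by ring
  rw [h1, h2, h]
  ring

theorem normp (i : Fin 6) : ‖p i‖ = 1 := by
  have h : ‖p i‖ ^ 2 = 1 := by
    rw [← real_inner_self_eq_norm_sq, innerp]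
    fin_cases i <;> simp [A, B, C, D] <;> norm_num
  have h0 := norm_nonneg (p i)
  nlinarith

theorem orth (e : Fin 9) : ⟪p (k33src e), p (k33tgt e)⟫ = 0 := by
  rw [innerp]
  fin_cases e <;> simp [A, B, C, D, k33src, k33tgt]

theorem suma : p 0 + p 1 + p 2 = 0 := by
  ext i
  fin_cases i <;> simp [p, A, B, C, D] <;> norm_num

theorem sumb : p 3 + p 4 + p 5 = 0 := by
  ext i
  fin_cases i <;> simp [p, A, B, C, D] <;> norm_num

theorem coord {i j i' j' : Fin 6} {a b a' b' : ℝ}
    (h : a • p i + b • p j = a' • p i' + b' • p j') :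
    (a * A i + b * A j = a' * A i' + b' * A j') ∧ (a * B i + b * B j = a' * B i' + b' * B j') ∧
    (a * C i + b * C j = a' * C i' + b' * C j') ∧ (a * D i + b * D j = a' * D i' + b' * D j') := by
  have hm : ∀ m : Fin 4, a * p i m + b * p j m = a' * p i' m + b' * p j' m := by
    intro m
    have h4 := congrArg (fun z : E4 => z m) h
    simpa using h4
  have hq := qpos.ne'
  refine ⟨?_, ?_, ?_, ?_⟩
  · have h1 := hm 0
    rw [p0, p0, p0, p0] at h1
    linarith
  · have h1 := hm 1
    rw [p1, p1, p1, p1] at h1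
    refine mul_right_cancel₀ hq ?_
    linarith
  · have h1 := hm 2
    rw [p2, p2, p2, p2] at h1
    linarith
  · have h1 := hm 3
    rw [p3, p3, p3, p3] at h1
    refine mul_right_cancel₀ hq ?_
    linarith

theorem injp : Function.Injective p := by
  intro i j h
  have h0 : (1 : ℝ) • p i + (0 : ℝ) • p i = (1 : ℝ) • p j + (0 : ℝ) • p j := by rw [h]
  obtain ⟨h1, h2, h3, h4⟩ := coord h0
  clear h h0
  fin_cases i <;> fin_cases j <;> simp [A, B, C, D] at h1 h2 h3 h4 ⊢ <;> linarith

theorem arc_eq (e : Fin 9) (t : ℝ) :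
    arc (p (k33src e)) (p (k33tgt e)) t = cos t • p (k33src e) + sin t • p (k33tgt e) := rfl

theorem emb_aux (e f : Fin 9) {a b a' b' : ℝ} (ha : 0 < a) (hb : 0 < b) (ha' : 0 ≤ a')
    (hb' : 0 ≤ b')
    (h : a • p (k33src e) + b • p (k33tgt e) = a' • p (k33src f) + b' • p (k33tgt f)) :
    e = f ∧ a = a' := by
  obtain ⟨h0, h1, h2, h3⟩ := coord h
  clear h
  fin_cases e <;> fin_cases f <;> simp [k33src, k33tgt, A, B, C, D] at h0 h1 h2 h3 ⊢ <;> linarith

theorem anti_aux (e f : Fin 9) {a b a' b' : ℝ} (ha : 0 < a) (hb : 0 < b) (ha' : 0 ≤ a')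
    (hb' : 0 ≤ b')
    (h : a' • p (k33src f) + b' • p (k33tgt f) = (-a) • p (k33src e) + (-b) • p (k33tgt e)) :
    False := by
  obtain ⟨h0, h1, h2, h3⟩ := coord h
  clear h
  fin_cases e <;> fin_cases f <;> simp [k33src, k33tgt, A, B, C, D] at h0 h1 h2 h3 <;> linarith

end K33x

open K33x in
theorem t_K33 : S_K33 := by
  refine ⟨p, fun e => p (k33tgt e), fun _ => π / 2, ⟨normp, fun e => ⟨normp _, orth e⟩,
    fun _ => by positivity, fun e => ?_, fun x => ?_, injp,
    fun e f s t hs hs' ht ht' h => ?_⟩, fun e => ⟨π / 4, by positivity,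
      by linarith [Real.pi_pos], fun f s hs hs' h => ?_⟩⟩
  · change arc (p (k33src e)) (p (k33tgt e)) (π / 2) = p (k33tgt e)
    rw [arc_eq, Real.cos_pi_div_two, Real.sin_pi_div_two, zero_smul, one_smul, zero_add]
  · have hv : ∀ e, vel (p (k33src e)) (p (k33tgt e)) (π / 2) = -p (k33src e) := by
      intro e
      unfold vel
      rw [Real.cos_pi_div_two, Real.sin_pi_div_two, zero_smul, neg_one_smul, add_zero]
    have hs : p 2 = -(p 0 + p 1) := by
      have := suma
      rw [add_comm] at this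
      exact eq_neg_of_add_eq_zero_left this
    have hs' : p 5 = -(p 3 + p 4) := by
      have := sumb
      rw [add_comm] at this
      exact eq_neg_of_add_eq_zero_left this
    simp only [hv]
    rw [Finset.sum_filter, Finset.sum_filter]
    simp only [Fin.sum_univ_succ, Fin.sum_univ_zero]
    fin_cases x <;> simp [k33src, k33tgt, Fin.succ, hs, hs'] <;> module
  · have hs1 : 0 < cos s := Real.cos_pos_of_mem_Ioo ⟨by linarith [Real.pi_pos], hs'⟩
    have hs2 : 0 < sin s := Real.sin_pos_of_pos_of_lt_pi hs (by linarith [Real.pi_pos])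
    have ht1 : 0 ≤ cos t := Real.cos_nonneg_of_mem_Icc ⟨by linarith [Real.pi_pos], ht'⟩
    have ht2 : 0 ≤ sin t := Real.sin_nonneg_of_nonneg_of_le_pi ht (by linarith [Real.pi_pos])
    obtain ⟨h1, h2⟩ := emb_aux e f hs1 hs2 ht1 ht2 h
    exact ⟨h1, Real.injOn_cos ⟨hs.le, by linarith [Real.pi_pos]⟩ ⟨ht, by linarith [Real.pi_pos]⟩ h2⟩
  · have hs1 : 0 < cos (π / 4) := Real.cos_pos_of_mem_Ioo ⟨by linarith [Real.pi_pos], by
      linarith [Real.pi_pos]⟩
    have hs2 : 0 < sin (π / 4) := Real.sin_pos_of_pos_of_lt_pi (by positivity)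
      (by linarith [Real.pi_pos])
    have ht1 : 0 ≤ cos s := Real.cos_nonneg_of_mem_Icc ⟨by linarith [Real.pi_pos], hs'⟩
    have ht2 : 0 ≤ sin s := Real.sin_nonneg_of_nonneg_of_le_pi hs (by linarith [Real.pi_pos])
    refine anti_aux e f hs1 hs2 ht1 ht2 ?_
    rw [neg_smul, neg_smul, ← neg_add]
    exact h

end Pool.Agent.H57N
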