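import Pool.Agent.H57N.Stm4
import Pool.Agent.H57N.GEO

/-!
# A net with an edge longer than a half circle (helper53)
-/

set_option autoImplicit false
set_option linter.all false

namespace Pool.Agent.H57N

open Real
open scoped RealInnerProductSpace

namespace KDx

noncomputable def a : ℝ := (√3)⁻¹
noncomputable def c : ℝ := (√2)⁻¹
noncomputable def d : ℝ := a * c

theorem a_pos : 0 < a := by unfold a; positivity
theorem c_pos : 0 < c := by unfold c; positivity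
theorem d_pos : 0 < d := mul_pos a_pos c_pos

theorem aa : a * a = 1 / 3 := by
  unfold a; rw [← mul_inv, Real.mul_self_sqrt (by norm_num)]; norm_num

theorem cc : c * c = 1 / 2 := by
  unfold c; rw [← mul_inv, Real.mul_self_sqrt (by norm_num)]; norm_num

theorem cd : c * d = a / 2 := by unfold d; linear_combination a * cc
theorem ad : a * d = c / 3 := by unfold d; linear_combination c * aa

theorem dd : d * d = 1 / 6 := by
  have h : d * d = (a * a) * (c * c) := by unfold d; ring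
  rw [h, aa, cc]; norm_num

theorem a_lt : a < 1 := by nlinarith [a_pos, aa]

noncomputable def ψ : ℝ := arccos a

theorem cosψ : cos ψ = a := Real.cos_arccos (by linarith [a_pos]) a_lt.le

theorem sinψ : sin ψ = 2 * d := by
  have h0 : 0 ≤ sin ψ := by unfold ψ; rw [Real.sin_arccos]; exact Real.sqrt_nonneg _
  have h1 : sin ψ ^ 2 = (2 * d) ^ 2 := by
    have := Real.sin_sq_add_cos_sq ψ
    rw [cosψ] at this
    nlinarith [aa, dd]
  exact (sq_eq_sq₀ h0 (by linarith [d_pos])).1 h1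

theorem ψ_pos : 0 < ψ := Real.arccos_pos.2 a_lt
theorem ψ_lt : ψ < π / 2 := Real.arccos_lt_pi_div_two.2 a_pos

noncomputable def L0 : ℝ := π - 2 * ψ
noncomputable def L4 : ℝ := 2 * π - 2 * ψ
noncomputable def L5 : ℝ := π / 2 - ψ

theorem cosL0 : cos L0 = 1 / 3 := by
  unfold L0; rw [Real.cos_pi_sub, Real.cos_two_mul, cosψ]; linarith [aa, sq a]

theorem sinL0 : sin L0 = 4 * c / 3 := by
  unfold L0; rw [Real.sin_pi_sub, Real.sin_two_mul, cosψ, sinψ]; linarith [ad]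

theorem cosL4 : cos L4 = -(1 / 3) := by
  unfold L4; rw [Real.cos_two_pi_sub, Real.cos_two_mul, cosψ]; linarith [aa, sq a]

theorem sinL4 : sin L4 = -(4 * c / 3) := by
  unfold L4; rw [Real.sin_two_pi_sub, Real.sin_two_mul, cosψ, sinψ]; linarith [ad]

theorem cosL5 : cos L5 = 2 * d := by
  unfold L5; rw [Real.cos_pi_div_two_sub, sinψ]

theorem sinL5 : sin L5 = a := by
  unfold L5; rw [Real.sin_pi_div_two_sub, cosψ]

theorem L0_pos : 0 < L0 := by unfold L0; linarith [ψ_lt]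
theorem L0_lt : L0 < π := by unfold L0; linarith [ψ_pos]
theorem L4_pos : 0 < L4 := by unfold L4; linarith [ψ_lt, Real.pi_pos]
theorem L4_lt : L4 < 2 * π := by unfold L4; linarith [ψ_pos]
theorem L5_pos : 0 < L5 := by unfold L5; linarith [ψ_lt]
theorem L5_lt : L5 < π := by unfold L5; linarith [ψ_pos, Real.pi_pos]

noncomputable def pc : Fin 6 → Fin 4 → ℝ :=
  ![![a, a, a, 0], ![a, -a, -a, 0], ![a, -a, a, 0], ![a, a, -a, 0], ![0, c, c, 0], ![0, -c, -c, 0]]

noncomputable def vc : Fin 9 → Fin 4 → ℝ :=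
  ![![d, -(2 * d), d, 0], ![d, d, -(2 * d), 0], ![d, -d, 2 * d, 0], ![d, 2 * d, -d, 0],
    ![-(2 * d), -d, d, 0], ![-(2 * d), d, d, 0], ![-(1 / 2), 0, 0, 3 * a / 2],
    ![-(1 / 2), 0, 0, -(3 * a / 2)], ![1, 0, 0, 0]]

noncomputable def ℓ : Fin 9 → ℝ := ![L0, L0, L0, L0, L4, L5, π, π, L5]

noncomputable def p (x : Fin 6) : E4 := WithLp.toLp 2 (pc x)
noncomputable def v (e : Fin 9) : E4 := WithLp.toLp 2 (vc e)

theorem p_apply (x : Fin 6) (i : Fin 4) : p x i = pc x i := rfl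
theorem v_apply (e : Fin 9) (i : Fin 4) : v e i = vc e i := rfl

theorem in4 (x y : E4) : ⟪x, y⟫ = x 0 * y 0 + x 1 * y 1 + x 2 * y 2 + x 3 * y 3 := by
  simp [PiLp.inner_apply, Fin.sum_univ_four]
  ring

theorem norm_one {x : E4} (h : x 0 * x 0 + x 1 * x 1 + x 2 * x 2 + x 3 * x 3 = 1) : ‖x‖ = 1 := by
  have h1 : ‖x‖ ^ 2 = 1 := by rw [← real_inner_self_eq_norm_sq, in4, h]
  have h0 := norm_nonneg x
  nlinarith

theorem arc_apply (x w : E4) (t : ℝ) (i : Fin 4) : arc x w t i = cos t * x i + sin t * w i := by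
  simp [arc]

theorem vel_apply (x w : E4) (t : ℝ) (i : Fin 4) : vel x w t i = -sin t * x i + cos t * w i := by
  simp [vel]

theorem unit (x : Fin 6) : ‖p x‖ = 1 := by
  apply norm_one
  simp only [p_apply]
  fin_cases x <;> simp [pc] <;> linarith [aa, cc]

theorem start (e : Fin 9) : ‖v e‖ = 1 ∧ ⟪p (kdsrc e), v e⟫ = 0 := by
  constructor
  · apply norm_one
    simp only [v_apply]
    fin_cases e <;> simp [vc] <;> linarith [aa, cc, dd]
  · rw [in4]
    simp only [v_apply, p_apply]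
    fin_cases e <;> simp [vc, pc, kdsrc] <;> linarith [aa, cc, dd]

theorem pos (e : Fin 9) : 0 < ℓ e := by
  fin_cases e <;> simp [ℓ] <;> linarith [L0_pos, L4_pos, L5_pos, Real.pi_pos]

theorem lt (e : Fin 9) : ℓ e < 2 * π := by
  fin_cases e <;> simp [ℓ] <;> linarith [L0_lt, L4_lt, L5_lt, Real.pi_pos]

theorem finish (e : Fin 9) : arc (p (kdsrc e)) (v e) (ℓ e) = p (kdtgt e) := by
  ext i
  rw [arc_apply, p_apply, p_apply, v_apply]
  fin_cases e <;> fin_cases i <;>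
    simp [vc, pc, kdsrc, kdtgt, ℓ, cosL0, sinL0, cosL4, sinL4, cosL5, sinL5] <;>
    linarith [aa, cc, dd, cd, ad]

theorem inj : Function.Injective p := by
  intro x y h
  have h0 : pc x 0 = pc y 0 := by rw [← p_apply, ← p_apply, h]
  have h1 : pc x 1 = pc y 1 := by rw [← p_apply, ← p_apply, h]
  have h2 : pc x 2 = pc y 2 := by rw [← p_apply, ← p_apply, h]
  have ha := a_pos
  have hc := c_pos
  fin_cases x <;> fin_cases y <;> simp [pc] at h0 h1 h2 ⊢ <;> linarith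

theorem sum9 (f : Fin 9 → E4) : ∑ e, f e =
    f 0 + f 1 + f 2 + f 3 + f 4 + f 5 + f 6 + f 7 + f 8 := by
  rw [Fin.sum_univ_succ, Fin.sum_univ_eight]
  simp only [← add_assoc]
  rfl

/-- interior points -/
def IntR (X : Fin 4 → ℝ) : Fin 9 → Prop :=
  ![X 3 = 0 ∧ X 0 = X 2 ∧ -X 0 < X 1 ∧ X 1 < X 0,
    X 3 = 0 ∧ X 0 = X 1 ∧ -X 0 < X 2 ∧ X 2 < X 0,
    X 3 = 0 ∧ X 0 = -X 1 ∧ -X 0 < X 2 ∧ X 2 < X 0,
    X 3 = 0 ∧ X 0 = -X 2 ∧ -X 0 < X 1 ∧ X 1 < X 0,
    X 3 = 0 ∧ X 1 = -X 2 ∧ X 0 < a ∧ X 0 * X 0 + X 1 * X 1 + X 2 * X 2 = 1,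
    X 3 = 0 ∧ X 1 = X 2 ∧ 0 < X 0 ∧ X 0 < X 1,
    X 1 = X 2 ∧ 3 * a * X 0 = -X 3 ∧ 0 < X 3 ∧ True,
    X 1 = X 2 ∧ 3 * a * X 0 = X 3 ∧ X 3 < 0 ∧ True,
    X 3 = 0 ∧ X 1 = X 2 ∧ 0 < X 0 ∧ X 0 < -X 1]

/-- points of the closed edges -/
def ClR (X : Fin 4 → ℝ) : Fin 9 → Prop :=
  ![X 3 = 0 ∧ X 0 = X 2 ∧ -X 0 ≤ X 1 ∧ X 1 ≤ X 0,
    X 3 = 0 ∧ X 0 = X 1 ∧ -X 0 ≤ X 2 ∧ X 2 ≤ X 0,
    X 3 = 0 ∧ X 0 = -X 1 ∧ -X 0 ≤ X 2 ∧ X 2 ≤ X 0,
    X 3 = 0 ∧ X 0 = -X 2 ∧ -X 0 ≤ X 1 ∧ X 1 ≤ X 0,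
    X 3 = 0 ∧ X 1 = -X 2 ∧ True ∧ True,
    X 3 = 0 ∧ X 1 = X 2 ∧ 0 ≤ X 0 ∧ X 0 ≤ X 1,
    X 1 = X 2 ∧ 3 * a * X 0 = -X 3 ∧ 0 ≤ X 3 ∧ True,
    X 1 = X 2 ∧ 3 * a * X 0 = X 3 ∧ X 3 ≤ 0 ∧ True,
    X 3 = 0 ∧ X 1 = X 2 ∧ 0 ≤ X 0 ∧ X 0 ≤ -X 1]

theorem a0 {x w : ℝ} (h : 3 * a * x = w) (hw : w = 0) : x = 0 := by
  have := a_pos
  rw [hw] at h
  rcases mul_eq_zero.1 h with h1 | h1
  · linarith
  · exact h1

theorem sep (X : Fin 4 → ℝ) (e f : Fin 9) (h1 : IntR X e) (h2 : ClR X f) : e = f := by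
  have ha := a_pos
  have haa := aa
  fin_cases e <;> fin_cases f <;> first
    | rfl
    | (exfalso
       simp only [IntR, ClR, Fin.isValue, Matrix.cons_val, Fin.zero_eta, Fin.mk_one, Fin.reduceFinMk] at h1 h2
       obtain ⟨q1, q2, q3, q4⟩ := h1
       obtain ⟨r1, r2, r3, r4⟩ := h2
       first
         | linarith
         | (have t1 := a0 r2 (by linarith); first | linarith | nlinarith)
         | (have t1 := a0 q2 (by linarith); first | linarith | nlinarith)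
         | nlinarith)

theorem short_coord {x w q : E4} {l : ℝ} (hl : sin l ≠ 0) (h : arc x w l = q) (s : ℝ) (i : Fin 4) :
    arc x w s i = sin (l - s) / sin l * x i + sin s / sin l * q i := by
  subst h
  rw [arc_apply, arc_apply, Real.sin_sub]
  field_simp
  ring

theorem int_short (X : Fin 4 → ℝ) (A B : ℝ) (hA : 0 < A) (hB : 0 < B) (e : Fin 9)
    (he : e = 0 ∨ e = 1 ∨ e = 2 ∨ e = 3 ∨ e = 5 ∨ e = 8)
    (H : ∀ i, X i = A * pc (kdsrc e) i + B * pc (kdtgt e) i) : IntR X e := by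
  have h0 := H 0
  have h1 := H 1
  have h2 := H 2
  have h3 := H 3
  have m1 := mul_pos hA a_pos
  have m2 := mul_pos hB a_pos
  have m3 := mul_pos hA c_pos
  have m4 := mul_pos hB c_pos
  rcases he with rfl | rfl | rfl | rfl | rfl | rfl <;>
    simp only [IntR, pc, kdsrc, kdtgt, Fin.isValue, Matrix.cons_val] at h0 h1 h2 h3 ⊢ <;>
    refine ⟨?_, ?_, ?_, ?_⟩ <;> linarith

theorem cl_short (X : Fin 4 → ℝ) (A B : ℝ) (hA : 0 ≤ A) (hB : 0 ≤ B) (e : Fin 9)
    (he : e = 0 ∨ e = 1 ∨ e = 2 ∨ e = 3 ∨ e = 5 ∨ e = 8)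
    (H : ∀ i, X i = A * pc (kdsrc e) i + B * pc (kdtgt e) i) : ClR X e := by
  have h0 := H 0
  have h1 := H 1
  have h2 := H 2
  have h3 := H 3
  have m1 := mul_nonneg hA a_pos.le
  have m2 := mul_nonneg hB a_pos.le
  have m3 := mul_nonneg hA c_pos.le
  have m4 := mul_nonneg hB c_pos.le
  rcases he with rfl | rfl | rfl | rfl | rfl | rfl <;>
    simp only [ClR, pc, kdsrc, kdtgt, Fin.isValue, Matrix.cons_val] at h0 h1 h2 h3 ⊢ <;>
    refine ⟨?_, ?_, ?_, ?_⟩ <;> linarith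

theorem cases9 (e : Fin 9) : (e = 0 ∨ e = 1 ∨ e = 2 ∨ e = 3 ∨ e = 5 ∨ e = 8) ∨ e = 4 ∨ e = 6 ∨ e = 7 := by
  fin_cases e <;> simp

theorem short_lt {e : Fin 9} (he : e = 0 ∨ e = 1 ∨ e = 2 ∨ e = 3 ∨ e = 5 ∨ e = 8) : ℓ e < π := by
  rcases he with rfl | rfl | rfl | rfl | rfl | rfl <;> simp [ℓ] <;>
    linarith [L0_lt, L5_lt]

theorem intR (e : Fin 9) (s : ℝ) (h0 : 0 < s) (h1 : s < ℓ e) :
    IntR (fun i => arc (p (kdsrc e)) (v e) s i) e := by
  rcases cases9 e with he | rfl | rfl | rfl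
  · have hl : 0 < sin (ℓ e) := Real.sin_pos_of_pos_of_lt_pi (pos e) (short_lt he)
    refine int_short _ (sin (ℓ e - s) / sin (ℓ e)) (sin s / sin (ℓ e)) ?_ ?_ e he
      fun i => short_coord hl.ne' (finish e) s i
    · exact div_pos (Real.sin_pos_of_pos_of_lt_pi (by linarith) (by linarith [short_lt he])) hl
    · exact div_pos (Real.sin_pos_of_pos_of_lt_pi h0 (by linarith [short_lt he])) hl
  · have h1' : s < 2 * π - 2 * ψ := h1
    have hx : cos s * a + sin s * -(2 * d) = cos (s + ψ) := by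
      rw [Real.cos_add, cosψ, sinψ]; ring
    have hlt : cos (s + ψ) < a := by
      have h2 := Real.cos_sub_cos ψ (s + ψ)
      have e1 : (ψ + (s + ψ)) / 2 = ψ + s / 2 := by ring
      have e2 : (ψ - (s + ψ)) / 2 = -(s / 2) := by ring
      rw [e1, e2, Real.sin_neg, cosψ] at h2
      have h3 : 0 < sin (ψ + s / 2) :=
        Real.sin_pos_of_pos_of_lt_pi (by linarith [ψ_pos]) (by linarith)
      have h4 : 0 < sin (s / 2) :=
        Real.sin_pos_of_pos_of_lt_pi (by linarith) (by linarith [ψ_pos])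
      nlinarith [mul_pos h3 h4]
    have hsc := Real.sin_sq_add_cos_sq s
    simp only [IntR, arc_apply, p_apply, v_apply, pc, vc, kdsrc, Fin.isValue, Matrix.cons_val]
    refine ⟨by ring, by ring, ?_, ?_⟩
    · rw [hx]; exact hlt
    · linear_combination 3 * cos s ^ 2 * aa + 6 * sin s ^ 2 * dd + hsc
  · have hs : 0 < sin s := Real.sin_pos_of_pos_of_lt_pi h0 h1
    have := mul_pos hs a_pos
    simp only [IntR, arc_apply, p_apply, v_apply, pc, vc, kdsrc, Fin.isValue, Matrix.cons_val]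
    refine ⟨by first | trivial | ring, by first | trivial | ring, by linarith, trivial⟩
  · have hs : 0 < sin s := Real.sin_pos_of_pos_of_lt_pi h0 h1
    have := mul_pos hs a_pos
    simp only [IntR, arc_apply, p_apply, v_apply, pc, vc, kdsrc, Fin.isValue, Matrix.cons_val]
    refine ⟨by first | trivial | ring, by first | trivial | ring, by linarith, trivial⟩

theorem clR (e : Fin 9) (s : ℝ) (h0 : 0 ≤ s) (h1 : s ≤ ℓ e) :
    ClR (fun i => arc (p (kdsrc e)) (v e) s i) e := by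
  rcases cases9 e with he | rfl | rfl | rfl
  · have hl : 0 < sin (ℓ e) := Real.sin_pos_of_pos_of_lt_pi (pos e) (short_lt he)
    refine cl_short _ (sin (ℓ e - s) / sin (ℓ e)) (sin s / sin (ℓ e)) ?_ ?_ e he
      fun i => short_coord hl.ne' (finish e) s i
    · exact div_nonneg (Real.sin_nonneg_of_nonneg_of_le_pi (by linarith)
        (by linarith [short_lt he])) hl.le
    · exact div_nonneg (Real.sin_nonneg_of_nonneg_of_le_pi h0 (by linarith [short_lt he])) hl.le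
  · simp only [ClR, arc_apply, p_apply, v_apply, pc, vc, kdsrc, Fin.isValue, Matrix.cons_val]
    exact ⟨by ring, by ring, trivial, trivial⟩
  · have hs : 0 ≤ sin s := Real.sin_nonneg_of_nonneg_of_le_pi h0 h1
    have := mul_nonneg hs a_pos.le
    simp only [ClR, arc_apply, p_apply, v_apply, pc, vc, kdsrc, Fin.isValue, Matrix.cons_val]
    refine ⟨by first | trivial | ring, by first | trivial | ring, by linarith, trivial⟩
  · have hs : 0 ≤ sin s := Real.sin_nonneg_of_nonneg_of_le_pi h0 h1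
    have := mul_nonneg hs a_pos.le
    simp only [ClR, arc_apply, p_apply, v_apply, pc, vc, kdsrc, Fin.isValue, Matrix.cons_val]
    refine ⟨by first | trivial | ring, by first | trivial | ring, by linarith, trivial⟩

theorem same {x w : E4} (hx : ‖x‖ = 1) (hw : ‖w‖ = 1) (h : ⟪x, w⟫ = 0) {s t L : ℝ} (h0 : 0 < s)
    (h1 : s < L) (h2 : 0 ≤ t) (h3 : t ≤ L) (hL : L < 2 * π) (he : arc x w s = arc x w t) :
    s = t := by
  obtain ⟨e1, e2⟩ := comb_inj hx hw h he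
  have h4 : cos (s - t) = 1 := by
    rw [Real.cos_sub, e1, e2]
    have := Real.sin_sq_add_cos_sq t
    nlinarith
  have h5 := (Real.cos_eq_one_iff_of_lt_of_lt (by linarith) (by linarith)).1 h4
  linarith

end KDx

open KDx in
theorem t_KD : S_KD := by
  refine ⟨p, v, ℓ, unit, start, pos, finish, ?_, inj, ?_⟩
  · intro x
    rw [Finset.sum_filter, Finset.sum_filter, sum9, sum9]
    ext i
    fin_cases x <;> fin_cases i <;>
      simp [kdsrc, kdtgt, vel_apply, v_apply, p_apply, vc, pc, ℓ, cosL0, sinL0, cosL4, sinL4, cosL5,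
        sinL5] <;>
      linarith [aa, cc, dd, cd, ad, show d = a * c from rfl]
  · intro e f s t hs hs' ht ht' h
    have h1 := intR e s hs hs'
    rw [h] at h1
    have h2 := sep _ e f h1 (clR f t ht ht')
    subst h2
    exact ⟨rfl, same (unit _) (start _).1 (start _).2 hs hs' ht ht' (lt e) h⟩

end Pool.Agent.H57N
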