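import Pool.Agent.H57N.Stm4

/-!
# The triangular prism (helper52)
-/

set_option autoImplicit false
set_option linter.all false

namespace Pool.Agent.H57N

open Real
open scoped RealInnerProductSpace

namespace Prism

noncomputable def AX : Fin 6 → ℝ := ![2, -1, -1, 2, -1, -1]
noncomputable def AY : Fin 6 → ℝ := ![0, 1, -1, 0, 1, -1]
noncomputable def AZ : Fin 6 → ℝ := ![1, 1, 1, -1, -1, -1]

noncomputable def al : ℝ := √2 / 3
noncomputable def be : ℝ := √6 / 3

theorem alsq : al * al = 2 / 9 := by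
  unfold al
  have := Real.mul_self_sqrt (show (0 : ℝ) ≤ 2 by norm_num)
  linear_combination this / 9

theorem besq : be * be = 2 / 3 := by
  unfold be
  have := Real.mul_self_sqrt (show (0 : ℝ) ≤ 6 by norm_num)
  linear_combination this / 9

theorem al_ne : al ≠ 0 := by
  intro h
  have := alsq
  rw [h] at this
  norm_num at this

theorem be_ne : be ≠ 0 := by
  intro h
  have := besq
  rw [h] at this
  norm_num at this

noncomputable def p (i : Fin 6) : E4 := !₂[al * AX i, be * AY i, AZ i / 3, 0]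

theorem innerp (i j : Fin 6) :
    ⟪p i, p j⟫ = 2 / 9 * (AX i * AX j) + 2 / 3 * (AY i * AY j) + AZ i * AZ j / 9 := by
  have h1 := alsq
  have h2 := besq
  have h : ⟪p i, p j⟫ = (al * AX j) * (al * AX i) + (be * AY j) * (be * AY i) +
      (AZ j / 3) * (AZ i / 3) := by
    simp [p, PiLp.inner_apply, Fin.sum_univ_four]
  rw [h]
  linear_combination (AX i * AX j) * h1 + (AY i * AY j) * h2

theorem innerpp (i : Fin 6) : ⟪p i, p i⟫ = 1 := by
  rw [innerp]
  fin_cases i <;> simp [AX, AY, AZ] <;> norm_num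

theorem normp (i : Fin 6) : ‖p i‖ = 1 := by
  have h : ‖p i‖ ^ 2 = 1 := by
    rw [← real_inner_self_eq_norm_sq, innerpp]
  have h0 := norm_nonneg (p i)
  nlinarith

theorem injp : Function.Injective p := by
  intro i j h
  have h1 : ⟪p i, p j⟫ = 1 := by rw [← h, innerpp]
  rw [innerp] at h1
  fin_cases i <;> fin_cases j <;> first | rfl | (exfalso; simp [AX, AY, AZ] at h1; norm_num at h1)

/-- the cosines of the lengths -/
noncomputable def c (e : Fin 9) : ℝ := if (e : ℕ) < 6 then -1 / 3 else 7 / 9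

noncomputable def l (e : Fin 9) : ℝ := Real.arccos (c e)

theorem c_gt (e : Fin 9) : -1 < c e := by unfold c; split_ifs <;> norm_num
theorem c_lt (e : Fin 9) : c e < 1 := by unfold c; split_ifs <;> norm_num

theorem cosl (e : Fin 9) : cos (l e) = c e := Real.cos_arccos (c_gt e).le (c_lt e).le

theorem l_pos (e : Fin 9) : 0 < l e := Real.arccos_pos.2 (c_lt e)

theorem l_lt (e : Fin 9) : l e < π := by
  refine lt_of_le_of_ne (Real.arccos_le_pi _) ?_
  intro h
  have h1 := cosl e
  have h2 : l e = π := h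
  rw [h2, Real.cos_pi] at h1
  linarith [c_gt e]

noncomputable def sn (e : Fin 9) : ℝ := sin (l e)

theorem sn_pos (e : Fin 9) : 0 < sn e := Real.sin_pos_of_pos_of_lt_pi (l_pos e) (l_lt e)

theorem sn_sq (e : Fin 9) : sn e * sn e = 1 - c e * c e := by
  have := Real.sin_sq_add_cos_sq (l e)
  rw [cosl] at this
  unfold sn
  linear_combination this

theorem inner_st (e : Fin 9) : ⟪p (prsrc e), p (prtgt e)⟫ = c e := by
  rw [innerp]
  fin_cases e <;> simp [AX, AY, AZ, c, prsrc, prtgt] <;> norm_num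

noncomputable def v (e : Fin 9) : E4 := (sn e)⁻¹ • (p (prtgt e) - c e • p (prsrc e))

/-- the coefficients -/
noncomputable def ca (e : Fin 9) (t : ℝ) : ℝ := sin (l e - t) / sn e
noncomputable def cb (e : Fin 9) (t : ℝ) : ℝ := sin t / sn e

theorem arc_eq (e : Fin 9) (t : ℝ) :
    arc (p (prsrc e)) (v e) t = ca e t • p (prsrc e) + cb e t • p (prtgt e) := by
  have h : ca e t = cos t - sin t * (sn e)⁻¹ * c e := by
    unfold ca
    rw [Real.sin_sub, cosl]
    have := (sn_pos e).ne'
    change (sn e * cos t - c e * sin t) / sn e = _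
    field_simp
  rw [h]
  unfold arc v cb
  rw [div_eq_mul_inv]
  module

theorem ca_pos {e : Fin 9} {t : ℝ} (h0 : 0 ≤ t) (h : t < l e) : 0 < ca e t :=
  div_pos (Real.sin_pos_of_pos_of_lt_pi (by linarith) (by linarith [l_lt e])) (sn_pos e)

theorem ca_nonneg {e : Fin 9} {t : ℝ} (h0 : 0 ≤ t) (h : t ≤ l e) : 0 ≤ ca e t :=
  div_nonneg (Real.sin_nonneg_of_nonneg_of_le_pi (by linarith) (by linarith [l_lt e])) (sn_pos e).le

theorem cb_pos {e : Fin 9} {t : ℝ} (h0 : 0 < t) (h : t ≤ l e) : 0 < cb e t :=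
  div_pos (Real.sin_pos_of_pos_of_lt_pi h0 (by linarith [l_lt e])) (sn_pos e)

theorem cb_nonneg {e : Fin 9} {t : ℝ} (h0 : 0 ≤ t) (h : t ≤ l e) : 0 ≤ cb e t :=
  div_nonneg (Real.sin_nonneg_of_nonneg_of_le_pi h0 (by linarith [l_lt e])) (sn_pos e).le

/-- the coordinates -/
theorem coord {i j i' j' : Fin 6} {a b a' b' : ℝ}
    (h : a • p i + b • p j = a' • p i' + b' • p j') :
    a * AX i + b * AX j = a' * AX i' + b' * AX j' ∧
      a * AY i + b * AY j = a' * AY i' + b' * AY j' ∧
      a * AZ i + b * AZ j = a' * AZ i' + b' * AZ j' := by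
  have h0 := congrArg (fun z : E4 => z 0) h
  have h1 := congrArg (fun z : E4 => z 1) h
  have h2 := congrArg (fun z : E4 => z 2) h
  simp [p] at h0 h1 h2
  refine ⟨?_, ?_, ?_⟩
  · apply mul_left_cancel₀ al_ne
    linear_combination h0
  · apply mul_left_cancel₀ be_ne
    linear_combination h1
  · linear_combination 3 * h2

theorem emb_aux (e f : Fin 9) {a b a' b' : ℝ} (ha : 0 < a) (hb : 0 < b) (ha' : 0 ≤ a')
    (hb' : 0 ≤ b')
    (h : a • p (prsrc e) + b • p (prtgt e) = a' • p (prsrc f) + b' • p (prtgt f)) :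
    e = f ∧ a = a' ∧ b = b' := by
  obtain ⟨h0, h1, h2⟩ := coord h
  clear h
  fin_cases e <;> fin_cases f <;> simp [prsrc, prtgt, AX, AY, AZ] at h0 h1 h2 ⊢ <;>
    first
      | (constructor <;> linarith)
      | linarith

theorem anti_aux (e f : Fin 9) {a b a' b' : ℝ} (hb : 0 < b)
    (hab : ((e : ℕ) < 6 → b < a ∧ a < 2 * b) ∧ (¬ (e : ℕ) < 6 → a = b)) (ha' : 0 ≤ a')
    (hb' : 0 ≤ b')
    (h : a' • p (prsrc f) + b' • p (prtgt f) = (-a) • p (prsrc e) + (-b) • p (prtgt e)) :
    False := by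
  obtain ⟨h0, h1, h2⟩ := coord h
  clear h
  obtain ⟨g1, g2⟩ := hab
  fin_cases e
  all_goals
    simp at g1 g2
    fin_cases f <;> simp [prsrc, prtgt, AX, AY, AZ] at h0 h1 h2 <;> linarith

theorem sn_lt (e : Fin 9) (he : (e : ℕ) < 6) : sn e = sn 0 := by
  have h1 := sn_sq e
  have h2 := sn_sq 0
  have h3 := sn_pos e
  have h4 := sn_pos 0
  have hc : c e = c 0 := by unfold c; rw [if_pos he, if_pos (by norm_num)]
  rw [hc] at h1
  have h5 : (sn e - sn 0) * (sn e + sn 0) = 0 := by linear_combination h1 - h2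
  rcases mul_eq_zero.1 h5 with h | h
  · linarith
  · linarith

theorem sn_ge (e : Fin 9) (he : ¬ (e : ℕ) < 6) : sn e = 2 / 3 * sn 0 := by
  have h1 := sn_sq e
  have h2 := sn_sq 0
  have h3 := sn_pos e
  have h4 := sn_pos 0
  have hc : c e = 7 / 9 := by unfold c; rw [if_neg he]
  have hc0 : c 0 = -1 / 3 := by unfold c; rw [if_pos (by norm_num)]
  rw [hc] at h1
  rw [hc0] at h2
  have h5 : (sn e - 2 / 3 * sn 0) * (sn e + 2 / 3 * sn 0) = 0 := by
    linear_combination h1 - 4 / 9 * h2
  rcases mul_eq_zero.1 h5 with h | h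
  · linarith
  · linarith

theorem v_eq (e : Fin 9) : v e = if (e : ℕ) < 6 then
    (sn 0)⁻¹ • (p (prtgt e) + (1 / 3 : ℝ) • p (prsrc e)) else
    (sn 0)⁻¹ • ((3 / 2 : ℝ) • p (prtgt e) - (7 / 6 : ℝ) • p (prsrc e)) := by
  unfold v
  split_ifs with he
  · rw [sn_lt e he]
    have hc : c e = -1 / 3 := by unfold c; rw [if_pos he]
    rw [hc]
    module
  · rw [sn_ge e he]
    have hc : c e = 7 / 9 := by unfold c; rw [if_neg he]
    rw [hc, mul_inv]
    module

theorem vel_eq (e : Fin 9) : vel (p (prsrc e)) (v e) (l e) = if (e : ℕ) < 6 then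
    (sn 0)⁻¹ • ((-1 / 3 : ℝ) • p (prtgt e) - p (prsrc e)) else
    (sn 0)⁻¹ • ((7 / 6 : ℝ) • p (prtgt e) - (3 / 2 : ℝ) • p (prsrc e)) := by
  have h0 : vel (p (prsrc e)) (v e) (l e) =
      (sn e)⁻¹ • (c e • p (prtgt e) - p (prsrc e)) := by
    unfold vel v
    rw [cosl]
    have e1 : -sin (l e) = (sn e)⁻¹ * (c e * c e - 1) := by
      have h1 := sn_sq e
      have h2 := (sn_pos e).ne'
      change -sn e = _
      field_simp
      linear_combination -h1
    rw [e1]
    module
  rw [h0]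
  split_ifs with he
  · rw [sn_lt e he]
    have hc : c e = -1 / 3 := by unfold c; rw [if_pos he]
    rw [hc]
  · rw [sn_ge e he]
    have hc : c e = 7 / 9 := by unfold c; rw [if_neg he]
    rw [hc, mul_inv]
    module

theorem p3 : p 3 = (1 / 3 : ℝ) • p 0 - (2 / 3 : ℝ) • p 1 - (2 / 3 : ℝ) • p 2 := by
  ext i
  fin_cases i <;> simp [p, AX, AY, AZ] <;> ring

theorem p4 : p 4 = (1 / 3 : ℝ) • p 1 - (2 / 3 : ℝ) • p 0 - (2 / 3 : ℝ) • p 2 := by
  ext i
  fin_cases i <;> simp [p, AX, AY, AZ] <;> ring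

theorem p5 : p 5 = (1 / 3 : ℝ) • p 2 - (2 / 3 : ℝ) • p 0 - (2 / 3 : ℝ) • p 1 := by
  ext i
  fin_cases i <;> simp [p, AX, AY, AZ] <;> ring

theorem sum9 (f : Fin 9 → E4) : ∑ i, f i =
    f 0 + f 1 + f 2 + f 3 + f 4 + f 5 + f 6 + f 7 + f 8 := by
  rw [Fin.sum_univ_castSucc, Fin.sum_univ_eight]
  rfl

theorem bal (x : Fin 6) : (∑ e, if prsrc e = x then v e else 0) =
    ∑ e, if prtgt e = x then vel (p (prsrc e)) (v e) (l e) else 0 := by
  rw [sum9, sum9]
  simp only [vel_eq]
  simp only [v_eq]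
  fin_cases x <;> simp [prsrc, prtgt, p3, p4, p5] <;> module

theorem anti (e : Fin 9) : ∃ t, 0 < t ∧ t < l e ∧ ∀ f s, 0 ≤ s → s ≤ l f →
    arc (p (prsrc f)) (v f) s ≠ -arc (p (prsrc e)) (v e) t := by
  by_cases he : (e : ℕ) < 6
  · have hc : c e = -1 / 3 := by unfold c; rw [if_pos he]
    have hl : π / 2 < l e := by
      by_contra h
      have h1 := Real.cos_nonneg_of_neg_pi_div_two_le_of_le
        (by linarith [Real.pi_pos, l_pos e]) (not_lt.1 h)
      rw [cosl, hc] at h1
      norm_num at h1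
    have ht : π / 4 < l e := by linarith [Real.pi_pos]
    refine ⟨π / 4, by positivity, ht, fun f s hs hs' h => ?_⟩
    rw [arc_eq, arc_eq, neg_add, ← neg_smul, ← neg_smul] at h
    have hsq : (0 : ℝ) < √2 / 2 := by positivity
    have h1 := sn_sq e
    have h2 := sn_pos e
    rw [hc] at h1
    have ha : ca e (π / 4) = √2 / 2 * (sn e + 1 / 3) / sn e := by
      unfold ca
      rw [Real.sin_sub, cosl, hc, Real.cos_pi_div_four, Real.sin_pi_div_four]
      change (sn e * (√2 / 2) - -1 / 3 * (√2 / 2)) / sn e = _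
      ring
    have hb : cb e (π / 4) = √2 / 2 / sn e := by
      unfold cb
      rw [Real.sin_pi_div_four]
    refine anti_aux e f (cb_pos (by positivity) ht.le) ⟨fun _ => ⟨?_, ?_⟩, fun h' => absurd he h'⟩
      (ca_nonneg hs hs') (cb_nonneg hs hs') h
    · rw [ha, hb]
      apply div_lt_div_of_pos_right _ h2
      have h3 : 2 / 3 < sn e := by nlinarith
      nlinarith
    · rw [ha, hb, ← mul_div_assoc]
      apply div_lt_div_of_pos_right _ h2
      have h3 : sn e < 5 / 3 := by nlinarith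
      nlinarith
  · refine ⟨l e / 2, by linarith [l_pos e], by linarith [l_pos e], fun f s hs hs' h => ?_⟩
    rw [arc_eq, arc_eq, neg_add, ← neg_smul, ← neg_smul] at h
    refine anti_aux e f (cb_pos (by linarith [l_pos e]) (by linarith [l_pos e]))
      ⟨fun h' => absurd h' he, fun _ => ?_⟩ (ca_nonneg hs hs') (cb_nonneg hs hs') h
    unfold ca cb
    rw [show l e - l e / 2 = l e / 2 by ring]

end Prism

open Prism in
theorem t_PRISM : S_PRISM := by
  refine ⟨p, v, l, ⟨normp, fun e => ⟨?_, ?_⟩, l_pos, fun e => ?_, fun x => ?_, injp,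
    fun e f s t hs hs' ht ht' h => ?_⟩, fun e => ?_⟩
  · have h : ‖v e‖ ^ 2 = 1 := by
      rw [← real_inner_self_eq_norm_sq]
      unfold v
      rw [real_inner_smul_left, real_inner_smul_right, inner_sub_left, inner_sub_right,
        inner_sub_right, real_inner_smul_left, real_inner_smul_right, real_inner_smul_left,
        real_inner_smul_right, innerpp, innerpp, inner_st, real_inner_comm, inner_st]
      have h1 := sn_sq e
      have h2 := (sn_pos e).ne'
      field_simp
      linear_combination -h1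
    have h0 := norm_nonneg (v e)
    nlinarith
  · unfold v
    rw [real_inner_smul_right, inner_sub_right, real_inner_smul_right, innerpp, inner_st]
    ring
  · rw [arc_eq]
    have h1 : ca e (l e) = 0 := by unfold ca; rw [sub_self, Real.sin_zero, zero_div]
    have h2 : cb e (l e) = 1 := by
      unfold cb
      exact div_self (sn_pos e).ne'
    rw [h1, h2, zero_smul, one_smul, zero_add]
  · rw [Finset.sum_filter, Finset.sum_filter]
    refine Eq.trans (Finset.sum_congr rfl fun e _ => ?_)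
      (Eq.trans (bal x) (Finset.sum_congr rfl fun e _ => ?_))
    · split_ifs <;> rfl
    · split_ifs <;> rfl
  · rw [arc_eq, arc_eq] at h
    obtain ⟨h1, h2, h3⟩ := emb_aux e f (ca_pos hs.le hs') (cb_pos hs hs'.le) (ca_nonneg ht ht')
      (cb_nonneg ht ht') h
    subst h1
    refine ⟨rfl, ?_⟩
    have hne := (sn_pos e).ne'
    have h4 : sin s = sin t := by
      unfold cb at h3
      exact (div_left_inj' hne).1 h3
    have h5 : cos s = cos t := by
      unfold ca at h2
      have h6 := (div_left_inj' hne).1 h2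
      rw [Real.sin_sub, Real.sin_sub, h4] at h6
      have h7 : sin (l e) * (cos s - cos t) = 0 := by linear_combination h6
      rcases mul_eq_zero.1 h7 with h8 | h8
      · exact absurd h8 hne
      · linarith
    exact Real.injOn_cos ⟨hs.le, by linarith [l_lt e]⟩ ⟨ht, by linarith [l_lt e]⟩ h5
  · exact anti e

end Pool.Agent.H57N
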