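import Pool.Agent.H57N.Defs

/-!
PROJECT GN57 (helper57), MP_a226eb_gt: which series-parallel cubic multigraphs carry a closed
geodesic net on the round three-sphere. Statements of the pieces, with proofs.
-/

set_option autoImplicit false

namespace Pool.Agent.H57N

open Real
open scoped RealInnerProductSpace

/-- The net conditions for `Θ(A,B,C)`, chain by chain. -/
def Parts (A B C : Ch) (p : TV A B C → E4) (v : TE A B C → E4) (ℓ : TE A B C → ℝ) : Prop :=
  (∀ x, ‖p x‖ = 1) ∧ Function.Injective p ∧ Emb (tsrc A B C p) v ℓ ∧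
  Loc A (p (.inl false)) (p (.inl true)) (fun z => p (.inr (.inl z)))
    (fun e => v (.inl e)) (fun e => ℓ (.inl e)) ∧
  Loc B (p (.inl false)) (p (.inl true)) (fun z => p (.inr (.inr (.inl z))))
    (fun e => v (.inr (.inl e))) (fun e => ℓ (.inr (.inl e))) ∧
  Loc C (p (.inl false)) (p (.inl true)) (fun z => p (.inr (.inr (.inr z))))
    (fun e => v (.inr (.inr e))) (fun e => ℓ (.inr (.inr e))) ∧
  v (.inl A.first) + v (.inr (.inl B.first)) + v (.inr (.inr C.first)) = 0 ∧
  fin A (p (.inl false)) (fun z => p (.inr (.inl z)))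
      (fun e => v (.inl e)) (fun e => ℓ (.inl e)) +
    fin B (p (.inl false)) (fun z => p (.inr (.inr (.inl z))))
      (fun e => v (.inr (.inl e))) (fun e => ℓ (.inr (.inl e))) +
    fin C (p (.inl false)) (fun z => p (.inr (.inr (.inr z))))
      (fun e => v (.inr (.inr e))) (fun e => ℓ (.inr (.inr e))) = 0

/-- PIECE LOC1 (bookkeeping, 120 lines). By recursion on a chain `X`, for injective
`i : X.V → W`, `x, y` not in the range of `i`, `x ≠ y`: `X.src x i e = x ↔ e = X.first`,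
`X.tgt y i e = y ↔ e = X.last`, `X.tgt y i e ≠ x`, `X.src x i e ≠ y`, all sources and targets are in
`{x, y} ∪ range i`; so at an inner vertex the sums in `balanced` have one and two terms as in `Loc`
(split the sum over `TE` = sum type with `Fintype.sum_sum_type` after writing the sum over the
filter as a sum of `if`). Also `g (X.src x i e) = X.src (g x) (g ∘ i) e`. It may be best to prove by
recursion on `X`: if for all `z` in the range of `i` the two sums over the edges of `X` agree, then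
`Loc X`. -/
def S_LOC1 : Prop := ∀ (A B C : Ch) (p : TV A B C → E4) (v : TE A B C → E4) (ℓ : TE A B C → ℝ),
  IsNet (tsrc A B C id) (ttgt A B C id) p v ℓ → Parts A B C p v ℓ

/-- PIECE LOC2 (bookkeeping, 120 lines): the converse of `S_LOC1`, the same method. -/
def S_LOC2 : Prop := ∀ (A B C : Ch) (p : TV A B C → E4) (v : TE A B C → E4) (ℓ : TE A B C → ℝ),
  Parts A B C p v ℓ → IsNet (tsrc A B C id) (ttgt A B C id) p v ℓ

/-- PIECE PLN (40 lines): equal flux means the same oriented great circle. Multiply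
`fl x v = fl y w` by the vector `w` (sum over the second index): `y = ⟪v,w⟫ x - ⟪x,w⟫ v`, and by
`y`: `w = ⟪x,y⟫ v - ⟪v,y⟫ x`. Hence `y = c x + s v`, `w = c v - s x`, `c^2 + s^2 = 1`. -/
def S_PLN : Prop := ∀ x v y w : E4, ‖x‖ = 1 → ‖v‖ = 1 → ⟪x, v⟫ = 0 → ‖y‖ = 1 → ‖w‖ = 1 →
  ⟪y, w⟫ = 0 → fl x v = fl y w → ∃ θ : ℝ, y = arc x v θ ∧ w = vel x v θ

/-- PIECE FLX (50 lines): the flux is the same at both ends of a chain. Recursion on `X`: for an
edge `fl (arc x v l) (vel x v l) = fl x v`; for `cons A B C` with `u`, `w` the ends of the block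
`fl u (vel x v0 l0) = fl x v0`, `fl u (vel ..) = fl u (v A.first) + fl u (v B.first)
= fl w (fin A) + fl w (fin B) = fl w (v C.first) = fl y (fin C)`. -/
def S_FLX : Prop := ∀ (X : Ch) (x y : E4) (p : X.V → E4) (v : X.E → E4) (ℓ : X.E → ℝ),
  ‖x‖ = 1 → Loc X x y p v ℓ →
  fl y (fin X x p v ℓ) = fl x (v X.first) ∧ ‖fin X x p v ℓ‖ = 1 ∧ ⟪y, fin X x p v ℓ⟫ = 0 ∧
    ‖y‖ = 1 ∧ ‖v X.first‖ = 1 ∧ ⟪x, v X.first⟫ = 0

/-- PIECE ANT (50 lines; uses `S_PLN`, `S_FLX` as hypotheses): the ends of a block are antipodal.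
By FLX and PLN `w = arc u α θ = arc u β φ` with `α`, `β` the first velocities of `A`, `B`, where
`⟪α,β⟫ = -1/2` since `α`, `β`, `α + β` are unit vectors. So `cos θ = cos φ`,
`sin θ • α = sin φ • β`, hence `sin θ = 0`, and `w = u` or `w = -u`. -/
def S_ANT : Prop := ∀ (A B : Ch) (u w : E4) (pA : A.V → E4) (vA : A.E → E4) (lA : A.E → ℝ)
    (pB : B.V → E4) (vB : B.E → E4) (lB : B.E → ℝ),
  ‖u‖ = 1 → u ≠ w → Loc A u w pA vA lA → Loc B u w pB vB lB →
  ‖vA A.first + vB B.first‖ = 1 → w = -u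

/-- PIECE ARC (70 lines, Mathlib only): disjoint closed arcs of a circle, at least two of them, have
total length less than `2 π`. Proof: in `AddCircle (2 * π)` (or `Real.Angle`) the images of the
closed intervals are compact and pairwise disjoint; the volume of the image of `Icc a (a + l)`,
`l ≤ 2 π`, is `l` (`AddCircle.volume_closedBall`, or a fundamental domain); so the sum is `≤ 2 π`,
and the complement of the union is open and not empty (the circle is connected and each arc is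
closed and not empty), so it has positive volume. First `l < 2 π` for each arc, as another one is
not empty. -/
def S_ARC : Prop := ∀ L : List (ℝ × ℝ), 2 ≤ L.length → (∀ I ∈ L, 0 < I.2) →
  L.Pairwise (fun I J => ∀ s ∈ Set.Icc I.1 (I.1 + I.2), ∀ t ∈ Set.Icc J.1 (J.1 + J.2),
    ∀ m : ℤ, s ≠ t + m * (2 * π)) →
  (L.map Prod.snd).sum < 2 * π

/-- All blocks of the chain (on the top level) have antipodal ends. -/
def Anti : (X : Ch) → (X.V → E4) → Prop
  | .edge, _ => True
  | .cons _ _ C, p => p (.inl true) = -p (.inl false) ∧ Anti C (fun z => p (.inr (.inr (.inr z))))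

/-- The edges on the top level of a chain, as arcs `(start, length)` of the circle, where each
block moves by `π`. -/
noncomputable def tops : (X : Ch) → ℝ → (X.E → ℝ) → List (ℝ × ℝ)
  | .edge, a, ℓ => [(a, ℓ ())]
  | .cons _ _ C, a, ℓ =>
      (a, ℓ (.inl ())) :: tops C (a + ℓ (.inl ()) + π) (fun e => ℓ (.inr (.inr (.inr e))))

/-- PIECE TOP1 (60 lines; uses `S_PLN`, `S_FLX`): positions on a chain with antipodal blocks. With
`S` the sum of the lengths of the top edges, the chain which starts at `arc x0 v0 θ` with velocity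
`vel x0 v0 θ` ends at `arc x0 v0 (θ + S + len π)` with the velocity
`vel x0 v0 (θ + S + len π)`. Recursion: for `cons A B C`: `u = arc x0 v0 (θ + l0)`, the incoming
velocity at `u` is `vel x0 v0 (θ + l0)`, `w = -u = arc x0 v0 (θ + l0 + π)`, and the flux of
`(w, v C.first)` is that of `(u, incoming)` (as in `S_FLX`), so
`v C.first = vel x0 v0 (θ + l0 + π)`: in fact from `fl w z = fl x0 v0 = fl w z'` with `z, z'`
orthogonal to `w` one gets `z = z'`. -/
def S_TOP1 : Prop := ∀ (X : Ch) (x0 v0 : E4) (θ : ℝ) (y : E4) (p : X.V → E4) (v : X.E → E4)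
    (ℓ : X.E → ℝ), ‖x0‖ = 1 → ‖v0‖ = 1 → ⟪x0, v0⟫ = 0 → Loc X (arc x0 v0 θ) y p v ℓ →
  v X.first = vel x0 v0 θ → Anti X p →
  y = arc x0 v0 (θ + ((tops X θ ℓ).map Prod.snd).sum + X.len * π) ∧
  fin X (arc x0 v0 θ) p v ℓ = vel x0 v0 (θ + ((tops X θ ℓ).map Prod.snd).sum + X.len * π)

/-- PIECE TOP2 (100 lines; uses `S_PLN`, `S_FLX`, `S_TOP1`): the arcs of the top edges are pairwise
disjoint on the circle. Recursion on `X` with the claim: every `I ∈ tops X θ ℓ` comes from an edge
`e` of `X` with `ℓ e = I.2` and `arc (X.src _ p e) (v e) t = arc x0 v0 (I.1 + t)` for all `t`, and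
the ends of this edge are `x`, `y` or points `p z`; for the head `(θ, ℓ (inl ()))` and an arc
`J` of the tail, with the edge `f`: if `s = t + 2 π m` then the points agree; if `s` is an interior
time of the head or `t` is one of `J`, then `Emb` gives `inl () = f`, impossible; otherwise both are
end points, and the ends `x`, `u` of the first edge are different from the ends of `f`, which are
`p (inl true)`, `y`, or `p` of a vertex inside of `C`. -/
def S_TOP2 : Prop := ∀ (X : Ch) (x0 v0 : E4) (θ : ℝ) (y : E4) (p : X.V → E4) (v : X.E → E4)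
    (ℓ : X.E → ℝ), ‖x0‖ = 1 → ‖v0‖ = 1 → ⟪x0, v0⟫ = 0 → Loc X (arc x0 v0 θ) y p v ℓ →
  v X.first = vel x0 v0 θ → Anti X p → Emb (X.src (arc x0 v0 θ) p) v ℓ →
  Function.Injective p → (∀ z, p z ≠ arc x0 v0 θ) → (∀ z, p z ≠ y) → arc x0 v0 θ ≠ y →
  (∀ I ∈ tops X θ ℓ, 0 < I.2) ∧ (tops X θ ℓ).length = X.len + 1 ∧
  (tops X θ ℓ).Pairwise (fun I J => ∀ s ∈ Set.Icc I.1 (I.1 + I.2),
    ∀ t ∈ Set.Icc J.1 (J.1 + J.2), ∀ m : ℤ, s ≠ t + m * (2 * π))

/-- PIECE PAR (40 lines; uses `S_FLX`, `S_ARC`, `S_TOP1`, `S_TOP2`): a chain between antipodal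
points with antipodal blocks has an even number of blocks. With `x0 = x`, `θ = 0`:
`-x = arc x v0 (S + len π)`, so `S + len π = π + 2 π m`. If `len` is odd then `len + 1 ≥ 2`,
`0 < S < 2 π` by ARC, and `S` is a multiple of `2 π`, impossible. -/
def S_PAR : Prop := ∀ (X : Ch) (x : E4) (p : X.V → E4) (v : X.E → E4) (ℓ : X.E → ℝ),
  ‖x‖ = 1 → Loc X x (-x) p v ℓ → Anti X p → Emb (X.src x p) v ℓ → Function.Injective p →
  (∀ z, p z ≠ x) → (∀ z, p z ≠ -x) → Even X.len

/-- PIECE NEC (80 lines; uses `S_LOC1`, `S_FLX`, `S_ANT`, `S_PAR`): necessity. Recursion on `X`: if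
`Loc X x y`, `‖x‖ = 1`, `x ≠ y`, `Emb`, `p` injective, `p z ≠ x, y` for all `z`, then `X.Good` and
`Anti X p` (for `cons A B C` the block has `w = -u` by ANT, where
`v A.first + v B.first = vel x ..` is a unit vector; then the chains `A`, `B` from `u` to `-u` have
even `len` by PAR). For `Θ(A,B,C)` first `w = -u` by ANT (`v A.first + v B.first = - v C.first`). -/
def S_NEC : Prop := ∀ A B C : Ch, Carries (tsrc A B C id) (ttgt A B C id) →
  (A.Good ∧ Even A.len) ∧ (B.Good ∧ Even B.len) ∧ (C.Good ∧ Even C.len)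

/-- PIECE NU (100 lines, Mathlib only): a generic pair of directions at `120` degrees. Let `n0`,
`n1` be an orthonormal basis of the orthogonal complement of `{u, τ}`, and for real `t` let
`c = (1-t^2)/(1+t^2)`, `s = 2t/(1+t^2)`, `α = τ/2 + (√3/2)(c n0 + s n1)`, `β = τ - α`. If
`z = a u + b α ≠ 0` is in `P`, `u ∉ P`, then `b ≠ 0` and `α ∈ P ⊔ span {u}`, a space of dimension
at most three, so there is `n ≠ 0` orthogonal to `P` and `u`; `⟪n, α⟫ = 0` means
`⟪n,τ⟫ + √3 (c ⟪n,n0⟫ + s ⟪n,n1⟫) = 0`, times `1+t^2` a polynomial of degree at most two in `t`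
which is not zero (otherwise `⟪n,τ⟫ = ⟪n,n0⟫ = ⟪n,n1⟫ = 0` and `n = 0`), so it has finitely many
roots; the same for `β`. -/
def S_NU : Prop := ∀ (u τ : E4) (S : Set (Submodule ℝ E4)), ‖u‖ = 1 → ‖τ‖ = 1 → ⟪u, τ⟫ = 0 →
  S.Finite → (∀ P ∈ S, Module.finrank ℝ P ≤ 2) → (∀ P ∈ S, u ∉ P) →
  ∃ α β : E4, ‖α‖ = 1 ∧ ‖β‖ = 1 ∧ ⟪u, α⟫ = 0 ∧ ⟪u, β⟫ = 0 ∧ α + β = τ ∧
    (∀ P ∈ S, Disjoint (pl u α) P) ∧ (∀ P ∈ S, Disjoint (pl u β) P)

/-- PIECE CUT (60 lines): conservation of flux through cuts, for nets on all finite multigraphs.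
Sum over the vertices `x` in `X` of the difference of the two sides of `balanced`, after `fl (p x)`,
which is linear in the second argument, and `fl (arc x v l) (vel x v l) = fl x v`; the edges with
both ends in `X` cancel. -/
def S_CUT : Prop := ∀ (V E : Type) [Fintype V] [Fintype E] [DecidableEq V] (src tgt : E → V)
    (p : V → E4) (v : E → E4) (ℓ : E → ℝ), IsNet src tgt p v ℓ → ∀ X : Finset V,
  (∑ e with src e ∈ X ∧ tgt e ∉ X, fl (p (src e)) (v e)) =
    ∑ e with src e ∉ X ∧ tgt e ∈ X, fl (p (src e)) (v e)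

/-- What the recursive construction gives for the chain `X` which starts at `σ • arc x0 v0 s` and
runs on the great circle of `x0`, `v0` up to the angle `π` (modulo `π`): the top edges lie on this
circle, on disjoint intervals of angles in `[s, π]`, all other edges lie in planes which meet the
planes in `S` only in `0`. -/
def Out (X : Ch) (x0 v0 : E4) (s σ : ℝ) (S : Set (Submodule ℝ E4)) (p : X.V → E4) (v : X.E → E4)
    (ℓ : X.E → ℝ) : Prop :=
  Loc X (σ • arc x0 v0 s) ((σ * (-1) ^ X.len) • arc x0 v0 π) p v ℓ ∧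
  v X.first = σ • vel x0 v0 s ∧
  fin X (σ • arc x0 v0 s) p v ℓ = (σ * (-1) ^ X.len) • vel x0 v0 π ∧
  Emb (X.src (σ • arc x0 v0 s) p) v ℓ ∧ Function.Injective p ∧
  (∀ z, ‖p z‖ = 1) ∧
  (∀ z, (∃ t, s < t ∧ t < π ∧ (p z = arc x0 v0 t ∨ p z = -arc x0 v0 t)) ∨
    (p z ∉ pl x0 v0 ∧ ∀ P ∈ S, p z ∉ P)) ∧
  (∀ z, ∃ e, p z ∈ pl (X.src (σ • arc x0 v0 s) p e) (v e)) ∧
  (∀ e, (pl (X.src (σ • arc x0 v0 s) p e) (v e) = pl x0 v0 ∧ ∃ c ε : ℝ, s ≤ c ∧ 0 < ℓ e ∧
      c + ℓ e ≤ π ∧ (ε = 1 ∨ ε = -1) ∧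
      ∀ t, arc (X.src (σ • arc x0 v0 s) p e) (v e) t = ε • arc x0 v0 (c + t)) ∨
    ((∀ P ∈ S, Disjoint (pl (X.src (σ • arc x0 v0 s) p e) (v e)) P) ∧
      ∀ t, ((0 ≤ t ∧ t ≤ s) ∨ t = π) → arc x0 v0 t ∉ pl (X.src (σ • arc x0 v0 s) p e) (v e)))

/-- PIECE STEP (helper57): the recursive construction. -/
def S_STEP : Prop := ∀ (X : Ch), X.Good → ∀ (x0 v0 : E4) (s σ : ℝ) (S : Set (Submodule ℝ E4)),
  ‖x0‖ = 1 → ‖v0‖ = 1 → ⟪x0, v0⟫ = 0 → 0 ≤ s → s < π → (σ = 1 ∨ σ = -1) → S.Finite →
  (∀ P ∈ S, Module.finrank ℝ P ≤ 2) → (∀ P ∈ S, ∀ t, s < t → t < π → arc x0 v0 t ∉ P) →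
  ∃ (p : X.V → E4) (v : X.E → E4) (ℓ : X.E → ℝ), Out X x0 v0 s σ S p v ℓ

/-- PIECE EXI (120 lines; uses `S_STEP`, `S_LOC2`): sufficiency. Take `u` and three unit vectors
`α`, `β`, `γ` orthogonal to `u` with sum zero; the planes `pl u α`, `pl u β`, `pl u γ` meet pairwise
in the line of `u`. Use STEP with `s = 0`, `σ = 1`: for `A` from `(u, α)` with
`S = {pl u β, pl u γ}`; for `B` from `(u, β)` with `S = {pl u γ} ∪` the planes of the edges of `A`;
for `C` from `(u, γ)` with `S =` the planes of the edges of `A` and `B`. Even `len`: all end in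
`-u = arc u α π`. For `Emb` and the injectivity: a point of an edge `e` of `A` and a point of an
edge `f` of `B` which agree lie in the plane of `e` and the plane of `f`; if `f` is not on the top
level its plane is disjoint from that of `e`; if `f` is and `e` is not, the plane of `e` is disjoint
from `pl u β`; if both are on the top level the point is `±u`, so the angle is `0` or `π`, not an
interior point; in the same way for vertices. -/
def S_EXI : Prop := ∀ A B C : Ch, (A.Good ∧ Even A.len) → (B.Good ∧ Even B.len) →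
  (C.Good ∧ Even C.len) → Carries (tsrc A B C id) (ttgt A B C id)

end Pool.Agent.H57N
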