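import Pool.Agent.H57N.Stm

/-!
PROJECT GN57, part 2 (helper57), MP_a226eb_gt: substitution of chains into the edges of any net,
the tetrahedron, and cuts with three edges. Statements of the pieces, with proofs.
-/

set_option autoImplicit false

namespace Pool.Agent.H57N

open Real
open scoped RealInnerProductSpace

/-- The vertices of the multigraph `G[X]`, which comes from the multigraph `G` with vertex type `V`
and edge type `E` if each edge `e` is replaced by the chain `X e`. -/
abbrev SV (V E : Type) (X : E → Ch) : Type := V ⊕ (Σ e : E, (X e).V)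

/-- The edges of `G[X]`. -/
abbrev SE (E : Type) (X : E → Ch) : Type := Σ e : E, (X e).E

/-- The starting points of the edges of `G[X]`. -/
def ssrc {V E : Type} (src : E → V) (X : E → Ch) (f : SE E X) : SV V E X :=
  (X f.1).src (.inl (src f.1)) (fun z => .inr ⟨f.1, z⟩) f.2

/-- The end points of the edges of `G[X]`. -/
def stgt {V E : Type} (tgt : E → V) (X : E → Ch) (f : SE E X) : SV V E X :=
  (X f.1).tgt (.inl (tgt f.1)) (fun z => .inr ⟨f.1, z⟩) f.2

/-- On every edge there is a point whose antipode is not on the net. -/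
def FreeAntipodes {V E : Type} (src : E → V) (p : V → E4) (v : E → E4) (ℓ : E → ℝ) : Prop :=
  ∀ e, ∃ t, 0 < t ∧ t < ℓ e ∧ ∀ f s, 0 ≤ s → s ≤ ℓ f →
    arc (p (src f)) (v f) s ≠ -arc (p (src e)) (v e) t

open scoped Classical in
/-- The net conditions for `G[X]`, chain by chain. -/
def SParts {V E : Type} [Fintype E] (src tgt : E → V) (X : E → Ch) (P : SV V E X → E4)
    (W : SE E X → E4) (L : SE E X → ℝ) : Prop :=
  (∀ z, ‖P z‖ = 1) ∧ Function.Injective P ∧ Emb (fun f => P (ssrc src X f)) W L ∧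
  (∀ e, Loc (X e) (P (.inl (src e))) (P (.inl (tgt e))) (fun z => P (.inr ⟨e, z⟩))
    (fun f => W ⟨e, f⟩) (fun f => L ⟨e, f⟩)) ∧
  ∀ x : V, (∑ e with src e = x, W ⟨e, (X e).first⟩) =
    ∑ e with tgt e = x, fin (X e) (P (.inl (src e))) (fun z => P (.inr ⟨e, z⟩))
      (fun f => W ⟨e, f⟩) (fun f => L ⟨e, f⟩)

/-- PIECE SLOC (100 lines): bookkeeping as in `LOCaux.main` (Pool/Agent/H57N/LOCaux.lean), with
`bal_iff`, `loc_iff`, `so_first`, `si_last`, `so_zero`, `si_zero`, for the chains `X e`; the sums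
over `SE E X` with `Fintype.sum_sigma`. -/
def S_SLOC : Prop := ∀ (V E : Type) [Fintype E] (src tgt : E → V) (X : E → Ch)
    (P : SV V E X → E4) (W : SE E X → E4) (L : SE E X → ℝ),
  IsNet (ssrc src X) (stgt tgt X) P W L ↔ SParts src tgt X P W L

/-- PIECE SNEC (40 lines; uses `S_SLOC`, and `NEC.main` of Pool/Agent/H57N/NEC.lean with `S_ANT`,
`S_PAR`, `S_FLX`): the chains inside of blocks have an even number of blocks, in all nets. -/
def S_SNEC : Prop := ∀ (V E : Type) [Fintype E] (src tgt : E → V) (X : E → Ch),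
  (∀ e, src e ≠ tgt e) → Carries (ssrc src X) (stgt tgt X) → ∀ e, (X e).Good

/-- PIECE INT (100 lines): a short interval on each edge whose antipode is not on the net and which
avoids the other planes of the net. The net is compact, so near the point of `FreeAntipodes` the
antipodes are not on the net; a plane `pl f ≠ pl e` meets `pl e` in dimension at most one, so it
contains `arc e t` for finitely many `t` in `[0, ℓ e]` at most (two such `t` differ by a multiple of
`π`, as two independent vectors would give `pl e ≤ pl f` and equality by rank); an open interval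
without finitely many points contains a closed interval of positive length. -/
def S_INT : Prop := ∀ (V E : Type) [Fintype E] (src tgt : E → V) (p : V → E4) (v : E → E4)
    (ℓ : E → ℝ), IsNet src tgt p v ℓ → FreeAntipodes src p v ℓ → ∀ e, ∃ a b, 0 < a ∧ a < b ∧
  b < ℓ e ∧ b - a < π ∧
  (∀ t, a ≤ t → t ≤ b → ∀ f s, 0 ≤ s → s ≤ ℓ f →
    arc (p (src f)) (v f) s ≠ -arc (p (src e)) (v e) t) ∧
  (∀ t, a ≤ t → t ≤ b → ∀ f, pl (p (src f)) (v f) ≠ pl (p (src e)) (v e) →
    arc (p (src e)) (v e) t ∉ pl (p (src f)) (v f))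

/-- What is used of a chain which replaces the edge `t ↦ arc x v t`, `0 ≤ t ≤ ℓ`, with all blocks
at the angles in `(a, b)`. -/
def OutE (X : Ch) (x v : E4) (ℓ a b : ℝ) (S : Set (Submodule ℝ E4)) (p : X.V → E4)
    (w : X.E → E4) (l : X.E → ℝ) : Prop :=
  Loc X x (arc x v ℓ) p w l ∧ w X.first = v ∧ fin X x p w l = vel x v ℓ ∧
  Emb (X.src x p) w l ∧ Function.Injective p ∧ (∀ z, ‖p z‖ = 1) ∧
  (∀ z, (∃ t, a < t ∧ t < b ∧ (p z = arc x v t ∨ p z = -arc x v t)) ∨
    (p z ∉ pl x v ∧ ∀ P ∈ S, p z ∉ P)) ∧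
  (∀ z, ∃ f, p z ∈ pl (X.src x p f) (w f)) ∧
  (∀ f s, 0 ≤ s → s ≤ l f →
    (∃ t, 0 ≤ t ∧ t ≤ ℓ ∧ arc (X.src x p f) (w f) s = arc x v t ∧
      (0 < s ∧ s < l f → 0 < t ∧ t < ℓ)) ∨
    (∃ t, a ≤ t ∧ t ≤ b ∧ arc (X.src x p f) (w f) s = -arc x v t ∧
      (0 < s ∧ s < l f → a < t ∧ t < b)) ∨
    (arc (X.src x p f) (w f) s ∉ pl x v ∧ ∀ P ∈ S, arc (X.src x p f) (w f) s ∉ P)) ∧
  (∀ f, pl (X.src x p f) (w f) = pl x v ∨
    ((∀ P ∈ S, Disjoint (pl (X.src x p f) (w f)) P) ∧
      ∀ t, arc x v t ∈ pl (X.src x p f) (w f) → ∃ s, a < s ∧ s < b ∧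
        (arc x v t = arc x v s ∨ arc x v t = -arc x v s)))

/-- PIECE CHN (helper57; uses `S_STEP`): a chain inside of an edge. -/
def S_CHN : Prop := ∀ (X : Ch), X.Good → Even X.len → ∀ (x v : E4) (ℓ a b : ℝ)
    (S : Set (Submodule ℝ E4)), ‖x‖ = 1 → ‖v‖ = 1 → ⟪x, v⟫ = 0 → 0 < a → a < b → b < ℓ →
  b - a < π → S.Finite → (∀ P ∈ S, Module.finrank ℝ P ≤ 2) →
  (∀ P ∈ S, ∀ t, a ≤ t → t ≤ b → arc x v t ∉ P) →
  (∀ t s, a ≤ t → t ≤ b → 0 ≤ s → s ≤ ℓ → arc x v s ≠ -arc x v t) →
  (∀ t s, 0 < t → t < ℓ → 0 ≤ s → s ≤ ℓ → arc x v t = arc x v s → t = s) →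
  ∃ (p : X.V → E4) (w : X.E → E4) (l : X.E → ℝ), OutE X x v ℓ a b S p w l

/-- PIECE SUB (150 lines; uses `S_SLOC`, `S_INT`, `S_CHN`): chains in all edges. Take `a e`, `b e`
from INT. By induction on a finite set `F` of edges there are data for the chains `X e`, `e ∈ F`,
with `OutE` and such that for different `e`, `e'` in `F` the points agree in no interior point and
no two vertices agree: for a new edge `e` use CHN with
`S = {P | P ≠ pl e, P a plane of an edge of the base net or of an edge of a chain in F}`. The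
hypothesis of CHN on `S`: base planes by INT; the plane of an edge of the chain `e'` is `pl e'` or
is disjoint from `pl e` (if `pl e ≠ pl e'`, as then `pl e` was in the `S` of `e'`), or, if
`pl e = pl e'`, contains `arc e t` only if this is plus or minus a point `arc e' s`,
`a e' < s < b e'`, which is impossible by `embedded` of the base net and INT. Points `q` of the
chain `e` and `q'` of the chain `e'` which agree, one of them interior: each is of one of the three
types in `OutE`; `arc e t = arc e' t'`: `embedded`; `arc e t = - arc e' t'`: INT; `- arc e t =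
- arc e' t'`: `embedded`; one in a base plane and one of the third type: the third type avoids all
base planes (`pl e'` and those in `S`); both of the third type: the later one avoids the planes of
the earlier chain. The same for vertices; the vertices of the base net are ends of edges. -/
def S_SUB : Prop := ∀ (V E : Type) [Fintype E] (src tgt : E → V) (p : V → E4) (v : E → E4)
    (ℓ : E → ℝ), IsNet src tgt p v ℓ → (∀ x, ∃ e, src e = x ∨ tgt e = x) →
  FreeAntipodes src p v ℓ → ∀ X : E → Ch, (∀ e, (X e).Good ∧ Even (X e).len) →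
  Carries (ssrc src X) (stgt tgt X)

/-- The ends of the edges of the complete graph with four vertices. -/
def k4src : Fin 6 → Fin 4 := ![0, 0, 0, 1, 1, 2]

/-- The ends of the edges of the complete graph with four vertices. -/
def k4tgt : Fin 6 → Fin 4 := ![1, 2, 3, 2, 3, 3]

/-- PIECE K4 (150 lines, Mathlib only): the regular tetrahedron. `p0 = (1,1,1,0)/√3`,
`p1 = (1,-1,-1,0)/√3`, `p2 = (-1,1,-1,0)/√3`, `p3 = (-1,-1,1,0)/√3`, `⟪pi,pj⟫ = -1/3`,
`ℓ = arccos (-1/3)`, `v = (3 p_tgt + p_src)/√8`. An interior point of the edge `ij` is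
`a pi + b pj` with `a, b > 0` (`a, b ≥ 0` for all points). As `p0 + p1 + p2 + p3 = 0` and any three
of them are independent, `∑ c_i p_i = ∑ d_i p_i` iff `c - d` is constant; so points of different
edges are different (interior against closed). `FreeAntipodes`: for `a > b > 0` the coefficients
`(-a, -b, 0, 0)` plus `a` are `(0, a - b, a, a)`, with three positive ones, never those of a point
of an edge. -/
def S_K4 : Prop := ∃ (p : Fin 4 → E4) (v : Fin 6 → E4) (ℓ : Fin 6 → ℝ),
  IsNet k4src k4tgt p v ℓ ∧ FreeAntipodes k4src p v ℓ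

/-- PIECE CUT3 (60 lines, linear algebra): if the fluxes of three great circles sum to zero, the
circles have a common point. Proof: with the bilinear form `q(f,g) = f01 g23 - f02 g13 + f03 g12 +
f23 g01 - f13 g02 + f12 g03` one has `q(fl x v, fl x v) = 0`, so from `f1 + f2 = -f3` one gets
`q(f1,f2) = 0`, which is the determinant of `x1, v1, x2, v2`; so these four vectors are linearly
dependent and the planes of the first two circles have a common unit vector `z`; then
`f1 = fl z a`, `f2 = fl z b` with `a`, `b` orthogonal to `z`, `f3 = fl z (-(a+b))`, so `z` is in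
the third plane (`pl x3 v3` is the set of the vectors `∑_j f3 i j y_j`). -/
def S_CUT3 : Prop := ∀ x1 v1 x2 v2 x3 v3 : E4, ‖x1‖ = 1 → ‖v1‖ = 1 → ⟪x1, v1⟫ = 0 →
  ‖x2‖ = 1 → ‖v2‖ = 1 → ⟪x2, v2⟫ = 0 → ‖x3‖ = 1 → ‖v3‖ = 1 → ⟪x3, v3⟫ = 0 →
  fl x1 v1 + fl x2 v2 + fl x3 v3 = 0 →
  ∃ z : E4, ‖z‖ = 1 ∧ z ∈ pl x1 v1 ∧ z ∈ pl x2 v2 ∧ z ∈ pl x3 v3

open scoped Classical in
/-- PIECE CUB (60 lines): every vertex of `Θ(A,B,C)` has degree three (use `tout`, `tin`, `bal_iff`
or the lemmas `so_first`, .. of LOCaux with `F = 1` in `ℕ`, or a direct recursion). -/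
def S_CUB : Prop := ∀ (A B C : Ch) (x : TV A B C),
  (∑ e with tsrc A B C id e = x, 1) + (∑ e with ttgt A B C id e = x, 1) = 3

end Pool.Agent.H57N
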