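import Pool.Agent.H57N.Stm2

/-! PROJECT GN57 (helper57), one more small piece. -/

set_option autoImplicit false

namespace Pool.Agent.H57N

/-- Two vertices of a multigraph which are the ends of an edge. -/
def Join {V E : Type} (src tgt : E → V) (x y : V) : Prop :=
  ∃ e, (src e = x ∧ tgt e = y) ∨ (src e = y ∧ tgt e = x)

/-- PIECE CON (50 lines): `Θ(A,B,C)` is connected. Recursion on a chain `X` placed by
`i : X.V → W` between `x` and `y`: every `i z` and `y` are reached from `x` with the edges
`X.src x i e`, `X.tgt y i e` of the chain. -/
def S_CON : Prop := ∀ (A B C : Ch) (x : TV A B C),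
  Relation.ReflTransGen (Join (tsrc A B C id) (ttgt A B C id)) (.inl false) x

end Pool.Agent.H57N
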