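import Pool.Agent.H57N.Stm2

/-!
PROJECT GN57, part 3 (helper57), MP_a226eb_gt: three explicit nets on the round three-sphere.
-/

set_option autoImplicit false

namespace Pool.Agent.H57N

open Real
open scoped RealInnerProductSpace

/-- The ends of the edges of `K_{3,3}` (the vertices 0, 1, 2 are joined to 3, 4, 5). -/
def k33src : Fin 9 → Fin 6 := ![0, 0, 0, 1, 1, 1, 2, 2, 2]

/-- The ends of the edges of `K_{3,3}`. -/
def k33tgt : Fin 9 → Fin 6 := ![3, 4, 5, 3, 4, 5, 3, 4, 5]

/-- PIECE K33 (120 lines, Mathlib only, pattern K4.lean of helper30): two equilateral triangles on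
orthogonal great circles: `p_k = (cos(2πk/3), sin(2πk/3), 0, 0)` and
`p_(3+k) = (0, 0, cos(2πk/3), sin(2πk/3))`, `k = 0, 1, 2` (that is `(1,0)`, `(-1/2, √3/2)`,
`(-1/2, -√3/2)`), all edges are quarter circles: `v e = p (tgt e)`, `ℓ e = π/2`,
`arc = cos t p_i + sin t p_j`. Balanced as the three points of a triangle have sum zero
(the velocity at the end is `- p_i`). `embedded`: from `cos s p_i + sin s p_j =
cos t p_k + sin t p_l` one gets `cos s p_i = cos t p_k` and `sin s p_j = sin t p_l`, with
`cos s, sin s > 0`, so the norms give `cos s = cos t`, `i = k`, `j = l`. `FreeAntipodes`: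
`cos t p_i = - cos s p_k` is impossible for `0 < t < π/2`. -/
def S_K33 : Prop := ∃ (p : Fin 6 → E4) (v : Fin 9 → E4) (ℓ : Fin 9 → ℝ),
  IsNet k33src k33tgt p v ℓ ∧ FreeAntipodes k33src p v ℓ

/-- The ends of the edges of the triangular prism (top 0, 1, 2; bottom 3, 4, 5). -/
def prsrc : Fin 9 → Fin 6 := ![0, 1, 2, 3, 4, 5, 0, 1, 2]

/-- The ends of the edges of the triangular prism. -/
def prtgt : Fin 9 → Fin 6 := ![1, 2, 0, 4, 5, 3, 3, 4, 5]

/-- PIECE PRISM (200 lines, Mathlib only, pattern K4.lean of helper30): `p_k = (r c_k, r s_k, 1/3, 0)`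
and `p_(3+k) = (r c_k, r s_k, -1/3, 0)` with `r = √8/3`, `(c_k, s_k) = (cos(2πk/3), sin(2πk/3))`.
Edges of the triangles: `⟪p_i, p_j⟫ = -1/3`, `ℓ = arccos(-1/3)`, `v = (3 p_tgt + p_src)/√8`; vertical
edges: `⟪p_k, p_(3+k)⟫ = 7/9`, `ℓ = arccos(7/9)`, `v = (9 p_tgt - 7 p_src)/√32`. Interior points of an
edge `ij` are `a p_i + b p_j` with `a, b > 0` and have fourth coordinate zero. Disjointness: a point
of a top edge `a p_i + b p_j` has third coordinate `(a+b)/3 > 0` and horizontal part
`r (a u_i + b u_j)` with `u_k = (c_k, s_k)`, `a + b ≥ 1`; the horizontal part determines `a`, `b`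
(as `u_i`, `u_j` are independent and for three indices: `a u_i + b u_j` is in the sector between
`u_i` and `u_j`); a point of the vertical edge `k` has horizontal part a positive multiple of `u_k`,
so it can only agree with a point with `b = 0` or `a = 0`, which is `p_k`, an end. `FreeAntipodes`:
the antipode of an interior point of the vertical edge `k` has horizontal part `- c u_k`, `c > 0`,
which is in the open sector of the other two directions with equal coefficients; the points of the
triangle edges with equal coefficients are the middle points with third coordinate `±1/√3...`: in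
detail `a = b`, norm one gives `a^2 (2 - 2/3) = 1`, third coordinate `±2a/3 = ±1/√3`, but the
vertical edge has third coordinate in `[-1/3, 1/3]`. For a triangle edge take the point with
coefficients `a > b > 0`, e.g. near `p_i` (small time `t`): the antipode has horizontal part
`-(a u_i + b u_j) = (a - b) u_j + a u_k` (as the sum of the `u` is zero), third coordinate
`-(a+b)/3`; on a bottom edge this would be `-( (a-b) + a)/3`, so `b = a - b`; choose a time where
`a ≠ 2 b`; it is in an open sector, so it is not on a vertical edge. -/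
def S_PRISM : Prop := ∃ (p : Fin 6 → E4) (v : Fin 9 → E4) (ℓ : Fin 9 → ℝ),
  IsNet prsrc prtgt p v ℓ ∧ FreeAntipodes prsrc p v ℓ

/-- The ends of the edges of the complete graph with four vertices 0, 1, 2, 3 with a double edge
inserted into the edge 01 (the double edge joins 4 and 5). -/
def kdsrc : Fin 9 → Fin 6 := ![0, 0, 1, 1, 2, 0, 4, 4, 5]

/-- The ends of the edges of the complete graph with four vertices with a double edge inserted. -/
def kdtgt : Fin 9 → Fin 6 := ![2, 3, 2, 3, 3, 4, 5, 5, 1]

/-- PIECE KD (250 lines, Mathlib only): a net with an edge longer than a half circle.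
`p0 = (1,1,1,0)/√3`, `p1 = (1,-1,-1,0)/√3`, `p2 = (1,-1,1,0)/√3`, `p3 = (1,1,-1,0)/√3`,
`p4 = (0,1,1,0)/√2`, `p5 = -p4`. The edges 02, 03, 12, 13: `⟪p_i,p_j⟫ = 1/3`, `ℓ = arccos(1/3)`,
`v = (3 p_tgt - p_src)/√8`. The long edge 23 (index 4): `v = (-2,-1,1,0)/√6`,
`ℓ = 2π - arccos(-1/3)`, so that `cos ℓ = -1/3`, `sin ℓ = -√8/3`; its points are
`(cos ψ, -sin ψ/√2, sin ψ/√2, 0)` for `ψ` from `ψ0` to `2π - ψ0`, `cos ψ0 = 1/√3`, `sin ψ0 = √2/√3`.
The edge 04 (index 5): `v = (-2,1,1,0)/√6`, points `(cos φ, sin φ/√2, sin φ/√2, 0)`, `φ` from `ψ0` to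
`π/2`, `ℓ = π/2 - ψ0 = arcsin(1/√3)`; the edge 51 (index 8): `v = (1,0,0,0)`, the same `ℓ`, points
`(sin t, -cos t/√2, -cos t/√2, 0)`. The double edge 45: `v = (-1/2, 0, 0, ±√3/2)`, `ℓ = π`, points
`cos t p4 + sin t v`, whose fourth coordinate is `±(√3/2) sin t`, not zero inside. Balanced at 0:
`(-2,1,1)/√6 + (1,-2,1)/√6 + (1,1,-2)/√6 = 0`, in the same way at 1, 2, 3 (check the signs of the
velocities at the ends), at 4: `(-1,0,0,0) = v6 + v7`, at 5: `(1,0,0,0) = (-v6) + (-v7)`.
`embedded`: inner points of the double edge have fourth coordinate of the sign of the edge, all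
other points zero; the edges 04 and 51 lie in the plane `y = z`, the long edge in the plane
`y = -z`, common points only on the first axis, which only the long edge meets, at `(-1,0,0,0)`;
02 has `x = z > 0`, `|y| ≤ x`, 03: `x = y > 0`, `|z| ≤ x`, 12: `x = -y > 0`, `|z| ≤ x`,
13: `x = -z > 0`, `|y| ≤ x`, interior points with strict inequality; on 04 `y = z ≥ x ≥ 0`, on 51
`y = z ≤ -x ≤ 0`, on the long edge `x < |y| = |z|` inside (if `x ≥ 0`) or `x < 0`. -/
def S_KD : Prop := Carries kdsrc kdtgt

end Pool.Agent.H57N
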